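import Pool.Agent.Lib.KP.Defs

/-! Project kp71: elementary facts on cocycles, sections, weights and developing maps. -/

open scoped Classical Topology ContDiff ComplexOrder Matrix ENNReal
open Set MeasureTheory Complex Metric Filter

noncomputable section

namespace Pool.Agent.Lib.HS32

open Pool.Agent.Lib.SV (E nsq)

namespace Mf

variable {n : ℕ} {M : Mf n} {L : M.Co} {φ : M.Fam ℝ} {s s' : M.Fam ℂ}

theorem Co.self (L : M.Co) {e : M.Ch} (he : e ∈ M.C) {x : M.X} (hx : x ∈ e.source) :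
    L.c e e x = 1 := by
  have h := L.mul e he e he x hx hx e he hx
  exact mul_left_cancel₀ (L.ne e he e he x hx hx) (by rw [← h, mul_one])

theorem Co.inv (L : M.Co) : M.Ov fun e e' x => L.c e e' x * L.c e' e x = 1 :=
  fun e he e' he' x hx hx' => (L.mul e he e' he' x hx hx' e he hx).symm.trans (L.self he hx)

theorem Co.sm (L : M.Co) : M.Ov fun e e' x =>
    ContDiffAt ℝ ∞ (fun w => L.c e e' (e'.symm w)) (e' x) :=
  fun e he e' he' x hx hx' => ((mHOL n _ _).2.2 (L.hol e he e' he' x hx hx')).1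

/-! ### Sections -/

theorem SecC.add (h : M.SecC L s) (h' : M.SecC L s') : M.SecC L (s + s') :=
  (HS21.secC M L).add_mem h h'

theorem SecC.sub (h : M.SecC L s) (h' : M.SecC L s') : M.SecC L (s - s') :=
  (HS21.secC M L).sub_mem h h'

theorem SecC.neg (h : M.SecC L s) : M.SecC L (-s) := (HS21.secC M L).neg_mem h

theorem secC_zero : M.SecC L 0 := (HS21.secC M L).zero_mem

theorem SecC.fsmul {u : M.X → ℂ} (hu : M.Sm u) (h : M.SecC L s) :
    M.SecC L fun e z => u (e.symm z) * s e z :=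
  ⟨fun e he z hz => (hu e he z hz).mul (h.sm e he z hz), fun e he e' he' x hx hx' => by
    simp only [e.left_inv hx, e'.left_inv hx', h.cmp e he e' he' x hx hx', mul_assoc]⟩

theorem SecC.smul (c : ℂ) (h : M.SecC L s) : M.SecC L (c • s) := h.fsmul (sm_const c)

theorem SecC.congr (h : M.SecC L s) (e : M.All fun e z => s' e z = s e z) : M.SecC L s' :=
  ⟨fun a ha z hz => (h.sm a ha z hz).congr_of_eventuallyEq (e.ev ha hz),
    fun a ha b hb x hx hx' => by
      beta_reduce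
      rw [e.at ha hx, e.at hb hx', h.cmp a ha b hb x hx hx']⟩

/-- The section read in the chart `e'` near a point of the chart `e`. -/
theorem SecC.ev (h : M.SecC L s) : M.Ov fun e e' x => s e' =ᶠ[𝓝 (e' x)]
    fun w => s e (e (e'.symm w)) * L.c e e' (e'.symm w) := fun e he e' he' x hx hx' => by
  filter_upwards [((mTR n M).2.1 e he e' he' x hx hx').2.2.2.1] with w hw
  have := h.cmp e he e' he' _ hw.2.1 hw.2.2.1
  beta_reduce at this
  rwa [hw.2.2.2.2.2.1] at this

theorem SecC.ne_iff (h : M.SecC L s) {e : M.Ch} (he : e ∈ M.C) {x : M.X} (hx : x ∈ e.source) :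
    M.ev s x ≠ 0 ↔ s e (e x) ≠ 0 := by
  have := h.cmp e he _ (ch_mem x) x hx (mem_ch x)
  beta_reduce at this
  rw [Mf.ev, this, mul_ne_zero_iff_right (L.ne e he _ (ch_mem x) x hx (mem_ch x))]

theorem HSecC.holN (h : M.HSecC L s) : M.All fun e z => HolN (s e) z :=
  fun _ he _ hz => h.hol.ev he hz

theorem HSecC.pow {q : ℕ} (h : M.HSecC (L.pw q) s) (k : ℕ) :
    M.HSecC (L.pw (q * k)) fun e z => s e z ^ k :=
  ⟨⟨fun e he z hz => (h.sm e he z hz).pow k, fun e he e' he' x hx hx' => by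
    have := h.cmp e he e' he' x hx hx'
    simp only [Co.pw] at this ⊢
    rw [this, mul_pow, pow_mul]⟩, fun e he z hz => (h.hol e he z hz).pow k⟩

/-- A smooth section that is holomorphic in some chart at each point. -/
theorem SecC.hol_of (h : M.SecC L s) {e e' : M.Ch} (he : e ∈ M.C) (he' : e' ∈ M.C) {x : M.X}
    (hx : x ∈ e.source) (hx' : x ∈ e'.source) (hd : DifferentiableAt ℂ (s e) (e x)) :
    DifferentiableAt ℂ (s e') (e' x) := by
  have t := ((mTR n M).2.1 e he e' he' x hx hx').1.self_of_nhds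
  have p : (e ∘ e'.symm) (e' x) = e x := by simp only [Function.comp_apply, e'.left_inv hx']
  exact (((p ▸ hd).comp _ t).mul
    (L.hol e he e' he' x hx hx').self_of_nhds).congr_of_eventuallyEq (h.ev e he e' he' x hx hx')

/-! ### Weights -/

theorem WtC.ev (h : M.WtC L φ) : M.Ov fun e e' x => φ e' =ᶠ[𝓝 (e' x)]
    fun w => φ e (e (e'.symm w)) + Real.log (normSq (L.c e e' (e'.symm w))) :=
  fun e he e' he' x hx hx' => by
    filter_upwards [((mTR n M).2.1 e he e' he' x hx hx').2.2.2.1] with w hw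
    have := h.cmp e he e' he' _ hw.2.1 hw.2.2.1
    beta_reduce at this
    rwa [hw.2.2.2.2.2.1] at this

theorem WtC.smC (h : M.WtC L φ) : M.All fun e z => ContDiffAt ℝ ∞ (fun w => (φ e w : ℂ)) z :=
  fun e he z hz => cd_ofReal (h.sm e he z hz)

theorem WtC.clo (h : M.WtC L φ) : M.Clo (M.hw φ) := by
  refine ⟨⟨⟨fun e he z hz => smM_hess (h.smC e he z hz), fun e he e' he' x hx hx' => ?_⟩,
    fun e he z hz => hess_herm (h.sm e he z hz)⟩, fun e he z hz => clM_hess (h.smC e he z hz)⟩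
  obtain ⟨h1, -⟩ := (mTR n M).2.1 e he e' he' x hx hx'
  obtain ⟨c1, -, -, -, -, -, -, -, -, -, -, c12⟩ := mCHN n _ _ h1
  obtain ⟨l1, l2, -⟩ := ((mHOL n _ _).2.2 (L.hol e he e' he' x hx hx')).2.2.2 (by
    simpa only [e'.left_inv hx'] using L.ne e he e' he' x hx hx')
  have p : (e ∘ e'.symm) (e' x) = e x := by simp only [Function.comp_apply, e'.left_inv hx']
  have s : ContDiffAt ℝ ∞ (fun z => (φ e z : ℂ)) ((e ∘ e'.symm) (e' x)) := by
    rw [p]; exact h.smC e he _ (e.map_source hx)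
  have ev : (fun z => (φ e' z : ℂ)) =ᶠ[𝓝 (e' x)] fun w =>
      ((fun z => (φ e z : ℂ)) ∘ (e ∘ e'.symm)) w +
        (Real.log (normSq (L.c e e' (e'.symm w))) : ℝ) := by
    filter_upwards [h.ev e he e' he' x hx hx'] with w hw
    rw [hw, ofReal_add]
    rfl
  change hess (fun z => (φ e' z : ℂ)) (e' x) = _
  rw [hess_congr ev, hess_add (s.comp _ c1) (cd_ofReal l1), l2, add_zero, c12 _ s, p]
  rfl

theorem hw_add {ψ : M.Fam ℝ} {e : M.Ch} {z : E n} (h : ContDiffAt ℝ ∞ (φ e) z)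
    (h' : ContDiffAt ℝ ∞ (ψ e) z) : M.hw (φ + ψ) e z = M.hw φ e z + M.hw ψ e z := by
  have := hess_add (cd_ofReal h) (cd_ofReal h')
  simpa only [Mf.hw, Pi.add_apply, ofReal_add] using this

theorem hw_smul (c : ℝ) {e : M.Ch} {z : E n} (h : ContDiffAt ℝ ∞ (φ e) z) :
    M.hw (c • φ) e z = c • M.hw φ e z := by
  have := hess_const_mul (c : ℂ) (cd_ofReal h)
  simp only [Mf.hw, Pi.smul_apply, smul_eq_mul, ofReal_mul]
  exact this

/-- A weight plus a function. -/
theorem WtC.addF (h : M.WtC L φ) {w : M.X → ℝ} (hw : M.Sm w) :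
    M.WtC L (φ + fun e z => w (e.symm z)) ∧ M.All fun e z =>
      M.hw (φ + fun e z => w (e.symm z)) e z = M.hw φ e z + M.hs w e z :=
  ⟨⟨fun e he z hz => (h.sm e he z hz).add (hw e he z hz), fun e he e' he' x hx hx' => by
    have := h.cmp e he e' he' x hx hx'
    simp only [Pi.add_apply, e.left_inv hx, e'.left_inv hx'] at this ⊢
    rw [this]; ring⟩, fun e he z hz => hw_add (h.sm e he z hz) (hw e he z hz)⟩

/-- The weight of a power. -/
theorem WtC.pw (h : M.WtC L φ) (q : ℕ) : M.WtC (L.pw q) ((q : ℝ) • φ) ∧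
    M.All fun e z => M.hw ((q : ℝ) • φ) e z = (q : ℝ) • M.hw φ e z :=
  ⟨⟨fun e he z hz => (h.sm e he z hz).const_smul (q : ℝ), fun e he e' he' x hx hx' => by
    have := h.cmp e he e' he' x hx hx'
    simp only [Pi.smul_apply, smul_eq_mul, Co.pw, map_pow, Real.log_pow] at this ⊢
    rw [this]; ring⟩, fun e he z hz => hw_smul _ (h.sm e he z hz)⟩

/-- The weight of `m K + L`. -/
theorem WtC.tw (h : M.WtC L φ) {H : M.Fam (Mat n)} (hH : M.Met H) (m : ℕ) :
    M.WtC (L.tw m) ((m : ℝ) • (fun e z => Real.log (H e z).det.re) + φ) ∧ M.All fun e z =>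
      M.hw ((m : ℝ) • (fun e z => Real.log (H e z).det.re) + φ) e z =
        M.hw φ e z - (m : ℝ) • M.ric H e z := by
  have w := (mINV n M H hH).2.2.2.2.2.2.1
  refine ⟨⟨fun e he z hz => ((w.sm e he z hz).const_smul (m : ℝ)).add (h.sm e he z hz),
    fun e he e' he' x hx hx' => ?_⟩, fun e he z hz => ?_⟩
  · have a := h.cmp e he e' he' x hx hx'
    have b := w.cmp e he e' he' x hx hx'
    have c := normSq_pos.2 ((mTR n M).2.1 e he e' he' x hx hx').2.1
    have d := normSq_pos.2 (L.ne e he e' he' x hx hx')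
    simp only [Pi.smul_apply, Pi.add_apply, smul_eq_mul, Co.tw, map_mul, map_pow] at a b ⊢
    rw [a, b, Real.log_mul (pow_pos c m).ne' d.ne', Real.log_pow]
    ring
  · beta_reduce
    rw [hw_add (φ := (m : ℝ) • fun e z => Real.log (H e z).det.re)
      ((w.sm e he z hz).const_smul (m : ℝ)) (h.sm e he z hz), hw_smul _ (w.sm e he z hz),
      add_comm, sub_eq_add_neg, ← smul_neg, Mf.ric, neg_neg]
    rfl

/-- The difference of two weights is a function. -/
theorem WtC.subW {ψ : M.Fam ℝ} (h : M.WtC L φ) (h' : M.WtC L ψ) :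
    M.Sm (M.ev (φ - ψ)) ∧ M.Rep (M.ev (φ - ψ)) (φ - ψ) := by
  have i : M.Inv (φ - ψ) := fun e he e' he' x hx hx' => by
    have a := h.cmp e he e' he' x hx hx'
    have b := h'.cmp e he e' he' x hx hx'
    simp only [Pi.sub_apply] at a b ⊢
    rw [a, b]; ring
  exact ⟨i.sm fun e he z hz => (h.sm e he z hz).sub (h'.sm e he z hz), i.rep⟩

theorem WtC.inv (h : M.WtC L φ) (hs : M.SecC L s) (hs' : M.SecC L s') :
    M.Inv fun e z => s e z * star (s' e z) * (Real.exp (-φ e z) : ℝ) := by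
  intro e he e' he' x hx hx'
  have h2 := L.ne e he e' he' x hx hx'
  have a := h.cmp e he e' he' x hx hx'
  have b := hs.cmp e he e' he' x hx hx'
  have c := hs'.cmp e he e' he' x hx hx'
  beta_reduce at a b c h2 ⊢
  rw [a, b, c]
  generalize L.c e e' x = d at *
  have p : 0 < normSq d := normSq_pos.2 h2
  have q : ((normSq d : ℝ) : ℂ) ≠ 0 := by exact_mod_cast p.ne'
  rw [neg_add, Real.exp_add, Real.exp_neg (Real.log _), Real.exp_log p, star_mul]
  have r : d * star d = ((normSq d : ℝ) : ℂ) := by rw [← Complex.mul_conj]; rfl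
  push_cast
  field_simp
  rw [← r]
  ring

theorem WtC.nr_rep (h : M.WtC L φ) (hs : M.SecC L s) :
    M.Rep (M.nrC φ s) fun e z => normSq (s e z) * Real.exp (-φ e z) := by
  have i : M.Inv fun e z => normSq (s e z) * Real.exp (-φ e z) := fun e he e' he' x hx hx' => by
    have := h.inv hs hs e he e' he' x hx hx'
    simp only [star_def, mul_conj] at this
    exact_mod_cast this
  exact i.rep

theorem cd_normSq {f : E n → ℂ} {z : E n} (h : ContDiffAt ℝ ∞ f z) :
    ContDiffAt ℝ ∞ (fun w => normSq (f w)) z := by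
  have := cd_re (h.mul (cd_star h))
  simpa only [star_def, mul_conj, ofReal_re] using this

theorem WtC.nr_sm (h : M.WtC L φ) (hs : M.SecC L s) : M.Sm (M.nrC φ s) :=
  (h.nr_rep hs).sm fun e he z hz => (cd_normSq (hs.sm e he z hz)).mul (h.sm e he z hz).neg.exp

theorem nrC_nonneg (φ : M.Fam ℝ) (s : M.Fam ℂ) (x : M.X) : 0 ≤ M.nrC φ s x :=
  mul_nonneg (normSq_nonneg _) (Real.exp_pos _).le

theorem nrC_ne {x : M.X} : M.nrC φ s x ≠ 0 ↔ M.ev s x ≠ 0 := by
  rw [nrC, mul_ne_zero_iff_right (Real.exp_pos _).ne', ne_eq, normSq_eq_zero]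

/-- From one point to all points. -/
theorem WtC.semi [M.Cpt] (h : M.WtC L φ)
    (h1 : ∀ x, ∃ q, 0 < q ∧ ∃ s, M.HSecC (L.pw q) s ∧ M.ev s x ≠ 0) : M.SemiC L := by
  choose m hm s hs h0 using h1
  obtain ⟨t, -, ht⟩ := isCompact_univ.elim_nhds_subcover
    (fun x => {y | M.nrC ((m x : ℝ) • φ) (s x) y ≠ 0}) fun x _ =>
      (isOpen_ne_fun ((h.pw _).1.nr_sm (hs x).toSecC).continuous continuous_const).mem_nhds
        (nrC_ne.2 (h0 x))
  refine ⟨∏ x ∈ t, m x, Finset.prod_pos fun x _ => hm x, fun y => ?_⟩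
  obtain ⟨x, hx, hy⟩ := mem_iUnion₂.1 (ht (mem_univ y))
  obtain ⟨k, hk⟩ := Finset.dvd_prod_of_mem m hx
  exact ⟨fun e z => s x e z ^ k, hk ▸ (hs x).pow k, pow_ne_zero k (nrC_ne.1 hy)⟩

/-! ### Charts -/

/-- Restriction of a chart to an open set of coordinates. -/
theorem exists_restr {e : M.Ch} (he : e ∈ M.C) {U : Set (E n)} (hU : IsOpen U) :
    ∃ e' ∈ M.C, e'.target = e.target ∩ U ∧ e'.source = e.source ∩ e ⁻¹' U ∧
      (∀ x, e' x = e x) ∧ ∀ w, e'.symm w = e.symm w :=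
  ⟨e.trans (OpenPartialHomeomorph.ofSet U hU), M.sat e he _ differentiableOn_id differentiableOn_id,
    by rw [OpenPartialHomeomorph.trans_target]; exact inter_comm _ _, rfl, fun _ => rfl,
    fun _ => rfl⟩

variable {Ψ : E n → M.X} {e e' : M.Ch} {z : E n}

theorem IvC.mem (h : M.IvC Ψ e) (hz : z ∈ e.target) : Ψ z ∈ e.source ∧ e (Ψ z) = z := by
  rw [h.2 z hz]; exact ⟨e.map_target hz, e.right_inv hz⟩

theorem IvC.ev (h : M.IvC Ψ e) (hz : z ∈ e.target) : Ψ =ᶠ[𝓝 z] e.symm :=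
  (e.open_target.eventually_mem hz).mono h.2

theorem IvC.cont (h : M.IvC Ψ e) (hz : z ∈ e.target) : ContinuousAt Ψ z :=
  (e.continuousAt_symm hz).congr (h.ev hz).symm

theorem IvC.map_nhds (h : M.IvC Ψ e) (hz : z ∈ e.target) : map Ψ (𝓝 z) = 𝓝 (Ψ z) := by
  rw [map_congr (h.ev hz), e.symm.map_nhds_eq hz, h.2 z hz]

/-- If the change of chart is locally a translation, its Jacobian matrix is the identity. -/
theorem J_one_of_ev {x : M.X} {τ : E n} (h : e ∘ e'.symm =ᶠ[𝓝 (e' x)] fun w => w + τ) :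
    M.J e e' x = 1 := by
  ext i j
  rw [J, jm, Matrix.of_apply, h.fderiv_eq, fderiv_add_const, fderiv_fun_id]
  simp [Matrix.one_apply, Pi.single_apply]

/-- Two local inverses at points that differ by a period. -/
theorem IvC.J_one (h : M.IvC Ψ e) (h' : M.IvC Ψ e') {τ : E n} (hτ : ∀ w, Ψ (w + τ) = Ψ w)
    (hz : z + τ ∈ e.target) (hz' : z ∈ e'.target) : M.J e e' (Ψ z) = 1 := by
  refine J_one_of_ev (τ := τ) ?_
  rw [(h'.mem hz').2]
  have c : ∀ᶠ w in 𝓝 z, w + τ ∈ e.target :=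
    (continuous_add_const τ).continuousAt.eventually (e.open_target.eventually_mem hz)
  filter_upwards [c, h'.ev hz'] with w h1 h2
  rw [Function.comp_apply, ← h2, ← hτ, (h.mem h1).2]

theorem End.eq_of_J {P : M.Fam (Mat n)} (hP : M.End P) (he : e ∈ M.C) (he' : e' ∈ M.C) {x : M.X}
    (hx : x ∈ e.source) (hx' : x ∈ e'.source) (hJ : M.J e e' x = 1) :
    P e' (e' x) = P e (e x) := by
  have := hP.cmp e he e' he' x hx hx'
  beta_reduce at this
  rwa [hJ, one_mul, mul_one] at this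

theorem Ten.eq_of_J {T : M.Fam (Mat n)} (hT : M.Ten T) (he : e ∈ M.C) (he' : e' ∈ M.C) {x : M.X}
    (hx : x ∈ e.source) (hx' : x ∈ e'.source) (hJ : M.J e e' x = 1) :
    T e' (e' x) = T e (e x) := by
  have := hT.cmp e he e' he' x hx hx'
  beta_reduce at this
  rwa [hJ, Matrix.conjTranspose_one, one_mul, mul_one] at this

/-- The periods form a group. -/
def perG (p : Mat n) (Ψ : E n → M.X) : AddSubgroup (E n) where
  carrier := {τ | PerC p Ψ τ}
  add_mem' := fun {a b} ha hb => ⟨by rw [Matrix.mulVec_add, ha.1, hb.1],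
    fun z => by rw [← add_assoc, hb.2, ha.2]⟩
  zero_mem' := ⟨Matrix.mulVec_zero p, fun z => by rw [add_zero]⟩
  neg_mem' := fun {a} ha => ⟨by rw [Matrix.mulVec_neg, ha.1],
    fun z => by rw [← ha.2, neg_add_cancel_right]⟩

theorem PerC.off {p : Mat n} {τ : E n} (h : PerC p Ψ τ) (z : E n) :
    z + τ - p *ᵥ (z + τ) = z - p *ᵥ z := by
  rw [Matrix.mulVec_add, h.1, add_sub_add_right_eq_sub]

/-- Translation of a local inverse by a period. -/
theorem IvC.shift (h : M.IvC Ψ e) {τ : E n} (hτ : ∀ w, Ψ (w + τ) = Ψ w) :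
    ∃ e', M.IvC Ψ e' ∧ e'.source = e.source ∧ (∀ w, w ∈ e'.target ↔ w + τ ∈ e.target) ∧
      (∀ x, e' x = e x - τ) ∧ ∀ w, e'.symm w = e.symm (w + τ) := by
  refine ⟨e.trans (Homeomorph.subRight τ).toOpenPartialHomeomorph, ⟨M.sat e h.1 _
    (differentiableOn_id.sub_const τ) (differentiableOn_id.add_const τ), fun w hw => ?_⟩,
    by simp, fun w => ⟨fun hw => hw.2, fun hw => ⟨trivial, hw⟩⟩, fun _ => rfl, fun _ => rfl⟩
  rw [← hτ]
  exact h.2 _ hw.2

theorem IvC.restr (h : M.IvC Ψ e) {U : Set (E n)} (hU : IsOpen U) :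
    ∃ e', M.IvC Ψ e' ∧ e'.target = e.target ∩ U ∧ e'.source = e.source ∩ e ⁻¹' U ∧
      (∀ x, e' x = e x) ∧ ∀ w, e'.symm w = e.symm w := by
  obtain ⟨e', a, b, c, d, f⟩ := exists_restr h.1 hU
  exact ⟨e', ⟨a, fun w hw => (h.2 w (b ▸ hw).1).trans (f w).symm⟩, b, c, d, f⟩

theorem IvC.inj (h : M.IvC Ψ e) : InjOn Ψ e.target := fun a ha b hb hab => by
  rw [← (h.mem ha).2, hab, (h.mem hb).2]

/-- A product chart stays a product chart after restriction. -/
theorem Prod.restr {H P : M.Fam (Mat n)} {k : ℕ} (hH : M.Ten H) (hP : M.End P)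
    (h : M.Prod H P k e) (he' : e' ∈ M.C) (ht : e'.target ⊆ e.target)
    (hs : ∀ w ∈ e'.target, e'.symm w = e.symm w) : M.Prod H P k e' := by
  have a : ∀ w ∈ e'.target, e'.symm w ∈ e.source ∧ e (e'.symm w) = w := fun w hw => by
    rw [hs w hw]; exact ⟨e.map_target (ht hw), e.right_inv (ht hw)⟩
  have J : ∀ w ∈ e'.target, M.J e e' (e'.symm w) = 1 := fun w hw => J_one_of_ev (τ := 0) (by
    rw [e'.right_inv hw]
    exact (e'.open_target.eventually_mem hw).mono fun y hy => (a y hy).2.trans (add_zero y).symm)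
  have b : ∀ w ∈ e'.target, H e' w = H e w := fun w hw => by
    have := hH.eq_of_J h.mem he' (a w hw).1 (e'.map_target hw) (J w hw)
    rwa [e'.right_inv hw, (a w hw).2] at this
  refine ⟨he', fun w hw => ?_, fun w hw => (b w hw).symm ▸ h.blk w (ht hw), fun w hw i hi => ?_⟩
  · have := hP.eq_of_J h.mem he' (a w hw).1 (e'.map_target hw) (J w hw)
    rw [e'.right_inv hw, (a w hw).2] at this
    exact this.trans (h.prj w (ht hw))
  · exact (dM_congr ((e'.open_target.eventually_mem hw).mono b)).trans (h.cst w (ht hw) i hi)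

variable {p : Mat n} {r : ℝ} {Q : M.Ch → Prop}

theorem cont_mulVec (p : Mat n) : Continuous fun z : E n => p *ᵥ z :=
  continuous_const.matrix_mulVec continuous_id

theorem DvC.cont (h : M.DvC p Ψ r Q) (hz : ‖z - p *ᵥ z‖ ≤ 3 * r) : ContinuousAt Ψ z :=
  let ⟨_, a, b, _⟩ := h.loc z hz
  a.cont b

/-- Reduction modulo the periods. -/
theorem DvC.red (h : M.DvC p Ψ r Q) : ∃ R : ℝ, ∀ z, ∃ τ, PerC p Ψ τ ∧ ‖p *ᵥ (z + τ)‖ ≤ R := by
  obtain ⟨R, hR⟩ := h.lat
  refine ⟨R, fun z => ?_⟩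
  obtain ⟨τ, a, b⟩ := hR z
  refine ⟨-τ, (perG p Ψ).neg_mem a, ?_⟩
  rwa [Matrix.mulVec_add, Matrix.mulVec_neg, a.1, ← sub_eq_add_neg]

theorem isCompact_tube (p : Mat n) (a b R : ℝ) :
    IsCompact {z : E n | a ≤ ‖z - p *ᵥ z‖ ∧ ‖z - p *ᵥ z‖ ≤ b ∧ ‖p *ᵥ z‖ ≤ R} := by
  have c := (continuous_id.sub (cont_mulVec p)).norm
  refine (isCompact_closedBall 0 (b + R)).of_isClosed_subset ((isClosed_le continuous_const c).inter
    ((isClosed_le c continuous_const).inter (isClosed_le (cont_mulVec p).norm continuous_const)))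
    fun z hz => mem_closedBall_zero_iff.2 ?_
  exact (norm_le_norm_sub_add z _).trans (add_le_add hz.2.1 hz.2.2)

theorem Deg.congr {H P T S : M.Fam (Mat n)} (h : M.Deg H P T)
    (e : M.All fun e z => S e z = T e z) : M.Deg H P S :=
  ⟨h.met, h.en, h.idem, h.herm, h.form.congr e,
    fun a ha z hz => by beta_reduce; rw [e a ha z hz]; exact h.kill a ha z hz,
    fun a ha z hz => by beta_reduce; rw [e a ha z hz]; exact h.pos a ha z hz⟩

end Mf

end Pool.Agent.Lib.HS32

namespace Pool.Agent.Lib.KP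

/-- The power sums of non-zero numbers do not vanish eventually. -/
theorem exists_pow_sum {ι : Type} (F : Finset ι) (c : ι → ℂ) (h : ∃ a ∈ F, c a ≠ 0) (q₀ : ℕ) :
    ∃ q, q₀ ≤ q ∧ ∑ a ∈ F, c a ^ q ≠ 0 := by
  by_contra hn
  push Not at hn
  obtain ⟨a, ha, h0⟩ := h
  have key : ∀ P : Polynomial ℂ, ∑ b ∈ F, c b ^ (q₀ + 1) * P.eval (c b) = 0 := fun P => by
    induction P using Polynomial.induction_on' with
    | add p q hp hq => simp only [Polynomial.eval_add, mul_add, Finset.sum_add_distrib, hp, hq,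
        add_zero]
    | monomial i d =>
      have := congrArg (d * ·) (hn (q₀ + 1 + i) (by omega))
      simp only [Finset.mul_sum, mul_zero] at this
      rw [← this]
      exact Finset.sum_congr rfl fun b _ => by rw [Polynomial.eval_monomial]; ring
  obtain ⟨S, hS⟩ : ∃ S : Finset ι, ∀ b, b ∈ S ↔ b ∈ F ∧ c b ≠ c a :=
    ⟨_, fun _ => Finset.mem_filter⟩
  have k := key (∏ b ∈ S, (Polynomial.X - Polynomial.C (c b)))
  simp only [Polynomial.eval_prod, Polynomial.eval_sub, Polynomial.eval_X, Polynomial.eval_C] at k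
  have d0 : c a ^ (q₀ + 1) * ∏ b ∈ S, (c a - c b) ≠ 0 := mul_ne_zero (pow_ne_zero _ h0)
    (Finset.prod_ne_zero_iff.2 fun b hb => sub_ne_zero.2 ((hS b).1 hb).2.symm)
  have e : ∀ b ∈ F, c b ^ (q₀ + 1) * ∏ b' ∈ S, (c b - c b') =
      if c b = c a then c a ^ (q₀ + 1) * ∏ b ∈ S, (c a - c b) else 0 := fun b hb => by
    split_ifs with h
    · rw [h]
    · exact mul_eq_zero_of_right _ (Finset.prod_eq_zero ((hS b).2 ⟨hb, h⟩) (sub_self _))
  rw [Finset.sum_congr rfl e, ← Finset.sum_filter, Finset.sum_const, nsmul_eq_mul] at k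
  refine mul_ne_zero (Nat.cast_ne_zero.2 (Finset.card_ne_zero.2 ⟨a, ?_⟩)) d0 k
  exact Finset.mem_filter.2 ⟨ha, rfl⟩

end Pool.Agent.Lib.KP
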