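import Pool.Agent.Lib.KP.Blue
import Pool.Agent.Lib.KP.Kit

/-! Project kp71, row KLI: the klt condition on the manifold. -/

open scoped Classical Topology ContDiff ComplexOrder Matrix ENNReal
open Set MeasureTheory Complex Metric Filter

noncomputable section

namespace Pool.Agent.Lib.KP

open Pool.Agent.Lib.SV (E nsq)
open Pool.Agent.Lib.HS32

namespace T13

theorem pw (w : ℂ) (p c : ℝ) : ENNReal.ofReal (normSq w * Real.exp (-p)) ^ (-c) =
    ENNReal.ofReal (Real.exp (c * p)) * ‖w‖ₑ ^ (-2 * c) := by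
  have h1 : ENNReal.ofReal (normSq w) = ‖w‖ₑ ^ (2 : ℝ) := by
    rw [← ofReal_norm, ENNReal.ofReal_rpow_of_nonneg (norm_nonneg _) (by norm_num),
      Complex.normSq_eq_norm_sq, Real.rpow_two]
  rw [ENNReal.ofReal_mul (normSq_nonneg _),
    ENNReal.mul_rpow_of_ne_top ENNReal.ofReal_ne_top ENNReal.ofReal_ne_top,
    ENNReal.ofReal_rpow_of_pos (Real.exp_pos _), ← Real.exp_mul, h1, ← ENNReal.rpow_mul, mul_comm,
    show -p * -c = c * p by ring, show 2 * -c = -2 * c by ring]

variable {n : ℕ} {M : Mf n} [M.Cpt] {H : M.Fam (Mat n)} {L : M.Co} {f : M.Fam ℂ} {φ : M.Fam ℝ}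
  {c : ℝ}

theorem loc (hH : M.Met H) (hf : M.SecC L f) (hφ : M.WtC L φ) (hl : M.Lct f c) (x : M.X) :
    ∃ U ∈ 𝓝 x, ∫⁻ y in U, ENNReal.ofReal (M.nrC φ f y) ^ (-c) ∂M.mu H < ⊤ := by
  obtain ⟨e, he, hx, W, hW, hI⟩ := hl x
  have hz := e.map_source hx
  have c1 : ContinuousAt (fun z => H e z) (e x) :=
    continuousAt_pi.2 fun i => continuousAt_pi.2 fun j => (hH.sm e he _ hz i j).continuousAt
  have c2 : ContinuousAt (fun z => (H e z).det.re) (e x) :=
    (continuous_re.comp (continuous_id.matrix_det)).continuousAt.comp c1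
  have c3 : ContinuousAt (fun z => (H e z).det.re * Real.exp (c * φ e z)) (e x) :=
    c2.mul (continuousAt_const.mul (hφ.sm e he _ hz).continuousAt).rexp
  have c4 := c3.eventually (gt_mem_nhds (lt_add_one _))
  obtain ⟨B, hB, hBo, hxB⟩ :=
    _root_.mem_nhds_iff.1 (inter_mem (inter_mem hW (e.open_target.mem_nhds hz)) c4)
  have hBt : B ⊆ e.target := fun z hz => (hB hz).1.2
  refine ⟨e.symm '' B, ?_, ?_⟩
  · have := e.symm.image_mem_nhds hz (hBo.mem_nhds hxB)
    rwa [e.left_inv hx] at this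
  · rw [((mMU n M H hH).2.2.2.2.2.1 e he B hBo.measurableSet hBt).2.1]
    refine lt_of_le_of_lt (setLIntegral_mono' (g := fun z =>
      ENNReal.ofReal ((H e (e x)).det.re * Real.exp (c * φ e (e x)) + 1) * ‖f e z‖ₑ ^ (-2 * c))
      hBo.measurableSet fun z hz => ?_) ?_
    · have h1 := hφ.nr_rep hf e he z (hBt hz)
      beta_reduce at h1
      rw [h1, pw, ← mul_assoc, ← ENNReal.ofReal_mul' (Real.exp_pos _).le]
      exact mul_le_mul_left (ENNReal.ofReal_le_ofReal (le_of_lt (hB hz).2)) _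
    · rw [lintegral_const_mul' _ _ ENNReal.ofReal_ne_top]
      exact ENNReal.mul_lt_top ENNReal.ofReal_lt_top
        (lt_of_le_of_lt (lintegral_mono_set fun z hz => (hB hz).1.1) hI)

theorem glob (hH : M.Met H) (hf : M.SecC L f) (hφ : M.WtC L φ) (hl : M.Lct f c) :
    ∫⁻ y, ENNReal.ofReal (M.nrC φ f y) ^ (-c) ∂M.mu H < ⊤ := by
  choose U hU hI using loc hH hf hφ hl
  obtain ⟨t, -, ht⟩ := isCompact_univ.elim_nhds_subcover U fun x _ => hU x
  rw [← setLIntegral_univ]
  refine lt_of_le_of_lt (lintegral_mono_set ht) ?_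
  clear ht
  induction t using Finset.induction_on with
  | empty => simp
  | insert a s ha ih =>
    rw [Finset.set_biUnion_insert]
    exact lt_of_le_of_lt (lintegral_union_le _ _ _) (ENNReal.add_lt_top.2 ⟨hI a, ih⟩)

end T13

theorem st_KLI : St_KLI := by
  intro n M _ H L f φ c hH hf hφ hc hl
  have hg := T13.glob hH hf.toSecC hφ hl
  have hN : Continuous (M.nrC φ f) := (hφ.nr_sm hf.toSecC).continuous
  have := (mMU n M H hH).2.2.1
  refine ⟨?_, (∫⁻ y, ENNReal.ofReal (M.nrC φ f y) ^ (-c) ∂M.mu H).toReal, fun δ hδ => ?_⟩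
  · refine Measure.dense_of_ae (μ := M.mu H) ?_
    filter_upwards [ae_lt_top (hN.measurable.ennreal_ofReal.pow_const _) hg.ne] with x hx h0
    rw [h0, ENNReal.ofReal_zero, ENNReal.zero_rpow_of_neg (neg_lt_zero.2 hc)] at hx
    exact lt_irrefl _ hx
  · have hp : ∀ x, 0 < M.nrC φ f x + δ := fun x => add_pos_of_nonneg_of_pos (Mf.nrC_nonneg _ _ _) hδ
    rw [integral_eq_lintegral_of_nonneg_ae (Eventually.of_forall fun x => Real.rpow_nonneg (hp x).le _)
      ((hN.add continuous_const).rpow_const fun x => Or.inl (hp x).ne').aestronglyMeasurable]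
    refine ENNReal.toReal_mono hg.ne (lintegral_mono fun x => ?_)
    beta_reduce
    rw [← ENNReal.ofReal_rpow_of_pos (hp x), ENNReal.rpow_neg, ENNReal.rpow_neg]
    exact ENNReal.inv_le_inv.2
      (ENNReal.rpow_le_rpow (ENNReal.ofReal_le_ofReal (le_add_of_nonneg_right hδ.le)) hc.le)

end Pool.Agent.Lib.KP
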