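import Pool.Agent.Lib.KP.Blue
import Pool.Agent.Lib.KP.Kit

open scoped Classical Topology ContDiff ComplexOrder Matrix
open Set Filter

noncomputable section

namespace Pool.Agent.Lib.KP

open Pool.Agent.Lib.HS32

namespace T7

theorem d1 {δ t : ℝ} (h : 0 < t + δ) : HasDerivAt (fun s => Real.log (s + δ)) (t + δ)⁻¹ t := by
  simpa using ((hasDerivAt_id t).add_const δ).log h.ne'

theorem d2 {δ t : ℝ} (h : 0 < t + δ) :
    deriv (deriv fun s => Real.log (s + δ)) t = -((t + δ) ^ 2)⁻¹ := by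
  have h1 : (deriv fun s => Real.log (s + δ)) =ᶠ[𝓝 t] fun s => (s + δ)⁻¹ :=
    ((continuous_id.add continuous_const).continuousAt.eventually (lt_mem_nhds h)).mono
      fun s hs => (d1 hs).deriv
  rw [h1.deriv_eq]
  simpa [neg_div] using (((hasDerivAt_id t).add_const δ).fun_inv h.ne').deriv

end T7

open T7 in
theorem st_PSI1 (hN : St_NHS) : St_PSI1 := by
  intro n M _ H L f φ hH hf hφ
  obtain ⟨C, hC, -, h1⟩ := (mBD n M H hH).1 _ hφ.clo.toForm
  refine ⟨C, hC, fun δ hδ e he z hz => ?_⟩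
  have hs := hφ.nr_sm hf.toSecC
  have hp : ∀ x, 0 < M.nrC φ f x + δ := fun x =>
    add_pos_of_nonneg_of_pos (M.nrC_nonneg φ f x) hδ
  have h2 := (((mLAP n M _ _ hs hs).2.1 (fun s => Real.log (s + δ)) fun x =>
    (contDiffAt_id.add contDiffAt_const).log (hp x).ne').2 e he z hz).1
  obtain ⟨h3, h4, -⟩ := hN n M L f φ hf hφ e he z hz
  have h5 := hp (e.symm z)
  beta_reduce
  rw [h2, h3, h4, (d1 h5).deriv, d2 h5]
  have h6 := ((h1 e he z hz).smul (div_pos hδ h5).le).add
    ((Matrix.posSemidef_vecMulVec_star_self (M.cv φ f e z)).smul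
      (show 0 ≤ δ * Real.exp (-φ e z) / (M.nrC φ f (e.symm z) + δ) ^ 2 by positivity))
  convert h6 using 1
  simp only [Pi.neg_apply, Pi.smul_apply]
  match_scalars <;> field_simp <;> ring

end Pool.Agent.Lib.KP
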