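import Pool.Agent.Lib.KP.Blue
import Pool.Agent.Lib.KP.Kit

/-! Project kp71, row NHS: derivatives of the norm of a holomorphic section. -/

open scoped Classical Topology ContDiff ComplexOrder Matrix
open Set Complex Filter

noncomputable section

namespace Pool.Agent.Lib.KP

open Pool.Agent.Lib.SV (E)
open Pool.Agent.Lib.HS32

namespace T66

variable {n : ℕ} {f : E n → ℂ} {φ : E n → ℝ} {z : E n}

theorem dz_ex (hφ : DifferentiableAt ℝ φ z) (j : Fin n) :
    dz j (fun w => (Real.exp (-φ w) : ℂ)) z =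
      -(Real.exp (-φ z) : ℝ) * dz j (fun w => (φ w : ℂ)) z := by
  have h := dz_comp_real (j := j) (φ := fun t => Real.exp (-t))
    ((hasDerivAt_neg' (φ z)).exp) hφ
  rw [h]
  push_cast
  ring

theorem dzb_ex (hφ : DifferentiableAt ℝ φ z) (j : Fin n) :
    dzb j (fun w => (Real.exp (-φ w) : ℂ)) z =
      -(Real.exp (-φ z) : ℝ) * dzb j (fun w => (φ w : ℂ)) z := by
  have h := dzb_comp_real (j := j) (φ := fun t => Real.exp (-t))
    ((hasDerivAt_neg' (φ z)).exp) hφ
  rw [h]
  push_cast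
  ring

theorem diff_ex (hφ : DifferentiableAt ℝ φ z) :
    DifferentiableAt ℝ (fun w => (Real.exp (-φ w) : ℂ)) z :=
  ofRealCLM.differentiableAt.comp z hφ.neg.exp

/-- The first derivative of the norm. -/
theorem d_one (hf : DifferentiableAt ℂ f z) (hφ : DifferentiableAt ℝ φ z) (j : Fin n) :
    dz j (fun w => f w * star (f w) * (Real.exp (-φ w) : ℝ)) z =
      (Real.exp (-φ z) : ℝ) * star (f z) * (dz j f z - f z * dz j (fun w => (φ w : ℂ)) z) := by
  have r : DifferentiableAt ℝ f z := hf.restrictScalars ℝ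
  rw [dz_mul (r.fun_mul (diff_star r)) (diff_ex hφ), dz_mul r (diff_star r), dz_star r,
    ((mHOL n f z).1 r).1 hf j, dz_ex hφ, star_zero]
  ring

/-- The derivative of the covariant derivative. -/
theorem d_two (hf : HolN f z) (hφ : ContDiffAt ℝ ∞ φ z) (i j : Fin n) :
    dzb i (fun w => dz j f w - f w * dz j (fun w => (φ w : ℂ)) w) z =
      -(f z * hess (fun w => (φ w : ℂ)) z i j) := by
  obtain ⟨s, -, h0, -⟩ := (mHOL n f z).2.2 hf
  have r := cd_diff s
  have p := cd_diff (cd_dz (cd_ofReal hφ) j)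
  have h1 : dzb i (dz j f) z = 0 := congrFun (congrFun h0 i) j
  rw [dzb_sub (cd_diff (cd_dz s j)) (r.fun_mul p), dzb_mul r p, ((mHOL n f z).1 r).1 hf.self_of_nhds i,
    h1, hess_apply]
  ring

end T66

open T66

theorem st_NHS : St_NHS := by
  intro n M L f φ hf hφ e he z hz
  have hN := hφ.nr_rep hf.toSecC
  have rep : ∀ w ∈ e.target, M.lc (M.nrC φ f) e =ᶠ[𝓝 w]
      fun y => f e y * star (f e y) * (Real.exp (-φ e y) : ℝ) := fun w hw => by
    filter_upwards [hN.ev he hw] with y hy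
    rw [Function.comp_apply] at hy
    rw [Mf.lc, hy, star_def, mul_conj, ofReal_mul]
  have one : ∀ w ∈ e.target, ∀ j, dz j (M.lc (M.nrC φ f) e) w =
      (Real.exp (-φ e w) : ℝ) * star (f e w) * M.cv φ f e w j := fun w hw j =>
    (dz_congr (rep w hw)).trans (d_one (hf.hol e he w hw) (cd_diff (hφ.sm e he w hw)) j)
  have two : ∀ i j, dzb i (fun w => M.cv φ f e w j) z = -(f e z * M.hw φ e z i j) := fun i j =>
    d_two (hf.holN e he z hz) (hφ.sm e he z hz) i j
  have sf := hf.sm e he z hz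
  have r := cd_diff sf
  have sφ := hφ.sm e he z hz
  have val : ((M.nrC φ f (e.symm z) : ℝ) : ℂ) =
      f e z * star (f e z) * (Real.exp (-φ e z) : ℝ) := (rep z hz).self_of_nhds
  refine ⟨?_, ?_, one z hz, two, fun h0 => ?_⟩
  · ext i j
    have c : DifferentiableAt ℝ (fun w => M.cv φ f e w j) z :=
      cd_diff ((cd_dz sf j).sub (sf.mul (cd_dz (cd_ofReal sφ) j)))
    have ev : dz j (M.lc (M.nrC φ f) e) =ᶠ[𝓝 z]
        fun w => (Real.exp (-φ e w) : ℝ) * star (f e w) * M.cv φ f e w j :=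
      (e.open_target.eventually_mem hz).mono fun w hw => one w hw j
    have st : star (M.cv φ f e z i) =
        star (dz i (f e) z) - star (f e z) * dzb i (fun w => (φ e w : ℂ)) z := by
      rw [Mf.cv, star_sub, star_mul', star_dz_ofReal (cd_diff (cd_ofReal sφ))]
    rw [Mf.hs, hess_apply, dzb_congr ev, dzb_mul ((diff_ex (cd_diff sφ)).fun_mul (diff_star r)) c,
      dzb_mul (diff_ex (cd_diff sφ)) (diff_star r), dzb_star r, dzb_ex (cd_diff sφ), two,
      Matrix.sub_apply, Matrix.smul_apply, Matrix.smul_apply, Matrix.vecMulVec_apply,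
      Pi.star_apply, st, real_smul, real_smul, val]
    ring
  · ext i j
    have b : dzb i (M.lc (M.nrC φ f) e) z = star (dz i (M.lc (M.nrC φ f) e) z) :=
      (star_dz_ofReal (cd_diff (cd_ofReal (hφ.nr_sm hf.toSecC e he z hz)))).symm
    rw [Mf.ds, dd_apply, b, one z hz, one z hz, Matrix.smul_apply, Matrix.vecMulVec_apply,
      Pi.star_apply, real_smul, ofReal_mul, val, star_mul', star_mul', star_star, star_def,
      conj_ofReal]
    ring
  · obtain ⟨l1, l2, -⟩ := ((mHOL n _ _).2.2 (hf.holN e he z hz)).2.2.2 h0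
    have ev : (fun w => (Real.log (M.nrC φ f (e.symm w)) : ℂ)) =ᶠ[𝓝 z]
        fun w => (Real.log (normSq (f e w)) : ℝ) - (φ e w : ℂ) := by
      filter_upwards [hN.ev he hz, sf.continuousAt.eventually_ne h0] with w h1 h2
      rw [Function.comp_apply] at h1
      rw [h1, Real.log_mul (normSq_pos.2 h2).ne' (Real.exp_pos _).ne', Real.log_exp, ofReal_add,
        ofReal_neg, sub_eq_add_neg]
    rw [hess_congr ev, hess_sub (cd_ofReal l1) (cd_ofReal sφ), l2, zero_sub]
    rfl

end Pool.Agent.Lib.KP
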