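import Pool.Agent.Lib.KP.Defs

/-! Project kp71: blueprint. -/

open scoped Classical Topology ContDiff ComplexOrder Matrix ENNReal Manifold
open Set MeasureTheory Complex Metric Filter

set_option linter.unusedVariables false

noncomputable section

namespace Pool.Agent.Lib.KP

open Pool.Agent.Lib.SV (E nsq)
open Pool.Agent.Lib.HS32 Pool.Agent.Lib.HS21
open Pool.Agent.Lib.HS32.Mf (PerC)
open Pool.Agent.Lib.HS (db)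
open Pool.Agent.Lib.HS78 (Eb)
open Pool.Agent.Lib.GH (Kaehler Hermitian)
open Pool.Agent.Lib.TB (TemperedNonpos)

/-! ### Input and output -/

/-- From the statement to the manifold layer and back. -/
def St_BRG : Prop := ∀ (n : ℕ) (X ι : Type) [TopologicalSpace X] [ChartedSpace (E n) X]
  [IsManifold 𝓘(ℂ, E n) ω X] [CompactSpace X] [T2Space X] [ConnectedSpace X] (g h : X → Mat n)
  (m : ℕ) (U : ι → Set X) (f : ι → X → ℂ), Kaehler g → Hermitian h → TemperedNonpos h → 0 < m →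
  Klt n m U f → ∃ (M : Mf n) (_ : M.Cpt) (H h' : M.Fam (Mat n)) (L : M.Co) (f' : M.Fam ℂ) (c : ℝ),
    M.Kae H ∧ M.Met h' ∧ M.Trb h' ∧ M.HSecC L f' ∧ 1 / m < c ∧ M.Lct f' c ∧
    (M.SemiC (L.tw m) → ∃ r : ℕ, 0 < r ∧ ∀ i, ∀ x ∈ U i, ∃ s, PairSec n (m * r) r U f s ∧ s i x ≠ 0)

/-- The output of the project tb33. -/
def St_TAIL : Prop := ∀ (n : ℕ) (M : Mf n) [M.Cpt] (H h : M.Fam (Mat n)), 0 < n → M.Kae H →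
  M.Met h → M.Trb h → M.Yp h ∧ ∃ H' P k G, M.Kb0 H' P k G

/-! ### Part I -/

/-- Existence of a weight. -/
def St_WT : Prop := ∀ (n : ℕ) (M : Mf n) [M.Cpt] (L : M.Co), ∃ φ, M.WtC L φ

/-- The klt condition on the manifold. -/
def St_KLI : Prop := ∀ (n : ℕ) (M : Mf n) [M.Cpt] (H : M.Fam (Mat n)) (L : M.Co) (f : M.Fam ℂ)
  (φ : M.Fam ℝ) (c : ℝ), M.Met H → M.HSecC L f → M.WtC L φ → 0 < c → M.Lct f c →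
  Dense {x | M.nrC φ f x ≠ 0} ∧
    ∃ C : ℝ, ∀ δ : ℝ, 0 < δ → ∫ x, (M.nrC φ f x + δ) ^ (-c) ∂M.mu H ≤ C

/-- Derivatives of the norm of a holomorphic section. -/
def St_NHS : Prop := ∀ (n : ℕ) (M : Mf n) (L : M.Co) (f : M.Fam ℂ) (φ : M.Fam ℝ), M.HSecC L f →
  M.WtC L φ → M.All fun e z =>
    M.hs (M.nrC φ f) e z = Real.exp (-φ e z) • Matrix.vecMulVec (star (M.cv φ f e z)) (M.cv φ f e z)
      - M.nrC φ f (e.symm z) • M.hw φ e z ∧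
    M.ds (M.nrC φ f) (M.nrC φ f) e z = (M.nrC φ f (e.symm z) * Real.exp (-φ e z)) •
      Matrix.vecMulVec (star (M.cv φ f e z)) (M.cv φ f e z) ∧
    (∀ j, dz j (M.lc (M.nrC φ f) e) z = (Real.exp (-φ e z) : ℝ) * star (f e z) * M.cv φ f e z j) ∧
    (∀ i j, dzb i (fun w => M.cv φ f e w j) z = -(f e z * M.hw φ e z i j)) ∧
    (f e z ≠ 0 → hess (fun w => (Real.log (M.nrC φ f (e.symm w)) : ℂ)) z = -M.hw φ e z)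

/-- A subharmonic function is constant. -/
def St_HARM : Prop := ∀ (n : ℕ) (M : Mf n) [M.Cpt] (H : M.Fam (Mat n)) (w : M.X → ℝ), M.Kae H →
  M.Sm w → (∀ x, 0 ≤ M.lap H w x) → ∃ c, ∀ x, w x = c

/-- Compactness of bounded families of solutions. -/
def St_CPT : Prop := ∀ (n : ℕ) (M : Mf n) [M.Cpt] (H : M.Fam (Mat n)) (g : M.X → ℝ)
  (w : ℕ → M.X → ℝ) (t s : ℕ → ℝ) (B : ℝ), M.Met H → M.Sm g → (∀ j, M.Sm (w j)) →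
  (∀ j, |t j| ≤ B ∧ |s j| ≤ B) → (∀ j x, |w j x| ≤ B) →
  (∀ j x, t j * w j x - M.lap H (w j) x = s j * g x) →
  ∃ (κ : ℕ → ℕ) (u : M.X → ℝ), StrictMono κ ∧ M.Sm u ∧
    TendstoUniformly (fun j => w (κ j)) u atTop ∧
    ∀ x, Tendsto (fun j => M.lap H (w (κ j)) x) atTop (𝓝 (M.lap H u x))

/-- The equation of Poisson. -/
def St_POI : Prop := ∀ (n : ℕ) (M : Mf n) [M.Cpt] (H : M.Fam (Mat n)) (a : M.X → ℝ), 0 < n →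
  M.Kae H → M.Sm a → ∃ (w : M.X → ℝ) (c : ℝ), M.Sm w ∧ ∀ x, M.lap H w x = c - a x

/-- The Laplace operator of a flat factor has mean zero. -/
def St_DIVF : Prop := ∀ (n : ℕ) (M : Mf n) [M.Cpt] (H P : M.Fam (Mat n)) (k : ℕ) (g : M.X → ℝ),
  M.Kae H → M.Flat H P k → M.Sm g → ∫ x, M.ip H (H * P) (M.hs g) x ∂M.mu H = 0

/-- The trace along the flat factor is constant. -/
def St_PAR1 : Prop := ∀ (n : ℕ) (M : Mf n) [M.Cpt] (H P : M.Fam (Mat n)) (k : ℕ) (L : M.Co)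
  (φ : M.Fam ℝ) (c : ℝ), M.Kae H → M.Flat H P k → M.PA H P k → M.WtC L φ →
  (∀ x, M.tr H (M.hw φ) x = c) → ∃ c', ∀ x, M.ip H (H * P) (M.hw φ) x = c'

/-- The curvature form is constant along the flat factor. -/
def St_PAR2 : Prop := ∀ (n : ℕ) (M : Mf n) [M.Cpt] (H P : M.Fam (Mat n)) (k : ℕ) (L : M.Co)
  (φ : M.Fam ℝ) (c : ℝ), M.Kae H → M.Flat H P k → M.PA H P k → M.WtC L φ →
  (∀ x, M.ip H (H * P) (M.hw φ) x = c) →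
  ∀ e, M.Prod H P k e → ∀ z ∈ e.target, ∀ i : Fin n, i.val < k → dM i (M.hw φ e) z = 0

/-- The flat block of the curvature form is parallel and semi-positive. -/
def St_ETA1 : Prop := ∀ (n : ℕ) (M : Mf n) [M.Cpt] (H P : M.Fam (Mat n)) (k : ℕ) (L : M.Co)
  (f : M.Fam ℂ) (φ : M.Fam ℝ), M.Kae H → M.Flat H P k → M.PA H P k → M.Dw L f φ →
  (∀ e, M.Prod H P k e → ∀ z ∈ e.target, ∀ i : Fin n, i.val < k → dM i (M.hw φ e) z = 0) →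
  M.HolSA H (M.qF H P (M.hw φ)) ∧ M.All fun e z => (H e z * M.qF H P (M.hw φ) e z).PosSemidef

/-- The splitting. -/
def St_ETA2 : Prop := ∀ (n : ℕ) (M : Mf n) [M.Cpt] (H P θ : M.Fam (Mat n)) (k : ℕ), M.Kae H →
  M.Flat H P k → M.Form θ → M.HolSA H (M.qF H P θ) →
  (M.All fun e z => (H e z * M.qF H P θ e z).PosSemidef) → ∃ P' k' a, M.Spl H P k θ P' k' a

/-- The divisor is invariant along the new flat factor. -/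
def St_DSF : Prop := ∀ (n : ℕ) (M : Mf n) [M.Cpt] (H P : M.Fam (Mat n)) (k : ℕ) (L : M.Co)
  (f : M.Fam ℂ) (φ : M.Fam ℝ), M.Kae H → M.Flat H P k → M.Dw L f φ →
  (∀ x, M.ip H (H * P) (M.hw φ) x = 0) → (M.All fun e z => M.hw φ e z * P e z = 0) ∧
    M.All fun e z => ∀ l, ∑ j, dz j (M.lc (M.nrC φ f) e) z * P e z j l = 0

/-- The first Kähler class. -/
def St_KAP : Prop := ∀ (n : ℕ) (M : Mf n) [M.Cpt] (H P θ P' : M.Fam (Mat n)) (k k' : ℕ) (a : ℝ),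
  M.Met H → M.Flat H P k → M.Form θ → M.Spl H P k θ P' k' a →
  (M.All fun e z => θ e z * P' e z = 0) → ∃ s₀ : ℝ, 0 < s₀ ∧ ∀ s ∈ Ioc 0 s₀, M.All fun e z =>
    (H e z - H e z * P e z + H e z * P' e z + s • θ e z).PosDef

/-! ### Part II -/

/-- The curvature of the regularized weight. -/
def St_PSI1 : Prop := ∀ (n : ℕ) (M : Mf n) [M.Cpt] (H : M.Fam (Mat n)) (L : M.Co) (f : M.Fam ℂ)
  (φ : M.Fam ℝ), M.Met H → M.HSecC L f → M.WtC L φ → ∃ C : ℝ, 0 < C ∧ ∀ δ : ℝ, 0 < δ →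
    M.All fun e z => (M.hw φ e z + M.hs (fun x => Real.log (M.nrC φ f x + δ)) e z +
      (C * (δ / (M.nrC φ f (e.symm z) + δ))) • H e z).PosSemidef

/-- Derivatives of the regularized weight. -/
def St_PSI3 : Prop := ∀ (n : ℕ) (M : Mf n) [M.Cpt] (H : M.Fam (Mat n)) (V : M.Cov) (N : M.X → ℝ),
  M.Met H → M.Sm N → (∀ x, 0 ≤ N x) → ∃ C : ℝ, 1 ≤ C ∧ ∀ δ ∈ Ioc (0 : ℝ) 1,
    (∀ x, M.gr H (fun y => Real.log (N y + δ)) (fun y => Real.log (N y + δ)) x ≤ (C * δ⁻¹) ^ 2) ∧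
    ∀ b, ∀ z ∈ closedBall (V.c b) (2 * V.ρ b),
      Eb (C * δ⁻¹ ^ 3) (M.hs (fun y => Real.log (N y + δ)) (V.e b) z) ∧
      ∀ i, Eb (C * δ⁻¹ ^ 3) (dM i (M.hs (fun y => Real.log (N y + δ)) (V.e b)) z)

/-- The family of weights. -/
def St_PSI : Prop := ∀ (n : ℕ) (M : Mf n) [M.Cpt] (H : M.Fam (Mat n)) (V : M.Cov) (L : M.Co)
  (f : M.Fam ℂ) (φ : M.Fam ℝ) (s c : ℝ), M.Met H → M.HSecC L f → M.WtC L φ → 0 ≤ s → s < c →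
  (∃ C : ℝ, ∀ δ : ℝ, 0 < δ → ∫ x, (M.nrC φ f x + δ) ^ (-c) ∂M.mu H ≤ C) →
  ∃ ψ χ C a, M.Apx H (s • M.hw φ) V ψ χ C a

/-- Existence for the twisted equation. -/
def St_EXI : Prop := ∀ (n : ℕ) (M : Mf n) [M.Cpt] (H B : M.Fam (Mat n)) (ε : ℝ) (w ψ : M.X → ℝ),
  0 < n → M.Kae H → M.Sm w → M.Sm ψ → M.Kae (M.gB H B ε w) → ∃ v, M.Tw H B ε w ψ v

/-- Bounds for the maximum and for the minimum. -/
def St_APA : Prop := ∀ (n : ℕ) (M : Mf n) [M.Cpt] (H B : M.Fam (Mat n)) (V : M.Cov)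
  (ψ χ : ℝ → M.X → ℝ) (C a ε : ℝ) (w : M.X → ℝ), M.Tw0 H B V ψ χ C a ε w → ∃ D : ℝ, 1 ≤ D ∧
    ∀ t, 1 ≤ t → ∀ v, M.Tw H B ε w (ψ t) v → ∃ x₁, (∀ x, v x ≤ v x₁) ∧ |v x₁| ≤ D ∧
      ∀ x, -(D * t) ≤ v x

/-- The estimate of second order. -/
def St_C2B : Prop := ∀ (n : ℕ) (M : Mf n) [M.Cpt] (H B : M.Fam (Mat n)) (V : M.Cov)
  (ψ χ : ℝ → M.X → ℝ) (C a ε : ℝ) (w : M.X → ℝ), M.Tw0 H B V ψ χ C a ε w → ∃ D : ℝ, 1 ≤ D ∧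
    ∀ t, 1 ≤ t → ∀ v, M.Tw H B ε w (ψ t) v → ∀ o : ℝ, (∀ x y, v x - v y ≤ o) →
      ∀ x, M.tr (M.gB H B ε w + M.hs v) (M.gB H B ε w) x ≤ D * Real.exp (D * o)

/-- Polynomial bounds for two gradients. -/
def St_GRD : Prop := ∀ (n : ℕ) (M : Mf n) [M.Cpt] (H h : M.Fam (Mat n)) (V : M.Cov), 0 < n →
  M.Kae H → M.Form h → ∃ (C : ℝ) (N : ℕ), 1 ≤ C ∧ ∀ K : ℝ, 1 ≤ K → ∀ G R, M.Kae G → M.Form R →
    (M.All fun e z => M.ric G e z = R e z - G e z) → M.Le (K⁻¹ • H) G → M.Le G (K • H) →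
    (∀ b, ∀ z ∈ closedBall (V.c b) (2 * V.ρ b), Eb K (R (V.e b) z) ∧ ∀ i, Eb K (dM i (R (V.e b)) z)) →
    ∀ x, M.gr H (M.tr G h) (M.tr G h) x ≤ (C * K ^ N) ^ 2 ∧
      M.gr H (fun y => Real.log (M.dq H G y)) (fun y => Real.log (M.dq H G y)) x ≤ (C * K ^ N) ^ 2

/-- Exponential bounds. -/
def St_PBD : Prop := ∀ (n : ℕ) (M : Mf n) [M.Cpt] (H B h : M.Fam (Mat n)) (V : M.Cov)
  (ψ χ : ℝ → M.X → ℝ) (C a ε : ℝ) (w : M.X → ℝ), M.Tw0 H B V ψ χ C a ε w → M.Form h →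
  ∃ D : ℝ, 1 ≤ D ∧ ∀ t, 1 ≤ t → ∀ v, M.Tw H B ε w (ψ t) v → (∀ x y, v x - v y ≤ D * t) ∧
    ∀ x, M.gr (M.gB H B ε w) v v x ≤ Real.exp (D * t) ^ 2 ∧
      M.gr (M.gB H B ε w) (M.tr (M.gB H B ε w + M.hs v) h) (M.tr (M.gB H B ε w + M.hs v) h) x ≤
        Real.exp (D * t) ^ 2

/-- The test function. -/
def St_TEST : Prop := ∀ (n : ℕ) (M : Mf n) [M.Cpt] (T : M.Fam (Mat n)), 0 < n → M.Kae T →
  ∃ C : ℝ, 0 < C ∧ ∀ v, M.Sm v → M.Kae (T + M.hs v) → ∀ o : ℝ, (∀ x y, v x - v y ≤ o) →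
    ∀ (x₀ : M.X) (r : ℝ), 0 < r → r ≤ 1 → ∃ ρ, M.Sm ρ ∧ (∀ x, 0 ≤ ρ x) ∧
      ∫ x, ρ x ∂M.mu (T + M.hs v) = 1 ∧
      (∀ (u : M.X → ℝ) (A : ℝ), M.Sm u → 0 ≤ A → (∀ x, M.gr T u u x ≤ A ^ 2) →
        u x₀ ≤ C * A * r + ∫ x, ρ x * (u x - M.lap (T + M.hs v) u x) ∂M.mu (T + M.hs v)) ∧
      ∀ (u : M.X → ℝ) (τ : ℝ), Continuous u → (∀ x, 0 ≤ u x) → 0 < τ →
        ∫ x, ρ x * u x ∂M.mu (T + M.hs v) ≤ τ * (C * (1 - Real.log r + o)) +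
          τ⁻¹ ^ n * C * ∫ x, u x ^ (n + 1) ∂M.mu (T + M.hs v)

/-- The oscillation is sublinear. -/
def St_OSC : Prop := ∀ (n : ℕ) (M : Mf n) [M.Cpt] (H B : M.Fam (Mat n)) (V : M.Cov)
  (ψ χ : ℝ → M.X → ℝ) (C a ε : ℝ) (w : M.X → ℝ), M.Tw0 H B V ψ χ C a ε w → ∀ τ : ℝ, 0 < τ →
  ∃ D : ℝ, ∀ t, 1 ≤ t → ∀ v, M.Tw H B ε w (ψ t) v → ∀ x y, v x - v y ≤ τ * t + D

/-- Pointwise inequalities for traces. -/
def St_IPB : Prop := ∀ (n : ℕ) (M : Mf n) [M.Cpt] (H h : M.Fam (Mat n)), M.Met H → M.Met h →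
  (∃ c : ℝ, 0 < c ∧ ∀ G, M.Met G → ∀ x,
    c * M.tr G h x ^ 2 ≤ M.ip G h H x ∧ c * M.tr G H x ≤ M.tr G h x) ∧
  (∀ T, M.Met T → ∃ C : ℝ, 0 < C ∧ ∀ G, M.Met G → ∀ x, M.ip G h H x ≤ C * M.tr G T x ^ 2) ∧
  ∀ G R, M.Met G → ∀ (x : M.X) (b : ℝ), (M.ev R x - b • M.ev H x).PosSemidef →
    b * M.ip G h H x ≤ M.ip G h R x

/-- The Schwarz lemma. -/
def St_SCH : Prop := ∀ (n : ℕ) (M : Mf n) [M.Cpt] (H h : M.Fam (Mat n)), M.Kae H → M.Met h →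
  M.Yp h → ∃ D : ℝ, 0 < D ∧ ∀ B V ψ χ C a ε w, M.Tw0 H B V ψ χ C a ε w →
    ∃ u, M.Sm u ∧ M.Kae (M.gB H B ε u) ∧ ∀ x, ε * M.tr (M.gB H B ε u) H x ≤ D

/-- The class is nef. -/
def St_NEF : Prop := ∀ (n : ℕ) (M : Mf n) [M.Cpt] (H h B : M.Fam (Mat n)) (V : M.Cov)
  (ψ χ : ℝ → M.X → ℝ) (C a : ℝ), 0 < n → M.Kae H → M.Met h → M.Yp h → M.Clo B →
  M.Apx H B V ψ χ C a → ∀ ε : ℝ, 0 < ε → ∃ w, M.Sm w ∧ M.Kae (M.gB H B ε w)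

/-- The second Kähler class. -/
def St_KCL : Prop := ∀ (n : ℕ) (M : Mf n) [M.Cpt] (H P θ : M.Fam (Mat n)) (k : ℕ) (s₀ s s₁ : ℝ),
  M.Kae H → M.Flat H P k → M.Clo θ → s₀ < s → s < s₁ →
  (M.All fun e z => (H e z * P e z - M.ric H e z + s₀ • θ e z).PosDef) →
  (∀ ε : ℝ, 0 < ε → ∃ w, M.Sm w ∧ M.Kae (M.gB H (s₁ • θ) ε w)) →
  ∃ w, M.Sm w ∧ M.Kae (M.gB H (H * P + s • θ) 0 w)

/-- A semi-positive form in the class. -/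
def St_UTP : Prop := ∀ (n : ℕ) (M : Mf n) [M.Cpt] (H P B : M.Fam (Mat n)) (k : ℕ) (w : M.X → ℝ),
  0 < n → M.Kae H → M.Flat H P k → M.PA H P k → M.Clo B → (M.All fun e z => B e z * P e z = 0) →
  (M.All fun e z => M.ric H e z * P e z = 0) → M.Sm w → M.Kae (M.gB H (H * P + B) 0 w) →
  ∃ v, M.Sm v ∧ M.Deg H P (B - M.ric H + M.hs v)

/-- Forms that vanish on the image of the projection. -/
def St_BLK : Prop := ∀ (n : ℕ) (M : Mf n) [M.Cpt] (H P T : M.Fam (Mat n)), M.Deg H P T →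
  M.Le 0 T ∧ (∀ S, M.Form S → (M.All fun e z => S e z * P e z = 0) →
    ∃ C : ℝ, 0 < C ∧ M.Le S (C • T)) ∧
  ∀ (S : M.Fam (Mat n)) (c : ℝ), 1 ≤ c → (M.All fun e z => S e z = c • T e z) → M.Deg H P S

/-! ### Part III -/

/-- The developing map of the first flat factor. -/
def St_DEV : Prop := ∀ (n : ℕ) (M : Mf n) [M.Cpt] (H P G : M.Fam (Mat n)) (k : ℕ) (u : M.X → ℝ),
  M.Pos H P k u G → ∀ x₀, ∃ Ψ r, Ψ 0 = x₀ ∧ M.DvC (pr k) Ψ r (M.Prod H P k)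

/-- The second projection is constant along the developing map. -/
def St_WCON : Prop := ∀ (n : ℕ) (M : Mf n) (H P θ P' : M.Fam (Mat n)) (k k' : ℕ) (a r : ℝ)
  (Ψ : E n → M.X), M.Met H → M.Spl H P k θ P' k' a → M.DvC (pr k) Ψ r (M.Prod H P k) →
  ∃ p : Mat n, p * p = p ∧ pᴴ = p ∧ pr k * p = p ∧ p * pr k = p ∧
    ∀ z, ‖z - pr k *ᵥ z‖ ≤ 3 * r →
      ∃ e, M.IvC Ψ e ∧ z ∈ e.target ∧ M.Prod H P k e ∧ M.CsC P' p e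

/-- Invariance of a function along the image of the projection. -/
def St_NINV : Prop := ∀ (n : ℕ) (M : Mf n) (P : M.Fam (Mat n)) (π p : Mat n) (Ψ : E n → M.X)
  (r : ℝ) (N : M.X → ℝ), π * p = p → M.Sm N →
  (∀ z, ‖z - π *ᵥ z‖ ≤ r → ∃ e, M.IvC Ψ e ∧ z ∈ e.target ∧ M.CsC P p e) →
  (M.All fun e z => ∀ l, ∑ j, dz j (M.lc N e) z * P e z j l = 0) →
  ∀ z, ‖z - π *ᵥ z‖ ≤ r → ∀ u, N (Ψ (z + p *ᵥ u)) = N (Ψ z)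

/-- Decay along a complex line. -/
def St_DSC1 : Prop := ∀ (n : ℕ) (g : E n → ℝ) (u : E n) (a b : ℝ), 0 < a →
  (∀ ζ : ℂ, (∀ᶠ w in 𝓝 (ζ • u), ContDiffAt ℝ ∞ g w) ∧ 0 ≤ g (ζ • u) ∧
    (∀ t : ℝ, g ((ζ + t) • u) = g (ζ • u)) ∧
    (0 < g (ζ • u) → -b ≤ nq (hess (fun w => (Real.log (g w) : ℂ)) (ζ • u)) u ∧
      nq (hess (fun w => (Real.log (g w) : ℂ)) (ζ • u)) u ≤ -a)) → 0 < g 0 →
  Tendsto (fun s : ℝ => g ((s * I) • u)) atTop (𝓝 0)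

/-- The periods in the smaller subspace are relatively dense. -/
def St_DSC2 : Prop := ∀ (n : ℕ) (π p : Mat n) (Λ : AddSubgroup (E n)) (g : E n → ℝ) (R : ℝ),
  π * π = π → p * p = p → π * p = p → p * π = p → (∀ τ ∈ Λ, π *ᵥ τ = τ) →
  (∀ v, ∃ τ ∈ Λ, ‖π *ᵥ v - τ‖ ≤ R) →
  (∀ v, π *ᵥ v = v → ContinuousAt g v ∧ (∀ τ ∈ Λ, g (v + τ) = g v) ∧ ∀ u, g (v + p *ᵥ u) = g v) →
  g 0 ≠ 0 → (∀ u, u ≠ 0 → π *ᵥ u = u → p *ᵥ u = 0 →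
    (∀ v, π *ᵥ v = v → ∀ t : ℝ, g (v + (t : ℂ) • u) = g v) →
    Tendsto (fun s : ℝ => g ((s * I) • u)) atTop (𝓝 0)) →
  ∃ R' : ℝ, ∀ v, ∃ τ ∈ Λ, p *ᵥ τ = τ ∧ ‖p *ᵥ v - τ‖ ≤ R'

/-- The developing map of the second flat factor. -/
def St_DSC : Prop := ∀ (n : ℕ) (M : Mf n) [M.Cpt] (H P P' : M.Fam (Mat n)) (k k' : ℕ) (a r : ℝ)
  (L : M.Co) (f : M.Fam ℂ) (φ : M.Fam ℝ) (Ψ : E n → M.X), M.Met H → M.Dw L f φ →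
  M.Spl H P k (M.hw φ) P' k' a → M.DvC (pr k) Ψ r (M.Prod H P k) →
  (M.All fun e z => ∀ l, ∑ j, dz j (M.lc (M.nrC φ f) e) z * P' e z j l = 0) →
  ∃ p, M.DvC p Ψ r (M.CsC P' p)

/-- The central leaf is isolated. -/
def St_ISO : Prop := ∀ (n : ℕ) (M : Mf n) [M.Cpt] (P : M.Fam (Mat n)) (p : Mat n) (Ψ : E n → M.X)
  (r : ℝ), M.End P → M.DvC p Ψ r (M.CsC P p) → ∀ r' : ℝ, 0 < r' →
  ∃ r₁ r₂ K, r₁ ≤ r' ∧ M.Sep p Ψ r₁ r₂ K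

/-- The sheets. -/
def St_FIB : Prop := ∀ (n : ℕ) (M : Mf n) [M.Cpt] (p : Mat n) (Ψ : E n → M.X) (r r₁ : ℝ)
  (Q : M.Ch → Prop), M.DvC p Ψ r Q → r₁ ≤ r → ∃ F, M.Fb p Ψ r₁ Q F

/-- The extension theorem of Riemann. -/
def St_REX : Prop := ∀ (n : ℕ) (f g : E n → ℂ) (z : E n) (C : ℝ), HolN f z → HolN g z →
  (∀ᶠ w in 𝓝 z, ‖f w‖ ≤ C * ‖g w‖) → (∃ᶠ w in 𝓝 z, g w ≠ 0) →
  ∃ u, HolN u z ∧ ∀ᶠ w in 𝓝 z, f w = u w * g w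

/-- The local equations differ from the equation on the slice by units. -/
def St_UNT : Prop := ∀ (n : ℕ) (M : Mf n) (L : M.Co) (f : M.Fam ℂ) (φ : M.Fam ℝ) (p : Mat n)
  (Ψ : E n → M.X) (e₀ e : M.Ch) (z : E n), M.Dw L f φ → M.IvC Ψ e₀ → M.IvC Ψ e → z ∈ e.target →
  z - p *ᵥ z ∈ e₀.target →
  (∀ᶠ w in 𝓝 z, M.nrC φ f (Ψ (w - p *ᵥ w)) = M.nrC φ f (Ψ w)) →
  ∃ u, HolN u z ∧ u z ≠ 0 ∧ ∀ᶠ w in 𝓝 z, f e w = u w * f e₀ (w - p *ᵥ w)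

/-- Extension of a section from a dense set. -/
def St_EXTD : Prop := ∀ (n : ℕ) (M : Mf n) (L : M.Co) (U : Set M.X) (s : M.Ch → M.X → ℂ),
  Dense U → (M.Ov fun e e' x => x ∈ U → s e' x = s e x * L.c e e' x) →
  (∀ e ∈ M.C, ∀ x ∈ e.source, ∃ S : E n → ℂ, (∀ᶠ w in 𝓝 (e x), ContDiffAt ℝ ∞ S w) ∧
    ∀ᶠ y in 𝓝 x, y ∈ U → s e y = S (e y)) →
  ∃ σ, M.SecC L σ ∧ ∀ e ∈ M.C, ∀ x ∈ e.source, ∀ S : E n → ℂ,
    (∀ᶠ w in 𝓝 (e x), ContinuousAt S w) → (∀ᶠ y in 𝓝 x, y ∈ U → s e y = S (e y)) →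
    σ e =ᶠ[𝓝 (e x)] S

/-- The section. -/
def St_SIG : Prop := ∀ (n : ℕ) (M : Mf n) (P : M.Fam (Mat n)) (L : M.Co) (f : M.Fam ℂ)
  (φ : M.Fam ℝ) (m : ℕ) (p : Mat n) (Ψ : E n → M.X) (r₁ r₂ : ℝ) (K : Set M.X)
  (F : M.X → Finset (E n)) (e₀ : M.Ch), M.End P → M.Dw L f φ → p * p = p → M.Sep p Ψ r₁ r₂ K →
  M.Fb p Ψ r₁ (M.CsC P p) F → M.IvC Ψ e₀ → closedBall 0 (2 * r₁) ⊆ e₀.target →
  (∀ z, ‖z - p *ᵥ z‖ ≤ 3 * r₁ → M.nrC φ f (Ψ (z - p *ᵥ z)) = M.nrC φ f (Ψ z)) →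
  ∀ q₀ : ℕ, ∃ q, q₀ ≤ q ∧ ∃ σ, M.SecC ((L.tw m).pw q) σ ∧ σ e₀ 0 ≠ 0 ∧ M.All fun e z =>
    (e.symm z ∉ K → DifferentiableAt ℂ (σ e) z) ∧ ∀ l, ∑ i, star (P e z i l) * dzb i (σ e) z = 0

/-- The weights. -/
def St_LAM : Prop := ∀ (n : ℕ) (M : Mf n) [M.Cpt] (H P T : M.Fam (Mat n)) (p : Mat n)
  (Ψ : E n → M.X) (r₁ r₂ : ℝ) (K : Set M.X) (F : M.X → Finset (E n)) (e₀ : M.Ch), M.Deg H P T →
  p * p = p → M.Sep p Ψ r₁ r₂ K → M.Fb p Ψ r₁ (M.CsC P p) F → M.IvC Ψ e₀ → (0 : E n) ∈ e₀.target →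
  ∃ C ρ : ℝ, 0 ≤ C ∧ 0 < ρ ∧ ∀ δ ∈ Ioc (0 : ℝ) 1, ∃ l : M.X → ℝ, M.Sm l ∧
    M.Le 0 (C • T + M.hs l) ∧ (∀ z ∈ ball (0 : E n) ρ, l (e₀.symm z) ≤ Real.log (nsq z + δ) + C) ∧
    ∀ x ∈ K, -C ≤ l x

/-- The form attached to the `(0,1)` derivative of a section. -/
def St_DBC : Prop := ∀ (n : ℕ) (M : Mf n) (L : M.Co) (φ : M.Fam ℝ) (s : M.Fam ℂ), M.WtC L φ →
  M.SecC L s → ∃ T, M.Form T ∧ M.All fun e z =>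
    (∀ i j, T e z i j = dzb i (s e) z * star (dzb j (s e) z) * (Real.exp (-φ e z) : ℝ)) ∧
    ∀ v, nq (T e z) v = normSq (∑ i, star (v i) * dzb i (s e) z) * Real.exp (-φ e z)

/-- The data for the peak section. -/
def St_PKD : Prop := ∀ (n : ℕ) (M : Mf n) [M.Cpt] (H P : M.Fam (Mat n)) (L : M.Co) (f : M.Fam ℂ)
  (φ Φ : M.Fam ℝ) (m : ℕ) (p : Mat n) (Ψ : E n → M.X) (r : ℝ), M.Dw L f φ → M.WtC (L.tw m) Φ →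
  M.Deg H P (M.hw Φ) → M.DvC p Ψ r (M.CsC P p) →
  (M.All fun e z => ∀ l, ∑ j, dz j (M.lc (M.nrC φ f) e) z * P e z j l = 0) →
  M.PeakC (L.tw m) Φ (Ψ 0)

/-! ### Part IV -/

/-- Solvability of the linear equation. -/
def St_LINC : Prop := ∀ (n : ℕ) (M : Mf n) (V : M.Cov) (m : M.Co) (L : Op M) (t : ℝ), L.OkC m →
  L.InjC V m t → ∀ f, M.SecC m f → ∃ s, M.SecC m s ∧ M.All fun e z => L.sh t s e z = f e z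

/-- Control of the uniform norm by an integral norm. -/
def St_L2C : Prop := ∀ (n : ℕ) (M : Mf n) [M.Cpt] (V : M.Cov) (m : M.Co) (L : Op M) (t : ℝ)
  (μ : Measure M.X) (H : M.Fam (Mat n)) (φ : M.Fam ℝ) (q : M.Fam ℂ → M.X → ℝ), L.OkC m →
  M.Met H → M.IsMu H μ → (M.All fun e z => ContinuousAt (φ e) z) →
  (∀ s, M.SecC m s → M.Rep (q s) fun e z => ‖s e z‖ ^ 2 * Real.exp (φ e z)) →
  (∃ C, ∀ τ, t ≤ τ → ∀ s, M.SecC m s → ∫ x, q s x ∂μ ≤ C * ∫ x, q (L.sh τ s) x ∂μ) →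
    L.InjC V m t

/-- The scalars attached to sections. -/
def St_SC5 : Prop := ∀ (n : ℕ) (M : Mf n) (H : M.Fam (Mat n)) (L : M.Co) (φ : M.Fam ℝ)
  (s s' : M.Fam ℂ), M.Met H → M.WtC L φ → M.SecC L s → M.SecC L s' →
  M.SecC L (s - s') ∧ (∀ c : ℂ, M.SecC L (c • s)) ∧
  M.Rep (M.nrC φ s) (fun e z => normSq (s e z) * Real.exp (-φ e z)) ∧ Continuous (M.nrC φ s) ∧
  M.Rep (spC M φ s s') (fun e z => s e z * star (s' e z) * (Real.exp (-φ e z) : ℝ)) ∧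
  Continuous (spC M φ s s') ∧
  M.Rep (dpC M H φ s s') (fun e z =>
    (star (db M s' e z) ⬝ᵥ (H e z)⁻¹ *ᵥ db M s e z) * (Real.exp (-φ e z) : ℝ)) ∧
  Continuous (dpC M H φ s s') ∧
  (∀ x, 0 ≤ M.nrC φ s x ∧ spC M φ s s x = M.nrC φ s x ∧ 0 ≤ (dpC M H φ s s x).re ∧
    (dpC M H φ s s x).im = 0 ∧ normSq (spC M φ s s' x) = M.nrC φ s x * M.nrC φ s' x ∧
    dpC M H φ s (s' - s) x = dpC M H φ s s' x - dpC M H φ s s x) ∧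
  ∀ T, M.Ten T → M.Rep (wqC M H φ T s) (fun e z =>
    nq (T e z) ((H e z)⁻¹ *ᵥ db M s e z) * Real.exp (-φ e z)) ∧ Continuous (wqC M H φ T s)

/-- The operator acts on sections. -/
def St_BOXOK : Prop := ∀ (n : ℕ) (M : Mf n) (H : M.Fam (Mat n)) (L : M.Co) (φ : M.Fam ℝ),
  M.Met H → M.WtC L φ → (boxC M H φ).OkC L

/-- The formula of Green for sections. -/
def St_GRN2 : Prop := ∀ (n : ℕ) (M : Mf n) [M.Cpt] (H : M.Fam (Mat n)) (L : M.Co) (φ : M.Fam ℝ)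
  (s s' : M.Fam ℂ), M.Kae H → M.WtC L φ → M.SecC L s → M.SecC L s' →
  ∫ x, spC M φ ((boxC M H φ).ap s) s' x ∂M.mu H = -∫ x, dpC M H φ s s' x ∂M.mu H

/-- The inequality of Hörmander and Siu. -/
def St_SIU : Prop := ∀ (n : ℕ) (M : Mf n) [M.Cpt] (H : M.Fam (Mat n)) (L : M.Co) (φ : M.Fam ℝ)
  (s : M.Fam ℂ), M.Kae H → M.WtC L φ → M.SecC L s →
  ∫ x, wqC M H φ (M.hw φ + M.ric H) s x ∂M.mu H ≤ ∫ x, M.nrC φ ((boxC M H φ).ap s) x ∂M.mu H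

/-- The resolvent on sections. -/
def St_BOX : Prop := ∀ (n : ℕ) (M : Mf n) [M.Cpt] (H : M.Fam (Mat n)) (L : M.Co) (φ : M.Fam ℝ)
  (f : M.Fam ℂ) (η : ℝ), M.Kae H → M.WtC L φ → M.SecC L f → 0 < η →
  ∃ s, M.SecC L s ∧ M.All fun e z => η * s e z - (boxC M H φ).ap s e z = f e z

/-- The estimate for the resolvent. -/
def St_HOR0 : Prop := ∀ (n : ℕ) (M : Mf n) [M.Cpt] (H : M.Fam (Mat n)) (L : M.Co) (φ : M.Fam ℝ)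
  (b : M.X → ℝ) (σ s : M.Fam ℂ) (B η : ℝ), M.Kae H → M.WtC L φ → M.SecC L σ →
  M.Le 0 (M.hw φ + M.ric H) → Measurable b → (∀ x, 0 ≤ b x ∧ b x ≤ B) →
  M.DbC φ σ b (M.hw φ + M.ric H) → 0 < η → M.SecC L s →
  (M.All fun e z => η * s e z - (boxC M H φ).ap s e z = η * σ e z) →
  ∫ x, M.nrC φ (σ - s) x ∂M.mu H ≤ ∫ x, b x ∂M.mu H ∧
    ∫ x, (dpC M H φ s s x).re ∂M.mu H ≤ η * ∫ x, b x ∂M.mu H

/-- Holomorphic limit of a family of sections. -/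
def St_SLIM : Prop := ∀ (n : ℕ) (M : Mf n) [M.Cpt] (H : M.Fam (Mat n)) (L : M.Co) (φ : M.Fam ℝ)
  (ι : Type) (l : Ultrafilter ι) (s : ι → M.Fam ℂ) (C : ℝ), M.Met H → M.WtC L φ →
  (∀ a, M.SecC L (s a)) → (∀ a, ∫ x, M.nrC φ (s a) x ∂M.mu H ≤ C) →
  Tendsto (fun a => ∫ x, (dpC M H φ (s a) (s a) x).re ∂M.mu H) l (𝓝 0) →
  ∃ s₀, M.HSecC L s₀ ∧ Tendsto (fun a => ∫ x, √(M.nrC φ (s a - s₀) x) ∂M.mu H) l (𝓝 0)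

/-- The theorem of Hörmander for a semi-positive weight. -/
def St_HOR : Prop := ∀ (n : ℕ) (M : Mf n) [M.Cpt] (H : M.Fam (Mat n)) (L : M.Co) (φ : M.Fam ℝ)
  (b : M.X → ℝ) (σ : M.Fam ℂ) (B : ℝ), M.Kae H → M.WtC L φ → M.SecC L σ →
  M.Le 0 (M.hw φ + M.ric H) → Measurable b → (∀ x, 0 ≤ b x ∧ b x ≤ B) →
  M.DbC φ σ b (M.hw φ + M.ric H) →
  ∃ s, M.HSecC L s ∧ ∫ x, M.nrC φ (σ - s) x ∂M.mu H ≤ ∫ x, b x ∂M.mu H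

/-- One point: a holomorphic section that does not vanish at `x₀`. -/
def St_PEAK1 : Prop := ∀ (n : ℕ) (M : Mf n) [M.Cpt] (H : M.Fam (Mat n)) (L : M.Co) (φ : M.Fam ℝ)
  (C : ℝ) (x₀ : M.X), M.Kae H → M.WtC L φ → M.Le 0 (M.hw φ) → M.Le (-M.ric H) (C • M.hw φ) →
  M.PeakC L φ x₀ → ∃ q, 0 < q ∧ ∃ s, M.HSecC (L.pw q) s ∧ M.ev s x₀ ≠ 0

end Pool.Agent.Lib.KP
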