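import Pool.Agent.Lib.KP.Blue
import Pool.Agent.Lib.KP.Kit
import Pool.Agent.Lib.HS.B_BOXOK

/-! Project kp71: the Laplace operator acts on sections. -/

open scoped Classical Topology ContDiff ComplexOrder Matrix
open Set MeasureTheory Complex Metric Filter

noncomputable section

namespace Pool.Agent.Lib.KP

open Pool.Agent.Lib.SV (E)
open Pool.Agent.Lib.HS32 Pool.Agent.Lib.HS21

namespace T24

variable {n : ℕ}

theorem ap_eq (M : Mf n) (H : M.Fam (Mat n)) (φ : M.Fam ℝ) (s : M.Fam ℂ) (e : M.Ch)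
    (z : E n) : (boxC M H φ).ap s e z =
      ((H e z)⁻¹ * (hess (s e) z - dd (s e) (fun w => (φ e w : ℂ)) z)).trace := by
  simp only [Op.ap, lop, boxC, Pi.zero_apply, zero_mul, Finset.sum_const_zero, add_zero,
    Matrix.mul_sub, Matrix.trace_sub, neg_mul, Finset.sum_neg_distrib, ← sub_eq_add_neg,
    sub_right_inj]
  simp only [Matrix.trace, Matrix.diag_apply, Matrix.mul_apply, dd, Matrix.of_apply,
    Finset.sum_mul]
  rw [Finset.sum_comm]
  exact Finset.sum_congr rfl fun i _ => Finset.sum_congr rfl fun j _ => by ring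

end T24

open T24 in
theorem st_BOXOK : St_BOXOK := by
  intro n M H L φ hM hφ
  have sW : M.All fun e z => SmM (fun w => (H e w)⁻¹) z := fun e he z hz =>
    (hM.sm e he z hz).inv (hM.det_ne e he z hz)
  have sφ := hφ.smC
  refine ⟨sW, fun e he z hz => (hM.pos e he z hz).inv, fun e he z hz j => contDiffAt_const,
    fun e he z hz j => (ContDiffAt.sum fun i _ =>
      (cd_dz (sφ e he z hz) i).mul (sW e he z hz i j)).neg,
    fun e he z hz => contDiffAt_const, fun s hs => ⟨fun e he z hz => ?_,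
      fun e he e' he' x hx hx' => ?_⟩⟩
  · beta_reduce
    rw [show (boxC M H φ).ap s e = _ from funext (ap_eq M H φ s e)]
    exact ((sW e he z hz).mul ((smM_hess (hs.sm e he z hz)).sub
      (smM_dd (hs.sm e he z hz) (sφ e he z hz)))).trace
  · obtain ⟨t1, t2, -⟩ := (mTR n M).2.1 e he e' he' x hx hx'
    have ex : (e ∘ e'.symm) (e' x) = e x := by simp [e'.left_inv hx']
    have := HS.BOXOK.loc mCHN mHOL (g := fun y => L.c e e' (e'.symm y)) (s := s e) (s' := s e')
      (φ := fun w => (φ e w : ℂ)) (φ' := fun w => (φ e' w : ℂ)) t1 (L.hol e he e' he' x hx hx')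
      (by simpa only [e'.left_inv hx'] using L.ne e he e' he' x hx hx')
      (ex ▸ hs.sm.at he hx) (ex ▸ sφ.at he hx) (hs.ev e he e' he' x hx hx')
      ((hφ.ev e he e' he' x hx hx').mono fun y hy => by
        beta_reduce at hy ⊢
        rw [hy, ofReal_add]
        rfl)
    rw [ap_eq, ap_eq, this, ex, hM.cmp e he e' he' x hx hx', e'.left_inv hx']
    exact HS.BOXOK.tr_conj t2 _

end Pool.Agent.Lib.KP
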