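import Pool.Agent.Lib.KP.Blue
import Pool.Agent.Lib.KP.Kit
import Pool.Agent.Lib.HS76.Diag

/-! Project kp71, row IPB: pointwise inequalities for traces. -/

open scoped Classical Topology ContDiff ComplexOrder Matrix ENNReal
open Set MeasureTheory Complex Metric Filter

set_option linter.unusedVariables false

noncomputable section

namespace Pool.Agent.Lib.KP

open Pool.Agent.Lib.SV (E)
open Pool.Agent.Lib.HS32

namespace I76

variable {n : ℕ} {G A A' B B' : Mat n}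

theorem conj_psd (hG : G.PosDef) (hA : A.PosSemidef) : (G⁻¹ * A * G⁻¹).PosSemidef := by
  have := hA.conjTranspose_mul_mul_same G⁻¹
  rwa [hG.inv.1.eq] at this

theorem tr_mono (hA : A.PosSemidef) {b c : ℝ} (hB : (c • B' - b • B).PosSemidef) :
    b * (A * B).trace.re ≤ c * (A * B').trace.re := by
  have h := (Complex.le_def.1 (HS76.tr_mul_nonneg hA hB)).1
  rw [Matrix.mul_sub, Matrix.mul_smul, Matrix.mul_smul, Matrix.trace_sub, Matrix.trace_smul,
    Matrix.trace_smul, sub_re, smul_re, smul_re, zero_re, smul_eq_mul, smul_eq_mul] at h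
  linarith

theorem ip_symm (G A B : Mat n) :
    (G⁻¹ * A * G⁻¹ * B).trace = (G⁻¹ * B * G⁻¹ * A).trace := by
  rw [Matrix.mul_assoc (G⁻¹ * A), Matrix.trace_mul_comm, ← Matrix.mul_assoc]

theorem lo (hG : G.PosDef) (hA : A.PosDef) {C C' : ℝ} (hC : 0 < C) (hC' : 0 < C')
    (h : (C • B - A).PosSemidef) (h' : (C' • A - B).PosSemidef) :
    (C * (n + 1) + C')⁻¹ * (G⁻¹ * A).trace.re ^ 2 ≤ (G⁻¹ * A * G⁻¹ * B).trace.re ∧
      (C * (n + 1) + C')⁻¹ * (G⁻¹ * B).trace.re ≤ (G⁻¹ * A).trace.re := by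
  have h1 := tr_mono (conj_psd hG hA.posSemidef) (b := 1) (c := C) (B := A) (B' := B)
    (by rwa [one_smul])
  have h2 := HS76.tr_sq_le hG hA.isHermitian
  rw [← Matrix.mul_assoc, Fintype.card_fin] at h2
  have h3 := tr_mono hG.inv.posSemidef (b := 1) (c := C') (B := B) (B' := A) (by rwa [one_smul])
  have h4 : 0 ≤ (G⁻¹ * A * G⁻¹ * A).trace.re :=
    (Complex.le_def.1 (HS76.tr_mul_nonneg (conj_psd hG hA.posSemidef) hA.posSemidef)).1
  have h5 : 0 ≤ (G⁻¹ * A).trace.re :=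
    (Complex.le_def.1 (HS76.tr_mul_nonneg hG.inv.posSemidef hA.posSemidef)).1
  have hn : (0 : ℝ) ≤ n := Nat.cast_nonneg n
  have hD : 0 < C * (n + 1) + C' := by positivity
  have h6 : 0 ≤ (G⁻¹ * A * G⁻¹ * B).trace.re := by
    by_contra h7
    have := mul_neg_of_pos_of_neg hC (not_le.1 h7)
    linarith
  refine ⟨?_, ?_⟩ <;> rw [inv_mul_le_iff₀ hD]
  · have h8 := mul_le_mul_of_nonneg_left h1 hn
    have h9 := mul_nonneg hC.le h6
    have h10 := mul_nonneg hC'.le h6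
    nlinarith
  · have h9 := mul_nonneg (mul_nonneg hC.le (by linarith : (0 : ℝ) ≤ n + 1)) h5
    nlinarith

theorem hi {T : Mat n} (hG : G.PosDef) (hA : A.PosDef) (hT : T.PosDef) {C C' : ℝ} (hC : 0 < C)
    (hC' : 0 < C') (h : (C • T - A).PosSemidef) (h' : (C' • T - B).PosSemidef) :
    (G⁻¹ * A * G⁻¹ * B).trace.re ≤ C * C' * (G⁻¹ * T).trace.re ^ 2 := by
  have h1 := tr_mono (conj_psd hG hA.posSemidef) (b := 1) (c := C') (B := B) (B' := T)
    (by rwa [one_smul])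
  have h2 := tr_mono (conj_psd hG hT.posSemidef) (b := 1) (c := C) (B := A) (B' := T)
    (by rwa [one_smul])
  have h3 := HS76.tr2_le_sq hG hT.posSemidef
  rw [← Matrix.mul_assoc] at h3
  rw [ip_symm G A T] at h1
  have h4 := mul_le_mul_of_nonneg_left h2 hC'.le
  have h5 := mul_le_mul_of_nonneg_left h3 (mul_pos hC hC').le
  nlinarith

end I76

theorem st_IPB : St_IPB := by
  intro n M _ H h hH hh
  refine ⟨?_, fun T hT => ?_, fun G R hG x b hb => ?_⟩
  · obtain ⟨C, hC, h1, -⟩ := (mBD n M H hH).1 h hh.toForm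
    obtain ⟨C', hC', h2, -⟩ := (mBD n M h hh).1 H hH.toForm
    exact ⟨(C * (n + 1) + C')⁻¹, by positivity, fun G hG x =>
      I76.lo (hG.pos.ch x) (hh.pos.ch x) hC hC' (h1.ch x) (h2.ch x)⟩
  · obtain ⟨C, hC, h1, -⟩ := (mBD n M T hT).1 h hh.toForm
    obtain ⟨C', hC', h2, -⟩ := (mBD n M T hT).1 H hH.toForm
    exact ⟨C * C', by positivity, fun G hG x =>
      I76.hi (hG.pos.ch x) (hh.pos.ch x) (hT.pos.ch x) hC hC' (h1.ch x) (h2.ch x)⟩
  · have h1 := I76.tr_mono (I76.conj_psd (hG.pos.ch x) (hh.pos.ch x).posSemidef) (b := b) (c := 1)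
      (B := M.ev H x) (B' := M.ev R x) (by rwa [one_smul])
    rw [one_mul] at h1
    exact h1

end Pool.Agent.Lib.KP
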