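import Pool.Agent.Lib.KP.Blue
import Pool.Agent.Lib.KP.Kit

/-! Project kp71: existence of a weight. -/

open scoped Classical Topology ContDiff ComplexOrder Matrix ENNReal Manifold
open Set MeasureTheory Complex Metric Filter

noncomputable section

namespace Pool.Agent.Lib.KP

open Pool.Agent.Lib.SV (E nsq)
open Pool.Agent.Lib.HS32

namespace T56

variable {n : ℕ} {M : Mf n}

/-- A cut-off function vanishes near the points outside its chart. -/
theorem chi_zero [M.Cpt] (V : M.Cov) (a : Fin V.r) {x : M.X} (hx : x ∉ (V.e a).source) :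
    ∀ᶠ y in 𝓝 x, V.χ a y = 0 := by
  have hs := V.sub a
  have hK : IsCompact ((V.e a).symm '' closedBall (V.c a) (4 * V.ρ a)) :=
    (isCompact_closedBall _ _).image_of_continuousOn ((V.e a).continuousOn_symm.mono hs)
  have hx' : x ∈ ((V.e a).symm '' closedBall (V.c a) (4 * V.ρ a))ᶜ := by
    rintro ⟨w, hw, rfl⟩
    exact hx ((V.e a).map_target (hs hw))
  filter_upwards [hK.isClosed.isOpen_compl.mem_nhds hx'] with y hy
  by_contra h0
  obtain ⟨h1, h2⟩ := V.supp a y h0
  refine hy ⟨V.e a y, ?_, (V.e a).left_inv h1⟩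
  have hp := V.pos a
  exact ball_subset_closedBall.trans (closedBall_subset_closedBall (by linarith)) h2

end T56

theorem st_WT : St_WT := by
  intro n M _ L
  obtain ⟨V, -⟩ := (mCOV n M).2.2.1
  refine ⟨fun e z => ∑ a, V.χ a (e.symm z) ^ 2 * Real.log (normSq (L.c (V.e a) e (e.symm z))),
    fun e he z hz => ?_, fun e he e' he' x hx hx' => ?_⟩
  · refine ContDiffAt.sum fun a _ => ?_
    by_cases ha : e.symm z ∈ (V.e a).source
    · have h1 := L.hol _ (V.mem a) e he _ ha (e.map_target hz)
      have h2 := L.ne _ (V.mem a) e he _ ha (e.map_target hz)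
      beta_reduce at h1 h2
      rw [e.right_inv hz] at h1
      exact ((V.sm a e he z hz).pow 2).mul (((mHOL n _ _).2.2 h1).2.2.2 h2).1
    · have h1 : ∀ᶠ w in 𝓝 z, V.χ a (e.symm w) = 0 :=
        (e.continuousAt_symm hz).eventually (T56.chi_zero V a ha)
      refine (contDiffAt_const (c := (0 : ℝ))).congr_of_eventuallyEq ?_
      filter_upwards [h1] with w hw
      rw [hw]
      ring
  · have hs := V.sum x
    simp only [e.left_inv hx, e'.left_inv hx']
    rw [← one_mul (Real.log (normSq (L.c e e' x))), ← hs, Finset.sum_mul, ← Finset.sum_add_distrib]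
    refine Finset.sum_congr rfl fun a _ => ?_
    by_cases h0 : V.χ a x = 0
    · rw [h0]
      ring
    · have ha := (V.supp a x h0).1
      have h1 := L.mul _ (V.mem a) e he x ha hx e' he' hx'
      have h2 := L.ne _ (V.mem a) e he x ha hx
      have h3 := L.ne e he e' he' x hx hx'
      rw [h1, map_mul, Real.log_mul (mt normSq_eq_zero.1 h2) (mt normSq_eq_zero.1 h3), mul_add]

end Pool.Agent.Lib.KP
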