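import Pool.Agent.Lib.KP.Blue
import Pool.Agent.Lib.KP.Kit
import Pool.Agent.Lib.HS.B_SC5

/-! Project kp71: the scalars attached to sections. -/

open scoped Classical Topology ContDiff ComplexOrder Matrix
open Set MeasureTheory Complex Metric Filter Matrix

noncomputable section

namespace Pool.Agent.Lib.KP

open Pool.Agent.Lib.SV (E)
open Pool.Agent.Lib.HS32 Pool.Agent.Lib.HS32.Mf
open Pool.Agent.Lib.HS (db sc5_w sc5_dot sc5_form sc5_cdot)

namespace T32

variable {n : ℕ} {M : Mf n} {H : M.Fam (Mat n)} {L : M.Co} {φ : M.Fam ℝ} {s s' : M.Fam ℂ}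

theorem db_cmp (hs : M.SecC L s) : M.Ov fun e e' x =>
    db M s e' (e' x) = L.c e e' x • (M.J e e' x)ᴴ *ᵥ db M s e (e x) := by
  intro e he e' he' x hx hx'
  obtain ⟨h1, -⟩ := (mTR n M).2.1 e he e' he' x hx hx'
  obtain ⟨c1, -, -, -, -, -, -, -, -, c10, -⟩ := mCHN n _ _ h1
  have p : (e ∘ e'.symm) (e' x) = e x := by simp only [Function.comp, e'.left_inv hx']
  have ev : s e' =ᶠ[𝓝 (e' x)] fun w => (s e ∘ e ∘ e'.symm) w * L.c e e' (e'.symm w) :=
    hs.ev e he e' he' x hx hx'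
  have d1 : DifferentiableAt ℝ (s e) ((e ∘ e'.symm) (e' x)) := by
    rw [p]; exact cd_diff (AllOn.at hs.sm he hx)
  have d2 : DifferentiableAt ℂ (fun w => L.c e e' (e'.symm w)) (e' x) :=
    (L.hol e he e' he' x hx hx').self_of_nhds
  have d3 := d2.restrictScalars ℝ
  funext i
  change dzb i (s e') (e' x) = _
  rw [dzb_congr ev, dzb_mul (d1.comp _ (cd_diff c1)) d3, ((mHOL n _ _).1 d3).1 d2 i,
    (c10 _ d1 i).2, p, mul_zero, add_zero, mul_comm, e'.left_inv hx']
  simp only [Pi.smul_apply, smul_eq_mul, mulVec, dotProduct, conjTranspose_apply, db, Mf.J,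
    mul_comm]

theorem rep (hφ : M.WtC L φ) {N : M.Fam ℂ}
    (h1 : M.Ov fun e e' x => N e' (e' x) = star (L.c e e' x) * L.c e e' x * N e (e x))
    (h2 : M.All fun e z => ContDiffAt ℝ ∞ (N e) z) :
    M.Rep (M.ev fun e z => N e z * (Real.exp (-φ e z) : ℝ))
      (fun e z => N e z * (Real.exp (-φ e z) : ℝ)) ∧
      Continuous (M.ev fun e z => N e z * (Real.exp (-φ e z) : ℝ)) := by
  have i : M.Inv fun e z => N e z * (Real.exp (-φ e z) : ℝ) := by
    intro e he e' he' x hx hx'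
    have p := normSq_pos.2 (L.ne e he e' he' x hx hx')
    have a := hφ.cmp e he e' he' x hx hx'
    beta_reduce at a p ⊢
    have q : ((normSq (L.c e e' x) : ℝ) : ℂ) ≠ 0 := by exact_mod_cast p.ne'
    rw [h1 e he e' he' x hx hx', a, neg_add, Real.exp_add, Real.exp_neg (Real.log _),
      Real.exp_log p, star_def, ← normSq_eq_conj_mul_self, ofReal_mul, ofReal_inv]
    field_simp
  exact ⟨i.rep, (i.sm fun e he z hz =>
    (h2 e he z hz).mul (cd_ofReal (hφ.sm e he z hz).neg.exp)).continuous⟩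

theorem cdb (hs : M.SecC L s) : M.All fun e z => ContDiffAt ℝ ∞ (db M s e) z :=
  fun e he z hz => contDiffAt_pi.2 fun i => cd_dzb (hs.sm e he z hz) i

theorem cw (hH : M.Met H) (hs : M.SecC L s) :
    M.All fun e z => ContDiffAt ℝ ∞ (fun w => (H e w)⁻¹ *ᵥ db M s e w) z := fun e he z hz =>
  ((hH.sm e he z hz).inv (hH.det_ne e he z hz)).mulVec (cdb hs e he z hz)

end T32

open T32 in
theorem st_SC5 : St_SC5 := by
  intro n M H L φ s s' hH hφ hs hs'
  have hW : M.Ov fun e e' x => M.J e e' x *ᵥ (H e' (e' x))⁻¹ *ᵥ db M s e' (e' x) =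
      L.c e e' x • (H e (e x))⁻¹ *ᵥ db M s e (e x) := by
    intro e he e' he' x hx hx'
    rw [hH.cmp e he e' he' x hx hx', db_cmp hs e he e' he' x hx hx']
    exact sc5_w ((mTR n M).2.1 e he e' he' x hx hx').2.1 _ _
  have d := rep hφ (N := fun e z => star (db M s' e z) ⬝ᵥ (H e z)⁻¹ *ᵥ db M s e z)
    (fun e he e' he' x hx hx' => by
      beta_reduce
      rw [db_cmp hs' e he e' he' x hx hx', star_smul, smul_dotProduct, sc5_dot,
        hW e he e' he' x hx hx', dotProduct_smul, smul_eq_mul, smul_eq_mul, mul_assoc])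
    fun e he z hz => sc5_cdot (cdb hs' e he z hz) (cw hH hs e he z hz)
  have p := rep hφ (N := fun e z => s e z * star (s' e z)) (fun e he e' he' x hx hx' => by
      beta_reduce
      rw [hs.cmp e he e' he' x hx hx', hs'.cmp e he e' he' x hx hx', star_mul']
      ring) fun e he z hz => (hs.sm e he z hz).mul (cd_star (hs'.sm e he z hz))
  refine ⟨hs.sub hs', fun c => hs.smul c, hφ.nr_rep hs, (hφ.nr_sm hs).continuous, p.1, p.2, d.1,
    d.2, fun x => ?_, fun T hT => ?_⟩
  · have h0 := Complex.le_def.1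
      ((hH.ev_pos x).inv.posSemidef.dotProduct_mulVec_nonneg (M.ev (db M s) x))
    refine ⟨nrC_nonneg _ _ _, ?_, ?_, ?_, ?_, ?_⟩
    · rw [spC, Mf.nrC, star_def, mul_conj, ofReal_mul]
    · rw [dpC, re_mul_ofReal]; exact mul_nonneg h0.1 (Real.exp_pos _).le
    · rw [dpC, im_mul_ofReal, ← h0.2, zero_im, zero_mul]
    · rw [spC, Mf.nrC, Mf.nrC, normSq_mul, normSq_mul, star_def, normSq_conj, normSq_ofReal]
      ring
    · have : M.ev (db M (s' - s)) x = M.ev (db M s') x - M.ev (db M s) x := funext fun i =>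
        dzb_sub (cd_diff (AllOn.ch hs'.sm x)) (cd_diff (AllOn.ch hs.sm x))
      rw [dpC, dpC, dpC, this, star_sub, sub_dotProduct, sub_mul]
  · have w := rep hφ (N := fun e z =>
        star ((H e z)⁻¹ *ᵥ db M s e z) ⬝ᵥ T e z *ᵥ (H e z)⁻¹ *ᵥ db M s e z)
      (fun e he e' he' x hx hx' => by
        beta_reduce
        rw [hT.cmp e he e' he' x hx hx', sc5_form, hW e he e' he' x hx hx', star_smul,
          smul_dotProduct, mulVec_smul, dotProduct_smul, smul_eq_mul, smul_eq_mul, mul_assoc])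
      fun e he z hz => sc5_cdot (cw hH hs e he z hz) ((hT.sm e he z hz).mulVec (cw hH hs e he z hz))
    have q : wqC M H φ T s = fun x => (M.ev (fun e z => (star ((H e z)⁻¹ *ᵥ db M s e z) ⬝ᵥ
        T e z *ᵥ (H e z)⁻¹ *ᵥ db M s e z) * (Real.exp (-φ e z) : ℝ)) x).re :=
      funext fun x => (re_mul_ofReal _ _).symm
    rw [q]
    refine ⟨fun e he z hz => ?_, continuous_re.comp w.2⟩
    beta_reduce
    rw [w.1 e he z hz]
    exact re_mul_ofReal _ _

end Pool.Agent.Lib.KP
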