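import Pool.Agent.Lib.KP.Blue
import Pool.Agent.Lib.KP.Kit

/-! Project kp71, row HARM: a subharmonic function on a compact Kähler manifold is constant. -/

open scoped Classical Topology ContDiff
open Set MeasureTheory Metric Filter

noncomputable section

namespace Pool.Agent.Lib.KP

open Pool.Agent.Lib.SV (E)
open Pool.Agent.Lib.HS32

namespace T98

/-- A smooth non-negative function with integral zero vanishes. -/
theorem zero_of_int {n : ℕ} {M : Mf n} [M.Cpt] {H : M.Fam (Mat n)} (hH : M.Met H) {u : M.X → ℝ}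
    (hu : M.Sm u) (h0 : ∀ x, 0 ≤ u x) (hi : ∫ x, u x ∂M.mu H = 0) (x : M.X) : u x = 0 := by
  obtain ⟨-, -, hop, -, hint, -⟩ := mMU n M H hH
  have h1 := (integral_eq_zero_iff_of_nonneg (f := u) h0 (hint ℝ u hu.continuous)).1 hi
  exact congrFun ((hu.continuous.ae_eq_iff_eq (M.mu H) continuous_const).1 h1) x

end T98

theorem st_HARM : St_HARM := by
  intro n M _ H w hH hw h0
  have hM : M.Met H := hH.toMet
  obtain ⟨-, -, hl⟩ := mLAP n M w w hw hw
  obtain ⟨hls, hgs, hpt, -⟩ := hl H hM
  obtain ⟨g1, g2, -⟩ := (mGRN n M).2 H w w hH hw hw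
  have hlap := T98.zero_of_int hM hls h0 g1
  have hi : ∫ x, M.gr H w w x ∂M.mu H = 0 := by
    simp only [hlap, mul_zero, integral_zero] at g2
    linarith
  have hgr := T98.zero_of_int hM hgs (fun x => (hpt x 0).2.2.2.2.2.2.1) hi
  have hloc : IsLocallyConstant w := by
    refine (IsLocallyConstant.iff_eventually_eq w).2 fun x => ?_
    obtain ⟨e, he, hx⟩ := M.cov x
    obtain ⟨ρ, hρ, hb⟩ := nhds_basis_closedBall.mem_iff.1
      (e.open_target.mem_nhds (e.map_source hx))
    obtain ⟨C, -, hC⟩ := (mBD n M H hM).2.2.2 e he (e x) ρ hb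
    filter_upwards [e.open_source.mem_nhds hx,
      (e.continuousAt hx).preimage_mem_nhds (closedBall_mem_nhds (e x) hρ)] with y hy hy'
    have h := hC w 0 hw le_rfl (fun x => by rw [hgr x]; norm_num) (e y) hy' (e x)
      (mem_closedBall_self hρ.le)
    rw [e.left_inv hy, e.left_inv hx, mul_zero, zero_mul] at h
    exact sub_eq_zero.1 (abs_nonpos_iff.1 h)
  obtain ⟨x₀⟩ : Nonempty M.X := inferInstance
  exact ⟨w x₀, fun x => hloc.apply_eq_of_preconnectedSpace x x₀⟩

end Pool.Agent.Lib.KP
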