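import Pool.Agent.Lib.KP.SDefs
import Pool.Agent.Lib.TB.Defs
import Pool.Agent.Lib.HS.Blue5
import Pool.Agent.Lib.HS21.LBlue
import Pool.Agent.Lib.HS32.MAll
import Pool.Agent.Lib.HS78.Pt

/-! Project kp71: the objects. -/

open scoped Classical Topology ContDiff ComplexOrder Matrix ENNReal
open Set MeasureTheory Complex Metric Filter

set_option linter.unusedVariables false

noncomputable section

namespace Pool.Agent.Lib.HS32

open Pool.Agent.Lib.SV (E nsq)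
open Pool.Agent.Lib.HS78 (Eb)

namespace Mf

variable {n : ℕ} (M : Mf n)

/-! ### Line bundles -/

/-- A holomorphic cocycle. -/
structure Co where
  c : M.Ch → M.Ch → M.X → ℂ
  hol : M.Ov fun e e' x => HolN (fun w => c e e' (e'.symm w)) (e' x)
  ne : M.Ov fun e e' x => c e e' x ≠ 0
  mul : M.Ov fun e e' x => ∀ e'' ∈ M.C, x ∈ e''.source → c e e'' x = c e e' x * c e' e'' x

/-- Smooth sections. -/
structure SecC (L : M.Co) (s : M.Fam ℂ) : Prop where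
  sm : M.All fun e z => ContDiffAt ℝ ∞ (s e) z
  cmp : M.Ov fun e e' x => s e' (e' x) = s e (e x) * L.c e e' x

/-- Holomorphic sections. -/
structure HSecC (L : M.Co) (s : M.Fam ℂ) : Prop extends M.SecC L s where
  hol : M.All fun e z => DifferentiableAt ℂ (s e) z

/-- Smooth weights. -/
structure WtC (L : M.Co) (φ : M.Fam ℝ) : Prop where
  sm : M.All fun e z => ContDiffAt ℝ ∞ (φ e) z
  cmp : M.Ov fun e e' x => φ e' (e' x) = φ e (e x) + Real.log (normSq (L.c e e' x))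

variable {M} in
/-- The bundle `m K + L`. -/
def Co.tw (L : M.Co) (m : ℕ) : M.Co where
  c e e' x := (M.J e e' x).det ^ m * L.c e e' x
  hol e he e' he' x hx hx' := by
    obtain ⟨t1, -, -, t3, -⟩ := (mTR n M).2.1 e he e' he' x hx hx'
    have t4 := (mCHN n _ _ t1).2.2.2.2.1
    filter_upwards [t4, L.hol e he e' he' x hx hx', t3.eventually_nhds] with w h1 h2 h3
    refine ((h1.pow m).mul h2).congr_of_eventuallyEq (h3.mono fun y hy => ?_)
    simp only [hy.2.2.2.2.2.2, Pi.mul_apply, Pi.pow_apply]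
  ne e he e' he' x hx hx' :=
    mul_ne_zero (pow_ne_zero m ((mTR n M).2.1 e he e' he' x hx hx').2.1) (L.ne e he e' he' x hx hx')
  mul e he e' he' x hx hx' e'' he'' hx'' := by
    rw [((mTR n M).2.1 e he e' he' x hx hx').2.2.2.2 e'' he'' hx'',
      L.mul e he e' he' x hx hx' e'' he'' hx'', Matrix.det_mul]
    ring

variable {M} in
/-- The bundle `q L`. -/
def Co.pw (L : M.Co) (q : ℕ) : M.Co where
  c e e' x := L.c e e' x ^ q
  hol e he e' he' x hx hx' := (L.hol e he e' he' x hx hx').mono fun w h => h.pow q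
  ne e he e' he' x hx hx' := pow_ne_zero q (L.ne e he e' he' x hx hx')
  mul e he e' he' x hx hx' e'' he'' hx'' := by
    rw [L.mul e he e' he' x hx hx' e'' he'' hx'', mul_pow]

/-- The squared pointwise norm of a section. -/
def nrC (φ : M.Fam ℝ) (s : M.Fam ℂ) (x : M.X) : ℝ := normSq (M.ev s x) * Real.exp (-M.ev φ x)

/-- The `(0,1)` derivative of the section `σ` is bounded by `b` times the form `T`. -/
def DbC (φ : M.Fam ℝ) (σ : M.Fam ℂ) (b : M.X → ℝ) (T : M.Fam (Mat n)) : Prop :=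
  M.All fun e z => ∀ v : E n,
    normSq (∑ i, star (v i) * dzb i (σ e) z) * Real.exp (-φ e z) ≤ b (e.symm z) * nq (T e z) v

/-- An almost holomorphic section and weights with a pole at `x₀`. -/
def PeakC (L : M.Co) (φ : M.Fam ℝ) (x₀ : M.X) : Prop :=
  ∃ e ∈ M.C, x₀ ∈ e.source ∧ ∃ r C : ℝ, 0 < r ∧ 0 ≤ C ∧ ball (e x₀) r ⊆ e.target ∧
    ∀ q₀ : ℕ, ∃ q, q₀ ≤ q ∧ ∃ (σ : M.Fam ℂ) (K : Set M.X) (C' : ℝ), M.SecC (L.pw q) σ ∧
      σ e (e x₀) ≠ 0 ∧ DifferentiableOn ℂ (σ e) (ball (e x₀) r) ∧ IsClosed K ∧ 0 ≤ C' ∧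
      M.DbC ((q : ℝ) • φ) σ (K.indicator fun _ => C') (M.hw φ) ∧
      ∀ δ ∈ Ioc (0 : ℝ) 1, ∃ l : M.X → ℝ, M.Sm l ∧ M.Le 0 (C • M.hw φ + M.hs l) ∧
        (∀ z ∈ ball (e x₀) r, l (e.symm z) ≤ Real.log (nsq (z - e x₀) + δ) + C') ∧
        ∀ x ∈ K, -C' ≤ l x

/-- The bundle is semi-ample. -/
def SemiC (L : M.Co) : Prop := ∃ q, 0 < q ∧ ∀ x, ∃ s, M.HSecC (L.pw q) s ∧ M.ev s x ≠ 0

/-- Local integrability of a negative power. -/
def Lct (f : M.Fam ℂ) (c : ℝ) : Prop :=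
  ∀ x, ∃ e ∈ M.C, x ∈ e.source ∧ ∃ W ∈ 𝓝 (e x), ∫⁻ z in W, ‖f e z‖ₑ ^ (-2 * c) < ⊤

/-- A divisor and a weight. -/
structure Dw (L : M.Co) (f : M.Fam ℂ) (φ : M.Fam ℝ) : Prop where
  hol : M.HSecC L f
  wt : M.WtC L φ
  den : Dense {x | M.nrC φ f x ≠ 0}

/-- The covariant derivative of the section `f`. -/
def cv (φ : M.Fam ℝ) (f : M.Fam ℂ) : M.Fam (E n) :=
  fun e z j => dz j (f e) z - f e z * dz j (fun w => (φ e w : ℂ)) z

/-! ### The geometry -/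

/-- The output of the project tb33. -/
structure Kb0 (H P : M.Fam (Mat n)) (k : ℕ) (G : M.Fam (Mat n)) : Prop
    extends M.Pos H P k (fun _ => 0) G where
  ke : M.All fun e z => M.ric H e z = H e z * P e z - H e z

/-- The field `P H⁻¹ θ P`. -/
def qF (H P θ : M.Fam (Mat n)) : M.Fam (Mat n) := fun e z => P e z * (H e z)⁻¹ * θ e z * P e z

/-- The splitting of the flat factor. -/
structure Spl (H P : M.Fam (Mat n)) (k : ℕ) (θ P' : M.Fam (Mat n)) (k' : ℕ) (a : ℝ) : Prop where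
  flat : M.Flat H P' k'
  sub : M.All fun e z => P e z * P' e z = P' e z ∧ P' e z * P e z = P' e z
  a0 : 0 < a
  lo : M.All fun e z => ∀ v, P e z *ᵥ v = v → P' e z *ᵥ v = 0 → a * nq (H e z) v ≤ nq (θ e z) v
  tr0 : ∀ x, M.ip H (H * P') θ x = 0
  cst : ∀ e, M.Prod H P k e → ∀ z ∈ e.target, ∀ i, dM i (P' e) z = 0

/-- A form that is degenerate exactly on the image of `P`. -/
structure Deg (H P T : M.Fam (Mat n)) : Prop where
  met : M.Met H
  en : M.End P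
  idem : M.All fun e z => P e z * P e z = P e z
  herm : M.All fun e z => (H e z * P e z).IsHermitian
  form : M.Form T
  kill : M.All fun e z => T e z * P e z = 0
  pos : M.All fun e z => (T e z + H e z * P e z).PosDef

/-! ### The twisted equation -/

/-- A family of weights with almost positive curvature. -/
structure Apx (H B : M.Fam (Mat n)) (V : M.Cov) (ψ χ : ℝ → M.X → ℝ) (C a : ℝ) : Prop where
  c1 : 1 ≤ C
  a0 : 0 < a
  sm : ∀ t, M.Sm (ψ t)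
  ct : ∀ t, Continuous (χ t)
  x01 : ∀ t x, 0 ≤ χ t x ∧ χ t x ≤ 1
  bd : ∀ t, 1 ≤ t → ∀ x, -(C * t) ≤ ψ t x ∧ ψ t x ≤ C
  cur : ∀ t, 1 ≤ t → M.All fun e z =>
    (B e z + M.hs (ψ t) e z + (C * χ t (e.symm z)) • H e z).PosSemidef
  itg : ∀ t, 1 ≤ t → ∫ x, Real.exp (-ψ t x) ∂M.mu H ≤ C
  sml : ∀ t, 1 ≤ t → ∫ x, χ t x * Real.exp (-ψ t x) ∂M.mu H ≤ C * Real.exp (-(a * t))
  grd : ∀ t, 1 ≤ t → ∀ x, M.gr H (ψ t) (ψ t) x ≤ Real.exp (C * t) ^ 2
  d3 : ∀ t, 1 ≤ t → ∀ b, ∀ z ∈ closedBall (V.c b) (2 * V.ρ b),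
    Eb (Real.exp (C * t)) (M.hs (ψ t) (V.e b) z) ∧
      ∀ i, Eb (Real.exp (C * t)) (dM i (M.hs (ψ t) (V.e b)) z)

/-- `v` solves the equation with reference form `gB H B ε w` and weight `ψ`. -/
structure Tw (H B : M.Fam (Mat n)) (ε : ℝ) (w ψ v : M.X → ℝ) : Prop where
  sm : M.Sm v
  kae : M.Kae (M.gB H B ε w + M.hs v)
  det : ∀ x, M.dq H (M.gB H B ε w + M.hs v) x = Real.exp (v x + w x - ψ x)
  ric : M.All fun e z => M.ric (M.gB H B ε w + M.hs v) e z =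
    ε • H e z + B e z + M.hs ψ e z - (M.gB H B ε w + M.hs v) e z

/-- The data of part II. -/
structure Tw0 (H B : M.Fam (Mat n)) (V : M.Cov) (ψ χ : ℝ → M.X → ℝ) (C a ε : ℝ) (w : M.X → ℝ) :
    Prop extends M.Apx H B V ψ χ C a where
  n0 : 0 < n
  kH : M.Kae H
  cB : M.Clo B
  e0 : 0 < ε
  sw : M.Sm w
  kT : M.Kae (M.gB H B ε w)

/-! ### Developing maps -/

/-- The chart `e` is a local inverse of `Ψ`. -/
def IvC (Ψ : E n → M.X) (e : M.Ch) : Prop := e ∈ M.C ∧ ∀ w ∈ e.target, Ψ w = e.symm w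

variable {M} in
/-- `τ` is a period of `Ψ` in the image of `p`. -/
def PerC (p : Mat n) (Ψ : E n → M.X) (τ : E n) : Prop := p *ᵥ τ = τ ∧ ∀ z, Ψ (z + τ) = Ψ z

/-- A developing map of a tube. -/
structure DvC (p : Mat n) (Ψ : E n → M.X) (r : ℝ) (Q : M.Ch → Prop) : Prop where
  r0 : 0 < r
  idem : p * p = p
  loc : ∀ z, ‖z - p *ᵥ z‖ ≤ 3 * r → ∃ e, M.IvC Ψ e ∧ z ∈ e.target ∧ Q e
  lat : ∃ R : ℝ, ∀ v, ∃ τ, PerC p Ψ τ ∧ ‖p *ᵥ v - τ‖ ≤ R

/-- In the chart `e` the field `P` is the constant matrix `p`. -/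
def CsC (P : M.Fam (Mat n)) (p : Mat n) (e : M.Ch) : Prop := ∀ w ∈ e.target, P e w = p

/-- The closed set `K` separates the central leaf from the boundary of the tube. -/
structure Sep (p : Mat n) (Ψ : E n → M.X) (r₁ r₂ : ℝ) (K : Set M.X) : Prop where
  p1 : 0 < r₁
  p2 : 0 < r₂
  cl : IsClosed K
  ins : ∀ z, ‖z - p *ᵥ z‖ ≤ 2 * r₁ → Ψ z ∉ K → ‖z - p *ᵥ z‖ < r₁
  out : ∀ z, ‖z - p *ᵥ z‖ ≤ 2 * r₁ → Ψ z ∈ K → r₂ ≤ ‖z - p *ᵥ z‖

/-- The sheets over the points of the manifold. -/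
structure Fb (p : Mat n) (Ψ : E n → M.X) (r₁ : ℝ) (Q : M.Ch → Prop) (F : M.X → Finset (E n)) :
    Prop where
  mem : ∀ x, ∀ z ∈ F x, Ψ z = x ∧ ‖z - p *ᵥ z‖ ≤ 2 * r₁
  loc : ∀ x, ∃ (s : ℕ) (e : Fin s → M.Ch), (∀ b, M.IvC Ψ (e b) ∧ Q (e b) ∧ x ∈ (e b).source ∧
      ‖e b x - p *ᵥ e b x‖ ≤ 2 * r₁) ∧
    ∀ᶠ y in 𝓝 x, (∀ b, y ∈ (e b).source) ∧
      (∀ z, Ψ z = y → ‖z - p *ᵥ z‖ ≤ 2 * r₁ → ∃ b τ, PerC p Ψ τ ∧ e b y = z + τ) ∧
      ∀ u : E n → ℂ, (∀ z τ, PerC p Ψ τ → u (z + τ) = u z) →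
        (∀ z, 2 * r₁ < ‖z - p *ᵥ z‖ → u z = 0) → ∑ z ∈ F y, u z = ∑ b, u (e b y)

end Mf

end Pool.Agent.Lib.HS32

namespace Pool.Agent.Lib.HS21

open Pool.Agent.Lib.SV (E)
open Pool.Agent.Lib.HS32

variable {n : ℕ} {M : Mf n}

variable (M) in
/-- The group of smooth sections. -/
def secC (m : M.Co) : AddSubgroup (M.Fam ℂ) where
  carrier := {s | M.SecC m s}
  add_mem' := fun hs ht => ⟨fun e he z hz => (hs.sm e he z hz).add (ht.sm e he z hz),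
    fun e he e' he' x hx hx' => by
      simp only [Pi.add_apply, hs.cmp e he e' he' x hx hx', ht.cmp e he e' he' x hx hx', add_mul]⟩
  zero_mem' := ⟨fun e he z hz => contDiffAt_const, fun e he e' he' x hx hx' => by simp⟩
  neg_mem' := fun hs => ⟨fun e he z hz => (hs.sm e he z hz).neg,
    fun e he e' he' x hx hx' => by
      simp only [Pi.neg_apply, hs.cmp e he e' he' x hx hx', neg_mul]⟩

/-- An elliptic operator with smooth coefficients on the sections. -/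
structure Op.OkC (L : Op M) (m : M.Co) : Prop where
  smW : M.All fun e z => SmM (L.W e) z
  pos : M.All fun e z => (L.W e z).PosDef
  smb : M.All fun e z => ∀ j, ContDiffAt ℝ ∞ (fun w => L.b e w j) z
  smb' : M.All fun e z => ∀ j, ContDiffAt ℝ ∞ (fun w => L.b' e w j) z
  smc : M.All fun e z => ContDiffAt ℝ ∞ (L.c e) z
  sec : ∀ s, M.SecC m s → M.SecC m (L.ap s)

/-- The uniform norm is controlled by the shifted operators, for all shifts at least `t`. -/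
def Op.InjC (L : Op M) (V : M.Cov) (m : M.Co) (t : ℝ) : Prop :=
  ∀ ε, 0 < ε → ∃ C, 0 ≤ C ∧ ∀ τ, t ≤ τ → ∀ s B B', M.SecC m s → GH V 0 s B →
    GS V (L.sh τ s) B' → GS V s (ε * B + C * B')

end Pool.Agent.Lib.HS21

namespace Pool.Agent.Lib.KP

open Pool.Agent.Lib.SV (E)
open Pool.Agent.Lib.HS32 Pool.Agent.Lib.HS21
open Pool.Agent.Lib.HS (db)

variable {n : ℕ} (M : Mf n)

/-- Minus the `∂bar` Laplace operator on sections. -/
def boxC (H : M.Fam (Mat n)) (φ : M.Fam ℝ) : Op M :=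
  ⟨fun e z => (H e z)⁻¹, 0,
    fun e z j => -∑ i, dz i (fun w => (φ e w : ℂ)) z * (H e z)⁻¹ i j, 0⟩

/-- Pointwise product of two sections. -/
def spC (φ : M.Fam ℝ) (s s' : M.Fam ℂ) (x : M.X) : ℂ :=
  M.ev s x * star (M.ev s' x) * (Real.exp (-M.ev φ x) : ℝ)

/-- Pointwise product of the `(0,1)` derivatives of two sections. -/
def dpC (H : M.Fam (Mat n)) (φ : M.Fam ℝ) (s s' : M.Fam ℂ) (x : M.X) : ℂ :=
  (star (M.ev (db M s') x) ⬝ᵥ (M.ev H x)⁻¹ *ᵥ M.ev (db M s) x) * (Real.exp (-M.ev φ x) : ℝ)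

/-- The form `T` evaluated on the vector field dual to the `(0,1)` derivative of a section. -/
def wqC (H : M.Fam (Mat n)) (φ : M.Fam ℝ) (T : M.Fam (Mat n)) (s : M.Fam ℂ) (x : M.X) : ℝ :=
  nq (M.ev T x) ((M.ev H x)⁻¹ *ᵥ M.ev (db M s) x) * Real.exp (-M.ev φ x)

end Pool.Agent.Lib.KP
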