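import Pool.Agent.Lib.KP.Blue
import Pool.Agent.Lib.KP.Kit
import Pool.Agent.Lib.SV.Ext85

open scoped Classical Topology ENNReal
open Set MeasureTheory Metric Filter

noncomputable section

namespace Pool.Agent.Lib.KP

theorem st_REX : St_REX := by
  intro n f g z C hf hg hb h0
  obtain ⟨r, r0, hr⟩ := Metric.eventually_nhds_iff_ball.1 (hf.and (hg.and hb))
  obtain ⟨G, hG⟩ := SV.H85.ext_local volume (f := fun w => f w / g w) (j := g) isOpen_ball
    (fun w hw => (hr w hw).2.1.differentiableWithinAt)
    (fun w hw => by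
      simpa only [div_eq_mul_inv] using
        ((hr w hw.1).1.fun_mul ((hr w hw.1).2.1.fun_inv hw.2)).differentiableWithinAt)
    (by
      refine ne_top_of_le_ne_top ?_ (setLIntegral_mono (g := fun _ => ENNReal.ofReal (C ^ 2))
        measurable_const fun w hw => ENNReal.ofReal_le_ofReal
          (pow_le_pow_left₀ (norm_nonneg _) ?_ 2))
      · rw [setLIntegral_const]
        exact ENNReal.mul_ne_top ENNReal.ofReal_ne_top (ne_top_of_le_ne_top
          (measure_ball_lt_top (x := z) (r := r)).ne (measure_mono fun w hw => hw.1))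
      · rw [norm_div, div_le_iff₀ (norm_pos_iff.2 hw.2)]
        exact (hr w hw.1).2.2)
    (mem_ball_self r0) (not_eventually.2 h0)
  refine ⟨G, hG.mono fun w h => h.1, ?_⟩
  filter_upwards [hG, hb] with w h1 h2
  by_cases h : g w = 0
  · rw [h, norm_zero, mul_zero, norm_le_zero_iff] at h2
    rw [h, h2, mul_zero]
  · rw [h1.2 h, div_mul_cancel₀ _ h]

end Pool.Agent.Lib.KP
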