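import Pool.Agent.Lib.KP.Blue
import Pool.Agent.Lib.KP.Kit

/-! Project kp71: extension of a section from a dense set. -/

open scoped Classical Topology ContDiff
open Set Filter

noncomputable section

namespace Pool.Agent.Lib.KP

open Pool.Agent.Lib.SV (E)
open Pool.Agent.Lib.HS32

namespace T73

lemma eq_of_dense {X : Type} [TopologicalSpace X] {U : Set X} (hU : Dense U) {f g : X → ℂ} {x : X}
    (hf : ContinuousAt f x) (hg : ContinuousAt g x) (h : ∀ᶠ y in 𝓝 x, y ∈ U → f y = g y) :
    f x = g x := by
  have : (𝓝[U] x).NeBot := mem_closure_iff_nhdsWithin_neBot.mp (hU x)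
  exact tendsto_nhds_unique_of_eventuallyEq (l := 𝓝[U] x) hf.continuousWithinAt
    hg.continuousWithinAt (eventually_nhdsWithin_iff.mpr h)

end T73

theorem st_EXTD : St_EXTD := by
  intro n M L U s hU hc hS
  choose! S h1 h2 using hS
  have c1 : ∀ e ∈ M.C, ∀ x ∈ e.source, ContinuousAt (fun y => S e x (e y)) x := fun e he x hx =>
    (h1 e he x hx).self_of_nhds.continuousAt.comp (e.continuousAt hx)
  have key : ∀ e ∈ M.C, ∀ x ∈ e.source, ∀ S' : E n → ℂ, (∀ᶠ w in 𝓝 (e x), ContinuousAt S' w) →
      (∀ᶠ y in 𝓝 x, y ∈ U → s e y = S' (e y)) →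
      (fun z => S e (e.symm z) z) =ᶠ[𝓝 (e x)] S' := by
    intro e he x hx S' a1 a2
    filter_upwards [a1, (e.tendsto_symm hx).eventually a2.eventually_nhds,
      e.open_target.mem_nhds (e.map_source hx)] with w b1 b2 b3
    have hy := e.map_target b3
    have := T73.eq_of_dense hU (c1 e he _ hy) (g := fun y => S' (e y))
      (ContinuousAt.comp (by rwa [e.right_inv b3]) (e.continuousAt hy)) (by
        filter_upwards [b2, h2 e he _ hy] with y d1 d2 d3
        rw [← d1 d3, ← d2 d3])
    simpa only [e.right_inv b3] using this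
  refine ⟨fun e z => S e (e.symm z) z, ⟨fun e he z hz => ?_, fun e he e' he' x hx hx' => ?_⟩, key⟩
  · have hy := e.map_target hz
    have a1 := h1 e he _ hy
    have a2 := key e he _ hy _ (a1.mono fun w hw => hw.continuousAt) (h2 e he _ hy)
    rw [e.right_inv hz] at a1 a2
    exact a1.self_of_nhds.congr_of_eventuallyEq a2
  · have a1 : ContinuousAt (L.c e e') x :=
      ((L.hol e he e' he' x hx hx').self_of_nhds.continuousAt.comp (e'.continuousAt hx')).congr
        ((e'.eventually_left_inverse hx').mono fun y hy => congrArg (L.c e e') hy)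
    simp only [e.left_inv hx, e'.left_inv hx']
    refine T73.eq_of_dense hU (c1 e' he' x hx') (g := fun y => S e x (e y) * L.c e e' y)
      ((c1 e he x hx).mul a1) ?_
    filter_upwards [h2 e he x hx, h2 e' he' x hx', e.open_source.mem_nhds hx,
      e'.open_source.mem_nhds hx'] with y d1 d2 d3 d4 d5
    rw [← d1 d5, ← d2 d5, hc e he e' he' y d3 d4 d5]

end Pool.Agent.Lib.KP
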