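import Pool.Agent.Lib.TB.SDefs

/-! Definitions used in the statement: divisors given by local equations, the klt condition, and
sections of `r (m K + D)`. -/

open scoped Topology ENNReal
open MeasureTheory

noncomputable section

namespace Pool.Agent.Lib.KP

open Pool.Agent.Lib.SV

variable (n : ℕ) {X ι : Type} [TopologicalSpace X] [ChartedSpace (E n) X]

/-- `s` is holomorphic at `x` as a section of the `a`-th power of the canonical bundle: `s y` is
the coefficient at `y` in the preferred chart of `y`. For `a = 0`, `s` is a function. -/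
def HolAt (a : ℕ) (s : X → ℂ) (x : X) : Prop := DifferentiableAt ℂ
  (fun z => s ((chartAt (E n) x).symm z) * jacAt n X x z ^ a) (chartAt (E n) x x)

/-- The functions `f i` on the open sets `U i` of a covering are local equations of an effective
divisor `D`, and the pair `(X, D / m)` is klt: `|f i| ^ (-2 c)` is locally integrable for some
`c > 1 / m`. -/
structure Klt (m : ℕ) (U : ι → Set X) (f : ι → X → ℂ) : Prop where
  opn : ∀ i, IsOpen (U i)
  cov : ∀ x, ∃ i, x ∈ U i
  hol : ∀ i, ∀ x ∈ U i, HolAt n 0 (f i) x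
  unit : ∀ i j, ∃ u : X → ℂ, ∀ x ∈ U i ∩ U j, HolAt n 0 u x ∧ u x ≠ 0 ∧ f i x = u x * f j x
  lct : ∃ c : ℝ, 1 / m < c ∧ ∀ i, ∀ x ∈ U i, ∃ W ∈ 𝓝 (chartAt (E n) x x),
    ∫⁻ z in W, ‖f i ((chartAt (E n) x).symm z)‖ₑ ^ (-2 * c) < ⊤

/-- `s` is a holomorphic section of `a K + r D`: the holomorphic forms `s i` on `U i` are such
that the meromorphic forms `s i / f i ^ r` agree. -/
structure PairSec (a r : ℕ) (U : ι → Set X) (f s : ι → X → ℂ) : Prop where
  hol : ∀ i, ∀ x ∈ U i, HolAt n a (s i) x
  glue : ∀ i j, ∀ x ∈ U i ∩ U j, s i x * f j x ^ r = s j x * f i x ^ r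

end Pool.Agent.Lib.KP
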