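import Pool.Agent.Lib.KP.Blue
import Pool.Agent.Lib.KP.Kit
import Pool.Agent.Lib.TB.B_TBR

/-! Project kp71: from the statement to the manifold layer and back. -/

open scoped Classical Topology ContDiff ComplexOrder Matrix Manifold ENNReal
open Set Complex Filter MeasureTheory

noncomputable section

namespace Pool.Agent.Lib.KP

open Pool.Agent.Lib.SV (E jacAt)
open Pool.Agent.Lib.HS32 Pool.Agent.Lib.GH Pool.Agent.Lib.HS.BBR Pool.Agent.Lib.RB
open Pool.Agent.Lib.RB.R32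

namespace T6

variable {n : ℕ} {ι : Type}

theorem restr (M : Mf n) {U : ι → Set M.X} (ho : ∀ i, IsOpen (U i)) (hc : ∀ x, ∃ i, x ∈ U i)
    {e : M.Ch} (he : e ∈ M.C) {x : M.X} (hx : x ∈ e.source) :
    ∃ e' : M.Ch, (e' ∈ M.C ∧ ∃ i, e'.source ⊆ U i) ∧ x ∈ e'.source ∧ (e' : M.X → E n) = e ∧
      (e'.symm : E n → M.X) = e.symm := by
  obtain ⟨i, hi⟩ := hc x
  obtain ⟨e', h1, -, h2, h3, h4⟩ := Mf.exists_restr he (e.isOpen_inter_preimage_symm (ho i))
  refine ⟨e', ⟨h1, i, fun y hy => ?_⟩, ?_, funext h3, funext h4⟩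
  · rw [h2] at hy
    have := hy.2.2
    rwa [mem_preimage, e.left_inv hy.1] at this
  · rw [h2]
    exact ⟨hx, e.map_source hx, by rwa [mem_preimage, e.left_inv hx]⟩

/-- The atlas of the charts whose source lies in a member of the covering. -/
def rs (M : Mf n) {U : ι → Set M.X} (ho : ∀ i, IsOpen (U i)) (hc : ∀ x, ∃ i, x ∈ U i) : Mf n where
  X := M.X
  C := {e | e ∈ M.C ∧ ∃ i, e.source ⊆ U i}
  cov x := by
    obtain ⟨e, he, hx⟩ := M.cov x
    obtain ⟨e', h1, h2, -⟩ := restr M ho hc he hx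
    exact ⟨e', h1, h2⟩
  hol e he e' he' := M.hol e he.1 e' he'.1
  sat e he ψ h1 h2 := ⟨M.sat e he.1 ψ h1 h2, he.2.imp fun _ hi => inter_subset_left.trans hi⟩

variable {X : Type} [TopologicalSpace X] [ChartedSpace (E n) X]

theorem hol0 {v : X → ℂ} {x : X} (h : HolAt n 0 v x) :
    DifferentiableAt ℂ (fun z => v ((chartAt (E n) x).symm z)) (chartAt (E n) x x) := by
  simpa only [HolAt, pow_zero, mul_one] using h

theorem hol_cont {v : X → ℂ} {x : X} (h : HolAt n 0 v x) : ContinuousAt v x := by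
  have hx := mem_chart_source (E n) x
  refine ((hol0 h).continuousAt.comp ((chartAt (E n) x).continuousAt hx)).congr ?_
  filter_upwards [(chartAt (E n) x).open_source.mem_nhds hx] with y hy
  simp only [Function.comp_apply, (chartAt (E n) x).left_inv hy]

theorem hol_chart {v : X → ℂ} {e : OpenPartialHomeomorph X (E n)}
    (he : ∀ x, Cp (chartAt (E n) x) e) {z : E n} (hz : z ∈ e.target) (h : HolAt n 0 v (e.symm z)) :
    DifferentiableAt ℂ (fun w => v (e.symm w)) z := by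
  have hy := mem_chart_source (E n) (e.symm z)
  refine (DifferentiableAt.comp z (g := fun w => v ((chartAt (E n) (e.symm z)).symm w))
    (hol0 h) ((he _).at hz hy)).congr_of_eventuallyEq ?_
  filter_upwards [(e.isOpen_inter_preimage_symm (chartAt (E n) (e.symm z)).open_source).mem_nhds
    ⟨hz, hy⟩] with w hw
  simp only [Function.comp_apply, (chartAt (E n) (e.symm z)).left_inv hw.2]

theorem freq {v : X → ℂ} {x : X} {c : ℝ} (hc : 0 < c) {W : Set (E n)}
    (hW : W ∈ 𝓝 (chartAt (E n) x x))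
    (h : ∫⁻ z in W, ‖v ((chartAt (E n) x).symm z)‖ₑ ^ (-2 * c) < ⊤) : ∃ᶠ y in 𝓝 x, v y ≠ 0 := by
  intro h0
  have h1 := ((chartAt (E n) x).tendsto_symm (mem_chart_source (E n) x)).eventually h0
  obtain ⟨V, hV, h2, h3⟩ := mem_nhds_iff.1 (inter_mem hW h1)
  refine h.ne (top_le_iff.1 (le_trans ?_ (lintegral_mono_set (hV.trans inter_subset_left))))
  rw [setLIntegral_congr_fun (g := fun _ => ⊤) h2.measurableSet fun z hz => by
    have : v ((chartAt (E n) x).symm z) = 0 := not_not.1 (hV hz).2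
    simp only [this, enorm_zero]
    exact ENNReal.zero_rpow_of_neg (by linarith)]
  rw [setLIntegral_const, ENNReal.top_mul (h2.measure_pos volume ⟨_, h3⟩).ne']

end T6

open T6 in
theorem st_BRG : St_BRG := by
  intro n X ι _ _ _ _ _ _ g h m U f hg hh hr hm hK
  let M : Mf n := rs (mf n X) (U := U) hK.opn hK.cov
  have hc : ∀ x : X, chartAt (E n) x ∈ (mf n X).C := fun x y => ⟨cp_chart x y, cp_chart y x⟩
  obtain ⟨r, r1, r2, r3, r4⟩ : ∃ r : X → OpenPartialHomeomorph X (E n), (∀ x, r x ∈ M.C) ∧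
      (∀ x, x ∈ (r x).source) ∧ (∀ x, (r x : X → E n) = chartAt (E n) x) ∧
      ∀ x, ((r x).symm : E n → X) = (chartAt (E n) x).symm := by
    choose r r1 r2 r3 r4 using fun x : X =>
      restr (mf n X) (U := U) hK.opn hK.cov (hc x) (mem_chart_source (E n) x)
    exact ⟨r, r1, r2, r3, r4⟩
  have hι : ∀ e : M.Ch, ∃ i, e ∈ M.C → e.source ⊆ U i := fun e => by
    by_cases he : e ∈ M.C
    · exact he.2.imp fun _ hi _ => hi
    · obtain ⟨x⟩ : Nonempty X := inferInstance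
      exact (hK.cov x).imp fun _ _ h => absurd h he
  choose i hi using hι
  choose u hu using hK.unit
  obtain ⟨c, c1, c2⟩ := hK.lct
  have c0 : 0 < c := lt_of_le_of_lt (by positivity) c1
  have coc : ∀ a b d, ∀ x ∈ U a, x ∈ U b → x ∈ U d → u a d x = u a b x * u b d x := by
    intro a b d x ha hb hd
    obtain ⟨W, hW, hW'⟩ := c2 d x hd
    refine tendsto_nhds_unique_of_frequently_eq (l := 𝓝 x) (hol_cont (hu a d x ⟨ha, hd⟩).1)
      ((hol_cont (hu a b x ⟨ha, hb⟩).1).mul (hol_cont (hu b d x ⟨hb, hd⟩).1)) ?_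
    refine ((freq c0 hW hW').and_eventually ((((hK.opn a).inter (hK.opn b)).inter
      (hK.opn d)).mem_nhds ⟨⟨ha, hb⟩, hd⟩)).mono fun y hy => mul_right_cancel₀ hy.1 ?_
    obtain ⟨-, ⟨ya, yb⟩, yd⟩ := hy
    rw [← (hu a d y ⟨ya, yd⟩).2.2, Pi.mul_apply, mul_assoc, ← (hu b d y ⟨yb, yd⟩).2.2, ← (hu a b y ⟨ya, yb⟩).2.2]
  obtain ⟨-, hov, -⟩ := mTR n M
  let L : M.Co :=
    { c := fun e e' x => u (i e') (i e) x
      hol := fun e he e' he' x hx hx' => by
        filter_upwards [(hov e he e' he' x hx hx').2.2.2.1] with w hw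
        exact hol_chart (fun y => (he'.1 y).2) hw.1
          (hu _ _ _ ⟨hi e' he' hw.2.2.1, hi e he hw.2.1⟩).1
      ne := fun e he e' he' x hx hx' => (hu _ _ _ ⟨hi e' he' hx', hi e he hx⟩).2.1
      mul := fun e he e' he' x hx hx' e'' he'' hx'' =>
        (coc _ _ _ x (hi e'' he'' hx'') (hi e' he' hx') (hi e he hx)).trans (mul_comm _ _) }
  have f1 : M.All fun e z => DifferentiableAt ℂ (fun w => f (i e) (e.symm w)) z :=
    fun e he z hz => hol_chart (fun y => (he.1 y).2) hz (hK.hol _ _ (hi e he (e.map_target hz)))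
  obtain ⟨g1, g2, -⟩ := fam_ok hg.toHermitian
  have met : ∀ T, (mf n X).Met T → M.Met T := fun T k =>
    ⟨⟨⟨fun e he => k.sm e he.1, fun e he e' he' => k.cmp e he.1 e' he'.1⟩,
      fun e he => k.herm e he.1⟩, fun e he => k.pos e he.1⟩
  refine ⟨M, ⟨‹_›, ‹_›, ‹_›⟩, fam (X := X) g, fam (X := X) h, L, fun e z => f (i e) (e.symm z), c,
    ⟨⟨(met _ g1).toForm, fun e he => g2 hg e he.1⟩, (met _ g1).pos⟩, met _ (fam_ok hh).1,
    fun e he => TB.T12.fam_trb hh hr e he.1,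
    ⟨⟨fun e he z hz => ((mHOL n _ _).2.2 (f1.ev he hz)).1, fun e he e' he' x hx hx' => ?_⟩, f1⟩,
    c1, fun x : X => ⟨r x, r1 x, r2 x, ?_⟩, ?_⟩
  · beta_reduce
    rw [e.left_inv hx, e'.left_inv hx', mul_comm]
    exact (hu _ _ x ⟨hi e' he' hx', hi e he hx⟩).2.2
  · have := c2 _ x (hi _ (r1 x) (r2 x))
    rw [← r3, ← r4] at this
    exact this
  rintro ⟨q, hq, hS⟩
  refine ⟨q, hq, fun j x hx => ?_⟩
  obtain ⟨s, h1, h2⟩ := hS x
  have ri : ∀ y, y ∈ U (i (r y)) := fun y => hi _ (r1 y) (r2 y)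
  refine ⟨fun a y => s (r y) (r y y) * u a (i (r y)) y ^ q, ⟨fun a y hy => ?_, fun a b y hy => ?_⟩,
    mul_ne_zero ((h1.toSecC.ne_iff (r1 x) (r2 x)).1 h2)
      (pow_ne_zero _ (hu _ _ x ⟨hx, ri x⟩).2.1)⟩
  · have k1 : DifferentiableAt ℂ (s (r y)) (r y y) :=
      h1.hol _ (r1 y) _ ((r y).map_source (r2 y))
    have k2 := (hol0 (hu _ _ y ⟨hy, ri y⟩).1).pow q
    have k3 := (r y).isOpen_inter_preimage_symm (hK.opn a)
    have k4 : r y y ∈ (r y).target ∩ (r y).symm ⁻¹' U a :=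
      ⟨(r y).map_source (r2 y), by rwa [mem_preimage, (r y).left_inv (r2 y)]⟩
    have k5 := k3.mem_nhds k4
    rw [r3] at k1 k5
    refine (k1.mul k2).congr_of_eventuallyEq ?_
    filter_upwards [k5] with w hw
    have h3 := (r y).map_target hw.1
    have h4 : s (r y) (r y ((r y).symm w)) =
        s (r ((r y).symm w)) (r ((r y).symm w) ((r y).symm w)) *
          ((jm (r ((r y).symm w) ∘ (r y).symm) (r y ((r y).symm w))).det ^ m *
            u (i (r y)) (i (r ((r y).symm w))) ((r y).symm w)) ^ q :=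
      h1.cmp _ (r1 ((r y).symm w)) _ (r1 y) _ (r2 _) h3
    have h5 : HolN (r ((r y).symm w) ∘ (r y).symm) (r y ((r y).symm w)) :=
      (hov _ (r1 ((r y).symm w)) _ (r1 y) _ (r2 _) h3).1
    have h6 := coc _ _ _ ((r y).symm w) hw.2 (hi _ (r1 y) h3) (ri _)
    rw [(r y).right_inv hw.1] at h4 h5
    rw [← (mCHN n _ _ h5).2.2.2.2.2.2.1] at h4
    have h7 : jacAt n X y w = (fderiv ℂ (r ((r y).symm w) ∘ (r y).symm) w).det := by
      rw [r3, r4]
      rfl
    rw [Pi.mul_apply, Pi.pow_apply, h4, h7, ← r4, h6]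
    ring
  · rw [(hu b _ y ⟨hy.2, ri y⟩).2.2, (hu a _ y ⟨hy.1, ri y⟩).2.2]
    ring

end Pool.Agent.Lib.KP
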