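import Pool.Agent.Lib.KP.Blue
import Pool.Agent.Lib.KP.Kit
import Pool.Agent.Lib.HS76.Diag

/-! Project kp71, row APA: bounds for the maximum and the minimum. -/

open scoped Classical Topology ContDiff ComplexOrder Matrix ENNReal
open Set MeasureTheory Complex Metric Filter

noncomputable section

namespace Pool.Agent.Lib.KP.T54

open Pool.Agent.Lib.HS32

variable {n : ℕ} {M : Mf n} {H S T : M.Fam (Mat n)}

theorem dq_eq (hH : M.Met H) (hT : M.Met T) (x : M.X) :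
    M.dq H T x = (M.ev T x).det.re / (M.ev H x).det.re := by
  rw [Mf.dq, ← Mf.herm_det (hH.ev_pos x).1, ← Mf.herm_det (hT.ev_pos x).1, ← ofReal_div,
    ofReal_re, ofReal_re, ofReal_re]

theorem dq_mono (hH : M.Met H) (hS : M.Met S) (hT : M.Met T) (x : M.X)
    (h : (M.ev T x - M.ev S x).PosSemidef) : M.dq H S x ≤ M.dq H T x := by
  rw [dq_eq hH hS, dq_eq hH hT]
  exact div_le_div_of_nonneg_right (HS76.det_mono (hS.ev_pos x) h)
    (Mf.pd_det_re (hH.ev_pos x)).le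

end Pool.Agent.Lib.KP.T54

namespace Pool.Agent.Lib.KP

open Pool.Agent.Lib.HS32 T54

theorem st_APA : St_APA := by
  intro n M _ H B V ψ χ C a ε w h
  obtain ⟨T, hT⟩ : ∃ T, T = M.gB H B ε w := ⟨_, rfl⟩
  have kT : M.Kae T := hT ▸ h.kT
  have mH := h.kH.toMet
  have mT := kT.toMet
  have qpos : ∀ x, 0 < M.dq H T x := ((mINV n M H mH).2.2.2.2.2.2.2 T mT).1
  have qsm : M.Sm (M.dq H T) := ((mINV n M H mH).1 T mT.toForm.toTen).2.2.2.1
  have lsm : M.Sm fun x => Real.log (M.dq H T x) :=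
    ((mHES n M).2.2.2.2.2.2.2.2.2 T H mT mH).1
  obtain ⟨A, hA0, hA⟩ := lsm.exists_bound
  obtain ⟨A', hA0', hA'⟩ := h.sw.exists_bound
  obtain ⟨-, hfin, hop, -, hint, -⟩ := mMU n M H mH
  have I0 : 0 < ∫ x, M.dq H T x ∂M.mu H :=
    qsm.continuous.integral_pos_of_hasCompactSupport_nonneg_nonzero
      (HasCompactSupport.of_compactSpace _) (fun x => (qpos x).le) (qpos (Classical.arbitrary _)).ne'
  obtain ⟨I, hI⟩ : ∃ I, I = ∫ x, M.dq H T x ∂M.mu H := ⟨_, rfl⟩
  rw [← hI] at I0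
  have c1 := h.c1
  have hL := abs_nonneg (Real.log (I / C))
  refine ⟨A + A' + C + |Real.log (I / C)|, by linarith, fun t ht v hv => ?_⟩
  have kG : M.Kae (T + M.hs v) := hT ▸ hv.kae
  have hdet : ∀ x, M.dq H (T + M.hs v) x = Real.exp (v x + w x - ψ t x) := hT ▸ hv.det
  have hlap := ((mLAP n M v v hv.sm hv.sm).2.2 H mH).2.2.1
  have hl : ∀ x, -A ≤ Real.log (M.dq H T x) ∧ Real.log (M.dq H T x) ≤ A := fun x =>
    abs_le.1 (hA x)
  have hw : ∀ x, -A' ≤ w x ∧ w x ≤ A' := fun x => abs_le.1 (hA' x)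
  obtain ⟨x₁, hx₁⟩ := hv.sm.exists_max
  obtain ⟨x₀, hx₀⟩ := hv.sm.exists_min
  have up : v x₁ ≤ A + A' + C := by
    have h1 := ((hlap x₁ 0).2.2.2.2.2.2.2.2.1 (Eventually.of_forall hx₁)).2.2 _
      (Mf.ch_mem x₁) (Mf.mem_ch x₁)
    have h2 := dq_mono mH kG.toMet mT x₁ (by
      convert h1 using 1
      simp only [Mf.ev, Pi.add_apply]
      abel)
    rw [hdet, ← Real.le_log_iff_exp_le (qpos x₁)] at h2
    linarith [(hl x₁).2, (hw x₁).1, (h.bd t ht x₁).2]
  have lo : -(A + A' + C * t) ≤ v x₀ := by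
    have h1 := ((hlap x₀ 0).2.2.2.2.2.2.2.2.2 (Eventually.of_forall hx₀)).2.2 _
      (Mf.ch_mem x₀) (Mf.mem_ch x₀)
    have h2 := dq_mono mH mT kG.toMet x₀ (by
      convert h1 using 1
      simp only [Mf.ev, Pi.add_apply]
      abel)
    rw [hdet, ← Real.log_le_iff_le_exp (qpos x₀)] at h2
    linarith [(hl x₀).1, (hw x₀).2, (h.bd t ht x₀).1]
  have mx : Real.log (I / C) ≤ v x₁ + A' := by
    have h1 := mCOH n M H T v mH kT.toClo hv.sm
    rw [← hI] at h1
    simp only [hdet] at h1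
    have cψ := (h.sm t).continuous
    have cv := hv.sm.continuous
    have cw := h.sw.continuous
    have h2 : ∫ x, Real.exp (v x + w x - ψ t x) ∂M.mu H ≤
        ∫ x, Real.exp (v x₁ + A') * Real.exp (-ψ t x) ∂M.mu H := by
      refine integral_mono (hint ℝ _ (by fun_prop)) (hint ℝ _ (by fun_prop)) fun x => ?_
      beta_reduce
      rw [← Real.exp_add]
      exact Real.exp_le_exp.2 (by linarith [hx₁ x, (hw x).2])
    rw [integral_const_mul, h1] at h2
    have h3 := mul_le_mul_of_nonneg_left (h.itg t ht) (Real.exp_pos (v x₁ + A')).le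
    rw [Real.log_le_iff_le_exp (div_pos I0 (by linarith)), div_le_iff₀ (by linarith)]
    linarith
  refine ⟨x₁, hx₁, abs_le.2 ⟨?_, by linarith⟩, fun x => ?_⟩
  · linarith [neg_abs_le (Real.log (I / C))]
  · have h1 := hx₀ x
    nlinarith

end Pool.Agent.Lib.KP
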