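import Pool.Agent.Lib.KP.Blue
import Pool.Agent.Lib.KP.Kit

/-! Row BLK: forms that vanish on the image of the projection. -/

open scoped Classical ComplexOrder Matrix
open Set Complex

noncomputable section

namespace Pool.Agent.Lib.KP

open Pool.Agent.Lib.SV (E)
open Pool.Agent.Lib.HS32

namespace T68

variable {n : ℕ} {H P T : Mat n}

theorem left0 (hT : T.IsHermitian) (h : T * P = 0) : Pᴴ * T = 0 := by
  rw [← hT.eq, ← Matrix.conjTranspose_mul, h, Matrix.conjTranspose_zero]

theorem cut (hT : T.IsHermitian) (h : T * P = 0) : (1 - P)ᴴ * T * (1 - P) = T := by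
  rw [Matrix.conjTranspose_sub, Matrix.conjTranspose_one, Matrix.sub_mul, left0 hT h, sub_zero,
    Matrix.one_mul, Matrix.mul_sub, h, sub_zero, Matrix.mul_one]

theorem cut2 (hT : T.IsHermitian) (h : T * P = 0) (hP : P * P = P) :
    (1 - P)ᴴ * (T + H * P) * (1 - P) = T := by
  have e : H * P * (1 - P) = 0 := by
    rw [Matrix.mul_sub, Matrix.mul_one, Matrix.mul_assoc, hP, sub_self]
  rw [Matrix.mul_add, Matrix.add_mul, cut hT h, Matrix.mul_assoc _ (H * P), e, Matrix.mul_zero,
    add_zero]

end T68

open T68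

theorem st_BLK : St_BLK := by
  intro n M _ H P T h
  have l0 : M.All fun e z => (T e z).PosSemidef := fun e he z hz => by
    beta_reduce
    rw [← cut2 (H := H e z) (h.form.herm e he z hz) (h.kill e he z hz) (h.idem e he z hz)]
    exact (h.pos e he z hz).posSemidef.conjTranspose_mul_mul_same _
  have fm : M.Form (H * P) := ⟨⟨fun e he z hz => (h.met.sm e he z hz).mul (h.en.sm e he z hz),
    fun e he e' he' x hx hx' => by
      have a := h.met.cmp e he e' he' x hx hx'
      have b := h.en.cmp e he e' he' x hx hx'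
      beta_reduce at a b
      simp only [Pi.mul_apply]
      rw [a, Matrix.mul_assoc, b]
      simp only [Matrix.mul_assoc]⟩, h.herm⟩
  refine ⟨fun e he z hz => ?_, fun S hS h0 => ?_, fun S c hc e0 => ?_⟩
  · show (T e z - 0).PosSemidef
    rw [sub_zero]
    exact l0 e he z hz
  · obtain ⟨C, hC, h1, -⟩ := (mBD n M (T + H * P) ⟨h.form.add fm, h.pos⟩).1 S hS
    refine ⟨C, hC, fun e he z hz => ?_⟩
    have h2 := Matrix.PosSemidef.conjTranspose_mul_mul_same (h1 e he z hz) (1 - P e z)
    have e1 : (C • (T + H * P)) e z = C • (T e z + H e z * P e z) := rfl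
    rw [e1, Matrix.mul_sub (1 - P e z)ᴴ, Matrix.sub_mul, Matrix.mul_smul, Matrix.smul_mul,
      cut (hS.herm e he z hz) (h0 e he z hz),
      cut2 (h.form.herm e he z hz) (h.kill e he z hz) (h.idem e he z hz)] at h2
    exact h2
  · refine ⟨h.met, h.en, h.idem, h.herm, (h.form.smul c).congr e0, fun e he z hz => ?_,
      fun e he z hz => ?_⟩
    · beta_reduce
      rw [e0 e he z hz, Matrix.smul_mul, h.kill e he z hz, smul_zero]
    · beta_reduce
      rw [e0 e he z hz, show c • T e z + H e z * P e z =
        (T e z + H e z * P e z) + (c - 1) • T e z by rw [sub_smul, one_smul]; abel]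
      exact (h.pos e he z hz).add_posSemidef ((l0 e he z hz).smul (sub_nonneg.2 hc))

end Pool.Agent.Lib.KP
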