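import Pool.Agent.Lib.KP.Blue
import Pool.Agent.Lib.KP.Kit

/-! The resolvent on sections. -/

open scoped Classical Topology ContDiff ComplexOrder Matrix
open Set MeasureTheory Complex Metric Filter

noncomputable section

namespace Pool.Agent.Lib.KP

open Pool.Agent.Lib.SV (E)
open Pool.Agent.Lib.HS32 Pool.Agent.Lib.HS21

theorem st_BOX (hSC : St_SC5) (hOK : St_BOXOK) (hG : St_GRN2) (hLIN : St_LINC) (hL2 : St_L2C) :
    St_BOX := by
  intro n M _ H L φ f η hH hw hf hη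
  have hM : M.Met H := hH.toMet
  obtain ⟨-, -, ⟨V, -⟩, -⟩ := mCOV n M
  obtain ⟨h1, -, -, -, hI, -⟩ := mMU n M H hM
  have ok := hOK n M H L φ hM hw
  refine hLIN n M V L (boxC M H φ) η ok (hL2 n M V L _ η (M.mu H) H
    (fun e z => -φ e z) (fun s x => M.nrC φ s x) ok hM h1 (fun e he z hz => ?_)
    (fun s hs e he z hz => ?_) ⟨(η ^ 2)⁻¹, fun τ hτ s hs => ?_⟩) f hf
  · exact (hw.sm e he z hz).continuousAt.neg
  · have a := (hSC n M H L φ s s hM hw hs hs).2.2.1 e he z hz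
    beta_reduce at a ⊢
    rw [a, normSq_eq_norm_sq]
  have h0 : 0 < τ := hη.trans_le hτ
  have ha := ok.sec s hs
  have e1 : (boxC M H φ).sh τ s = (τ : ℂ) • s - (boxC M H φ).ap s := rfl
  have hg : M.SecC L ((boxC M H φ).sh τ s) := by
    rw [e1]
    exact (hSC n M H L φ _ _ hM hw ((hSC n M H L φ s s hM hw hs hs).2.1 τ) ha).1
  obtain ⟨-, -, -, c1, -, -, -, c2, p1, -⟩ := hSC n M H L φ s s hM hw hs hs
  obtain ⟨-, -, -, c3, -, -, -, -, p2, -⟩ := hSC n M H L φ _ s hM hw hg hs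
  obtain ⟨-, -, -, -, -, c4, -⟩ := hSC n M H L φ _ s hM hw ha hs
  have g1 := congrArg Complex.re (hG n M H L φ s s hH hw hs hs)
  rw [neg_re, ← RCLike.re_to_complex, ← RCLike.re_to_complex, ← integral_re (hI _ _ c4),
    ← integral_re (hI _ _ c2)] at g1
  simp only [RCLike.re_to_complex] at g1
  have g2 : 0 ≤ ∫ x, (dpC M H φ s s x).re ∂M.mu H :=
    integral_nonneg fun x => (p1 x).2.2.1
  have i1 := hI _ _ c1
  have i3 := hI _ _ c3
  have i4 := hI _ _ (continuous_re.comp' c4)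
  have g3 : ∫ x, τ ^ 2 * M.nrC φ s x ∂M.mu H ≤
      ∫ x, (M.nrC φ ((boxC M H φ).sh τ s) x +
        2 * τ * (spC M φ ((boxC M H φ).ap s) s x).re) ∂M.mu H := by
    refine integral_mono (i1.const_mul _) (i3.add (i4.const_mul _)) fun x => ?_
    have a : spC M φ ((boxC M H φ).sh τ s) s x =
        τ * spC M φ s s x - spC M φ ((boxC M H φ).ap s) s x := by
      simp only [spC, Mf.ev, Op.sh]; ring
    have b := congrArg Complex.re a
    rw [(p1 x).2.1, sub_re, re_ofReal_mul, ofReal_re] at b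
    have c := (p2 x).2.2.2.2.1
    rw [normSq_apply] at c
    have d1 := (p1 x).1
    have d2 := (p2 x).1
    have k : 2 * τ * (spC M φ ((boxC M H φ).sh τ s) s x).re ≤
        M.nrC φ ((boxC M H φ).sh τ s) x + τ ^ 2 * M.nrC φ s x := by
      refine le_of_abs_le (abs_le_of_sq_le_sq ?_ (by positivity))
      nlinarith [sq_nonneg (M.nrC φ ((boxC M H φ).sh τ s) x - τ ^ 2 * M.nrC φ s x),
        mul_nonneg (sq_nonneg τ) (mul_self_nonneg (spC M φ ((boxC M H φ).sh τ s) s x).im)]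
    rw [b] at k
    beta_reduce
    nlinarith [k]
  rw [integral_const_mul, integral_add i3 (i4.const_mul _), integral_const_mul, g1] at g3
  have g4 : 0 ≤ ∫ x, M.nrC φ s x ∂M.mu H := integral_nonneg fun x => (p1 x).1
  rw [le_inv_mul_iff₀ (by positivity)]
  have g5 : η ^ 2 ≤ τ ^ 2 := pow_le_pow_left₀ hη.le hτ 2
  nlinarith [mul_nonneg h0.le g2]

end Pool.Agent.Lib.KP
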