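import Pool.Agent.Lib.KP.Blue
import Pool.Agent.Lib.KP.Kit
import Pool.Agent.Lib.HS21.B_C2

/-! Project kp71: the estimate of second order. -/

open scoped Classical Topology ContDiff ComplexOrder Matrix
open Set Complex Filter

noncomputable section

namespace Pool.Agent.Lib.KP

open Pool.Agent.Lib.HS32 Pool.Agent.Lib.HS21 Pool.Agent.Lib.HS32.Mf

namespace T50

theorem hs_sub {n : ℕ} (M : Mf n) (v : M.X → ℝ) (c : ℝ) : M.hs (fun y => v y - c) = M.hs v := by
  funext e z
  have h : ∀ j, dz j (M.lc (fun y => v y - c) e) = dz j (M.lc v e) := fun j => funext fun w => by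
    have : M.lc (fun y => v y - c) e = fun z => M.lc v e z - c := funext fun z => ofReal_sub _ _
    rw [dz, dz, this, fderiv_sub_const]
  simp only [Mf.hs, hess, h]

end T50

theorem st_C2B : St_C2B := by
  intro n M _ H B V ψ χ C a ε w h
  set T := M.gB H B ε w
  obtain ⟨c, hc, h1, -⟩ := (mBD n M T h.kT.toMet).1 H h.kH.toMet.toForm
  obtain ⟨C', -, hC⟩ := (mBD n M T h.kT.toMet).2.1
  have c0 : 0 ≤ C := zero_le_one.trans h.c1
  have c1 : 0 ≤ C * c := by positivity
  set A := C * c + √C' + 1
  have hA : 0 < A := by positivity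
  have hn : 0 ≤ A * n := by positivity
  refine ⟨1 + A * n + 2 * A, by linarith, fun t ht v hv o ho x => ?_⟩
  have e : gv T (fun y => v y - v x) = T + M.hs v := by
    funext e z
    rw [gv, T50.hs_sub]
    rfl
  have hr : M.Le (-((C * c) • T) - (1 : ℝ) • (T + M.hs v)) (M.ric (T + M.hs v)) :=
    fun e he z hz => by
      have p := (h.kH.pos e he z hz).posSemidef
      have a1 := (((h.cur t ht e he z hz).add (psd_rsmul p h.e0.le)).add
        (psd_rsmul p (mul_nonneg c0 (sub_nonneg.2 (h.x01 t (e.symm z)).2)))).add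
        (psd_rsmul (h1 e he z hz) c0)
      beta_reduce
      rw [hv.ric e he z hz]
      refine (congrArg Matrix.PosSemidef ?_).mp a1
      simp only [Pi.neg_apply, Pi.smul_apply, Pi.sub_apply]
      module
  have := C2.tr_bd mINV mLAP mHES h.n0 h.kT (hv.sm.sub (sm_const (v x))) (e ▸ hv.kae) c1 hC
    (e ▸ hr) (b := o) (fun y => abs_le.2 ⟨by linarith [ho x y], ho y x⟩) x
  rw [e] at this
  have o0 : 0 ≤ o := by simpa using ho x x
  refine this.trans (mul_le_mul (by linarith) (Real.exp_le_exp.2 ?_) (Real.exp_pos _).le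
    (by linarith))
  nlinarith

end Pool.Agent.Lib.KP
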