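import Pool.Agent.Lib.KP.Blue
import Pool.Agent.Lib.KP.Kit

/-! Project kp71, row DBC: the form attached to the `(0,1)` derivative of a section. -/

open scoped Classical Topology ContDiff ComplexOrder Matrix
open Set Complex Filter

noncomputable section

namespace Pool.Agent.Lib.KP

open Pool.Agent.Lib.SV (E)
open Pool.Agent.Lib.HS32

namespace T66d

variable {n : ℕ} {M : Mf n} {L : M.Co} {s : M.Fam ℂ}

theorem db_chg (hs : M.SecC L s) :
    M.Ov fun e e' x => (fun i => dzb i (s e') (e' x)) =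
      L.c e e' x • (M.J e e' x)ᴴ *ᵥ fun i => dzb i (s e) (e x) := by
  intro e he e' he' x hx hx'
  obtain ⟨h1, -⟩ := (mTR n M).2.1 e he e' he' x hx hx'
  obtain ⟨c1, -, -, -, -, -, -, -, -, c10, -⟩ := mCHN n _ _ h1
  have p : (e ∘ e'.symm) (e' x) = e x := by simp only [Function.comp, e'.left_inv hx']
  have ev : s e' =ᶠ[𝓝 (e' x)] fun w => (s e ∘ e ∘ e'.symm) w * L.c e e' (e'.symm w) :=
    hs.ev e he e' he' x hx hx'
  have d1 : DifferentiableAt ℝ (s e) ((e ∘ e'.symm) (e' x)) := by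
    rw [p]; exact cd_diff (Mf.AllOn.at hs.sm he hx)
  have d2 : DifferentiableAt ℂ (fun w => L.c e e' (e'.symm w)) (e' x) :=
    (L.hol e he e' he' x hx hx').self_of_nhds
  have d3 := d2.restrictScalars ℝ
  funext i
  rw [dzb_congr ev, dzb_mul (d1.comp _ (cd_diff c1)) d3, ((mHOL n _ _).1 d3).1 d2 i,
    (c10 _ d1 i).2, p, mul_zero, add_zero, mul_comm, e'.left_inv hx']
  simp only [Pi.smul_apply, smul_eq_mul, Matrix.mulVec, dotProduct, Matrix.conjTranspose_apply,
    Mf.J, mul_comm]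

theorem alg (J : Mat n) {c : ℂ} (hc : c ≠ 0) (a : ℝ) (d : E n) :
    ((Real.exp (-(a + Real.log (normSq c))) : ℝ) : ℂ) •
        Matrix.vecMulVec (c • Jᴴ *ᵥ d) (star (c • Jᴴ *ᵥ d)) =
      Jᴴ * (((Real.exp (-a) : ℝ) : ℂ) • Matrix.vecMulVec d (star d)) * J := by
  have p : 0 < normSq c := normSq_pos.2 hc
  have q : ((normSq c : ℝ) : ℂ) ≠ 0 := by exact_mod_cast p.ne'
  rw [star_smul, Matrix.smul_vecMulVec, Matrix.vecMulVec_smul, Matrix.star_mulVec,
    Matrix.conjTranspose_conjTranspose, Matrix.mul_smul, Matrix.smul_mul, Matrix.mul_vecMulVec,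
    Matrix.vecMulVec_mul, smul_smul, smul_smul, neg_add, Real.exp_add,
    Real.exp_neg (Real.log _), Real.exp_log p, mul_assoc, star_def, mul_conj, ofReal_mul,
    ofReal_inv, inv_mul_cancel_right₀ q]

theorem nq_vec (c : ℝ) (d v : E n) :
    nq ((c : ℂ) • Matrix.vecMulVec d (star d)) v = normSq (∑ i, star (v i) * d i) * c := by
  have h : star d ⬝ᵥ v = star (∑ i, star (v i) * d i) := by
    simp [dotProduct, mul_comm]
  have h' : star v ⬝ᵥ d = ∑ i, star (v i) * d i := rfl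
  rw [nq, Matrix.smul_mulVec, Matrix.vecMulVec_mulVec, op_smul_eq_smul, dotProduct_smul,
    dotProduct_smul, h, h', smul_eq_mul, smul_eq_mul, star_def, ← normSq_eq_conj_mul_self,
    ← ofReal_mul, ofReal_re, mul_comm]

end T66d

open T66d in
theorem st_DBC : St_DBC := by
  intro n M L φ s hφ hs
  refine ⟨fun e z => ((Real.exp (-φ e z) : ℝ) : ℂ) •
    Matrix.vecMulVec (fun i => dzb i (s e) z) (star fun i => dzb i (s e) z),
    ⟨⟨fun e he z hz i j => ?_, fun e he e' he' x hx hx' => ?_⟩, fun e he z hz => ?_⟩,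
    fun e he z hz => ⟨fun i j => ?_, fun v => nq_vec _ _ v⟩⟩
  · have h1 := hs.sm e he z hz
    exact (cd_ofReal (hφ.sm e he z hz).neg.exp).mul ((cd_dzb h1 i).mul (cd_star (cd_dzb h1 j)))
  · beta_reduce
    rw [db_chg hs e he e' he' x hx hx', hφ.cmp e he e' he' x hx hx']
    exact alg _ (L.ne e he e' he' x hx hx') _ _
  · beta_reduce
    rw [Matrix.IsHermitian, Matrix.conjTranspose_smul, Matrix.conjTranspose_vecMulVec, star_star,
      star_def, conj_ofReal]
  · simp only [Matrix.smul_apply, Matrix.vecMulVec_apply, Pi.star_apply, smul_eq_mul, mul_comm]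

end Pool.Agent.Lib.KP
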