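import Pool.Agent.Lib.KP.Blue
import Pool.Agent.Lib.KP.Kit
import Pool.Agent.Lib.HS.All
import Pool.Agent.Lib.TQ.B_ADP
import Pool.Agent.Lib.TB.B_TBR

/-! Project kp71: the developing map of the first flat factor. -/

open scoped Classical Topology ContDiff ComplexOrder Matrix
open Set MeasureTheory Complex Metric Filter

noncomputable section

namespace Pool.Agent.Lib.KP

open Pool.Agent.Lib.SV (E)
open Pool.Agent.Lib.HS32 Pool.Agent.Lib.HS32.Mf Pool.Agent.Lib.TQ Pool.Agent.Lib.TQ.T76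
open Pool.Agent.Lib.HS95 (Hi Vk lo up)

namespace T71

variable {n k d : ℕ} {M : Mf n} {H P : M.Fam (Mat n)}

theorem fl1 [M.Cpt] (hK : M.Kae H) (hF : M.Flat H P k) : M.Fl1 H P k := by
  have t : M.All fun e z => ∀ a b, tors (H e) z a b = 0 := fun e he z hz a b => by
    simp only [tors, asy, gam, ← Matrix.mul_smul, ← Matrix.mul_sum, ← Matrix.mulVec_mulVec]
    rw [TB.T12.clm_swap (hK.cl e he z hz), sub_self]
  exact ⟨⟨hF.toHolSA, hF.le, hF.par, hF.idem, hF.det, hF.flat, fun e he z hz a b =>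
    ((HS.asPAR n M H P hK hF.toHolSA).2.2.1 e he z hz a b).symm.trans (hF.flat e he z hz a b)⟩,
    fun e he z hz a b => by rw [t e he z hz, Matrix.mulVec_zero],
    fun e he z hz a b => t e he z hz _ _⟩

theorem raw [M.Cpt] {G : M.Fam (Mat n)} {u : M.X → ℝ} (σ : Fin d ≃ Hi n k)
    (hp : M.Pos H P k u G) : Raw M H P σ := by
  obtain ⟨S, ⟨L⟩⟩ := HS.afIN n M H P G k u hp
  obtain ⟨g0, T0, ⟨D0⟩⟩ := HS.afTR0 _ _ _ S
  obtain ⟨g, T, hc, ⟨D⟩⟩ := HS.afCOMP _ _ _ S g0 T0 D0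
  obtain ⟨-, -, t1, t2⟩ := HS.afPC _ _ _ S g T D
  have t3 := HS.afLAT _ _ g T t1 t2 (HS.afNOD _ _ _ S g T D (HS.afNEG n M H P G k u S hp L))
  let R : (Hi n k → ℂ) ≃L[ℂ] E d := (LinearEquiv.funCongrLeft ℂ ℂ σ).toContinuousLinearEquiv
  have hR : ∀ z : E n, R.symm (dn σ z) = up k z := fun z => R.symm_apply_eq.2 rfl
  refine ⟨{ Y := g.Y, J := g.J, c := fun j => (g.c j).transHomeomorph R.toHomeomorph, cov := g.cov
            Γ := T.Γ, cont := fun γ => (T.iso γ).cont, hol := fun γ j j' y hy hy' => ?_ },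
    ⟨T.A, T.b, T.bmul, T.inj, t1, t2, t3⟩, D.q, D.cont, D.inv, D.orb, D.linj, fun x => ?_⟩
  · have := ((T.iso γ).loc j j' y hy hy').hol
    rw [← R.symm_apply_apply (g.c j y)] at this
    exact R.differentiableAt.comp _ (this.comp _ R.symm.differentiableAt)
  · obtain ⟨i, hi⟩ := S.cov x
    obtain ⟨B, v, j, -, b1, b2⟩ := D.sec i x hi
    simp only [L.app, ← hR] at b1 b2
    exact ⟨_, L.prod i, L.src i ▸ hi, B, v, j, b1, b2⟩

theorem adp {σ : Fin d ≃ Hi n k} {g : Gy d} {a : Ga (Vk n k) g} {q : Vk n k × g.Y → M.X}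
    (hM : M.Met H) (hF : M.Fl1 H P k) (hD : Dv M H P σ a q) (p : Vk n k × g.Y) {j' : g.J}
    (y1 : p.2 ∈ (g.c j').source) (v₀ : Vk n k) (w₀ : E d) : ∃ c, M.Prod H P k c ∧ q p ∈ c.source ∧
      ∀ᶠ p' in 𝓝 p, c (q p') = jd σ (p'.1 - v₀) (g.c j' p'.2 - w₀) := by
  obtain ⟨c, hc, hx, B, v, j, hj, hs⟩ := hD.sec (q p)
  obtain ⟨γ, hγ⟩ := hD.orb p _ hs.self_of_nhds.symm
  obtain ⟨O, hO, hI⟩ := hD.linj (a.mv γ p)
  have c1 : ContinuousAt (fun x => sp σ (c x)) (q p) :=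
    (sp σ).continuous.continuousAt.comp (c.continuousAt hx)
  have c2 : ContinuousAt (fun x => (B (lo k (c x)) + v, (g.c j).symm (dn σ (c x)))) (q p) :=
    ((B.continuous.continuousAt.comp c1.fst).add continuousAt_const).prodMk
      (ContinuousAt.comp (f := fun x => (sp σ (c x)).2) ((g.c j).continuousAt_symm hj) c1.snd)
  have c3 : Continuous (a.mv γ) :=
    (((a.A γ).continuous.comp continuous_fst).add continuous_const).prodMk
      ((g.cont γ).comp continuous_snd)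
  have b : ∀ᶠ p' in 𝓝 p, (B.trans (a.A γ).symm) (lo k (c (q p'))) +
      ((a.A γ).symm (v - a.b γ) - v₀) = p'.1 - v₀ ∧
      γ⁻¹ • (g.c j).symm (dn σ (c (q p'))) = p'.2 := by
    filter_upwards [c3.continuousAt.preimage_mem_nhds hO, hD.cont.continuousAt.eventually hs,
      hD.cont.continuousAt.eventually (c2.eventually_mem (hγ ▸ hO))] with p' o1 o2 o3
    have := hI o3 o1 (o2.trans (hD.inv γ p').symm)
    obtain ⟨t1, t2⟩ := Prod.mk.inj this
    refine ⟨?_, by rw [t2, inv_smul_smul]⟩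
    rw [LinearIsometryEquiv.trans_apply, ← add_sub_assoc, ← map_add, add_sub, t1,
      add_sub_cancel_right, LinearIsometryEquiv.symm_apply_apply]
  refine ⟨_, prod_pm σ hM hF hc (B.trans (a.A γ).symm) ((a.A γ).symm (v - a.b γ) - v₀)
    (bih_trans (bih_tr g γ⁻¹ j j') (ψ := (Homeomorph.subRight w₀).toOpenPartialHomeomorph)
      ⟨differentiableOn_id.sub_const w₀, differentiableOn_id.add_const w₀⟩),
    ⟨hx, trivial, ⟨hj, ?_⟩, trivial⟩, b.mono fun p' t1 => ?_⟩
  · exact mem_of_eq_of_mem (s := (g.c j').source) b.self_of_nhds.2 y1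
  · rw [← t1.1, ← t1.2]
    rfl

theorem card_hi (h : k ≤ n) : Nonempty (Fin (n - k) ≃ Hi n k) := by
  refine ⟨(Fintype.equivFinOfCardEq ?_).symm⟩
  rw [Fintype.card_subtype_compl, Fintype.card_fin, Fintype.card_subtype,
    Fin.card_filter_val_lt, min_eq_right h]

theorem dn_le (σ : Fin d ≃ Hi n k) (z : E n) : ‖dn σ z‖ ≤ ‖z - (pr k : Mat n) *ᵥ z‖ :=
  (pi_norm_le_iff_of_nonneg (norm_nonneg _)).2 fun a => by
    refine le_of_eq_of_le ?_ (norm_le_pi_norm _ (σ a).1)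
    simp [TQ.dn, pr, Matrix.mulVec_diagonal, (σ a).2]

theorem jd_le (σ : Fin d ≃ Hi n k) (t : Vk n k) : ‖jd σ t 0‖ ≤ ‖t‖ :=
  (pi_norm_le_iff_of_nonneg (norm_nonneg _)).2 fun i => by
    by_cases h : i.val < k
    · simpa [jd, HS95.jn, h] using PiLp.norm_apply_le t ⟨i, h⟩
    · simp [jd, HS95.jn, h]

end T71

open T71 in
theorem st_DEV : St_DEV := by
  intro n M _ H P G k u hp x₀
  obtain ⟨σ⟩ := card_hi hp.flat.le
  have hM := hp.kH.toMet
  obtain ⟨g, a, q, hD⟩ := raw σ hp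
  obtain ⟨p₀, rfl⟩ : ∃ p₀, q p₀ = x₀ := by
    obtain ⟨c, -, -, B, v, j, -, hs⟩ := hD.sec x₀
    exact ⟨_, hs.self_of_nhds⟩
  obtain ⟨j, hj⟩ := g.cov p₀.2
  obtain ⟨r, r0, hr⟩ := Metric.nhds_basis_closedBall.mem_iff.1
    ((g.c j).open_target.mem_nhds ((g.c j).map_source hj))
  let s : E n → Vk n k × g.Y := fun z => (lo k z + p₀.1, (g.c j).symm (dn σ z + g.c j p₀.2))
  have l1 : ∀ t w, sp σ (jd σ t w) = (t, w) := fun t w => (sp σ).apply_symm_apply (t, w)
  refine ⟨q ∘ s, r / 3, ?_, by positivity, ?_, fun z hz => ?_, ?_⟩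
  · have : sp σ 0 = 0 := map_zero _
    simp only [Function.comp_apply, s, show lo k (0 : E n) = 0 from congrArg Prod.fst this,
      show dn σ (0 : E n) = 0 from congrArg Prod.snd this, zero_add, (g.c j).left_inv hj]
  · rw [pr, Matrix.diagonal_mul_diagonal]
    exact congrArg _ (funext fun i => by split_ifs <;> simp)
  · have h1 : dn σ z + g.c j p₀.2 ∈ (g.c j).target := hr (by
      rw [mem_closedBall_iff_norm, add_sub_cancel_right]
      linarith [dn_le σ z])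
    have c1 : ContinuousAt (fun w : E n => dn σ w + g.c j p₀.2) z :=
      (sp σ).continuous.snd.continuousAt.add continuousAt_const
    have c2 : ContinuousAt s z := ((sp σ).continuous.fst.continuousAt.add continuousAt_const).prodMk
      (ContinuousAt.comp (f := fun w : E n => dn σ w + g.c j p₀.2) ((g.c j).continuousAt_symm h1) c1)
    obtain ⟨c, b1, b2, b3⟩ := adp hM (fl1 hp.kH hp.flat) hD (s z) ((g.c j).map_target h1) p₀.1
      (g.c j p₀.2)
    obtain ⟨U, u1, u2, u3⟩ := _root_.eventually_nhds_iff.1 (((c2.eventually b3).and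
      (c1.eventually ((g.c j).open_target.eventually_mem h1))).and
      ((hD.cont.continuousAt.comp c2).eventually (c.open_source.eventually_mem b2)))
    have u4 : ∀ w ∈ U, c (q (s w)) = w := fun w hw => by
      rw [(u1 w hw).1.1]
      simp only [s, (g.c j).right_inv (u1 w hw).1.2, add_sub_cancel_right]
      exact (sp σ).symm_apply_apply w
    obtain ⟨e, e1, e2, -, -, e3⟩ := exists_restr b1.mem u2
    refine ⟨e, ⟨e1, fun w hw => ?_⟩, e2 ▸ ⟨u4 z u3 ▸ c.map_source b2, u3⟩,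
      b1.restr hM.toTen hp.flat.en e1 (e2 ▸ inter_subset_left) fun w _ => e3 w⟩
    have hw' : w ∈ U := (e2 ▸ hw).2
    rw [e3, ← congrArg c.symm (u4 w hw')]
    exact (c.left_inv (u1 w hw').2).symm
  · obtain ⟨R, hR⟩ := a.lat
    refine ⟨R, fun v => ?_⟩
    obtain ⟨γ, g1, g2, g3⟩ := hR (lo k v)
    refine ⟨jd σ (a.b γ) 0, ⟨?_, fun z => ?_⟩, ?_⟩
    · rw [pr_vec σ, show lo k (jd σ (a.b γ) 0) = _ from congrArg Prod.fst (l1 _ _)]
    · have e1 : sp σ (z + jd σ (a.b γ) 0) = (lo k z + a.b γ, dn σ z + 0) := by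
        rw [map_add, l1]; rfl
      have := hD.inv γ (s z)
      rw [Ga.mv, g1, g2] at this
      refine (congrArg q ?_).trans this
      simp only [s, show lo k (z + jd σ (a.b γ) 0) = _ from congrArg Prod.fst e1,
        show dn σ (z + jd σ (a.b γ) 0) = _ from congrArg Prod.snd e1, add_zero]
      exact Prod.ext (add_right_comm _ _ _) rfl
    · have e1 : (pr k : Mat n) *ᵥ v - jd σ (a.b γ) 0 = jd σ (lo k v - a.b γ) 0 := by
        rw [pr_vec σ]
        refine ((sp σ).symm.map_sub (lo k v, 0) (a.b γ, 0)).symm.trans ?_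
        rw [Prod.mk_sub_mk, sub_zero]
        rfl
      rw [e1]
      exact (jd_le σ _).trans (norm_sub_rev (a.b γ) _ ▸ g3)

end Pool.Agent.Lib.KP
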