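import Pool.Agent.Lib.KP.Blue
import Pool.Agent.Lib.KP.Kit

/-! Project kp71, row DIVF: the Laplace operator of a flat factor has mean zero. -/

open scoped Classical Topology ContDiff ComplexOrder Matrix ENNReal
open Set MeasureTheory Complex Metric Filter

set_option linter.unusedVariables false

noncomputable section

namespace Pool.Agent.Lib.KP

open Pool.Agent.Lib.SV (E)
open Pool.Agent.Lib.HS32

namespace T76

variable {n : ℕ}

theorem psd_proj {H P : Mat n} (hH : H.PosDef) (hi : P * P = P) (hh : (H * P).IsHermitian) :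
    (H * P).PosSemidef := by
  have h1 : H * P = Pᴴ * H * P := by
    have h2 : Pᴴ * H = H * P := by
      have := hh.eq
      rwa [Matrix.conjTranspose_mul, hH.isHermitian.eq] at this
    rw [h2, Matrix.mul_assoc, hi]
  rw [h1]
  exact hH.posSemidef.conjTranspose_mul_mul_same P

theorem inv_sum {H P : Mat n} (hH : H.PosDef) (hi : P * P = P) :
    (H + H * P)⁻¹ = H⁻¹ - (1 / 2 : ℂ) • (H⁻¹ * (H * P) * H⁻¹) := by
  have hu : IsUnit H.det := hH.det_pos.ne'.isUnit
  have h1 : H⁻¹ * (H * P) = P := by rw [← Matrix.mul_assoc, Matrix.nonsing_inv_mul _ hu, one_mul]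
  rw [h1]
  apply Matrix.inv_eq_right_inv
  have h2 : (1 + P) * (1 - (1 / 2 : ℂ) • P) = 1 := by
    rw [mul_sub, mul_one, Matrix.mul_smul, add_mul, one_mul, hi, ← two_smul ℂ P, smul_smul]
    norm_num
  calc (H + H * P) * (H⁻¹ - (1 / 2 : ℂ) • (P * H⁻¹))
      = H * ((1 + P) * (1 - (1 / 2 : ℂ) • P)) * H⁻¹ := by
        rw [← Matrix.smul_mul]
        noncomm_ring
    _ = 1 := by rw [h2, mul_one, Matrix.mul_nonsing_inv _ hu]

theorem det_sum {H P : Mat n} {k : ℕ} (hH : H.PosDef)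
    (hd : (1 + (1 : ℝ) • P).det = ((1 + 1 : ℝ) : ℂ) ^ k) :
    ((H + H * P).det / H.det).re = 2 ^ k := by
  have h1 : H + H * P = H * (1 + (1 : ℝ) • P) := by rw [one_smul, mul_add, mul_one]
  rw [h1, Matrix.det_mul, hd, mul_div_cancel_left₀ _ hH.det_pos.ne', ← ofReal_pow, ofReal_re]
  norm_num

end T76

theorem st_DIVF : St_DIVF := by
  intro n M _ H P k g hH hF hg
  have hG : M.Kae (H + H * P) := ⟨hH.toClo.add hF.clo, fun e he z hz =>
    (hH.pos e he z hz).add_posSemidef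
      (T76.psd_proj (hH.pos e he z hz) (hF.idem e he z hz) (hF.herm e he z hz))⟩
  have h1 := ((mGRN n M).2 _ g g hG hg hg).1
  have h2 := ((mGRN n M).2 _ g g hH hg hg).1
  obtain ⟨-, -, -, -, hint, -, hch⟩ := mMU n M H hH.toMet
  rw [(hch _ hG.toMet).2.1] at h1
  have hT : M.Ten (M.hs g) := ((mHES n M).1 g hg).toTen
  have i1 : Integrable (M.lap H g) (M.mu H) :=
    hint ℝ _ ((mINV n M H hH.toMet).1 _ hT).2.1.continuous
  have i2 : Integrable (M.ip H (H * P) (M.hs g)) (M.mu H) :=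
    hint ℝ _ ((mINV n M H hH.toMet).2.2.1 _ _ hF.clo.toTen hT).2.1.continuous
  have h3 : ∀ x, M.dq H (H + H * P) x * M.lap (H + H * P) g x =
      2 ^ k * (M.lap H g x - 1 / 2 * M.ip H (H * P) (M.hs g) x) := fun x => by
    have p : (M.ev H x).PosDef := hH.pos.ch x
    have q : M.ev P x * M.ev P x = M.ev P x := hF.idem.ch x
    have d : M.dq H (H + H * P) x = 2 ^ k := T76.det_sum p ((hF.det 1).ch x)
    rw [d]
    congr 1
    show ((M.ev H x + M.ev H x * M.ev P x)⁻¹ * M.ev (M.hs g) x).trace.re =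
      ((M.ev H x)⁻¹ * M.ev (M.hs g) x).trace.re - 1 / 2 *
        ((M.ev H x)⁻¹ * (M.ev H x * M.ev P x) * (M.ev H x)⁻¹ * M.ev (M.hs g) x).trace.re
    rw [T76.inv_sum p q, Matrix.sub_mul, Matrix.smul_mul, Matrix.trace_sub,
      Matrix.trace_smul, sub_re, smul_eq_mul]
    congr 1
    rw [show (1 / 2 : ℂ) = ((1 / 2 : ℝ) : ℂ) by push_cast; rfl, re_ofReal_mul]
  simp only [h3] at h1
  rw [integral_const_mul, integral_sub i1 (i2.const_mul _), h2, integral_const_mul] at h1
  have h4 : (2 : ℝ) ^ k ≠ 0 := by positivity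
  have h5 := (mul_eq_zero.1 h1).resolve_left h4
  linarith

end Pool.Agent.Lib.KP
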