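import Pool.Agent.Lib.KP.Blue
import Pool.Agent.Lib.HS95.R_HB

/-! Project kp71, row DSC1: decay along a complex line. -/

open scoped Topology ContDiff Matrix
open Set Filter Complex

namespace Pool.Agent.Lib.KP.T63

theorem low {f f' : ℝ → ℝ} {D : Set ℝ} (hD : Convex ℝ D) (h : ∀ x ∈ D, HasDerivAt f (f' x) x)
    {C : ℝ} (hC : ∀ x ∈ D, C ≤ f' x) {x y : ℝ} (hx : x ∈ D) (hy : y ∈ D) (hxy : x ≤ y) :
    C * (y - x) ≤ f y - f x :=
  hD.mul_sub_le_image_sub_of_le_deriv (fun z hz => (h z hz).continuousAt.continuousWithinAt)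
    (fun z hz => (h z (interior_subset hz)).differentiableAt.differentiableWithinAt)
    (fun z hz => by rw [(h z (interior_subset hz)).deriv]; exact hC z (interior_subset hz))
    x hx y hy hxy

theorem upp {f f' : ℝ → ℝ} {D : Set ℝ} (hD : Convex ℝ D) (h : ∀ x ∈ D, HasDerivAt f (f' x) x)
    {C : ℝ} (hC : ∀ x ∈ D, f' x ≤ C) {x y : ℝ} (hx : x ∈ D) (hy : y ∈ D) (hxy : x ≤ y) :
    f y - f x ≤ C * (y - x) :=
  hD.image_sub_le_mul_sub_of_deriv_le (fun z hz => (h z hz).continuousAt.continuousWithinAt)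
    (fun z hz => (h z (interior_subset hz)).differentiableAt.differentiableWithinAt)
    (fun z hz => by rw [(h z (interior_subset hz)).deriv]; exact hC z (interior_subset hz))
    x hx y hy hxy

theorem pos {γ p q : ℝ → ℝ} {B : ℝ} (hc : Continuous γ) (h0 : ∀ s, 0 ≤ γ s) (h1 : 0 < γ 0)
    (h : ∀ s, 0 < γ s → HasDerivAt (fun s => Real.log (γ s)) (p s) s ∧ HasDerivAt p (q s) s ∧
      -B ≤ q s) : ∀ s, 0 ≤ s → 0 < γ s := by
  by_contra hcon
  have hne : (Ici (0 : ℝ) ∩ γ ⁻¹' {0}).Nonempty := by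
    push Not at hcon
    obtain ⟨s, hs, hs'⟩ := hcon
    exact ⟨s, hs, le_antisymm hs' (h0 s)⟩
  have hcl : IsClosed (Ici (0 : ℝ) ∩ γ ⁻¹' {0}) :=
    isClosed_Ici.inter (isClosed_singleton.preimage hc)
  have hbd : BddBelow (Ici (0 : ℝ) ∩ γ ⁻¹' {0}) := ⟨0, fun s hs => hs.1⟩
  obtain ⟨hT0, hT1⟩ := hcl.csInf_mem hne hbd
  set T := sInf (Ici (0 : ℝ) ∩ γ ⁻¹' {0})
  have hT2 : γ T = 0 := hT1
  have hT3 : 0 < T := lt_of_le_of_ne hT0 fun e => by rw [← e] at hT2; exact h1.ne' hT2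
  have hp : ∀ s ∈ Ico 0 T, 0 < γ s := fun s hs => lt_of_le_of_ne (h0 s) fun e =>
    absurd (csInf_le hbd ⟨hs.1, e.symm⟩) (not_le.2 hs.2)
  have z0 : (0 : ℝ) ∈ Ico 0 T := ⟨le_rfl, hT3⟩
  set K := |p 0| + |B| * T with hK
  have hK0 : 0 ≤ K := by positivity
  have a1 : ∀ s ∈ Ico 0 T, -K ≤ p s := fun s hs => by
    have := low (convex_Ico 0 T) (fun x hx => (h x (hp x hx)).2.1)
      (fun x hx => (h x (hp x hx)).2.2) z0 hs hs.1
    have b1 := neg_abs_le (p 0)
    have b2 : B * s ≤ |B| * T :=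
      mul_le_mul (le_abs_self B) hs.2.le hs.1 (abs_nonneg B)
    linarith
  have a2 : ∀ s ∈ Ico 0 T, Real.exp (Real.log (γ 0) - K * T) ≤ γ s := fun s hs => by
    have := low (convex_Ico 0 T) (fun x hx => (h x (hp x hx)).1) a1 z0 hs hs.1
    have b2 : K * s ≤ K * T := mul_le_mul_of_nonneg_left hs.2.le hK0
    rw [← Real.exp_log (hp s hs)]
    exact Real.exp_le_exp.2 (by linarith)
  have a3 : Real.exp (Real.log (γ 0) - K * T) ≤ γ T := by
    have hm : T ∈ closure (Ico 0 T) := by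
      rw [closure_Ico hT3.ne]; exact ⟨hT3.le, le_rfl⟩
    exact closure_minimal (t := {s | Real.exp (Real.log (γ 0) - K * T) ≤ γ s}) a2
      (isClosed_le continuous_const hc) hm
  rw [hT2] at a3
  exact absurd a3 (not_le.2 (Real.exp_pos _))

theorem decay {γ p q : ℝ → ℝ} {A B : ℝ} (hA : 0 < A) (hc : Continuous γ) (h0 : ∀ s, 0 ≤ γ s)
    (h1 : 0 < γ 0)
    (h : ∀ s, 0 < γ s → HasDerivAt (fun s => Real.log (γ s)) (p s) s ∧ HasDerivAt p (q s) s ∧
      -B ≤ q s ∧ q s ≤ -A) : Tendsto γ atTop (𝓝 0) := by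
  have hp := pos hc h0 h1 fun s hs => ⟨(h s hs).1, (h s hs).2.1, (h s hs).2.2.1⟩
  set S := (|p 0| + 1) / A with hS
  have hS0 : 0 ≤ S := by positivity
  have hS1 : A * S = |p 0| + 1 := by rw [hS]; field_simp
  have a1 : ∀ s ∈ Ici S, p s ≤ -1 := fun s hs => by
    have hs0 : 0 ≤ s := hS0.trans hs
    have := upp (convex_Ici 0) (fun x hx => (h x (hp x hx)).2.1)
      (fun x hx => (h x (hp x hx)).2.2.2) (mem_Ici.2 le_rfl) hs0 hs0
    have b1 := le_abs_self (p 0)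
    have b2 : A * S ≤ A * s := mul_le_mul_of_nonneg_left hs hA.le
    linarith
  have a2 : ∀ s, S ≤ s → γ s ≤ Real.exp (Real.log (γ S) + S) * Real.exp (-s) := fun s hs => by
    have := upp (convex_Ici S) (fun x hx => (h x (hp x (hS0.trans hx))).1) a1
      (mem_Ici.2 le_rfl) hs hs
    rw [← Real.exp_add, ← Real.exp_log (hp s (hS0.trans hs))]
    exact Real.exp_le_exp.2 (by linarith)
  have a3 := Real.tendsto_exp_neg_atTop_nhds_zero.const_mul (Real.exp (Real.log (γ S) + S))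
  rw [mul_zero] at a3
  exact squeeze_zero' (Eventually.of_forall h0) (eventually_atTop.2 ⟨S, a2⟩) a3

variable {n : ℕ}

theorem line0 {β : Type} [NormedAddCommGroup β] [NormedSpace ℝ β] {F : (Fin n → ℂ) → β}
    (z v : Fin n → ℂ) (t : ℝ) (h : DifferentiableAt ℝ F (z + t • v)) :
    HasDerivAt (fun s : ℝ => F (z + s • v)) (fderiv ℝ F (z + t • v) v) t := by
  have h1 : HasDerivAt (fun s : ℝ => z + s • v) v t := by
    simpa using ((hasDerivAt_id t).smul_const v).const_add z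
  exact h.hasFDerivAt.comp_hasDerivAt t h1

theorem line {F : (Fin n → ℂ) → ℂ} (z v : Fin n → ℂ) (t : ℝ) (h : ContDiffAt ℝ ∞ F (z + t • v)) :
    HasDerivAt (fun s : ℝ => F (z + s • v)) (fderiv ℝ F (z + t • v) v) t ∧
    HasDerivAt (fun s : ℝ => fderiv ℝ F (z + s • v) v)
      (fderiv ℝ (fun x => fderiv ℝ F x v) (z + t • v) v) t :=
  ⟨line0 z v t (h.differentiableAt (by simp)), line0 (F := fun x => fderiv ℝ F x v) z v t
    (((h.fderiv_right (m := ∞) (by simp)).clm_apply contDiffAt_const).differentiableAt (by simp))⟩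

theorem flat {F : (Fin n → ℂ) → ℂ} (z v : Fin n → ℂ) (h : ∀ t : ℝ, ContDiffAt ℝ ∞ F (z + t • v))
    (hc : ∀ t : ℝ, F (z + t • v) = F z) : fderiv ℝ (fun x => fderiv ℝ F x v) z v = 0 := by
  have h1 : ∀ t : ℝ, fderiv ℝ F (z + t • v) v = 0 := fun t => by
    have a := (line z v t (h t)).1
    simp only [hc] at a
    exact a.unique (hasDerivAt_const t _)
  have a := (line z v 0 (h 0)).2
  simp only [h1] at a
  have := a.unique (hasDerivAt_const 0 _)
  rwa [zero_smul, add_zero] at this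

theorem lg {g : (Fin n → ℂ) → ℝ} {z : Fin n → ℂ} (h : ContDiffAt ℝ ∞ g z) (h0 : 0 < g z) :
    ContDiffAt ℝ ∞ (fun w => (Real.log (g w) : ℂ)) z :=
  ofRealCLM.contDiff.contDiffAt.comp z (h.log h0.ne')

theorem e1 (u : Fin n → ℂ) (s : ℝ) : ((s : ℂ) * I) • u = 0 + s • (I • u) := by
  rw [zero_add, mul_smul]; rfl

theorem e2 (u : Fin n → ℂ) (ζ : ℂ) (t : ℝ) : (ζ + t) • u = ζ • u + t • u := by
  rw [add_smul]; rfl

end Pool.Agent.Lib.KP.T63

namespace Pool.Agent.Lib.KP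

open Pool.Agent.Lib.HS32 T63

theorem st_DSC1 : St_DSC1 := by
  intro n g u a b ha h h0
  have hs : ∀ ζ : ℂ, ContDiffAt ℝ ∞ g (ζ • u) := fun ζ => (h ζ).1.self_of_nhds
  have hc : Continuous fun s : ℝ => g ((s * I) • u) := continuous_iff_continuousAt.2 fun s =>
    ContinuousAt.comp (g := g) (f := fun s : ℝ => ((s : ℂ) * I) • u) (hs _).continuousAt
      (by fun_prop)
  refine decay (A := 4 * a) (B := 4 * b)
    (p := fun s => (fderiv ℝ (fun w => (Real.log (g w) : ℂ)) (0 + s • (I • u)) (I • u)).re)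
    (q := fun s => (fderiv ℝ (fun x => fderiv ℝ (fun w => (Real.log (g w) : ℂ)) x (I • u))
      (0 + s • (I • u)) (I • u)).re) (by positivity) hc (fun s => (h _).2.1) (by simpa using h0)
    fun s hp => ?_
  have hF := lg (hs _) hp
  have hz : fderiv ℝ (fun x => fderiv ℝ (fun w => (Real.log (g w) : ℂ)) x u)
      (((s : ℂ) * I) • u) u = 0 := by
    refine flat _ u (fun t => ?_) fun t => ?_
    · rw [← e2]
      exact lg (hs _) (by rw [(h _).2.2.1 t]; exact hp)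
    · rw [← e2, (h _).2.2.1 t]
  have hf := congrArg re (HS95.HBK.hess_form hF u)
  obtain ⟨b1, b2⟩ := (h _).2.2.2 hp
  rw [HS95.d2, HS95.d2, hz, zero_add] at hf
  have hq : 4 * nq (hess (fun w => (Real.log (g w) : ℂ)) (((s : ℂ) * I) • u)) u =
      (fderiv ℝ (fun x => fderiv ℝ (fun w => (Real.log (g w) : ℂ)) x (I • u))
        (((s : ℂ) * I) • u) (I • u)).re := by
    rw [← hf, nq]; simp
  rw [e1] at hF
  obtain ⟨c1, c2⟩ := line 0 (I • u) s hF
  refine ⟨?_, reCLM.hasFDerivAt.comp_hasDerivAt s c2, ?_, ?_⟩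
  · have := reCLM.hasFDerivAt.comp_hasDerivAt s c1
    simp only [e1]
    exact this
  · rw [← e1, ← hq]; linarith
  · rw [← e1, ← hq]; linarith

end Pool.Agent.Lib.KP
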