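import Pool.Agent.Lib.KP.Blue

/-! Project kp71, row DSC2: the periods in the smaller subspace are relatively dense. -/

open scoped Classical Topology Matrix
open Set MeasureTheory Complex Metric Filter

noncomputable section

namespace Pool.Agent.Lib.KP

namespace T20

variable {V : Type} [NormedAddCommGroup V] [NormedSpace ℂ V] [FiniteDimensional ℂ V]

theorem cover (C δ : ℝ) (hδ : 0 < δ) :
    ∃ t : Set V, t.Finite ∧ ∀ w : V, ‖w‖ ≤ C → ∃ y ∈ t, ‖w - y‖ < δ := by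
  have : ProperSpace V := FiniteDimensional.proper ℂ V
  obtain ⟨t, ht, h⟩ := Metric.totallyBounded_iff.1
    (isCompact_closedBall (0 : V) C).totallyBounded δ hδ
  refine ⟨t, ht, fun w hw => ?_⟩
  have := h (mem_closedBall_zero_iff.2 hw)
  simp only [mem_iUnion, mem_ball, dist_eq_norm] at this
  obtain ⟨y, hy, h2⟩ := this
  exact ⟨y, hy, h2⟩

theorem core (π p : V →L[ℂ] V) (Λ : AddSubgroup V) (g : V → ℝ) (R : ℝ)
    (h1 : ∀ v, π (π v) = π v) (h2 : ∀ v, p (p v) = p v) (h3 : ∀ v, π (p v) = p v)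
    (h4 : ∀ v, p (π v) = p v) (hΛ : ∀ τ ∈ Λ, π τ = τ) (hR : ∀ v, ∃ τ ∈ Λ, ‖π v - τ‖ ≤ R)
    (hg : ∀ v, π v = v → ContinuousAt g v ∧ (∀ τ ∈ Λ, g (v + τ) = g v) ∧ ∀ u, g (v + p u) = g v)
    (h0 : g 0 ≠ 0) (hu : ∀ u, u ≠ 0 → π u = u → p u = 0 →
      (∀ v, π v = v → ∀ t : ℝ, g (v + (t : ℂ) • u) = g v) →
      Tendsto (fun s : ℝ => g ((s * I) • u)) atTop (𝓝 0)) :
    ∃ R' : ℝ, ∀ v, ∃ τ ∈ Λ, p τ = τ ∧ ‖p v - τ‖ ≤ R' := by
  have : ProperSpace V := FiniteDimensional.proper ℂ V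
  set q : V →L[ℂ] V := π - p with hq
  have qa : ∀ v, q v = π v - p v := fun v => rfl
  have πq : ∀ v, π (q v) = q v := fun v => by rw [qa, map_sub, h1, h3]
  have pq : ∀ v, p (q v) = 0 := fun v => by rw [qa, map_sub, h4, h2, sub_self]
  have qp : ∀ v, q (p v) = 0 := fun v => by rw [qa, h3, h2, sub_self]
  have per : ∀ v, π v = v → ∀ τ ∈ Λ, g (v + q τ) = g v := fun v hv τ hτ => by
    have e : v + q τ = (v + τ) + p (-τ) := by rw [qa, hΛ τ hτ, map_neg]; abel
    rw [e, (hg (v + τ) (by rw [map_add, hv, hΛ τ hτ])).2.2, (hg v hv).2.1 τ hτ]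
  have disc : ∃ ε : ℝ, 0 < ε ∧ ∀ τ ∈ Λ, ‖q τ‖ < ε → q τ = 0 := by
    by_contra hc
    push Not at hc
    choose τ hτ hs hn using fun j : ℕ => hc (1 / ((j : ℝ) + 1)) (by positivity)
    have hp : ∀ j, 0 < ‖q (τ j)‖ := fun j => norm_pos_iff.2 (hn j)
    set a : ℕ → V := fun j => ((‖q (τ j)‖⁻¹ : ℝ) : ℂ) • q (τ j) with ha
    have ha1 : ∀ j, a j ∈ sphere (0 : V) 1 := fun j => by
      rw [mem_sphere_zero_iff_norm, ha]
      simp only [norm_smul, Complex.norm_real, norm_inv, norm_norm]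
      exact inv_mul_cancel₀ (hp j).ne'
    obtain ⟨u, hu1, φ, hφ, hl⟩ := (isCompact_sphere (0 : V) 1).tendsto_subseq ha1
    have u0 : u ≠ 0 := by
      rw [mem_sphere_zero_iff_norm] at hu1
      intro h; rw [h, norm_zero] at hu1; exact zero_ne_one hu1
    have πu : π u = u := by
      refine tendsto_nhds_unique ((π.continuous.tendsto u).comp hl) (hl.congr fun j => ?_)
      simp only [Function.comp_apply, ha, map_smul, πq]
    have pu : p u = 0 := by
      refine tendsto_nhds_unique ((p.continuous.tendsto u).comp hl)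
        (tendsto_const_nhds.congr fun j => ?_)
      simp only [Function.comp_apply, ha, map_smul, pq, smul_zero]
    have z : Tendsto (fun j => ‖q (τ (φ j))‖) atTop (𝓝 0) :=
      squeeze_zero (fun j => norm_nonneg _) (fun j => (hs (φ j)).le)
        (tendsto_one_div_add_atTop_nhds_zero_nat.comp hφ.tendsto_atTop)
    have inv : ∀ v, π v = v → ∀ t : ℝ, g (v + (t : ℂ) • u) = g v := by
      intro v hv t
      set c : ℕ → ℝ := fun j => (⌊t / ‖q (τ (φ j))‖⌋ : ℝ) * ‖q (τ (φ j))‖ with hc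
      have c1 : Tendsto c atTop (𝓝 t) := by
        have lo : Tendsto (fun j => t - ‖q (τ (φ j))‖) atTop (𝓝 t) := by
          simpa using tendsto_const_nhds.sub z
        refine tendsto_of_tendsto_of_tendsto_of_le_of_le lo tendsto_const_nhds
          (fun j => ?_) (fun j => ?_)
        · have k := (Int.sub_one_lt_floor (t / ‖q (τ (φ j))‖)).le
          have k2 := mul_le_mul_of_nonneg_right k (hp (φ j)).le
          rwa [sub_mul, div_mul_cancel₀ _ (hp (φ j)).ne', one_mul] at k2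
        · have k2 := mul_le_mul_of_nonneg_right (Int.floor_le (t / ‖q (τ (φ j))‖)) (hp (φ j)).le
          rwa [div_mul_cancel₀ _ (hp (φ j)).ne'] at k2
      have c2 : Tendsto (fun j => v + ((c j : ℝ) : ℂ) • a (φ j)) atTop (𝓝 (v + (t : ℂ) • u)) :=
        tendsto_const_nhds.add (((Complex.continuous_ofReal.tendsto t).comp c1).smul hl)
      have c3 := ((hg (v + (t : ℂ) • u) (by rw [map_add, map_smul, hv, πu])).1.tendsto).comp c2
      refine tendsto_nhds_unique c3 (tendsto_const_nhds.congr fun j => ?_)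
      have e : ((c j : ℝ) : ℂ) • a (φ j) = q (⌊t / ‖q (τ (φ j))‖⌋ • τ (φ j)) := by
        simp only [hc, ha, smul_smul]
        rw [← Complex.ofReal_mul, mul_assoc, mul_inv_cancel₀ (hp (φ j)).ne', mul_one, map_zsmul,
          Complex.ofReal_intCast, Int.cast_smul_eq_zsmul]
      simp only [Function.comp_apply]
      rw [e, per v hv _ (Λ.zsmul_mem (hτ _) _)]
    have lim := hu u u0 πu pu inv
    have g0 : 0 < |g 0| / 2 := by positivity
    obtain ⟨M₀, hM₀⟩ := eventually_atTop.1 ((Metric.tendsto_nhds.1 lim) _ g0)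
    obtain ⟨δ, hδ, hd⟩ := Metric.continuousAt_iff.1 (hg 0 (map_zero π)).1 _ g0
    set M := max M₀ 1 with hM
    have M1 : (1 : ℝ) ≤ M := le_max_right _ _
    choose σ hσ hb using fun j : ℕ => hR (((((j : ℝ) * M : ℝ) : ℂ) * I) • u)
    obtain ⟨t, ht, hc⟩ := cover (V := V) (‖q‖ * R) (δ / 2) (by positivity)
    have qu : q u = u := by rw [qa, πu, pu, sub_zero]
    set w : ℕ → V := fun j => ((((j : ℝ) * M : ℝ) : ℂ) * I) • u - q (σ j) with hw
    have wb : ∀ j, ‖w j‖ ≤ ‖q‖ * R := fun j => by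
      have e : w j = q (π (((((j : ℝ) * M : ℝ) : ℂ) * I) • u) - σ j) := by
        simp only [hw, map_sub, map_smul, πu, qu]
      rw [e]
      exact (q.le_opNorm _).trans (mul_le_mul_of_nonneg_left (hb j) (norm_nonneg _))
    choose y hy hyw using fun j => hc (w j) (wb j)
    obtain ⟨i, j, hij, e⟩ := ht.exists_lt_map_eq_of_forall_mem hy
    have cl : dist (w j - w i) 0 < δ := by
      rw [dist_zero_right]
      have e2 : w j - w i = (w j - y j) - (w i - y i) := by rw [e]; abel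
      rw [e2]
      linarith [norm_sub_le (w j - y j) (w i - y i), hyw i, hyw j]
    have k1 := hd cl
    have πw : π (w j - w i) = w j - w i := by
      simp only [hw, map_sub, map_smul, πu, πq]
    have k2 := per _ πw (σ j - σ i) (Λ.sub_mem (hσ j) (hσ i))
    have e3 : w j - w i + q (σ j - σ i) = (((((j : ℝ) - i) * M : ℝ) : ℂ) * I) • u := by
      simp only [hw, map_sub]
      push_cast
      rw [sub_mul, sub_mul, sub_smul]
      abel
    have ge : M₀ ≤ ((j : ℝ) - i) * M := by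
      have : (i : ℝ) + 1 ≤ j := by exact_mod_cast hij
      nlinarith [le_max_left M₀ 1]
    have k3 := hM₀ _ ge
    rw [← e3, k2] at k3
    rw [Real.dist_eq] at k1 k3
    rw [sub_zero] at k3
    have k4 := abs_sub_abs_le_abs_sub (g 0) (g (w j - w i))
    rw [abs_sub_comm] at k4
    linarith
  obtain ⟨ε, hε, hd⟩ := disc
  obtain ⟨t, ht, hc⟩ := cover (V := V) (‖q‖ * R) (ε / 2) (by positivity)
  have rep : ∀ y : V, ∃ σ ∈ Λ, (∃ τ ∈ Λ, ‖q τ - y‖ < ε / 2) → ‖q σ - y‖ < ε / 2 := fun y => by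
    by_cases h : ∃ τ ∈ Λ, ‖q τ - y‖ < ε / 2
    · obtain ⟨τ, hτ, h⟩ := h
      exact ⟨τ, hτ, fun _ => h⟩
    · exact ⟨0, Λ.zero_mem, fun h' => absurd h' h⟩
  choose σ hσ hs using rep
  refine ⟨R + ∑ y ∈ ht.toFinset, ‖σ y‖, fun v => ?_⟩
  obtain ⟨τ, hτ, hb⟩ := hR (p v)
  rw [h3] at hb
  have b1 : ‖q τ‖ ≤ ‖q‖ * R := by
    have e : q τ = -q (p v - τ) := by rw [map_sub, qp, zero_sub, neg_neg]
    rw [e, norm_neg]
    exact (q.le_opNorm _).trans (mul_le_mul_of_nonneg_left hb (norm_nonneg _))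
  obtain ⟨y, hy, hyτ⟩ := hc _ b1
  have b2 := hs y ⟨τ, hτ, hyτ⟩
  have m := Λ.sub_mem hτ (hσ y)
  have b3 : q (τ - σ y) = 0 := by
    refine hd _ m ?_
    have e : q (τ - σ y) = (q τ - y) - (q (σ y) - y) := by rw [map_sub]; abel
    rw [e]
    linarith [norm_sub_le (q τ - y) (q (σ y) - y)]
  refine ⟨τ - σ y, m, ?_, ?_⟩
  · rw [qa, hΛ _ m] at b3
    exact (sub_eq_zero.1 b3).symm
  · have e : p v - (τ - σ y) = (p v - τ) + σ y := by abel
    have b4 : ‖σ y‖ ≤ ∑ y ∈ ht.toFinset, ‖σ y‖ :=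
      Finset.single_le_sum (f := fun y => ‖σ y‖) (fun _ _ => norm_nonneg _) (ht.mem_toFinset.2 hy)
    rw [e]
    linarith [norm_add_le (p v - τ) (σ y)]

end T20

theorem st_DSC2 : St_DSC2 := by
  intro n π p Λ g R h1 h2 h3 h4 hΛ hR hg h0 hu
  exact T20.core (LinearMap.toContinuousLinearMap (Matrix.mulVecLin π))
    (LinearMap.toContinuousLinearMap (Matrix.mulVecLin p)) Λ g R
    (fun v => (Matrix.mulVec_mulVec v π π).trans (by rw [h1]; rfl))
    (fun v => (Matrix.mulVec_mulVec v p p).trans (by rw [h2]; rfl))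
    (fun v => (Matrix.mulVec_mulVec v π p).trans (by rw [h3]; rfl))
    (fun v => (Matrix.mulVec_mulVec v p π).trans (by rw [h4]; rfl)) hΛ hR hg h0 hu

end Pool.Agent.Lib.KP
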