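import Pool.Agent.Lib.KP.Blue2
import Pool.Agent.Lib.KP.B_DSC

open scoped Classical Topology ContDiff ComplexOrder Matrix
open Set Complex Metric Filter

noncomputable section

namespace Pool.Agent.Lib.KP

open Pool.Agent.Lib.SV (E)
open Pool.Agent.Lib.HS32
open Pool.Agent.Lib.HS32.Mf



open T94 in
theorem st_DSE (hN : St_NHS) (hW : St_WCE) (hI : St_NINV) (h1 : St_DSC1) (h2 : St_DSC2) :
    St_DSE := by
  intro n M _ H P P' k k' a r L f φ Ψ hH hE hD hS hV hz
  obtain ⟨p, p1, -, p3, p4, loc⟩ := hW n M H P (M.hw φ) P' k k' a r Ψ hH hE hS hV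
  have sm := hD.wt.nr_sm hD.hol.toSecC
  have r0 := hV.r0
  refine ⟨p, r0, p1, fun z h => ?_, ?_⟩
  · obtain ⟨e, a1, a2, -, a3⟩ := loc z (le_trans (le_of_eq (by
      rw [Matrix.mulVec_sub, Matrix.mulVec_mulVec, p3, sub_sub_sub_cancel_right]))
      ((off_le k _).trans h))
    exact ⟨e, a1, a2, a3⟩
  obtain ⟨z₀, z1, z2⟩ : ∃ z₀, M.nrC φ f (Ψ z₀) ≠ 0 ∧ ‖z₀‖ ≤ 3 * r := by
    obtain ⟨e, a1, a2, -⟩ := loc 0 (by simpa using r0.le)
    have := mem_closure_iff_frequently.1 (hD.den (Ψ 0))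
    rw [← a1.map_nhds a2, frequently_map] at this
    obtain ⟨z, b1, b2⟩ := (this.and_eventually
      (closedBall_mem_nhds (0 : E n) (show 0 < 3 * r by positivity))).exists
    exact ⟨z, b1, mem_closedBall_zero_iff.1 b2⟩
  have off (v : E n) (hv : pr k *ᵥ v = v) : ‖z₀ + v - pr k *ᵥ (z₀ + v)‖ ≤ 3 * r := by
    rw [Matrix.mulVec_add, hv, add_sub_add_right_eq_sub]
    exact (off_le k _).trans z2
  obtain ⟨R, hR⟩ := hV.lat
  obtain ⟨R', h⟩ := h2 n (pr k) p (perG (pr k) Ψ) (fun v => M.nrC φ f (Ψ (z₀ + v))) R hV.idem p1 p3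
    p4 (fun τ h => h.1) hR (fun v hv => ⟨sm.continuous.continuousAt.comp
      ((hV.cont (off v hv)).comp (continuous_const_add z₀).continuousAt),
      fun τ h => by rw [← add_assoc, h.2], fun u => by
        rw [← add_assoc]
        exact hI n M P' (pr k) p Ψ (3 * r) _ p3 sm
          (fun z h => let ⟨e, a1, a2, _, a3⟩ := loc z h; ⟨e, a1, a2, a3⟩) hz _ (off v hv) u⟩)
    (by simpa using z1) fun u u0 u1 u2 inv => by
      obtain ⟨C, -, c1, -⟩ := (mBD n M H hH).1 _ hD.wt.clo.toForm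
      have s0 : 0 < (star u ⬝ᵥ u).re := (pos_iff.1 (Matrix.dotProduct_star_self_pos_iff.2 u0)).1
      refine h1 n (fun v => M.nrC φ f (Ψ (z₀ + v))) u (a * (star u ⬝ᵥ u).re) (C * (star u ⬝ᵥ u).re) (mul_pos hS.a0 s0)
        (fun ζ => ?_) ((nrC_nonneg _ _ _).lt_of_ne' (by simpa using z1))
      have hv : pr k *ᵥ (ζ • u) = ζ • u := by rw [Matrix.mulVec_smul, u1]
      obtain ⟨e, a1, a2, a3, a4⟩ := loc _ (off _ hv)
      refine ⟨?_, nrC_nonneg _ _ _, fun t => by rw [add_smul]; exact inv _ hv t, fun g0 => ?_⟩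
      · filter_upwards [(continuous_const_add z₀).continuousAt.eventually
          (e.open_target.eventually_mem a2)] with w hw
        exact ((sm e a1.1 _ hw).congr_of_eventuallyEq ((a1.ev hw).fun_comp _)).comp w
          (contDiffAt_const.add contDiffAt_id)
      have f0 : f e (z₀ + ζ • u) ≠ 0 := fun h => by
        rw [a1.2 _ a2, hD.wt.nr_rep hD.hol.toSecC e a1.1 _ a2] at g0
        simp [h] at g0
      have e1 : nq (H e (z₀ + ζ • u)) u = (star u ⬝ᵥ u).re := by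
        rw [nq]
        nth_rewrite 3 [← u1]
        rw [Matrix.mulVec_mulVec, a3.blk _ a2, u1]
      have e2 := hS.lo e a1.1 _ a2 u (by rw [a3.prj _ a2, u1]) (by rw [a4 _ a2, u2])
      have e3 := (nonneg_iff.1 ((c1 e a1.1 _ a2).dotProduct_mulVec_nonneg u)).1
      rw [hess_tr fun w => (Real.log (M.nrC φ f (Ψ w)) : ℂ),
        show hess (fun w => (Real.log (M.nrC φ f (Ψ w)) : ℂ)) _ = _ from
          (hess_congr ((a1.ev a2).fun_comp fun x => (Real.log (M.nrC φ f x) : ℂ))).trans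
            ((hN n M L f φ hD.hol hD.wt e a1.1 _ a2).2.2.2.2 f0)]
      rw [e1] at e2
      simp only [nq, Pi.smul_apply, Matrix.sub_mulVec, Matrix.smul_mulVec, dotProduct_sub,
        dotProduct_smul, sub_re, real_smul, re_ofReal_mul, Matrix.neg_mulVec, dotProduct_neg,
        neg_re] at e1 e2 e3 ⊢
      rw [e1] at e3
      exact ⟨by linarith, by linarith⟩
  exact ⟨R', fun v => let ⟨τ, a1, a2, a3⟩ := h v; ⟨τ, ⟨a2, a1.2⟩, a3⟩⟩

end Pool.Agent.Lib.KP
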