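import Pool.Agent.Lib.KP.Blue
import Pool.Agent.Lib.KP.Kit
import Pool.Agent.Lib.RB.All
import Pool.Agent.Lib.HS76.Diag

/-! Project kp71: the flat block of the curvature form is parallel and semi-positive. -/

open scoped Classical Topology ContDiff ComplexOrder Matrix ENNReal
open Set MeasureTheory Complex Metric Filter

set_option linter.unusedVariables false

noncomputable section

namespace Pool.Agent.Lib.KP

open Pool.Agent.Lib.SV (E nsq)
open Pool.Agent.Lib.HS32

namespace T80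

variable {n : ℕ} {M : Mf n}

/-- A field of endomorphisms that is holomorphic in one chart is holomorphic in all charts. -/
theorem end_hol {Q : M.Fam (Mat n)} (hQ : M.End Q) {e e' : M.Ch} (he : e ∈ M.C) (he' : e' ∈ M.C)
    {x : M.X} (hx : x ∈ e.source) (hx' : x ∈ e'.source) (h : ∀ l, dMb l (Q e) (e x) = 0)
    (l : Fin n) : dMb l (Q e') (e' x) = 0 := by
  obtain ⟨t1, t2, -, t4, -⟩ := (mTR n M).2.1 e he e' he' x hx hx'
  obtain ⟨c1, c2, -, c4, -, -, -, -, -, c10, -⟩ := mCHN n _ _ t1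
  have p : (e ∘ e'.symm) (e' x) = e x := by simp only [Function.comp_apply, e'.left_inv hx']
  have s : SmM (Q e) ((e ∘ e'.symm) (e' x)) := by rw [p]; exact hQ.sm.at he hx
  have ev : (fun w => jm (e ∘ e'.symm) w * Q e' w) =ᶠ[𝓝 (e' x)]
      fun w => Q e ((e ∘ e'.symm) w) * jm (e ∘ e'.symm) w := by
    filter_upwards [t4] with w hw
    have := hQ.cmp e he e' he' _ hw.2.1 hw.2.2.1
    beta_reduce at this
    rwa [hw.2.2.2.2.2.1, hw.2.2.2.2.2.2] at this
  have d := dMb_congr (k := l) ev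
  have z : dMb l (fun w => Q e ((e ∘ e'.symm) w)) (e' x) = 0 := by
    ext i j
    refine ((c10 (fun w => Q e w i j) (s.diff i j) l).2).trans (Finset.sum_eq_zero fun a _ => ?_)
    rw [p]
    exact mul_eq_zero_of_left (congrFun (congrFun (h a) i) j) _
  rw [dMb_mul c2 (hQ.sm.at he' hx'), dMb_mul (s.comp c1) c2, c4, z] at d
  simp only [zero_mul, mul_zero, zero_add] at d
  have u : IsUnit (jm (e ∘ e'.symm) (e' x)) := (Matrix.isUnit_iff_isUnit_det _).2 t2.isUnit
  exact u.mul_right_eq_zero.1 d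

theorem hq_eq {H P θ : Mat n} (hH : H.PosDef) (hP : (H * P).IsHermitian) :
    H * (P * H⁻¹ * θ * P) = Pᴴ * θ * P := by
  have a : H * P = Pᴴ * H := by rw [← hP.eq, Matrix.conjTranspose_mul, hH.1.eq]
  have b : H * H⁻¹ = 1 := Matrix.mul_nonsing_inv _ (Mf.pd_det_ne hH).isUnit
  calc H * (P * H⁻¹ * θ * P) = (H * P) * H⁻¹ * θ * P := by simp only [mul_assoc]
    _ = Pᴴ * (H * H⁻¹) * θ * P := by rw [a]; simp only [mul_assoc]
    _ = _ := by rw [b, mul_one]

/-- The determinant of `1 + s Q` through the eigenvalues. -/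
theorem eig_det {H Q : Mat n} (hH : H.PosDef) (hQ : (H * Q).IsHermitian) :
    ∃ lam : Fin n → ℝ, ((H * Q).PosSemidef ↔ ∀ i, 0 ≤ lam i) ∧
      ∀ s : ℝ, (1 + s • Q).det = ((∏ i, (1 + s * lam i) : ℝ) : ℂ) := by
  obtain ⟨lam, h⟩ := HS76.eig hH hQ
  refine ⟨lam, by simpa using h.psd 0 1, fun s => ?_⟩
  have := h.det1 1 s
  rw [← mul_assoc, Matrix.nonsing_inv_mul _ (Mf.pd_det_ne hH).isUnit, one_mul, one_smul,
    Complex.coe_smul] at this
  rw [this]
  push_cast
  rfl

end T80

theorem st_ETA1 (hNHS : St_NHS) : St_ETA1 := by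
  intro n M _ H P k L f φ hH hP hA hD hd
  have hθ := hD.wt.clo
  have hm : M.Met H := hH.toMet
  have a1 := (mINV n M H hm).2.2.2.2.1 _ hθ.toForm.toTen
  have en : M.End (M.qF H P (M.hw φ)) := by
    refine ⟨fun e he z hz => ?_, fun e he e' he' x hx hx' => ?_⟩
    · have := ((hP.en.sm e he z hz).mul (a1.sm e he z hz)).mul (hP.en.sm e he z hz)
      exact this.congr (Eventually.of_forall fun w => by simp only [Mf.qF, mul_assoc])
    · have b1 := hP.en.cmp e he e' he' x hx hx'
      have b2 := a1.cmp e he e' he' x hx hx'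
      beta_reduce at b1 b2 ⊢
      simp only [Mf.qF]
      rw [mul_assoc (P e' _), mul_assoc (P e _) (H e _)⁻¹, ← mul_assoc, ← mul_assoc, b1,
        mul_assoc (P e _), b2, mul_assoc, mul_assoc, b1]
      simp only [mul_assoc]
  have hq : M.All fun e z => H e z * M.qF H P (M.hw φ) e z = (P e z)ᴴ * M.hw φ e z * P e z :=
    fun e he z hz => T80.hq_eq (hm.pos e he z hz) (hP.herm e he z hz)
  have herm : M.All fun e z => (H e z * M.qF H P (M.hw φ) e z).IsHermitian := fun e he z hz => by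
    beta_reduce
    rw [hq e he z hz]
    exact Matrix.isHermitian_conjTranspose_mul_mul _ (hθ.herm e he z hz)
  have hs : M.HolSA H (M.qF H P (M.hw φ)) := by
    refine ⟨en, fun e' he' z hz l => ?_, herm⟩
    obtain ⟨e, he, hx⟩ := hA (e'.symm z)
    have := T80.end_hol en he.mem he' hx (e'.map_target hz) (fun l => ?_) l
    · rwa [e'.right_inv hz] at this
    generalize e.map_source hx = hw
    generalize e (e'.symm z) = w at hw
    have ev : M.qF H P (M.hw φ) e =ᶠ[𝓝 w] fun y => pr k * (M.hw φ e y * pr k) := by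
      filter_upwards [e.open_target.eventually_mem hw] with y hy
      have c1 := hq e he.mem y hy
      have c2 := hP.herm e he.mem y hy
      have c3 := he.blk y hy
      have c4 := Mf.pd_det_ne (hm.pos e he.mem y hy)
      beta_reduce at c1 c2
      rw [he.prj y hy, c3] at c2
      have c5 : pr k * H e y = pr k := by
        rw [← c2.eq, ← (hm.herm e he.mem y hy).eq, ← Matrix.conjTranspose_mul, c3]
      have c6 : pr k * (H e y)⁻¹ = pr k := by
        rw [← c5, mul_assoc, Matrix.mul_nonsing_inv _ c4.isUnit, mul_one, c5]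
      rw [Mf.qF, he.prj y hy, c6, mul_assoc]
    have s := hθ.sm e he.mem w hw
    have z0 : ∀ A : Mat n, dMb l (fun _ => A) w = 0 := fun A => by ext i j; exact dzb_const _
    rw [dMb_congr ev, dMb_mul (smM_const _) (s.mul (smM_const _)), dMb_mul s (smM_const _), z0,
      zero_mul, mul_zero, zero_add, add_zero, dMb_herm s (hθ.herm.ev he.mem hw), ← mul_assoc]
    refine mul_eq_zero_of_left ?_ _
    ext i j
    rw [pr, Matrix.diagonal_mul, Matrix.conjTranspose_apply, hθ.cl e he.mem w hw j i l]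
    split_ifs with hi
    · rw [hd e he w hw i hi]; simp
    · simp
  refine ⟨hs, fun e he z hz => ?_⟩
  have sN := hD.wt.nr_sm hD.hol.toSecC
  obtain ⟨x, hx⟩ := sN.exists_max
  obtain ⟨y, hy⟩ := hD.den.nonempty
  have p0 : 0 < M.nrC φ f x := ((Mf.nrC_nonneg φ f y).lt_of_ne' hy).trans_le (hx y)
  have l0 := (M.ch x).left_inv (Mf.mem_ch x)
  have s0 := sN.ch x
  have p1 : 0 < (M.nrC φ f ∘ (M.ch x).symm) (M.ch x x) := by rwa [Function.comp_apply, l0]
  have mx : IsLocalMax (fun w => Real.log (M.nrC φ f ((M.ch x).symm w))) (M.ch x x) := by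
    filter_upwards [s0.continuousAt.eventually (lt_mem_nhds p1)] with w hw
    rw [l0]
    exact Real.log_le_log hw (hx _)
  have q := (mMAXE n _ _ (s0.log p1.ne') mx).1
  have q' := ((hNHS n M L f φ hD.hol hD.wt).ch x).2.2.2.2 (Mf.nrC_ne.1 p0.ne')
  have q2 : (M.hw φ (M.ch x) (M.ch x x)).PosSemidef := by
    rw [← neg_neg (M.hw φ _ _), ← q']; exact q
  obtain ⟨l1, u1, u2⟩ := T80.eig_det (hm.pos.ch x) (herm.ch x)
  obtain ⟨l2, v1, v2⟩ := T80.eig_det (hm.pos e he z hz) (herm e he z hz)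
  have u3 := u1.1 (by rw [hq.ch x]; exact q2.conjTranspose_mul_mul_same _)
  refine v1.2 fun i => not_lt.1 fun hi => ?_
  obtain ⟨c, hc⟩ := (RB.aRPA n M H _ hm hs).2.2 (-(l2 i)⁻¹)
  have w1 := hc e he z hz
  have w2 := hc.ch x
  beta_reduce at w1 w2
  rw [v2, ← w2, u2, ofReal_inj,
    Finset.prod_eq_zero (Finset.mem_univ i) (by rw [neg_mul, inv_mul_cancel₀ hi.ne, add_neg_cancel])] at w1
  have : 0 ≤ -(l2 i)⁻¹ := neg_nonneg.2 (inv_nonpos.2 hi.le)
  exact (Finset.prod_pos fun j _ => by have := u3 j; positivity).ne w1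

end Pool.Agent.Lib.KP
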