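import Pool.Agent.Lib.KP.Blue
import Pool.Agent.Lib.KP.Kit
import Pool.Agent.Lib.HS.B_PAR
import Pool.Agent.Lib.RB.B_RPJ

/-! Project kp71: the splitting of the flat factor. -/

open scoped Classical Topology ContDiff ComplexOrder Matrix ENNReal
open Set MeasureTheory Complex Metric Filter

noncomputable section

namespace Pool.Agent.Lib.KP

open Pool.Agent.Lib.SV (E)
open Pool.Agent.Lib.HS32 Pool.Agent.Lib.HS32.Mf

namespace T18

variable {n : ℕ} {H P R : Mat n}

theorem adj (hH : H.PosDef) (hP : (H * P).IsHermitian) : Pᴴ * H = H * P := by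
  have := hP.eq
  rwa [Matrix.conjTranspose_mul, hH.1.eq] at this

theorem comm (hH : H.PosDef) (hP : (H * P).IsHermitian) (hR : (H * R).IsHermitian)
    (h : P * R = R) : R * P = R := by
  have h1 := congrArg (fun A : Mat n => (H * A)ᴴ) h
  beta_reduce at h1
  rw [← Matrix.mul_assoc, Matrix.conjTranspose_mul, hP.eq, hR.eq, ← Matrix.mul_assoc, adj hH hR,
    Matrix.mul_assoc] at h1
  exact hH.isUnit.mul_left_cancel h1

theorem psd (hH : H.PosDef) (hP : (H * P).IsHermitian) (h : P * P = P) : (H * P).PosSemidef := by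
  have := hH.posSemidef.conjTranspose_mul_mul_same P
  rwa [adj hH hP, Matrix.mul_assoc, h] at this

end T18

open T18 in
theorem st_ETA2 : St_ETA2 := by
  intro n M _ H P θ k hH hP hθ hQ hq
  have hM := hH.toMet
  obtain ⟨R, k₁, a, b, hR⟩ := RB.st_RPJ n M H _ hM hQ hq (HS.st_PAR n M H _ hH hQ).2.2.2
  have pq : M.All fun e z => P e z * M.qF H P θ e z = M.qF H P θ e z := fun e he z hz => by
    simp only [qF, ← Matrix.mul_assoc]
    rw [hP.idem e he z hz]
  have pr1 : M.All fun e z => P e z * R e z = R e z ∧ R e z * P e z = R e z := fun e he z hz => by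
    obtain ⟨-, -, S, hS⟩ := hR.pq e he z hz
    have h1 : P e z * R e z = R e z := by rw [hS, ← Matrix.mul_assoc, pq e he z hz]
    exact ⟨h1, comm (hM.pos e he z hz) (hP.herm e he z hz) (hR.herm e he z hz) h1⟩
  have sub : M.All fun e z => P e z * (P e z - R e z) = P e z - R e z ∧
      (P e z - R e z) * P e z = P e z - R e z := fun e he z hz => by
    beta_reduce
    rw [Matrix.mul_sub, Matrix.sub_mul, hP.idem e he z hz, (pr1 e he z hz).1, (pr1 e he z hz).2]
    exact ⟨rfl, rfl⟩
  have idem : M.All fun e z => (P e z - R e z) * (P e z - R e z) = P e z - R e z :=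
    fun e he z hz => by
      beta_reduce
      rw [Matrix.mul_sub, (sub e he z hz).2, Matrix.sub_mul, (pr1 e he z hz).1, hR.idem e he z hz,
        sub_self, sub_zero]
  have hS : M.HolSA H fun e z => P e z - R e z :=
    ⟨⟨fun e he z hz => (hP.en.sm e he z hz).sub (hR.en.sm e he z hz),
      fun e he e' he' x hx hx' => by
        beta_reduce
        rw [Matrix.mul_sub, Matrix.sub_mul, hP.en.cmp e he e' he' x hx hx',
          hR.en.cmp e he e' he' x hx hx']⟩,
      fun e he z hz l => by
        rw [dMb_sub (hP.en.sm e he z hz) (hR.en.sm e he z hz), hP.hol e he z hz, hR.hol e he z hz,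
          sub_zero],
      fun e he z hz => by
        beta_reduce
        rw [Matrix.mul_sub]
        exact (hP.herm e he z hz).sub (hR.herm e he z hz)⟩
  obtain ⟨p1, p2, -, p4⟩ := HS.st_PAR n M H _ hH hS
  obtain ⟨R', k', a', b', hR'⟩ := RB.st_RPJ n M H _ hM hS
    (fun e he z hz => psd (hM.pos e he z hz) (hS.herm e he z hz) (idem e he z hz)) p4
  refine ⟨fun e z => P e z - R e z, k', a, ⟨hS, hR'.le, p1, p2, idem, fun s e he z hz => ?_,
    fun e he z hz i j => ?_⟩, sub, hR.a0, fun e he z hz v h1 h2 => ?_, fun x => ?_,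
    fun e he z hz i => ?_⟩
  · obtain ⟨-, h1, S, h2⟩ := hR'.pq e he z hz
    have h3 : R' e z = P e z - R e z := by
      refine Eq.trans ?_ h1
      rw [h2, ← Matrix.mul_assoc, idem e he z hz]
    exact h3 ▸ hR'.det s e he z hz
  · beta_reduce
    rw [← (sub e he z hz).1, ← Matrix.mul_assoc, hP.flat e he z hz, Matrix.zero_mul]
  · have h3 : R e z *ᵥ v = v := by
      rw [Matrix.sub_mulVec, h1, sub_eq_zero] at h2
      exact h2.symm
    have h4 := (Complex.nonneg_iff.1 ((hR.lo e he z hz).dotProduct_mulVec_nonneg v)).1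
    have h5 : H e z * M.qF H P θ e z = (P e z)ᴴ * θ e z * P e z := by
      simp only [qF, ← Matrix.mul_assoc]
      rw [← adj (hM.pos e he z hz) (hP.herm e he z hz),
        Matrix.mul_nonsing_inv_cancel_right _ _ (hM.det_ne e he z hz).isUnit]
    have h6 := BBD.nq_conj (θ e z) (P e z) v
    rw [h1, nq] at h6
    rw [h5, Matrix.sub_mulVec, dotProduct_sub, sub_re, h6, Matrix.smul_mulVec,
      ← Matrix.mulVec_mulVec, h3, dotProduct_smul, smul_re, smul_eq_mul, sub_nonneg] at h4
    exact h4
  · have h1 : (M.ev P x - M.ev R x) * (M.ev P x * (M.ev H x)⁻¹ * M.ev θ x * M.ev P x) = 0 := by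
      rw [Matrix.sub_mul]
      exact sub_eq_zero.2 ((AllOn.ch pq x).trans (AllOn.ch hR.pq x).1.symm)
    have h2 : M.ev P x * (M.ev P x - M.ev R x) = M.ev P x - M.ev R x := (AllOn.ch sub x).1
    have h3 : (M.ev P x - M.ev R x) * M.ev P x = M.ev P x - M.ev R x := (AllOn.ch sub x).2
    have h4 := congrArg Matrix.trace h1
    rw [← Matrix.mul_assoc, Matrix.trace_mul_comm, ← Matrix.mul_assoc, ← Matrix.mul_assoc,
      ← Matrix.mul_assoc, h2, h3, Matrix.trace_zero] at h4
    show ((M.ev H x)⁻¹ * (M.ev H x * (M.ev P x - M.ev R x)) * (M.ev H x)⁻¹ * M.ev θ x).trace.re = 0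
    rw [Matrix.nonsing_inv_mul_cancel_left _ _ (hM.ev_det x).isUnit, h4, zero_re]
  · have ev := e.open_target.eventually_mem hz
    have h1 : gam (H e) i z * P e z = 0 := by
      have h2 := dM_mul (k := i) (hM.sm e he.mem z hz) (smM_const (pr k))
      rw [dM_congr (T := fun _ => pr k) (ev.mono fun w hw => he.blk w hw), dM_const,
        Matrix.mul_zero, add_zero] at h2
      rw [gam, he.prj z hz, Matrix.mul_assoc, ← h2, Matrix.mul_zero]
    have h3 := hP.par e he.mem z hz i
    rw [dM_congr (T := fun _ => pr k) (ev.mono fun w hw => he.prj w hw), dM_const, h1, sub_zero]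
      at h3
    refine (p1 e he.mem z hz i).trans ?_
    rw [← (sub e he.mem z hz).2, Matrix.mul_assoc, ← h3, (sub e he.mem z hz).2,
      ← (sub e he.mem z hz).1, ← Matrix.mul_assoc (gam _ _ _), h1, Matrix.mul_zero,
      Matrix.zero_mul, sub_zero]

end Pool.Agent.Lib.KP
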