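import Pool.Agent.Lib.KP.Blue
import Pool.Agent.Lib.KP.Kit

/-! Project kp71: the sheets of a developing map. -/

open scoped Classical Topology ContDiff ComplexOrder Matrix
open Set MeasureTheory Complex Metric Filter

noncomputable section

namespace Pool.Agent.Lib.KP

open Pool.Agent.Lib.SV (E)
open Pool.Agent.Lib.HS32
open Pool.Agent.Lib.HS32.Mf (PerC perG)

namespace T28

variable {n : ℕ} {M : Mf n} {p : Mat n} {Ψ : E n → M.X} {r : ℝ} {Q : M.Ch → Prop}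

theorem per_closed (h : M.DvC p Ψ r Q) : IsClosed (perG p Ψ : Set (E n)) := by
  obtain ⟨e, a, b, -⟩ := h.loc 0 (by simpa using h.r0.le)
  have : DiscreteTopology (perG p Ψ) := discreteTopology_of_isOpen_singleton_zero
    (isOpen_induced_iff.2 ⟨_, e.open_target, Set.ext fun τ => ⟨fun hτ =>
      Subtype.ext (a.inj hτ b (by simpa using τ.2.2 0)), fun hτ => by
        rw [mem_singleton_iff.1 hτ]; exact b⟩⟩)
  exact AddSubgroup.isClosed_of_discrete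

variable (p Ψ) in
/-- A representative modulo the periods. -/
def rep (z : E n) : E n := (QuotientAddGroup.mk z : E n ⧸ perG p Ψ).out

theorem rep_eq (z : E n) : ∃ τ, PerC p Ψ τ ∧ rep p Ψ z = z + τ :=
  let ⟨τ, h⟩ := QuotientAddGroup.mk_out_eq_add (perG p Ψ) z
  ⟨τ, τ.2, h⟩

theorem rep_iff {z w : E n} : rep p Ψ z = rep p Ψ w ↔ -z + w ∈ perG p Ψ :=
  Quotient.out_inj.trans QuotientAddGroup.eq

theorem rep_add {τ : E n} (h : PerC p Ψ τ) (z : E n) : rep p Ψ (z + τ) = rep p Ψ z :=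
  (rep_iff.2 (by rw [neg_add_cancel_left]; exact h)).symm

end T28

open T28 in
theorem st_FIB : St_FIB := by
  intro n M _ p Ψ r r₁ Q h hr
  obtain ⟨R, hR⟩ := h.red
  have hT := Mf.isCompact_tube p 0 (2 * r₁) R
  set T := {z : E n | 0 ≤ ‖z - p *ᵥ z‖ ∧ ‖z - p *ᵥ z‖ ≤ 2 * r₁ ∧ ‖p *ᵥ z‖ ≤ R}
  have r3 : 2 * r₁ ≤ 3 * r := by linarith [h.r0]
  have cT : ContinuousOn Ψ T := fun z hz => (h.cont (hz.2.1.trans r3)).continuousWithinAt
  have red : ∀ z, ‖z - p *ᵥ z‖ ≤ 2 * r₁ → ∃ τ, PerC p Ψ τ ∧ z + τ ∈ T := fun z hz =>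
    (hR z).imp fun τ a => ⟨a.1, norm_nonneg _, by rwa [a.1.off], a.2⟩
  have fin : ∀ x, {w | Ψ w = x ∧ ‖w - p *ᵥ w‖ ≤ 2 * r₁ ∧ rep p Ψ w = w}.Finite := fun x => by
    have c : IsCompact (T ∩ Ψ ⁻¹' {x}) := hT.of_isClosed_subset
      (cT.preimage_isClosed_of_isClosed hT.isClosed isClosed_singleton) inter_subset_left
    obtain ⟨t, t1, ht⟩ := c.elim_nhds_subcover (fun z => {w | Ψ w = Ψ z → w = z}) fun z hz => by
      obtain ⟨e, a, b, -⟩ := h.loc z (hz.1.2.1.trans r3)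
      filter_upwards [e.open_target.mem_nhds b] with w hw using a.inj hw b
    refine (t.finite_toSet.image (rep p Ψ)).subset fun w ⟨w1, w2, w3⟩ => ?_
    obtain ⟨τ, a, b⟩ := red w w2
    have w4 := (a.2 w).trans w1
    obtain ⟨z, z1, z2⟩ := mem_iUnion₂.1 (ht ⟨b, w4⟩)
    exact ⟨z, z1, by rw [← z2 (w4.trans (t1 z z1).2.symm), rep_add a, w3]⟩
  refine ⟨fun x => (fin x).toFinset, fun x z hz => ?_, fun x => ?_⟩
  · rw [Finite.mem_toFinset] at hz
    exact ⟨hz.1, hz.2.1⟩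
  let z : Fin (fin x).toFinset.card → E n := fun b => (fin x).toFinset.equivFin.symm b
  have z1 : ∀ b, Ψ (z b) = x ∧ ‖z b - p *ᵥ z b‖ ≤ 2 * r₁ ∧ rep p Ψ (z b) = z b := fun b =>
    (fin x).mem_toFinset.1 ((fin x).toFinset.equivFin.symm b).2
  choose e e1 e2 e3 using fun b => h.loc (z b) ((z1 b).2.1.trans r3)
  have e4 : ∀ b, x ∈ (e b).source := fun b => (z1 b).1 ▸ ((e1 b).mem (e2 b)).1
  have e5 : ∀ b, e b x = z b := fun b => (z1 b).1 ▸ ((e1 b).mem (e2 b)).2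
  refine ⟨_, e, fun b => ⟨e1 b, e3 b, e4 b, e5 b ▸ (z1 b).2.1⟩, ?_⟩
  let U : Set (E n) := ⋃ b, ⋃ τ ∈ {τ | PerC p Ψ τ}, (· + τ) ⁻¹' (e b).target
  have U1 : IsOpen U := isOpen_iUnion fun b => isOpen_biUnion fun τ _ =>
    (e b).open_target.preimage (continuous_add_const τ)
  have U2 : (Ψ '' (T \ U))ᶜ ∈ 𝓝 x := by
    refine ((hT.diff U1).image_of_continuousOn (cT.mono sdiff_subset)).isClosed.isOpen_compl.mem_nhds
      fun ⟨w, ⟨w1, w2⟩, w3⟩ => w2 ?_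
    obtain ⟨τ, a, b⟩ := rep_eq (p := p) (Ψ := Ψ) w
    have m : w + τ ∈ (fin x).toFinset := (fin x).mem_toFinset.2
      ⟨(a.2 w).trans w3, by rw [a.off]; exact w1.2.1, by rw [rep_add a, b]⟩
    refine mem_iUnion.2 ⟨(fin x).toFinset.equivFin ⟨_, m⟩, mem_biUnion a ?_⟩
    simpa only [z, Equiv.symm_apply_apply, mem_preimage] using e2 ((fin x).toFinset.equivFin ⟨_, m⟩)
  have U3 : ∀ b b', b ≠ b' → ∀ᶠ y in 𝓝 x, -e b y + e b' y ∉ perG p Ψ := fun b b' hb => by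
    refine (((e b).continuousAt (e4 b)).neg.add ((e b').continuousAt (e4 b'))).eventually
      ((per_closed h).isOpen_compl.mem_nhds fun m => hb ?_)
    have := rep_iff.2 (show -e b x + e b' x ∈ perG p Ψ from m)
    rw [e5, e5, (z1 b).2.2, (z1 b').2.2] at this
    exact (fin x).toFinset.equivFin.symm.injective (Subtype.ext this)
  filter_upwards [eventually_all.2 fun b => (e b).open_source.eventually_mem (e4 b), U2,
    eventually_all.2 fun b => eventually_all.2 fun b' => eventually_imp_distrib_left.2 (U3 b b')]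
    with y y1 y2 y3
  have y4 : ∀ w, Ψ w = y → ‖w - p *ᵥ w‖ ≤ 2 * r₁ → ∃ b τ, PerC p Ψ τ ∧ e b y = w + τ :=
    fun w w1 w2 => by
      obtain ⟨τ, a, b⟩ := red w w2
      have w4 := (a.2 w).trans w1
      obtain ⟨c, hc⟩ := mem_iUnion.1 (not_not.1 fun m => y2 ⟨_, ⟨b, m⟩, w4⟩)
      obtain ⟨σ, s1, s2⟩ := mem_iUnion₂.1 hc
      refine ⟨c, τ + σ, (perG p Ψ).add_mem a s1, ?_⟩
      rw [← add_assoc, ← w4, ← s1.2]
      exact ((e1 c).mem s2).2
  refine ⟨y1, y4, fun u u1 u2 => ?_⟩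
  rw [Finset.sum_congr rfl (g := fun b => u (rep p Ψ (e b y))) fun b _ => by
    obtain ⟨τ, a, c⟩ := rep_eq (p := p) (Ψ := Ψ) (e b y)
    rw [c, u1 _ _ a], ← Finset.sum_image (g := fun b => rep p Ψ (e b y))
      fun b _ b' _ hb => not_not.1 fun m => y3 b b' m (rep_iff.1 hb)]
  refine Finset.sum_subset (fun w hw => ?_) fun w hw m => u2 w (not_le.1 fun m' => m ?_)
  · obtain ⟨w1, w2, w3⟩ := (fin y).mem_toFinset.1 hw
    obtain ⟨b, τ, a, c⟩ := y4 w w1 w2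
    exact Finset.mem_image.2 ⟨b, Finset.mem_univ _, by rw [c, rep_add a, w3]⟩
  · obtain ⟨b, -, rfl⟩ := Finset.mem_image.1 hw
    obtain ⟨τ, a, c⟩ := rep_eq (p := p) (Ψ := Ψ) (e b y)
    refine (fin y).mem_toFinset.2 ⟨?_, m', by rw [c, rep_add a, c]⟩
    rw [c, a.2, (e1 b).2 _ ((e b).map_source (y1 b)), (e b).left_inv (y1 b)]

end Pool.Agent.Lib.KP
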