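import Pool.Agent.Lib.KP.Blue
import Pool.Agent.Lib.HS.B_GRAD
import Pool.Agent.Lib.HS68.Calg

/-! Project kp71: polynomial bounds for two gradients. -/

open scoped Classical Topology ContDiff ComplexOrder Matrix
open Set MeasureTheory Complex Metric Filter

noncomputable section

namespace Pool.Agent.Lib.KP

open Pool.Agent.Lib.SV (E)
open Pool.Agent.Lib.HS32
open Pool.Agent.Lib.HS78 (Bd Eb psd_smul)

namespace T81

open Pool.Agent.Lib.HS.G80 (eb_cpt bd_of)

variable {n : ℕ}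

theorem gr_le (M : Mf n) {H : M.Fam (Mat n)} (hm : M.Met H) {f : M.X → ℝ} (hf : M.Sm f) {e : M.Ch}
    (he : e ∈ M.C) {z : E n} (hz : z ∈ e.target) {c m : ℝ} (hn : (1 : ℝ) ≤ n) (hc : 1 ≤ c)
    (h0 : 0 ≤ m) (b : Eb c (H e z)⁻¹) (d : ∀ k, ‖dz k (M.lc f e) z‖ ≤ m) :
    M.gr H f f (e.symm z) ≤ (n * c * m) ^ 2 := by
  have hL : (Fintype.card (Fin n) : ℝ) ≤ n := by simp
  have dfz : DifferentiableAt ℝ (M.lc f e) z := cd_diff (cd_ofReal (hf e he z hz))
  have d2 : Eb (m * m) (M.ds f f e z) := fun i j => by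
    have := star_dz_ofReal (j := i) (u := fun w => f (e.symm w)) dfz
    change ‖dzb i (fun w => ((f (e.symm w) : ℝ) : ℂ)) z * dz j _ z‖ ≤ _
    rw [← this]
    exact norm_mul_le_of_le (by rw [norm_star]; exact d i) (d j)
  rw [Mf.gr, ((mINV n M H hm).1 _ ((mHES n M).2.1 _ _ hf hf).1).1 e he z hz]
  refine ((re_le_norm _).trans
    ((b.mul hL (by linarith) (by positivity) d2).trace hL (by positivity))).trans ?_
  have := mul_le_mul_of_nonneg_left hc (show 0 ≤ n * (n * (c * (m * m))) by positivity)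
  nlinarith

theorem loc (M : Mf n) [M.Cpt] {H h : M.Fam (Mat n)} (hn : 0 < n)
    (hH : M.Kae H) (hh : M.Form h) {e : M.Ch}
    (he : e ∈ M.C) {c : E n} {ρ : ℝ} (hρ : 0 < ρ) (hsub : closedBall c (2 * ρ) ⊆ e.target) :
    ∃ (C : ℝ) (N : ℕ), 0 ≤ C ∧ ∀ K : ℝ, 1 ≤ K → ∀ G R, M.Kae G → M.Form R →
      (M.All fun e z => M.ric G e z = R e z - G e z) → M.Le (K⁻¹ • H) G → M.Le G (K • H) →
      (∀ z ∈ closedBall c (2 * ρ), Eb K (R e z) ∧ ∀ i, Eb K (dM i (R e) z)) →
      ∀ z ∈ closedBall c ρ, M.gr H (M.tr G h) (M.tr G h) (e.symm z) ≤ (C * K ^ N) ^ 2 ∧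
        M.gr H (fun y => Real.log (M.dq H G y)) (fun y => Real.log (M.dq H G y)) (e.symm z) ≤
          (C * K ^ N) ^ 2 := by
  have hm : M.Met H := hH.toMet
  have hcb := isCompact_closedBall c (2 * ρ)
  have s1 : closedBall c ρ ⊆ ball c (2 * ρ) := closedBall_subset_ball (by linarith)
  have s2 : ball c (2 * ρ) ⊆ closedBall c (2 * ρ) := ball_subset_closedBall
  obtain ⟨A, hA, bd⟩ := (mBD n M H hm).2.2.1 e he _ hcb hsub
  obtain ⟨C, N, hC, cal⟩ := HS68.st_CALG n _ _ isOpen_ball (isCompact_closedBall c ρ) s1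
  obtain ⟨c2, hc2, b2⟩ := eb_cpt (T := fun k => dM k (H e)) hcb
    fun z hz k => (hm.sm e he z (hsub hz)).dM k
  obtain ⟨c3, hc3, b3⟩ := eb_cpt (T := fun _ : Unit => h e) hcb fun z hz _ => hh.sm e he z (hsub hz)
  obtain ⟨c4, hc4, b4⟩ := eb_cpt (T := fun k => dM k (h e)) hcb
    fun z hz k => (hh.sm e he z (hsub hz)).dM k
  obtain ⟨c5, hc5, b5⟩ := eb_cpt (T := fun (_ : Unit) w => (H e w)⁻¹) hcb
    fun z hz _ => (hm.sm e he z (hsub hz)).inv (hm.pos e he z (hsub hz)).det_pos.ne'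
  have hn' : (1 : ℝ) ≤ n := by exact_mod_cast hn
  have hL : (Fintype.card (Fin n) : ℝ) ≤ n := by simp
  obtain ⟨D1, hD1⟩ : ∃ D : ℝ, D = n * (n * (n * (n * C) * c3) + n * c4) := ⟨_, rfl⟩
  obtain ⟨D2, hD2⟩ : ∃ D : ℝ, D = n * (n * C) + n * (n * (c5 * c2)) := ⟨_, rfl⟩
  have p1 : 0 ≤ D1 := by rw [hD1]; positivity
  have p2 : 0 ≤ D2 := by rw [hD2]; positivity
  refine ⟨n * c5 * ((D1 + D2) * A ^ (N + 2)), N + 2, by positivity,
    fun K₀ hK₀ G R hGk hR ric lo up eb z hz => ?_⟩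
  have hG : M.Met G := hGk.toMet
  obtain ⟨K, hK⟩ : ∃ K : ℝ, K = A * K₀ := ⟨_, rfl⟩
  have hAK : K₀ ≤ K := by rw [hK]; exact le_mul_of_one_le_left (by linarith) hA
  have hK1 : 1 ≤ K := hK₀.trans hAK
  have hK0 : 0 < K := by linarith
  have hbd : ∀ w ∈ closedBall c (2 * ρ), Bd K (G e w) := fun w hw =>
    bd_of (lo e he w (hsub hw)) (up e he w (hsub hw)) (bd w hw).1 (bd w hw).2.1
      (by linarith) (by positivity) (by positivity) (by rw [hK, mul_inv_rev, div_eq_mul_inv])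
      (by rw [hK, mul_comm])
  have hz2 := s2 (s1 hz)
  have hzt := hsub hz2
  have dG := cal K (G e) (R e) hK1 (fun w hw =>
    have hw' := hsub (s2 hw)
    ⟨hG.sm e he w hw', hR.sm e he w hw', hGk.cl e he w hw', hbd w (s2 hw), ric e he w hw',
      (eb w (s2 hw)).1.mono hAK, fun k => ((eb w (s2 hw)).2 k).mono hAK⟩) z hz
  have lG := HS68.met_loc hG he hzt
  have gi : Eb K (G e z)⁻¹ := ((hbd z hz2).inv hK0).eb hK0
  have n0 : (0 : ℝ) ≤ n := by linarith
  have kp : 0 ≤ K ^ (N + 2) := by positivity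
  have e1 : n * c5 * ((D1 + D2) * A ^ (N + 2)) * K₀ ^ (N + 2) =
      n * c5 * ((D1 + D2) * K ^ (N + 2)) := by rw [hK, mul_pow]; ring
  rw [e1]
  constructor
  · have ev : M.lc (M.tr G h) e =ᶠ[𝓝 z] fun w => ((G e w)⁻¹ * h e w).trace :=
      (e.open_target.eventually_mem hzt).mono fun w hw => ((mINV n M G hG).2.1 h hh e he w hw).1
    have sB := hh.sm e he z hzt
    refine gr_le M hm ((mINV n M G hG).1 h hh.toTen).2.1 he hzt hn' hc5 (by positivity)
      (b5 z hz2 ()) fun k => ?_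
    rw [dz_congr ev, dz_trace (lG.smM_inv.mul sB), dM_mul lG.smM_inv sB, lG.dM_inv, gam]
    have t1 := (((gi.mul hL hK0.le (by positivity) (dG k)).mul hL (by positivity) hK0.le
      gi).neg.mul hL (by positivity) (by linarith) (b3 z hz2 ())).add
      (gi.mul hL hK0.le (by linarith) (b4 z hz2 k))
    refine (t1.trace hL (by positivity)).trans ?_
    have k1 : K ≤ K ^ (N + 2) := le_self_pow₀ hK1 (by omega)
    have k2 := mul_le_mul_of_nonneg_left k1 (show 0 ≤ n * (n * c4) by positivity)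
    have k3 := mul_nonneg p2 kp
    calc _ = n * (n * (n * (n * C) * c3)) * K ^ (N + 2) + n * (n * c4) * K := by ring
      _ ≤ n * (n * (n * (n * C) * c3)) * K ^ (N + 2) + n * (n * c4) * K ^ (N + 2) +
        D2 * K ^ (N + 2) := by linarith
      _ = _ := by rw [hD1]; ring
  · obtain ⟨-, a2, -, -, -, -, -, a8⟩ := mINV n M H hm
    have ev : M.lc (fun y => Real.log (M.dq H G y)) e =ᶠ[𝓝 z] fun w => ld (G e) w - ld (H e) w := by
      filter_upwards [(a2 G hG.toForm).ev he hzt, hm.pos.ev he hzt] with w w1 w2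
      simp only [ld, Mf.lc]
      rw [w1.2.2, Real.log_mul ((a8 G hG).1 _).ne' (Mf.pd_det_re w2).ne', ofReal_add,
        add_sub_cancel_right]
    obtain ⟨g1, -, g2⟩ := (mCOF n _ z (hG.sm e he z hzt)).2.2.2.2.2 (hG.pos.ev he hzt)
    obtain ⟨g3, -, g4⟩ := (mCOF n _ z (hm.sm e he z hzt)).2.2.2.2.2 (hm.pos.ev he hzt)
    refine gr_le M hm ((mHES n M).2.2.2.2.2.2.2.2.2 G H hG hm).1 he hzt hn' hc5 (by positivity)
      (b5 z hz2 ()) fun k => ?_
    rw [dz_congr ev, dz_sub (cd_diff g1) (cd_diff g3), g2, g4]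
    refine (norm_sub_le_of_le ((gi.mul hL hK0.le (by positivity) (dG k)).trace hL (by positivity))
      (((b5 z hz2 ()).mul hL (by linarith) (by linarith) (b2 z hz2 k)).trace hL
        (by positivity))).trans ?_
    have k1 : K ^ (N + 1) ≤ K ^ (N + 2) := pow_le_pow_right₀ hK1 (by omega)
    have k2 := mul_le_mul_of_nonneg_left k1 (show 0 ≤ n * (n * C) by positivity)
    have k3 := mul_nonneg p1 kp
    have k4 := mul_le_mul_of_nonneg_left (one_le_pow₀ hK1 (n := N + 2))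
      (show 0 ≤ n * (n * (c5 * c2)) by positivity)
    calc _ = n * (n * C) * K ^ (N + 1) + n * (n * (c5 * c2)) * 1 := by ring
      _ ≤ D1 * K ^ (N + 2) + (n * (n * C) * K ^ (N + 2) + n * (n * (c5 * c2)) * K ^ (N + 2)) := by
        linarith
      _ = _ := by rw [hD2]; ring

end T81

theorem st_GRD : St_GRD := by
  intro n M _ H h V hn hH hh
  choose C N hC q using fun a => T81.loc M hn hH hh (V.mem a) (V.pos a)
    ((closedBall_subset_closedBall (by linarith [V.pos a])).trans (V.sub a))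
  have s0 : 0 ≤ ∑ a, C a := Finset.sum_nonneg fun a _ => hC a
  refine ⟨1 + ∑ a, C a, ∑ a, N a, by linarith, fun K hK G R hG hR ric lo up eb x => ?_⟩
  obtain ⟨a, hx, hb, -⟩ := V.cov x
  have := q a K hK G R hG hR ric lo up (eb a) _ (ball_subset_closedBall hb)
  rw [(V.e a).left_inv hx] at this
  have k : (C a * K ^ N a) ^ 2 ≤ ((1 + ∑ a, C a) * K ^ ∑ a, N a) ^ 2 :=
    pow_le_pow_left₀ (mul_nonneg (hC a) (by positivity)) (mul_le_mul
      (by linarith [Finset.single_le_sum (fun b _ => hC b) (Finset.mem_univ a)])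
      (pow_le_pow_right₀ hK (Finset.single_le_sum (fun _ _ => Nat.zero_le _) (Finset.mem_univ a)))
      (by positivity) (by linarith)) 2
  exact ⟨this.1.trans k, this.2.trans k⟩

end Pool.Agent.Lib.KP
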