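import Pool.Agent.Lib.KP.Blue
import Pool.Agent.Lib.KP.Kit
import Pool.Agent.Lib.HS32.MKit
import Pool.Agent.Lib.HS32.B_GRN

/-! Project kp71, block GRN2: the formula of Green for sections. -/

open scoped Classical Topology ContDiff ComplexOrder Matrix ENNReal
open Set MeasureTheory Complex Metric Filter

noncomputable section

namespace Pool.Agent.Lib.KP

open Pool.Agent.Lib.SV (E)
open Pool.Agent.Lib.HS32 Pool.Agent.Lib.HS21
open Pool.Agent.Lib.HS (db)

namespace T65

variable {n : ℕ} {M : Mf n} {H : M.Fam (Mat n)} {L : M.Co} {φ : M.Fam ℝ} {s s' : M.Fam ℂ}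

/-- The `(0,1)` derivative of a section under a change of chart. -/
theorem grn_db_cmp (hs : M.SecC L s) :
    M.Ov fun e e' x => db M s e' (e' x) =
      L.c e e' x • ((M.J e e' x)ᴴ *ᵥ db M s e (e x)) := by
  intro e he e' he' x hx hx'
  obtain ⟨hH, -, -, -, -⟩ := (mTR n M).2.1 e he e' he' x hx hx'
  have hψ : (e ∘ e'.symm) (e' x) = e x := by simp [e'.left_inv hx']
  have C := mCHN n _ _ hH
  have d1 : DifferentiableAt ℝ (s e) ((e ∘ e'.symm) (e' x)) := by
    rw [hψ]; exact cd_diff (hs.sm.at he hx)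
  have hd : DifferentiableAt ℂ (fun y => L.c e e' (e'.symm y)) (e' x) :=
    Eventually.self_of_nhds (L.hol e he e' he' x hx hx')
  have heq : s e' =ᶠ[𝓝 (e' x)] fun y => (s e ∘ (e ∘ e'.symm)) y * L.c e e' (e'.symm y) :=
    hs.ev e he e' he' x hx hx'
  funext i
  rw [db, dzb_congr heq, dzb_mul (d1.comp _ (cd_diff C.1)) (hd.restrictScalars ℝ),
    ((mHOL n _ _).1 (hd.restrictScalars ℝ)).1 hd i, (C.2.2.2.2.2.2.2.2.2.1 _ d1 i).2, hψ,
    e'.left_inv hx']
  simp only [Pi.smul_apply, smul_eq_mul, Matrix.mulVec, dotProduct, Matrix.conjTranspose_apply,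
    Mf.J, db, mul_zero, add_zero]
  rw [mul_comm]
  congr 1
  exact Finset.sum_congr rfl fun a _ => mul_comm _ _

/-- The factor of the field. -/
def grnOm (M : Mf n) (φ : M.Fam ℝ) (s' : M.Fam ℂ) : M.Fam ℂ :=
  fun e z => star (s' e z) * exp (-(φ e z : ℂ))

theorem grn_om_sm (hw : M.WtC L φ) (hs' : M.SecC L s') :
    M.All fun e z => ContDiffAt ℝ ∞ (grnOm M φ s' e) z := fun e he z hz =>
  (cd_star (hs'.sm e he z hz)).mul
    ((contDiff_exp (𝕜 := ℝ)).contDiffAt.comp z (hw.smC e he z hz).neg)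

theorem grn_vden (hH : M.Met H) (hw : M.WtC L φ) (hs : M.SecC L s) (hs' : M.SecC L s') :
    M.VDen fun e => BGRN.fld (H e) (s e) (grnOm M φ s' e) := by
  refine ⟨fun e he z hz => BGRN.fld_sm mCOF (hH.sm e he z hz) (hs.sm e he z hz)
    (grn_om_sm hw hs' e he z hz), ?_⟩
  intro e he e' he' x hx hx'
  have hb := grn_db_cmp hs e he e' he' x hx hx'
  have ho : grnOm M φ s' e' (e' x) * L.c e e' x = grnOm M φ s' e (e x) := by
    have hc := L.ne e he e' he' x hx hx'
    have hc' : star (L.c e e' x) ≠ 0 := star_ne_zero.2 hc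
    have h1 : exp ((Real.log (normSq (L.c e e' x)) : ℝ) : ℂ) = L.c e e' x * star (L.c e e' x) := by
      rw [← ofReal_exp, Real.exp_log (normSq_pos.2 hc), star_def, mul_conj]
    rw [grnOm, grnOm, hs'.cmp e he e' he' x hx hx', hw.cmp e he e' he' x hx hx', ofReal_add,
      neg_add, exp_add, exp_neg ((Real.log _ : ℝ) : ℂ), h1, star_mul']
    field_simp
  change M.J e e' x *ᵥ (grnOm M φ s' e' (e' x) • ((H e' (e' x)).adjugate *ᵥ db M s e' (e' x))) =
    (normSq (M.J e e' x).det : ℂ) •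
      (grnOm M φ s' e (e x) • ((H e (e x)).adjugate *ᵥ db M s e (e x)))
  rw [hb, hH.cmp e he e' he' x hx hx', Matrix.mulVec_smul, Matrix.mulVec_smul, Matrix.mulVec_smul,
    BGRN.alg, smul_smul, ho, smul_comm]

theorem grn_dv_eq (hH : M.Kae H) (hw : M.WtC L φ) (hs : M.SecC L s) (hs' : M.SecC L s') :
    M.All fun e z => dv (BGRN.fld (H e) (s e) (grnOm M φ s' e)) z / (H e z).det =
      (boxC M H φ).ap s e z * star (s' e z) * (Real.exp (-φ e z) : ℝ) +
      (star (db M s' e z) ⬝ᵥ (H e z)⁻¹ *ᵥ db M s e z) * (Real.exp (-φ e z) : ℝ) :=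
  fun e he z hz => by
  have hφ := cd_diff (hw.smC e he z hz)
  have d' := cd_diff (hs'.sm e he z hz)
  have hz' : ∀ j, dz j (grnOm M φ s' e) z = (star (dzb j (s' e) z) -
      star (s' e z) * dz j (fun y => (φ e y : ℂ)) z) * exp (-(φ e z : ℂ)) := fun j => by
    have h1 : dz j (fun y => exp (-(φ e y : ℂ))) z =
        exp (-(φ e z : ℂ)) * dz j (fun y => -(φ e y : ℂ)) z :=
      dz_comp (f := fun y => -(φ e y : ℂ)) (hasDerivAt_exp _) hφ.neg
    have h2 : DifferentiableAt ℝ (fun y => exp (-(φ e y : ℂ))) z :=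
      ((contDiff_exp (𝕜 := ℝ) (n := 1)).differentiable one_ne_zero _).comp z hφ.neg
    rw [show grnOm M φ s' e = fun y => star (s' e y) * exp (-(φ e y : ℂ)) from rfl,
      dz_mul (diff_star d') h2, dz_star d', h1, dz_neg]
    ring
  have hinv : ∀ A B : Mat n, (A.adjugate * B).trace / A.det = (A⁻¹ * B).trace := by
    intro A B
    rw [Matrix.inv_def, Ring.inverse_eq_inv', Matrix.smul_mul, Matrix.trace_smul, smul_eq_mul,
      div_eq_inv_mul]
  beta_reduce
  rw [BGRN.fld_dv mCOF (hH.sm e he z hz) (hH.cl e he z hz) (hs.sm e he z hz)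
    (grn_om_sm hw hs' e he z hz), hinv, ofReal_exp, ofReal_neg, Matrix.mul_add, Matrix.trace_add,
    Matrix.mul_smul, Matrix.trace_smul]
  have e1 : ((H e z)⁻¹ * dd (s e) (grnOm M φ s' e) z).trace = exp (-(φ e z : ℂ)) *
      ((star (db M s' e z) ⬝ᵥ (H e z)⁻¹ *ᵥ db M s e z) + star (s' e z) *
        ∑ j, (-∑ i, dz i (fun y => (φ e y : ℂ)) z * (H e z)⁻¹ i j) * dzb j (s e) z) := by
    simp only [Matrix.trace, Matrix.diag_apply, Matrix.mul_apply, dd_apply, hz', dotProduct,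
      Matrix.mulVec, db, Pi.star_apply, neg_mul, Finset.sum_mul, Finset.sum_neg_distrib]
    rw [Finset.sum_comm
      (f := fun j i => dz i (fun y => (φ e y : ℂ)) z * (H e z)⁻¹ i j * dzb j (s e) z)]
    simp only [mul_neg, mul_add, Finset.mul_sum, ← Finset.sum_neg_distrib,
      ← Finset.sum_add_distrib]
    exact Finset.sum_congr rfl fun a _ => Finset.sum_congr rfl fun b _ => by ring
  rw [e1]
  simp only [boxC, Op.ap, lop, Pi.zero_apply, zero_mul, Finset.sum_const_zero, add_zero, grnOm,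
    smul_eq_mul]
  ring

end T65

open T65 in
theorem st_GRN2 (hSC : St_SC5) : St_GRN2 := by
  intro n M hM H L φ s s' hH hw hs hs'
  have hm := hH.toMet
  obtain ⟨-, hS, hZ⟩ := (mDIV n M H hm).2.1 _ (grn_vden hm hw hs hs')
  have hint := (mMU n M H hm).2.2.2.2.1 ℂ
  have e : M.ev (fun e z => dv (BGRN.fld (H e) (s e) (grnOm M φ s' e)) z / (H e z).det) =
      fun x => spC M φ ((boxC M H φ).ap s) s' x + dpC M H φ s s' x := by
    funext x
    exact (grn_dv_eq hH hw hs hs').ch x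
  have i2 : Integrable (fun x => dpC M H φ s s' x) (M.mu H) :=
    hint _ (hSC n M H L φ s s' hm hw hs hs').2.2.2.2.2.2.2.1
  have i0 := hint _ hS.continuous
  have hZ' := hZ hM
  rw [e] at i0 hZ'
  have i1 : Integrable (fun x => spC M φ ((boxC M H φ).ap s) s' x) (M.mu H) :=
    (i0.sub i2).congr (Eventually.of_forall fun x => by simp)
  rwa [integral_add i1 i2, ← eq_neg_iff_add_eq_zero] at hZ'

end Pool.Agent.Lib.KP
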