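import Pool.Agent.Lib.KP.Blue
import Pool.Agent.Lib.KP.Kit

/-! Project kp71, row HOR: the theorem of Hörmander for a semi-positive weight. -/

open scoped Classical Topology ContDiff ComplexOrder Matrix ENNReal
open Set MeasureTheory Complex Metric Filter

noncomputable section

namespace Pool.Agent.Lib.KP

open Pool.Agent.Lib.SV (E)
open Pool.Agent.Lib.HS32 Pool.Agent.Lib.HS21

namespace T66h

theorem ineq1 (a d : ℂ) {q : ℝ} (hq : 0 < q) :
    normSq a * q ≤ normSq (a - d) * q + 2 * (√(normSq a * q) * √(normSq d * q)) := by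
  have h := pow_le_pow_left₀ (abs_nonneg _) (abs_norm_sub_norm_le a d) 2
  rw [sq_abs] at h
  rw [← Real.sqrt_mul (mul_nonneg (normSq_nonneg _) hq.le), normSq_eq_norm_sq, normSq_eq_norm_sq,
    normSq_eq_norm_sq, show ‖a‖ ^ 2 * q * (‖d‖ ^ 2 * q) = (‖a‖ * ‖d‖ * q) ^ 2 by ring,
    Real.sqrt_sq (by positivity), ← mul_assoc, ← add_mul]
  gcongr
  nlinarith [sq_nonneg ‖d‖]

theorem ineq2 (a d : ℂ) {q : ℝ} (hq : 0 < q) :
    normSq d * q ≤ 2 * (normSq a * q) + 2 * (normSq (a - d) * q) := by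
  rw [← mul_assoc, ← mul_assoc, ← add_mul]
  gcongr
  simp only [normSq_apply, sub_re, sub_im]
  nlinarith [sq_nonneg (2 * a.re - d.re), sq_nonneg (2 * a.im - d.im)]

end T66h

open T66h in
theorem st_HOR (hSC : St_SC5) (hBOX : St_BOX) (hH0 : St_HOR0) (hSL : St_SLIM) : St_HOR := by
  intro n M _ H L φ b σ B hH hφ hσ hle hb hB hD
  have hM := hH.toMet
  have hi : ∀ f : M.X → ℝ, Continuous f → Integrable f (M.mu H) :=
    (mMU n M H hM).2.2.2.2.1 ℝ
  have hη : ∀ a : ℕ, (0 : ℝ) < 1 / (a + 1) := fun a => Nat.one_div_pos_of_nat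
  choose s hs hs' using fun a : ℕ => hBOX n M H L φ ((((1 / (a + 1) : ℝ) : ℂ)) • σ) _ hH hφ
    (hσ.smul _) (hη a)
  have h0 := fun a => hH0 n M H L φ b σ (s a) B _ hH hφ hσ hle hb hB hD (hη a) (hs a) (hs' a)
  set J := ∫ x, b x ∂M.mu H
  have hq : ∀ x, 0 < Real.exp (-M.ev φ x) := fun x => Real.exp_pos _
  have cn : ∀ t, M.SecC L t → Continuous (M.nrC φ t) := fun t ht => (hφ.nr_sm ht).continuous
  have lt : Tendsto (fun a : ℕ => (1 : ℝ) / (a + 1)) (Ultrafilter.of (atTop : Filter ℕ)) (𝓝 0) :=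
    tendsto_one_div_add_atTop_nhds_zero_nat.mono_left (Ultrafilter.of_le (atTop : Filter ℕ))
  obtain ⟨s₀, h1, h2⟩ := hSL n M H L φ ℕ (Ultrafilter.of atTop) s
    (2 * ∫ x, M.nrC φ σ x ∂M.mu H + 2 * J) hM hφ hs (fun a => by
      have c1 := cn _ hσ
      have c2 := cn _ (hσ.sub (hs a))
      calc ∫ x, M.nrC φ (s a) x ∂M.mu H
          ≤ ∫ x, (2 * M.nrC φ σ x + 2 * M.nrC φ (σ - s a) x) ∂M.mu H :=
            integral_mono (hi _ (cn _ (hs a))) (hi _ (by fun_prop)) fun x => ineq2 _ _ (hq x)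
        _ = 2 * ∫ x, M.nrC φ σ x ∂M.mu H + 2 * ∫ x, M.nrC φ (σ - s a) x ∂M.mu H := by
            rw [integral_add (hi _ (by fun_prop)) (hi _ (by fun_prop)), integral_const_mul,
              integral_const_mul]
        _ ≤ _ := by
            gcongr
            exact (h0 a).1) (by
      have d0 := fun a x => ((hSC n M H L φ _ _ hM hφ (hs a) (hs a)).2.2.2.2.2.2.2.2.1 x).2.2.1
      refine squeeze_zero (g := fun a : ℕ => 1 / (a + 1) * J)
        (fun a => integral_nonneg (d0 a)) (fun a => (h0 a).2) ?_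
      simpa using lt.mul_const J)
  refine ⟨s₀, h1, ?_⟩
  have c0 := cn _ (hσ.sub h1.toSecC)
  obtain ⟨K, hK⟩ := isCompact_univ.exists_bound_of_continuousOn c0.sqrt.continuousOn
  have key : ∀ a, ∫ x, M.nrC φ (σ - s₀) x ∂M.mu H ≤
      J + 2 * K * ∫ x, √(M.nrC φ (s a - s₀) x) ∂M.mu H := fun a => by
    have c1 := cn _ (hσ.sub (hs a))
    have c2 := cn _ ((hs a).sub h1.toSecC)
    calc _ ≤ ∫ x, (M.nrC φ (σ - s a) x + 2 * K * √(M.nrC φ (s a - s₀) x)) ∂M.mu H := by
          refine integral_mono (hi _ c0) (hi _ (by fun_prop)) fun x => ?_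
          have e := ineq1 (M.ev (σ - s₀) x) (M.ev (s a - s₀) x) (hq x)
          rw [show M.ev (σ - s₀) x - M.ev (s a - s₀) x = M.ev (σ - s a) x from
            sub_sub_sub_cancel_right _ _ _] at e
          have k : √(M.nrC φ (σ - s₀) x) ≤ K := (le_abs_self _).trans (hK x trivial)
          calc M.nrC φ (σ - s₀) x
              ≤ M.nrC φ (σ - s a) x + 2 * (√(M.nrC φ (σ - s₀) x) * √(M.nrC φ (s a - s₀) x)) := e
            _ ≤ M.nrC φ (σ - s a) x + 2 * (K * √(M.nrC φ (s a - s₀) x)) := by gcongr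
            _ = _ := by ring
      _ = ∫ x, M.nrC φ (σ - s a) x ∂M.mu H + 2 * K * ∫ x, √(M.nrC φ (s a - s₀) x) ∂M.mu H := by
          rw [integral_add (hi _ c1) (hi _ (by fun_prop)), integral_const_mul]
      _ ≤ _ := by
          gcongr
          exact (h0 a).1
  exact ge_of_tendsto' (by simpa using (h2.const_mul (2 * K)).const_add J) key

end Pool.Agent.Lib.KP
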