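import Pool.Agent.Lib.KP.Blue
import Pool.Agent.Lib.KP.Kit
import Pool.Agent.Lib.HS.B_HOR0

/-! Project kp71: the estimate for the resolvent on sections. -/

open scoped Classical Topology ContDiff ComplexOrder Matrix
open Set MeasureTheory Complex Filter

noncomputable section

namespace Pool.Agent.Lib.KP

open Pool.Agent.Lib.SV (E)
open Pool.Agent.Lib.HS32 Pool.Agent.Lib.HS32.Mf Pool.Agent.Lib.HS21
open Pool.Agent.Lib.HS (db)

namespace T24H

variable {n : ℕ} {M : Mf n} {H T : M.Fam (Mat n)} {φ : M.Fam ℝ} {σ s : M.Fam ℂ} {b : M.X → ℝ}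

theorem wq_nonneg (hT : M.Le 0 T) (x : M.X) : 0 ≤ wqC M H φ T s x := by
  have h1 : (M.ev T x - 0).PosSemidef := AllOn.ch hT x
  rw [sub_zero] at h1
  exact mul_nonneg (h1.re_dotProduct_nonneg _) (Real.exp_pos _).le

theorem dp_le (h : M.DbC φ σ b T) (x : M.X) :
    normSq (dpC M H φ s σ x) ≤ b x * wqC M H φ T s x := by
  have h0 : 0 < Real.exp (-M.ev φ x) := Real.exp_pos _
  have h1 : normSq (∑ i, star (((M.ev H x)⁻¹ *ᵥ M.ev (db M s) x) i) * M.ev (db M σ) x i) *
      Real.exp (-M.ev φ x) ≤ b ((M.ch x).symm (M.ch x x)) *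
        nq (M.ev T x) ((M.ev H x)⁻¹ *ᵥ M.ev (db M s) x) := AllOn.ch h x _
  have h2 : star (M.ev (db M σ) x) ⬝ᵥ (M.ev H x)⁻¹ *ᵥ M.ev (db M s) x =
      star (∑ i, star (((M.ev H x)⁻¹ *ᵥ M.ev (db M s) x) i) * M.ev (db M σ) x i) := by
    simp only [star_sum, star_mul, star_star]
    rfl
  rw [ch_symm] at h1
  rw [dpC, wqC, h2, map_mul, normSq_ofReal, ← mul_assoc, ← mul_assoc, Complex.star_def,
    normSq_conj]
  exact mul_le_mul_of_nonneg_right h1 h0.le

end T24H

open T24H in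
theorem st_HOR0 (hS : St_SC5) (hG : St_GRN2) (hU : St_SIU) : St_HOR0 := by
  intro n M _ H L φ b σ s B η hK hφ hσ hT hbm hb hD hη hs heq
  obtain ⟨-, hfin, -, -, hint, -⟩ := mMU n M H hK.toMet
  have hten : M.Ten (M.hw φ + M.ric H) :=
    hφ.clo.toTen.add ((mHES n M).2.2.2.2.2.2.2.2.1 H hK.toMet).toTen
  have hd := hσ.sub hs
  obtain ⟨-, -, -, -, -, -, -, -, pN, -⟩ := hS n M H L φ _ _ hK.toMet hφ hd hd
  obtain ⟨-, -, -, -, -, -, -, cD, -⟩ := hS n M H L φ s s hK.toMet hφ hs hs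
  obtain ⟨-, -, -, -, -, -, -, cA, pA, cW⟩ := hS n M H L φ s σ hK.toMet hφ hs hσ
  have cQ := (cW _ hten).2
  have hL : ∀ x, M.ev ((boxC M H φ).ap s) x = -(η * M.ev (σ - s) x) := fun x => by
    have h1 : η * M.ev s x - M.ev ((boxC M H φ).ap s) x = η * M.ev σ x := AllOn.ch heq x
    have h2 : M.ev (σ - s) x = M.ev σ x - M.ev s x := rfl
    rw [h2]
    linear_combination -h1
  have iD : Integrable (fun x => (dpC M H φ s s x).re) (M.mu H) :=
    hint ℝ _ (continuous_re.comp cD)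
  have iQ := hint ℝ _ cQ
  have iA : Integrable (fun x => (dpC M H φ s σ x).re) (M.mu H) :=
    hint ℝ _ (continuous_re.comp cA)
  have iB : Integrable b (M.mu H) :=
    Integrable.of_bound hbm.aestronglyMeasurable B (Eventually.of_forall fun x => by
      rw [Real.norm_of_nonneg (hb x).1]; exact (hb x).2)
  have h1 := hU n M H L φ s hK hφ hs
  have h2 : ∀ x, M.nrC φ ((boxC M H φ).ap s) x = η ^ 2 * M.nrC φ (σ - s) x := fun x => by
    rw [nrC, nrC, hL, normSq_neg, map_mul, normSq_ofReal]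
    ring
  simp only [h2, integral_const_mul] at h1
  have h3 := congrArg Complex.re (hG n M H L φ s (σ - s) hK hφ hs hd)
  have h4 : ∀ x, spC M φ ((boxC M H φ).ap s) (σ - s) x =
      ((-η * M.nrC φ (σ - s) x : ℝ) : ℂ) := fun x => by
    have h5 := (pN x).2.1
    rw [spC] at h5
    rw [spC, hL, ofReal_mul, ← h5, ofReal_neg]
    ring
  have h5 : (∫ x, dpC M H φ s (σ - s) x ∂M.mu H).re =
      ∫ x, (dpC M H φ s σ x).re ∂M.mu H - ∫ x, (dpC M H φ s s x).re ∂M.mu H := by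
    have h6 : Integrable (fun x => dpC M H φ s (σ - s) x) (M.mu H) := by
      simp only [fun x => (pA x).2.2.2.2.2]
      exact hint ℂ _ (cA.sub cD)
    refine (integral_re h6).symm.trans ((integral_congr_ae (Eventually.of_forall fun x => ?_)).trans
      (integral_sub iA iD))
    simp only [(pA x).2.2.2.2.2, RCLike.re_to_complex, sub_re]
  simp only [h4, integral_complex_ofReal, ofReal_re, integral_const_mul, neg_re, h5] at h3
  have h6 : ∫ x, (dpC M H φ s σ x).re ∂M.mu H ≤ η / 2 * ∫ x, b x ∂M.mu H + (2 * η)⁻¹ *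
      ∫ x, wqC M H φ (M.hw φ + M.ric H) s x ∂M.mu H := by
    rw [← integral_const_mul, ← integral_const_mul,
      ← integral_add (iB.const_mul _) (iQ.const_mul _)]
    exact integral_mono iA ((iB.const_mul _).add (iQ.const_mul _)) fun x =>
      HS.BHOR0.re_le (hb x).1 (wq_nonneg hT x) hη (dp_le hD x)
  have h7 : 0 ≤ ∫ x, M.nrC φ (σ - s) x ∂M.mu H := integral_nonneg fun x => (pN x).1
  have h8 : 0 ≤ ∫ x, (dpC M H φ s s x).re ∂M.mu H := integral_nonneg fun x => (pA x).2.2.1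
  have h9 : 0 ≤ ∫ x, b x ∂M.mu H := integral_nonneg fun x => (hb x).1
  have h10 := mul_le_mul_of_nonneg_left h1 (inv_pos.2 (mul_pos two_pos hη)).le
  have h11 : ∀ N : ℝ, (2 * η)⁻¹ * (η ^ 2 * N) = η / 2 * N := fun N => by field_simp
  rw [h11] at h10
  constructor
  · refine le_of_mul_le_mul_left ?_ (half_pos hη)
    linarith
  · nlinarith [mul_nonneg hη.le h7, mul_nonneg hη.le h9]

end Pool.Agent.Lib.KP
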