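import Pool.Agent.Lib.KP.Blue
import Pool.Agent.Lib.KP.Kit

/-! Project kp71: the central leaf is isolated. -/

open scoped Classical Topology ContDiff ComplexOrder Matrix ENNReal
open Set MeasureTheory Complex Metric Filter

noncomputable section

namespace Pool.Agent.Lib.KP

open Pool.Agent.Lib.SV (E nsq)
open Pool.Agent.Lib.HS32
open Pool.Agent.Lib.HS32.Mf (PerC)

namespace T89

variable {n : ℕ}

/-- A map whose derivative commutes with `p` keeps the offset along the image of `p`. -/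
theorem off_const (p : Mat n) (t : E n → E n) (b : E n) (ε : ℝ)
    (h : ∀ w ∈ ball b ε, DifferentiableAt ℂ t w ∧
      ∀ v, fderiv ℂ t w (p *ᵥ v) = p *ᵥ fderiv ℂ t w v)
    {y : E n} (hy : y ∈ ball b ε) (hu : p *ᵥ (y - b) = y - b) :
    t y - p *ᵥ t y = t b - p *ᵥ t b := by
  have hε : 0 < ε := lt_of_le_of_lt dist_nonneg (mem_ball.1 hy)
  let L : E n →L[ℂ] E n := LinearMap.toContinuousLinearMap (Matrix.mulVecLin p)
  have hL : ∀ v, L v = p *ᵥ v := fun _ => rfl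
  have hd : ∀ s : ℝ, s ∈ Icc (0 : ℝ) 1 →
      HasDerivAt (fun s : ℝ => t (b + s • (y - b)) - p *ᵥ t (b + s • (y - b))) 0 s := by
    intro s hs
    have hm : b + s • (y - b) ∈ ball b ε :=
      (convex_ball b ε).add_smul_sub_mem (mem_ball_self hε) hy hs
    obtain ⟨h1, h2⟩ := h _ hm
    have a1 : HasDerivAt (fun s : ℝ => b + s • (y - b)) (y - b) s := by
      simpa using ((hasDerivAt_id s).smul_const (y - b)).const_add b
    have a2 := (h1.hasFDerivAt.restrictScalars ℝ).comp_hasDerivAt s a1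
    have a3 := (L.restrictScalars ℝ).hasFDerivAt.comp_hasDerivAt s a2
    have a4 := a2.sub a3
    have e0 : ((fderiv ℂ t (b + s • (y - b))).restrictScalars ℝ) (y - b) -
        (L.restrictScalars ℝ) (((fderiv ℂ t (b + s • (y - b))).restrictScalars ℝ) (y - b)) = 0 := by
      change fderiv ℂ t (b + s • (y - b)) (y - b) - p *ᵥ fderiv ℂ t (b + s • (y - b)) (y - b) = 0
      rw [← h2, hu, sub_self]
    rw [e0] at a4
    exact a4
  have := constant_of_has_deriv_right_zero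
    (f := fun s : ℝ => t (b + s • (y - b)) - p *ᵥ t (b + s • (y - b))) (a := 0) (b := 1)
    (fun s hs => (hd s hs).continuousAt.continuousWithinAt)
    (fun s hs => (hd s ⟨hs.1, hs.2.le⟩).hasDerivWithinAt) 1 ⟨zero_le_one, le_rfl⟩
  simpa using this

variable {M : Mf n} {P : M.Fam (Mat n)} {p : Mat n} {Ψ : E n → M.X} {r : ℝ}

theorem loc_eq (hP : M.End P) (h : M.DvC p Ψ r (M.CsC P p)) {a b : E n}
    (ha : p *ᵥ a = a) (hb : p *ᵥ b = b) (hab : Ψ a = Ψ b) :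
    ∀ᶠ q : E n × E n in 𝓝 (a, b), p *ᵥ q.2 = q.2 → Ψ q.1 = Ψ q.2 → q.1 - p *ᵥ q.1 = 0 := by
  have r0 := h.r0
  obtain ⟨e, he, hae, hce⟩ := h.loc a (by rw [ha, sub_self, norm_zero]; linarith)
  obtain ⟨e', he', hbe, hce'⟩ := h.loc b (by rw [hb, sub_self, norm_zero]; linarith)
  have x1 : Ψ b ∈ e.source := hab ▸ (he.mem hae).1
  have x2 : Ψ b ∈ e'.source := (he'.mem hbe).1
  have x3 : e' (Ψ b) = b := (he'.mem hbe).2
  obtain ⟨t1, -, -, t3, -⟩ := (mTR n M).2.1 e he.1 e' he'.1 _ x1 x2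
  rw [x3] at t1 t3
  have t4 : ∀ᶠ w in 𝓝 b, w ∈ e'.target ∧ (DifferentiableAt ℂ (e ∘ e'.symm) w ∧
      ∀ v, fderiv ℂ (e ∘ e'.symm) w (p *ᵥ v) = p *ᵥ fderiv ℂ (e ∘ e'.symm) w v) := by
    filter_upwards [t3, t1.eventually_nhds] with w hw hw'
    obtain ⟨w1, w2, w3, w4, -, w6, w7⟩ := hw
    refine ⟨w1, hw'.self_of_nhds, fun v => ?_⟩
    have c := hP.cmp e he.1 e' he'.1 _ w2 w3
    beta_reduce at c
    rw [w6, w7, hce' w w1, hce _ w4] at c
    have d := (mCHN n _ _ hw').2.2.2.2.2.1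
    rw [d, d, Matrix.mulVec_mulVec, Matrix.mulVec_mulVec, c]
  obtain ⟨ε, hε, hball⟩ := Metric.eventually_nhds_iff_ball.1 t4
  have n1 : ∀ᶠ q : E n × E n in 𝓝 (a, b), q.1 ∈ e.target :=
    continuous_fst.continuousAt.eventually (e.open_target.mem_nhds hae)
  have n2 : ∀ᶠ q : E n × E n in 𝓝 (a, b), q.2 ∈ ball b ε :=
    continuous_snd.continuousAt.eventually (ball_mem_nhds b hε)
  filter_upwards [n1, n2] with q h1 h2 h3 h4
  have k := off_const p (e ∘ e'.symm) b ε (fun w hw => (hball w hw).2) h2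
    (by rw [Matrix.mulVec_sub, h3, hb])
  have k1 : (e ∘ e'.symm) q.2 = q.1 := by
    rw [Function.comp_apply, ← he'.2 _ (hball _ h2).1, ← h4, (he.mem h1).2]
  have k2 : (e ∘ e'.symm) b = a := by
    rw [Function.comp_apply, ← he'.2 _ hbe, ← hab, (he.mem hae).2]
  rw [k1, k2, ha, sub_self] at k
  exact k

theorem loc_ne [M.Cpt] {Q : M.Ch → Prop} (h : M.DvC p Ψ r Q) {a b : E n}
    (ha : ‖a - p *ᵥ a‖ ≤ 3 * r) (hb : ‖b - p *ᵥ b‖ ≤ 3 * r) (hab : Ψ a ≠ Ψ b) :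
    ∀ᶠ q : E n × E n in 𝓝 (a, b), Ψ q.1 ≠ Ψ q.2 := by
  have c1 : ContinuousAt (fun q : E n × E n => Ψ q.1) (a, b) :=
    ContinuousAt.comp (f := Prod.fst) (h.cont ha) continuous_fst.continuousAt
  have c2 : ContinuousAt (fun q : E n × E n => Ψ q.2) (a, b) :=
    ContinuousAt.comp (f := Prod.snd) (h.cont hb) continuous_snd.continuousAt
  exact (c1.prodMk c2).eventually (isClosed_diagonal.isOpen_compl.mem_nhds hab)

/-- A property that holds near every point of a compact set holds on a thickening. -/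
theorem thick {Y : Type} [PseudoMetricSpace Y] {C : Set Y} (hC : IsCompact C) {W : Y → Prop}
    (hW : ∀ c ∈ C, ∀ᶠ q in 𝓝 c, W q) : ∃ δ : ℝ, 0 < δ ∧ ∀ c ∈ C, ∀ q, dist q c < δ → W q := by
  obtain ⟨δ, h0, hδ⟩ := hC.exists_thickening_subset_open (t := interior {q | W q}) isOpen_interior
    fun c hc => mem_interior_iff_mem_nhds.2 (hW c hc)
  exact ⟨δ, h0, fun c hc q hq => interior_subset (hδ (mem_thickening_iff.2 ⟨c, hc, hq⟩))⟩

theorem proj_mem (hp : p * p = p) {R : ℝ} {z : E n} (hz : ‖p *ᵥ z‖ ≤ R) :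
    p *ᵥ z ∈ {z : E n | 0 ≤ ‖z - p *ᵥ z‖ ∧ ‖z - p *ᵥ z‖ ≤ 0 ∧ ‖p *ᵥ z‖ ≤ R} := by
  have e : p *ᵥ (p *ᵥ z) = p *ᵥ z := by rw [Matrix.mulVec_mulVec, hp]
  refine ⟨norm_nonneg _, ?_, ?_⟩
  · rw [e, sub_self, norm_zero]
  · rw [e]; exact hz

theorem fix_of {z : E n} (hz : ‖z - p *ᵥ z‖ ≤ 0) : p *ᵥ z = z :=
  (sub_eq_zero.1 (norm_le_zero_iff.1 hz)).symm

/-- Isolation of the central leaf. -/
theorem isol [M.Cpt] (hP : M.End P) (h : M.DvC p Ψ r (M.CsC P p)) : ∃ δ : ℝ, 0 < δ ∧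
    ∀ z y, ‖z - p *ᵥ z‖ < δ → p *ᵥ y = y → Ψ z = Ψ y → z - p *ᵥ z = 0 := by
  have r0 := h.r0
  obtain ⟨R, hR⟩ := h.red
  obtain ⟨δ, h0, hδ⟩ := thick ((Mf.isCompact_tube p 0 0 R).prod (Mf.isCompact_tube p 0 0 R))
    (W := fun q : E n × E n => p *ᵥ q.2 = q.2 → Ψ q.1 = Ψ q.2 → q.1 - p *ᵥ q.1 = 0) (by
      rintro ⟨a, b⟩ ⟨ha, hb⟩
      by_cases hab : Ψ a = Ψ b
      · exact loc_eq hP h (fix_of ha.2.1) (fix_of hb.2.1) hab
      · exact (loc_ne h (ha.2.1.trans (by linarith)) (hb.2.1.trans (by linarith)) hab).mono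
          fun q hq _ h2 => absurd h2 hq)
  refine ⟨δ, h0, fun z y hz hy hzy => ?_⟩
  obtain ⟨τ, t1, t2⟩ := hR z
  obtain ⟨σ, s1, s2⟩ := hR y
  have e : p *ᵥ (y + σ) = y + σ := by rw [Matrix.mulVec_add, hy, s1.1]
  have := hδ (p *ᵥ (z + τ), p *ᵥ (y + σ)) ⟨proj_mem h.idem t2, proj_mem h.idem s2⟩
    (z + τ, y + σ) (by
      rw [Prod.dist_eq, e, dist_self, dist_eq_norm, t1.off]
      exact max_lt hz h0) e (by rw [t1.2, s1.2]; exact hzy)
  rwa [t1.off] at this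

end T89

theorem st_ISO : St_ISO := by
  intro n M _ P p Ψ r hP h r' hr'
  have r0 := h.r0
  obtain ⟨δ, h0, hδ⟩ := T89.isol hP h
  obtain ⟨R, hR⟩ := h.red
  obtain ⟨r₁, p1, l1, l2, l3⟩ : ∃ r₁ : ℝ, 0 < r₁ ∧ r₁ ≤ r' ∧ r₁ ≤ r ∧ r₁ ≤ δ / 3 :=
    ⟨min r' (min r (δ / 3)), lt_min hr' (lt_min r0 (by linarith)), min_le_left _ _,
      (min_le_right _ _).trans (min_le_left _ _), (min_le_right _ _).trans (min_le_right _ _)⟩
  have hC := Mf.isCompact_tube p r₁ (2 * r₁) R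
  obtain ⟨r₂, p2, h2⟩ := T89.thick (hC.prod (Mf.isCompact_tube p 0 0 R))
    (W := fun q : E n × E n => Ψ q.1 ≠ Ψ q.2) (by
      rintro ⟨a, b⟩ ⟨ha, hb⟩
      refine T89.loc_ne h (ha.2.1.trans (by linarith)) (hb.2.1.trans (by linarith)) fun hab => ?_
      have := hδ a b (ha.2.1.trans_lt (by linarith)) (T89.fix_of hb.2.1) hab
      have h1 := ha.1
      rw [this, norm_zero] at h1
      linarith)
  refine ⟨r₁, r₂, Ψ '' {z : E n | r₁ ≤ ‖z - p *ᵥ z‖ ∧ ‖z - p *ᵥ z‖ ≤ 2 * r₁ ∧ ‖p *ᵥ z‖ ≤ R}, l1,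
    p1, p2, ?_, fun z hz hK => ?_, fun z _ hK => ?_⟩
  · exact (hC.image_of_continuousOn fun z hz =>
      (h.cont (hz.2.1.trans (by linarith))).continuousWithinAt).isClosed
  · by_contra hn
    obtain ⟨τ, t1, t2⟩ := hR z
    exact hK ⟨z + τ, ⟨by rw [t1.off]; exact not_lt.1 hn, by rw [t1.off]; exact hz, t2⟩, t1.2 z⟩
  · by_contra hn
    obtain ⟨a, ha, hz⟩ := hK
    obtain ⟨τ, t1, t2⟩ := hR z
    refine h2 (a, p *ᵥ (z + τ)) ⟨ha, T89.proj_mem h.idem t2⟩ (a, z + τ) ?_ (hz.trans (t1.2 z).symm)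
    rw [Prod.dist_eq, dist_self, dist_eq_norm, t1.off]
    exact max_lt p2 (not_le.1 hn)

end Pool.Agent.Lib.KP
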