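import Pool.Agent.Lib.KP.Blue
import Pool.Agent.Lib.KP.Kit

/-! Project kp71: the first Kähler class. -/

open scoped ComplexOrder Matrix
open Set Complex

noncomputable section

namespace Pool.Agent.Lib.KP

open Pool.Agent.Lib.SV (E)
open Pool.Agent.Lib.HS32

namespace T96

variable {n : ℕ}

theorem nq_ex (T : Mat n) (t : ℝ) (u w : E n) : nq T ((t : ℂ) • u + w) =
    t ^ 2 * nq T u + t * (nq T (u + w) - nq T u - nq T w) + nq T w := by
  simp only [nq, Matrix.mulVec_add, Matrix.mulVec_smul, star_add, star_smul, add_dotProduct,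
    dotProduct_add, smul_dotProduct, dotProduct_smul, smul_eq_mul, add_re, star_def, conj_ofReal,
    re_ofReal_mul]
  ring

theorem nq_add (S T : Mat n) (v : E n) : nq (S + T) v = nq S v + nq T v := by
  simp only [nq, Matrix.add_mulVec, dotProduct_add, add_re]

theorem nq_sub (S T : Mat n) (v : E n) : nq (S - T) v = nq S v - nq T v := by
  simp only [nq, Matrix.sub_mulVec, dotProduct_sub, sub_re]

theorem nq_sm (s : ℝ) (T : Mat n) (v : E n) : nq (s • T) v = s * nq T v := by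
  simp only [nq, Matrix.smul_mulVec, dotProduct_smul, smul_re, smul_eq_mul]

theorem nq_cj (A J : Mat n) (v : E n) : nq A (J *ᵥ v) = nq (Jᴴ * A * J) v := by
  simp only [nq, Matrix.star_mulVec, Matrix.dotProduct_mulVec, Matrix.vecMul_vecMul]

theorem pt {H P θ P' : Mat n} {a C s : ℝ} (hH : H.PosDef) (hP : P * P = P) (hP' : P' * P' = P')
    (h1 : (H * P).IsHermitian) (h2 : (H * P').IsHermitian) (hθ : θ.IsHermitian)
    (s1 : P * P' = P') (s2 : P' * P = P') (ha : 0 < a) (hC : 0 < C)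
    (lo : ∀ v, P *ᵥ v = v → P' *ᵥ v = 0 → a * nq H v ≤ nq θ v) (k : θ * P' = 0)
    (u1 : (C • H - θ).PosSemidef) (u2 : (θ - -(C • H)).PosSemidef) (hs : 0 < s)
    (hs' : s * (C + 2 * C ^ 2 / a) ≤ 1 / 2) : (H - H * P + H * P' + s • θ).PosDef := by
  have hh : (H - H * P + H * P' + s • θ).IsHermitian :=
    ((hH.1.sub h1).add h2).add (hθ.smul (IsSelfAdjoint.all s))
  refine .of_dotProduct_mulVec_pos hh fun v hv => ?_
  refine Complex.pos_iff.2 ⟨?_, (hh.im_star_dotProduct_mulVec_self v).symm⟩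
  change 0 < nq _ v
  have c1 : Pᴴ * H = H * P := by rw [← h1.eq, Matrix.conjTranspose_mul, hH.1.eq]
  have c2 : P'ᴴ * H = H * P' := by rw [← h2.eq, Matrix.conjTranspose_mul, hH.1.eq]
  have c3 : P'ᴴ * θ = 0 := by
    rw [← hθ.eq, ← Matrix.conjTranspose_mul, k, Matrix.conjTranspose_zero]
  set v1 := (1 - P) *ᵥ v with e1
  set v2 := P' *ᵥ v with e2
  set v3 := (P - P') *ᵥ v with e3
  have q1 : nq H v1 = nq (H - H * P) v := by
    rw [e1, nq_cj, Matrix.conjTranspose_sub, Matrix.conjTranspose_one, sub_mul, c1, one_mul,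
      mul_sub, mul_one, sub_mul, mul_assoc, hP, sub_self, sub_zero]
  have q2 : nq H v2 = nq (H * P') v := by rw [e2, nq_cj, c2, mul_assoc, hP']
  have q3 : nq θ (v1 + v3) = nq θ v := by
    rw [e1, e3, ← Matrix.add_mulVec, sub_add_sub_cancel, nq_cj, Matrix.conjTranspose_sub,
      Matrix.conjTranspose_one, sub_mul, c3, one_mul, sub_zero, mul_sub, mul_one, k, sub_zero]
  have l3 := lo v3 (by rw [e3, Matrix.mulVec_mulVec, mul_sub, hP, s1])
    (by rw [e3, Matrix.mulVec_mulVec, mul_sub, hP', s2, sub_self, Matrix.zero_mulVec])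
  have U1 : ∀ w, nq θ w ≤ C * nq H w := fun w => by
    have : 0 ≤ nq _ w := u1.re_dotProduct_nonneg w
    rw [nq_sub, nq_sm] at this; linarith
  have U2 : ∀ w, -(C * nq H w) ≤ nq θ w := fun w => by
    have : 0 ≤ nq _ w := u2.re_dotProduct_nonneg w
    rw [sub_neg_eq_add, nq_add, nq_sm] at this; linarith
  have p0 : ∀ w, 0 ≤ nq H w := fun w => hH.posSemidef.re_dotProduct_nonneg w
  have p1 : ∀ w, w ≠ 0 → 0 < nq H w := fun w hw => hH.re_dotProduct_pos hw
  have ht : 0 < 2 * C / a := by positivity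
  have a1 := U2 (((2 * C / a : ℝ) : ℂ) • v1 + v3)
  have a2 := U1 (((-(2 * C / a) : ℝ) : ℂ) • v1 + v3)
  rw [nq_ex, nq_ex, q3] at a1 a2
  have a3 : -(2 * C ^ 2 / a * nq H v1 + a / 2 * nq H v3) ≤ nq θ v - nq θ v1 - nq θ v3 := by
    refine le_of_mul_le_mul_left ?_ ht
    have : 2 * C / a * -(2 * C ^ 2 / a * nq H v1 + a / 2 * nq H v3) =
        -(C * ((2 * C / a) ^ 2 * nq H v1 + nq H v3)) := by field_simp
    rw [this]; nlinarith
  have a4 : -((C + 2 * C ^ 2 / a) * nq H v1) + a / 2 * nq H v3 ≤ nq θ v := by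
    have := U2 v1; nlinarith
  have a5 := mul_le_mul_of_nonneg_left a4 hs.le
  have a6 := mul_le_mul_of_nonneg_right hs' (p0 v1)
  have a7 : 0 < s * (a / 2) := by positivity
  rw [nq_add, nq_add, nq_sm, ← q1, ← q2]
  have a8 : 0 < nq H v1 / 2 + nq H v2 + s * (a / 2) * nq H v3 := by
    have b1 := p0 v1
    have b2 := p0 v2
    have b3 := mul_nonneg a7.le (p0 v3)
    by_contra hc
    have z1 : v1 = 0 := by_contra fun h => hc (by have := p1 _ h; linarith)
    have z2 : v2 = 0 := by_contra fun h => hc (by have := p1 _ h; linarith)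
    have z3 : v3 = 0 := by_contra fun h => hc (by have := mul_pos a7 (p1 _ h); linarith)
    refine hv ?_
    have : v1 + v2 + v3 = v := by
      rw [e1, e2, e3, ← Matrix.add_mulVec, ← Matrix.add_mulVec,
        show 1 - P + P' + (P - P') = 1 by abel, Matrix.one_mulVec]
    rw [← this, z1, z2, z3, add_zero, add_zero]
  nlinarith

end T96

theorem st_KAP : St_KAP := by
  intro n M _ H P θ P' k k' a hH hF hθ hS hk
  obtain ⟨C, hC, u1, u2⟩ := (mBD n M H hH).1 θ hθ
  have ha := hS.a0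
  have hD : 0 < C + 2 * C ^ 2 / a := by positivity
  refine ⟨1 / 2 / (C + 2 * C ^ 2 / a), by positivity, fun s hs e he z hz => ?_⟩
  exact T96.pt (hH.pos e he z hz) (hF.idem e he z hz) (hS.flat.idem e he z hz) (hF.herm e he z hz)
    (hS.flat.herm e he z hz) (hθ.herm e he z hz) (hS.sub e he z hz).1 (hS.sub e he z hz).2 ha hC
    (hS.lo e he z hz) (hk e he z hz) (u1 e he z hz) (u2 e he z hz) hs.1 ((le_div_iff₀ hD).1 hs.2)

end Pool.Agent.Lib.KP
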