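import Pool.Agent.Lib.KP.Blue
import Pool.Agent.Lib.KP.Kit

/-! Project kp71: the second Kähler class. -/

open scoped Classical Topology ContDiff ComplexOrder Matrix

noncomputable section

namespace Pool.Agent.Lib.KP

open Pool.Agent.Lib.SV (E)
open Pool.Agent.Lib.HS32 Pool.Agent.Lib.HS32.Mf

theorem st_KCL : St_KCL := by
  intro n M _ H P θ k s₀ s s₁ hH hF hθ h0 h1 hT hw
  have hr := (mHES n M).2.2.2.2.2.2.2.2.1 H hH.toMet
  have cT : M.Clo (H * P - M.ric H + s₀ • θ) := (hF.clo.sub hr).add (hθ.smul s₀)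
  obtain ⟨C, hC, hle, -⟩ := (mBD n M _ ⟨cT.toForm, hT⟩).1 H hH.toForm
  obtain ⟨b, hb⟩ : ∃ b : ℝ, b = (s - s₀) / (s₁ - s₀) := ⟨_, rfl⟩
  have d0 : 0 < s₁ - s₀ := by linarith
  have b0 : 0 < b := hb ▸ div_pos (by linarith) d0
  have b1 : 0 < 1 - b := by rw [hb, sub_pos, div_lt_one d0]; linarith
  have hs : s = (1 - b) * s₀ + b * s₁ := by rw [hb]; field_simp; ring
  obtain ⟨w, w1, w2⟩ := hw ((1 - b) / (C * b)) (by positivity)
  have w3 : M.Sm fun x => b * w x := w1.const_mul b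
  refine ⟨_, w3, ((((hH.toClo.smul 0).add (hF.clo.add (hθ.smul s))).sub hr).add
    ((mHES n M).1 _ w3)).congr fun _ _ _ _ => rfl, fun e he z hz => ?_⟩
  have p : (H e z * P e z).PosSemidef := by
    have h2 : (P e z)ᴴ * H e z = H e z * P e z := by
      rw [← (hF.herm e he z hz).eq, Matrix.conjTranspose_mul, (hH.pos e he z hz).1.eq]
    have h3 := (hH.pos e he z hz).posSemidef.conjTranspose_mul_mul_same (P e z)
    rwa [h2, mul_assoc, hF.idem e he z hz] at h3
  have h4 : M.gB H (H * P + s • θ) 0 (fun x => b * w x) e z =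
      b • M.gB H (s₁ • θ) ((1 - b) / (C * b)) w e z + (b • (H e z * P e z) +
        ((1 - b) / C) • ((C • (H * P - M.ric H + s₀ • θ)) e z - H e z)) := by
    have app : ∀ B η u, M.gB H B η u e z = η • H e z + B e z - M.ric H e z + M.hs u e z :=
      fun _ _ _ => rfl
    simp only [app, Pi.add_apply, Pi.sub_apply, Pi.smul_apply, Pi.mul_apply]
    rw [((mLAP n M _ _ w1 w1).1 b e he z hz).2.2.2.1, hs]
    match_scalars <;> field_simp <;> ring
  beta_reduce
  rw [h4]
  exact (pd_rsmul (w2.pos e he z hz) b0).add_posSemidef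
    ((psd_rsmul p b0.le).add (psd_rsmul (hle e he z hz) (by positivity)))

end Pool.Agent.Lib.KP
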