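import Pool.Agent.Lib.KP.Blue
import Pool.Agent.Lib.KP.Kit
import Pool.Agent.Lib.HS95.R_HB
import Pool.Agent.Lib.HS95.R_POL
import Pool.Agent.Lib.HS.B_UT

/-! Project kp71: the weights with a logarithmic pole along the central leaf. -/

open scoped Classical Topology ContDiff ComplexOrder Matrix ENNReal
open Set MeasureTheory Complex Metric Filter

set_option linter.unusedVariables false

noncomputable section

namespace Pool.Agent.Lib.KP

open Pool.Agent.Lib.SV (E nsq)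
open Pool.Agent.Lib.HS32
open Pool.Agent.Lib.HS32.Mf (PerC)

namespace T42

variable {n : ℕ}

theorem nq_lv {g : E n → ℝ} (hg : ContDiff ℝ ∞ g) (z v : E n) :
    4 * nq (hess (fun w => (g w : ℂ)) z) v = HS95.lv g z v := by
  have d : ∀ u w, HS95.d2 (fun w => (g w : ℂ)) z u w = (HS95.d2 g z u w : ℝ) := fun u w => by
    have e : (fun x => fderiv ℝ (fun w => (g w : ℂ)) x w) = fun x => ((fderiv ℝ g x w : ℝ) : ℂ) :=
      funext fun x => HS95.HBK.fd_re (cd_diff hg.contDiffAt) w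
    rw [HS95.d2, e, HS95.HBK.fd_re (cd_diff (cd_fderiv hg.contDiffAt w)), HS95.d2]
  have h := congrArg re (HS95.HBK.hess_form (cd_ofReal (hg.contDiffAt (x := z))) v)
  rw [d, d] at h
  simpa [nq, HS95.lv] using h

/-- The complementary projection. -/
def co (p : Mat n) : E n →L[ℂ] E n := LinearMap.toContinuousLinearMap (Matrix.toLin' (1 - p))

theorem co_apply (p : Mat n) (z : E n) : co p z = z - p *ᵥ z := by
  simp [co, Matrix.sub_mulVec]

/-- The cut-off pole read through the complementary projection. -/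
theorem pole (p : Mat n) {r : ℝ} (hr : 0 < r) : ∃ (u : ℝ → E n → ℝ) (L : ℝ), 0 ≤ L ∧
    ∀ δ ∈ Ioc (0 : ℝ) 1, ContDiff ℝ ∞ (u δ) ∧
      (∀ z z', z - p *ᵥ z = z' - p *ᵥ z' → u δ z = u δ z') ∧
      (∀ z, 2 * r < ‖z - p *ᵥ z‖ → u δ z = 0) ∧ (∀ z, u δ z ≤ L) ∧
      (∀ z, ‖z - p *ᵥ z‖ < r → u δ z = Real.log (nsq (z - p *ᵥ z) + δ)) ∧
      (∀ z (s : ℝ), 0 < s → s ≤ ‖z - p *ᵥ z‖ → -|Real.log (s ^ 2)| ≤ u δ z) ∧
      ∀ z v, -(L * ‖v - p *ᵥ v‖ ^ 2) ≤ nq (hess (fun w => (u δ w : ℂ)) z) v := by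
  obtain ⟨χ, L, hL, -, h01, h1, h0, h⟩ := HS95.st_POL (Fin n) 0 r hr
  simp only [sub_zero] at h
  refine ⟨fun δ z => χ (co p z) * Real.log (HS95.nsq (co p z) + δ), L + n * (2 * r) ^ 2,
    by positivity, fun δ hδ => ?_⟩
  obtain ⟨sm, lo⟩ := h δ hδ.1 hδ.2
  beta_reduce
  have hp : ∀ w : E n, 0 < HS95.nsq w + δ := fun w =>
    add_pos_of_nonneg_of_pos (HS95.POLK.nsq_nonneg w) hδ.1
  have z0 : ∀ z, 2 * r < ‖z - p *ᵥ z‖ → χ (co p z) = 0 := fun z hz =>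
    h0 _ fun hh => not_le.2 hz (by rwa [mem_closedBall_zero_iff, co_apply] at hh)
  refine ⟨sm.comp ((co p).restrictScalars ℝ).contDiff, fun z z' e => by
    simp only [co_apply, e], fun z hz => by rw [z0 z hz, zero_mul], fun z => ?_,
    fun z hz => ?_, fun z s hs hz => ?_, fun z v => ?_⟩
  · by_cases hz : 2 * r < ‖z - p *ᵥ z‖
    · rw [z0 z hz, zero_mul]; positivity
    rw [not_lt, ← co_apply] at hz
    have a := Real.log_le_sub_one_of_pos (hp (co p z))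
    have b := HS95.nsq_le (co p z)
    have c : ‖co p z‖ ^ 2 ≤ (2 * r) ^ 2 := pow_le_pow_left₀ (norm_nonneg _) hz 2
    have d := HS95.POLK.nsq_nonneg (co p z)
    rw [Fintype.card_fin] at b
    have e : (n : ℝ) * ‖co p z‖ ^ 2 ≤ n * (2 * r) ^ 2 := by gcongr
    nlinarith [h01 (co p z), hδ.2]
  · rw [h1 (co p z) (by rwa [mem_ball_zero_iff, co_apply]), one_mul, co_apply]; rfl
  · rw [← co_apply] at hz
    have a : Real.log (s ^ 2) ≤ Real.log (HS95.nsq (co p z) + δ) :=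
      Real.log_le_log (by positivity) (((pow_le_pow_left₀ hs.le hz 2).trans
        (HS95.norm_sq_le_nsq _)).trans (le_add_of_nonneg_right hδ.1.le))
    nlinarith [h01 (co p z), neg_abs_le (Real.log (s ^ 2)), abs_nonneg (Real.log (s ^ 2))]
  · obtain ⟨-, -, -, -, -, c6, -, -, -, -, -, c12⟩ :=
      mCHN n (co p) z (Eventually.of_forall fun w => (co p).differentiableAt)
    have e := c12 _ (cd_ofReal (sm.contDiffAt (x := co p z)))
    have a := lo (co p z) (co p v)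
    rw [← nq_lv sm] at a
    have f : jm (co p) z *ᵥ v = co p v := by rw [← c6, (co p).fderiv]
    have g : nq (hess (fun w => ((χ (co p w) * Real.log (HS95.nsq (co p w) + δ) : ℝ) : ℂ)) z) v =
        _ := (congrArg (nq · v) e).trans ((BBD.nq_conj _ _ _).trans (by rw [f]))
    rw [g, ← co_apply]
    have : 0 ≤ (n : ℝ) * (2 * r) ^ 2 * ‖co p v‖ ^ 2 := by positivity
    have : 0 ≤ L * ‖co p v‖ ^ 2 := by positivity
    nlinarith

variable {M : Mf n} {H P T : M.Fam (Mat n)} {p : Mat n}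

/-- On one sheet the form `T` dominates the transversal norm. -/
theorem sheet (hD : M.Deg H P T) (hp : p * p = p) {e : M.Ch} (he : e ∈ M.C) (hc : M.CsC P p e)
    {x : M.X} (hx : x ∈ e.source) {L : ℝ} (hL : 0 ≤ L) : ∃ C, 0 ≤ C ∧
      ∀ᶠ y in 𝓝 x, ∀ v, L * ‖v - p *ᵥ v‖ ^ 2 ≤ C * nq (T e (e y)) v := by
  obtain ⟨ε, hε, hb⟩ := nhds_basis_closedBall.mem_iff.1 (e.open_target.mem_nhds (e.map_source hx))
  obtain ⟨c, c0, hl⟩ := BBD.low (isCompact_closedBall (e x) ε)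
    (T := fun w => T e w + H e w * P e w) (fun z hz => (hD.form.sm e he z (hb hz)).add
      ((hD.met.sm e he z (hb hz)).mul (hD.en.sm e he z (hb hz)))) fun z hz => hD.pos e he z (hb hz)
  refine ⟨L / c, by positivity, ?_⟩
  filter_upwards [e.continuousAt hx (closedBall_mem_nhds _ hε)] with y hy v
  have k := hD.kill e he _ (hb hy)
  have m := (hD.form.herm e he _ (hb hy)).eq
  have a := hl _ hy ((1 - p) *ᵥ v)
  beta_reduce at k m a
  rw [hc _ (hb hy)] at k a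
  have k' : pᴴ * T e (e y) = 0 := by
    rw [← m, ← Matrix.conjTranspose_mul, k, Matrix.conjTranspose_zero]
  have q : (1 - p)ᴴ * (T e (e y) + H e (e y) * p) * (1 - p) = T e (e y) := by
    rw [mul_assoc, mul_sub, mul_one, add_mul, k, mul_assoc, hp, zero_add, add_sub_cancel_right,
      Matrix.conjTranspose_sub, Matrix.conjTranspose_one, sub_mul, k', one_mul, sub_zero]
  rw [← BBD.nq_conj, q, Matrix.sub_mulVec, Matrix.one_mulVec] at a
  calc L * ‖v - p *ᵥ v‖ ^ 2 = L / c * (c * ‖v - p *ᵥ v‖ ^ 2) := by field_simp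
    _ ≤ _ := by gcongr

/-- A sum of functions of the coordinates of several charts. -/
theorem sum_ch {s : ℕ} {e : Fin s → M.Ch} (he : ∀ b, e b ∈ M.C) {u : E n → ℝ}
    (hu : ContDiff ℝ ∞ u) {l : M.X → ℝ} {y : M.X} (hy : ∀ b, y ∈ (e b).source)
    (hl : ∀ᶠ w in 𝓝 y, l w = ∑ b, u (e b w)) {e' : M.Ch} (he' : e' ∈ M.C) (hy' : y ∈ e'.source) :
    ContDiffAt ℝ ∞ (l ∘ e'.symm) (e' y) ∧ ∀ v, nq (M.hs l e' (e' y)) v =
      ∑ b, nq (hess (fun w => (u w : ℂ)) (e b y)) (M.J (e b) e' y *ᵥ v) := by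
  have t := fun b => mCHN n _ _ ((mTR n M).2.1 (e b) (he b) e' he' y (hy b) hy').1
  have ev : ∀ᶠ w in 𝓝 (e' y), l (e'.symm w) = ∑ b, u (e b (e'.symm w)) := by
    have := e'.continuousAt_symm (e'.map_source hy')
    rw [ContinuousAt, e'.left_inv hy'] at this
    exact this.eventually hl
  have sm : ∀ b, ContDiffAt ℝ ∞ (fun w => u (e b (e'.symm w))) (e' y) := fun b =>
    hu.contDiffAt.comp _ (t b).1
  refine ⟨(ContDiffAt.sum fun b _ => sm b).congr_of_eventuallyEq ev, fun v => ?_⟩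
  have e1 : M.lc l e' =ᶠ[𝓝 (e' y)] fun w => ∑ b, (u (e b (e'.symm w)) : ℂ) :=
    ev.mono fun w hw => by simp only [Mf.lc, hw, ofReal_sum]
  rw [Mf.hs, hess_congr e1, HS.UT.hess_sum fun b _ => cd_ofReal (sm b), nq, Matrix.sum_mulVec,
    dotProduct_sum, re_sum]
  refine Finset.sum_congr rfl fun b _ => ?_
  have := (t b).2.2.2.2.2.2.2.2.2.2.2 _ (cd_ofReal (hu.contDiffAt))
  rw [Function.comp_apply, e'.left_inv hy'] at this
  exact (congrArg (nq · v) this).trans (BBD.nq_conj _ _ _)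

theorem log_le (p : Mat n) : ∃ A : ℝ, 0 ≤ A ∧ ∀ (z : E n) (δ : ℝ), 0 < δ →
    Real.log (nsq (z - p *ᵥ z) + δ) ≤ Real.log (nsq z + δ) + A := by
  have h : (1 : ℝ) ≤ n * ‖co p‖ ^ 2 + 1 := le_add_of_nonneg_left (by positivity)
  refine ⟨Real.log (n * ‖co p‖ ^ 2 + 1), Real.log_nonneg h, fun z δ hδ => ?_⟩
  have a : nsq (co p z) ≤ Fintype.card (Fin n) * ‖co p z‖ ^ 2 := HS95.nsq_le (co p z)
  have b : ‖z‖ ^ 2 ≤ nsq z := HS95.norm_sq_le_nsq z
  have c : ‖co p z‖ ^ 2 ≤ (‖co p‖ * ‖z‖) ^ 2 :=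
    pow_le_pow_left₀ (norm_nonneg _) ((co p).le_opNorm z) 2
  have d := SV.nsq_nonneg z
  have f := SV.nsq_nonneg (co p z)
  rw [Fintype.card_fin] at a
  rw [← Real.log_mul (by positivity) (by positivity), ← co_apply]
  refine Real.log_le_log (by positivity) ?_
  have g : (n : ℝ) * ‖co p z‖ ^ 2 ≤ n * (‖co p‖ ^ 2 * nsq z) := by
    gcongr
    exact c.trans (by rw [mul_pow]; gcongr)
  have k : 0 ≤ δ * (n * ‖co p‖ ^ 2) := by positivity
  nlinarith

end T42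

open T42 in
theorem st_LAM (hBLK : St_BLK) : St_LAM := by
  intro n M _ H P T p Ψ r₁ r₂ K F e₀ hD hp hS hF h₀ h0
  obtain ⟨u, L, hL, hu⟩ := pole p hS.p1
  have hT : ∀ e ∈ M.C, ∀ y ∈ e.source, ∀ v, 0 ≤ nq (T e (e y)) v := fun e he y hy v => by
    have := ((hBLK n M H P T hD).1.at he hy).dotProduct_mulVec_nonneg v
    rw [Pi.zero_apply, Pi.zero_apply, sub_zero] at this
    exact (Complex.nonneg_iff.1 this).1
  have key : ∀ x, ∃ (s : ℕ) (e : Fin s → M.Ch), (∀ b, M.IvC Ψ (e b) ∧ M.CsC P p (e b) ∧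
      x ∈ (e b).source) ∧ ∀ᶠ y in 𝓝 x, (∀ b, y ∈ (e b).source) ∧
      (∀ z, Ψ z = y → ‖z - p *ᵥ z‖ ≤ 2 * r₁ → ∃ b τ, PerC p Ψ τ ∧ e b y = z + τ) ∧
      ∀ δ ∈ Ioc (0 : ℝ) 1, ∑ z ∈ F y, u δ z = ∑ b, u δ (e b y) := fun x => by
    obtain ⟨s, e, h1, h2⟩ := hF.loc x
    refine ⟨s, e, fun b => ⟨(h1 b).1, (h1 b).2.1, (h1 b).2.2.1⟩,
      h2.mono fun y hy => ⟨hy.1, hy.2.1, fun δ hδ => ?_⟩⟩
    exact_mod_cast hy.2.2 (fun z => (u δ z : ℂ))
      (fun z τ hτ => congrArg ofReal ((hu δ hδ).2.1 _ _ (hτ.off z)))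
      fun z hz => by rw [(hu δ hδ).2.2.1 z hz, ofReal_zero]
  have loc : ∀ x, ∃ C : ℝ, 0 ≤ C ∧ ∀ᶠ y in 𝓝 x, ∀ δ ∈ Ioc (0 : ℝ) 1,
      (∀ e ∈ M.C, y ∈ e.source → ContDiffAt ℝ ∞ ((fun y => ∑ z ∈ F y, u δ z) ∘ e.symm) (e y) ∧
        ∀ v, 0 ≤ C * nq (T e (e y)) v + nq (M.hs (fun y => ∑ z ∈ F y, u δ z) e (e y)) v) ∧
      (y ∈ K → -C ≤ ∑ z ∈ F y, u δ z) := fun x => by
    obtain ⟨s, e, h1, h2⟩ := key x
    choose c c0 hc using fun b => sheet hD hp (h1 b).1.1 (h1 b).2.1 (h1 b).2.2 hL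
    have s0 : 0 ≤ ∑ b, c b := Finset.sum_nonneg fun b _ => c0 b
    have s1 : 0 ≤ s * |Real.log (r₂ ^ 2)| := by positivity
    refine ⟨∑ b, c b + s * |Real.log (r₂ ^ 2)|, add_nonneg s0 s1, ?_⟩
    filter_upwards [h2.eventually_nhds, eventually_all.2 hc] with y hy hc δ hδ
    obtain ⟨a1, -, a3⟩ := hy.self_of_nhds
    refine ⟨fun e' he' hy' => ?_, fun hK => ?_⟩
    · obtain ⟨b1, b2⟩ := sum_ch (fun b => (h1 b).1.1) (hu δ hδ).1 a1
        (hy.mono fun w hw => hw.2.2 δ hδ) he' hy'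
      refine ⟨b1, fun v => ?_⟩
      have : 0 ≤ ∑ b, (c b * nq (T e' (e' y)) v +
          nq (hess (fun w => (u δ w : ℂ)) (e b y)) (M.J (e b) e' y *ᵥ v)) :=
        Finset.sum_nonneg fun b _ => by
          have := hD.form.cmp _ (h1 b).1.1 e' he' y (a1 b) hy'
          beta_reduce at this
          rw [this, BBD.nq_conj]
          linarith [hc b (M.J (e b) e' y *ᵥ v), (hu δ hδ).2.2.2.2.2.2 (e b y) (M.J (e b) e' y *ᵥ v)]
      rw [Finset.sum_add_distrib, ← Finset.sum_mul, ← b2] at this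
      nlinarith [mul_nonneg s1 (hT e' he' y hy' v)]
    · have : ∑ b : Fin s, -|Real.log (r₂ ^ 2)| ≤ ∑ b, u δ (e b y) := Finset.sum_le_sum fun b _ => by
        by_cases hb : 2 * r₁ < ‖e b y - p *ᵥ e b y‖
        · rw [(hu δ hδ).2.2.1 _ hb]; exact neg_nonpos.2 (abs_nonneg _)
        refine (hu δ hδ).2.2.2.2.2.1 _ _ hS.p2 (hS.out _ (not_lt.1 hb) ?_)
        rwa [(h1 b).1.2 _ ((e b).map_source (a1 b)), (e b).left_inv (a1 b)]
      rw [Finset.sum_const, Finset.card_fin, nsmul_eq_mul, ← a3 δ hδ] at this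
      linarith
  choose c c0 hc using loc
  obtain ⟨t, -, ht⟩ := isCompact_univ.elim_nhds_subcover _ fun x _ => hc x
  obtain ⟨A, hA, hA'⟩ := log_le p
  obtain ⟨s, e, h1, h2⟩ := key (e₀.symm 0)
  have nb : ∀ᶠ z in 𝓝 (0 : E n), z ∈ e₀.target ∧ ‖z - p *ᵥ z‖ < r₁ ∧ _ :=
    (e₀.open_target.eventually_mem h0).and (((continuous_id.sub
      (Mf.cont_mulVec p)).norm.continuousAt.eventually_lt continuousAt_const
        (by simpa using hS.p1)).and ((e₀.continuousAt_symm h0).eventually h2))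
  obtain ⟨ρ, hρ, hb⟩ := Metric.eventually_nhds_iff_ball.1 nb
  have s0 : 0 ≤ ∑ x ∈ t, c x := Finset.sum_nonneg fun x _ => c0 x
  have s1 : 0 ≤ s * L := by positivity
  refine ⟨∑ x ∈ t, c x + (A + s * L), ρ, by positivity, hρ, fun δ hδ => ?_⟩
  have all : ∀ y, ∃ x, c x ≤ ∑ x ∈ t, c x + (A + s * L) ∧ _ := fun y => by
    obtain ⟨x, hx, hy⟩ := mem_iUnion₂.1 (ht (mem_univ y))
    exact ⟨x, (Finset.single_le_sum (fun x _ => c0 x) hx).trans
      (le_add_of_nonneg_right (add_nonneg hA s1)), hy δ hδ⟩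
  refine ⟨fun y => ∑ z ∈ F y, u δ z, Mf.allOn_of_source fun e he y hy => ?_,
    Mf.allOn_of_source fun e he y hy => ?_, fun z hz => ?_, fun y hy => ?_⟩
  · obtain ⟨x, -, h, -⟩ := all y
    exact (h e he hy).1
  · obtain ⟨x, hx, h, -⟩ := all y
    have := BBD.psd (hD.form.herm.at he hy) (hess_herm (h e he hy).1) (t := 1)
      (s := ∑ x ∈ t, c x + (A + s * L)) fun v => by
        have := mul_le_mul_of_nonneg_right hx (hT e he y hy v)
        have := (h e he hy).2 v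
        rw [one_mul]
        exact this.trans (add_le_add_left ‹_› _)
    rw [one_smul] at this
    simp only [Pi.add_apply, Pi.smul_apply, Pi.zero_apply, sub_zero]
    exact this
  · obtain ⟨a1, a2, -, a4, a5⟩ := hb z hz
    obtain ⟨b, τ, hτ, hb⟩ := a4 z (h₀.2 z a1) (a2.le.trans (by linarith [hS.p1]))
    have e1 : u δ (e b (e₀.symm z)) ≤ Real.log (nsq z + δ) + A := by
      rw [hb, (hu δ hδ).2.1 _ _ (hτ.off z), (hu δ hδ).2.2.2.2.1 z a2]
      exact hA' z δ hδ.1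
    have e2 := Finset.single_le_sum (f := fun b => L - u δ (e b (e₀.symm z)))
      (fun b _ => sub_nonneg.2 ((hu δ hδ).2.2.2.1 _)) (Finset.mem_univ b)
    rw [Finset.sum_sub_distrib, Finset.sum_const, Finset.card_fin, nsmul_eq_mul, ← a5 δ hδ] at e2
    linarith
  · obtain ⟨x, hx, -, h⟩ := all y
    linarith [h hy]

end Pool.Agent.Lib.KP
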