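import Pool.Agent.Lib.KP.Blue
import Pool.Agent.Lib.KP.Kit
import Pool.Agent.Lib.HS76.Pt

/-! Project kp71, row NEF: the class is nef. -/

open scoped Classical Topology ContDiff ComplexOrder Matrix
open Set MeasureTheory Complex Metric Filter

noncomputable section

namespace Pool.Agent.Lib.KP

open Pool.Agent.Lib.SV (E)
open Pool.Agent.Lib.HS32 Pool.Agent.Lib.HS32.Mf Pool.Agent.Lib.HS76

theorem st_NEF (_hE : St_EXI) (hS : St_SCH) : St_NEF := by
  intro n M _ H h B V ψ χ C a hn hH hh hy hB hA ε hε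
  have hr := (mHES n M).2.2.2.2.2.2.2.2.1 H hH.toMet
  obtain ⟨K, hK, hle, -⟩ := (mBD n M H hH.toMet).1 _ (hr.sub hB).toForm
  obtain ⟨D₀, hD₀, hS⟩ := hS n M H h hH hh hy
  have app : ∀ η u e z, M.gB H B η u e z = η • H e z + B e z - M.ric H e z + M.hs u e z :=
    fun _ _ _ _ => rfl
  have clo : ∀ (η : ℝ) {u}, M.Sm u → M.Clo (M.gB H B η u) := fun η u hu =>
    ((((hH.toClo.smul η).add hB).sub hr).add ((mHES n M).1 _ hu)).congr fun _ _ _ _ => rfl
  obtain ⟨D, hD⟩ : ∃ D : ℝ, D = D₀ + 1 := ⟨_, rfl⟩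
  have hD1 : 1 ≤ D := by linarith
  obtain ⟨q, hq⟩ : ∃ q : ℝ, q = 1 - 1 / (2 * D) := ⟨_, rfl⟩
  have hq0 : 0 < q := by
    have : 1 / (2 * D) ≤ 1 / 2 := one_div_le_one_div_of_le two_pos (by linarith)
    linarith
  have hq1 : q < 1 := by
    have : 0 < 1 / (2 * D) := by positivity
    linarith
  have key : ∀ k : ℕ, ∀ η : ℝ, K * q ^ k < η → ∃ u, M.Sm u ∧ M.Kae (M.gB H B η u) := by
    intro k
    induction k with
    | zero =>
      intro η hη
      rw [pow_zero, mul_one] at hη
      have h0 : M.Sm fun _ => (0 : ℝ) := sm_const 0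
      refine ⟨_, h0, clo η h0, fun e he z hz => ?_⟩
      have h4 : M.gB H B η (fun _ => 0) e z =
          (η - K) • H e z + ((K • H) e z - (M.ric H - B) e z) := by
        simp only [app, Pi.sub_apply, Pi.smul_apply]
        rw [((mLAP n M _ _ h0 h0).1 0 e he z hz).1, sub_smul]
        abel
      beta_reduce
      rw [h4]
      exact (pd_rsmul (hH.pos e he z hz) (sub_pos.2 hη)).add_posSemidef (hle e he z hz)
    | succ k ih =>
      intro η hη
      have h1 : K * q ^ k < η / q := by
        rw [lt_div_iff₀ hq0, mul_assoc, ← pow_succ]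
        exact hη
      have h2 : 0 < η / q := lt_trans (by positivity) h1
      obtain ⟨w, w1, w2⟩ := ih _ h1
      obtain ⟨b, hb⟩ : ∃ b, b = η / q := ⟨_, rfl⟩
      rw [← hb] at w2 h2
      obtain ⟨u, u1, u2, u3⟩ := hS B V ψ χ C a b w ⟨hA, hn, hH, hB, h2, w1, w2⟩
      refine ⟨u, u1, clo η u1, fun e he z hz => ?_⟩
      have q1 := (u3 (e.symm z)).trans (show D₀ ≤ D by linarith)
      rw [((mINV n M _ u2.toMet).1 H hH.toTen).1 e he z hz, ← le_div_iff₀' h2] at q1
      have q2 : ((D / b : ℝ) • M.gB H B b u e z - H e z).PosSemidef :=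
        le_tr_smul (u2.pos e he z hz) (hH.pos e he z hz).posSemidef q1
      have q3 := psd_rsmul q2 (div_pos h2 (zero_lt_one.trans_le hD1)).le
      rw [smul_sub, smul_smul, show b / D * (D / b) = 1 by field_simp, one_smul] at q3
      have h5 : η = b - b / D + b / (2 * D) := by
        have h6 : η = b * q := by rw [hb]; field_simp
        rw [h6, hq]
        field_simp
        ring
      have h4 : M.gB H B η u e z =
          (b / (2 * D)) • H e z + (M.gB H B b u e z - (b / D) • H e z) := by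
        rw [app, app, h5, add_smul, sub_smul]
        abel
      beta_reduce
      rw [h4]
      exact (pd_rsmul (hH.pos e he z hz) (by positivity)).add_posSemidef q3
  obtain ⟨k, hk⟩ := exists_pow_lt_of_lt_one (div_pos hε hK) hq1
  exact key k ε (by rwa [lt_div_iff₀ hK, mul_comm] at hk)

end Pool.Agent.Lib.KP
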