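import Pool.Agent.Lib.KP.Blue
import Pool.Agent.Lib.KP.Kit

/-! Project kp71, row NINV: invariance along the image of the projection. -/

open scoped Classical Topology ContDiff ComplexOrder Matrix ENNReal Manifold
open Set MeasureTheory Complex Metric Filter

set_option linter.unusedVariables false

noncomputable section

namespace Pool.Agent.Lib.KP

open Pool.Agent.Lib.SV (E nsq)
open Pool.Agent.Lib.HS32 Pool.Agent.Lib.HS21

theorem st_NINV : St_NINV := by
  intro n M P π p Ψ r N hπ hN hloc hd z hz u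
  have key : ∀ t : ℝ, HasDerivAt (fun t : ℝ => (N (Ψ (z + t • (p *ᵥ u))) : ℂ)) 0 t := by
    intro t
    have h1 : (z + t • (p *ᵥ u)) - π *ᵥ (z + t • (p *ᵥ u)) = z - π *ᵥ z := by
      rw [Matrix.mulVec_add, Matrix.mulVec_smul, Matrix.mulVec_mulVec, hπ]
      abel
    obtain ⟨e, he, hw, hc⟩ := hloc (z + t • (p *ᵥ u)) (by rw [h1]; exact hz)
    have hs : DifferentiableAt ℝ (M.lc N e) (z + t • (p *ᵥ u)) :=
      cd_diff (hN.lc e he.1 _ hw)
    have hl : HasDerivAt (fun t : ℝ => z + t • (p *ᵥ u)) (p *ᵥ u) t := by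
      simpa using ((hasDerivAt_id t).smul_const (p *ᵥ u)).const_add z
    have h2 := hs.hasFDerivAt.comp_hasDerivAt t hl
    have hA : ∑ j, dz j (M.lc N e) (z + t • (p *ᵥ u)) * (p *ᵥ u) j = 0 := by
      have h3 := hd e he.1 _ hw
      beta_reduce at h3
      rw [hc _ hw] at h3
      simp only [Matrix.mulVec, dotProduct, Finset.mul_sum]
      rw [Finset.sum_comm]
      refine Finset.sum_eq_zero fun l _ => ?_
      have := h3 l
      simp only [← mul_assoc, ← Finset.sum_mul, this, zero_mul]
    have h0 : fderiv ℝ (M.lc N e) (z + t • (p *ᵥ u)) (p *ᵥ u) = 0 := by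
      rw [fderiv_eq_sum, Finset.sum_add_distrib, hA, zero_add]
      have h4 : ∀ j, dzb j (M.lc N e) (z + t • (p *ᵥ u)) =
          star (dz j (M.lc N e) (z + t • (p *ᵥ u))) := fun j => (star_dz_ofReal hs).symm
      simp only [h4, ← star_mul', ← star_sum, hA, star_zero]
    rw [h0] at h2
    refine h2.congr_of_eventuallyEq ?_
    have h5 := hl.continuousAt.tendsto.eventually (he.ev hw)
    filter_upwards [h5] with s hs'
    simp only [Function.comp_apply, Mf.lc]
    rw [hs']
  have h := is_const_of_deriv_eq_zero (fun t => (key t).differentiableAt)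
    (fun t => (key t).deriv) 1 0
  simpa using h

end Pool.Agent.Lib.KP
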