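import Pool.Agent.Lib.KP.Blue
import Pool.Agent.Lib.KP.Kit

/-! Project kp71: the oscillation is sublinear. -/

open scoped Classical Topology ContDiff ComplexOrder Matrix
open Set MeasureTheory

noncomputable section

namespace Pool.Agent.Lib.KP

open Pool.Agent.Lib.HS32

namespace T90

theorem osc_pt (m : ℕ) {u a w p D W : ℝ} (hu : 0 ≤ u) (ha : a ≤ D) (hw : w ≤ W) :
    Real.exp (a - u + w - p) * u ^ m ≤ (m.factorial * Real.exp (D + W)) * Real.exp (-p) := by
  have h1 := Real.pow_div_factorial_le_exp u hu m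
  have h2 : (0 : ℝ) < m.factorial := by exact_mod_cast m.factorial_pos
  rw [div_le_iff₀ h2] at h1
  calc Real.exp (a - u + w - p) * u ^ m
      ≤ Real.exp (a - u + w - p) * (Real.exp u * m.factorial) :=
        mul_le_mul_of_nonneg_left h1 (Real.exp_pos _).le
    _ = m.factorial * Real.exp (a - u + w - p + u) := by rw [Real.exp_add _ u]; ring
    _ ≤ m.factorial * Real.exp (D + W + -p) :=
        mul_le_mul_of_nonneg_left (Real.exp_le_exp.2 (by linarith)) h2.le
    _ = _ := by rw [Real.exp_add _ (-p)]; ring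

theorem osc_gr {n : ℕ} {M : Mf n} {T : M.Fam (Mat n)} (hT : M.Met T) {v : M.X → ℝ} (hv : M.Sm v)
    (c : ℝ) (x : M.X) : M.gr T (fun y => c - v y) (fun y => c - v y) x = M.gr T v v x := by
  have hu : M.Sm fun y => c - v y := (Mf.sm_const c).sub hv
  have hd : ∀ s : ℝ, deriv (fun s : ℝ => c - s) s = -1 := fun s =>
    ((hasDerivAt_id s).const_sub c).deriv
  have hc : ∀ s : ℝ, ContDiffAt ℝ ∞ (fun s : ℝ => c - s) s := fun s =>
    contDiffAt_const.sub contDiffAt_id
  have h1 := (((mLAP n M v _ hv hu).2.2 T hT).2.2.2.1 (fun s => c - s) (fun y => hc _) x).2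
  have h2 := (((mLAP n M v v hv hv).2.2 T hT).2.2.2.1 (fun s => c - s) (fun y => hc _) x).2
  have h3 := (((mLAP n M v _ hv hu).2.2 T hT).2.2.1 x 0).2.2.2.2.2.1
  rw [h1, h3, h2, hd]
  ring

theorem osc_lap {n : ℕ} {M : Mf n} {T : M.Fam (Mat n)} (hT : M.Met T) {v : M.X → ℝ} (hv : M.Sm v)
    (hG : M.Met (T + M.hs v)) (c : ℝ) (x : M.X) :
    -(n : ℝ) ≤ M.lap (T + M.hs v) (fun y => c - v y) x := by
  have h1 := ((mLAP n M (fun _ => c) v (Mf.sm_const c) hv).2.2 _ hG).2.2.1 x c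
  have h2 : M.tr (T + M.hs v) (T + M.hs v) x = n := hG.tr_self
  have h3 : 0 ≤ M.tr (T + M.hs v) T x :=
    hG.tr_nonneg (fun e he z hz => by simpa using (hT.pos e he z hz).posSemidef) x
  rw [Mf.tr_add] at h2
  rw [h1.2.2.1, h1.1]
  change _ ≤ 0 - M.tr (T + M.hs v) (M.hs v) x
  linarith

end T90

open T90 in
theorem st_OSC (hAPA : St_APA) (hPBD : St_PBD) (hTEST : St_TEST) : St_OSC := by
  intro n M _ H B V ψ χ C a ε w h0 τ hτ
  obtain ⟨D₁, -, hA⟩ := hAPA n M H B V ψ χ C a ε w h0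
  obtain ⟨D₂, hD₂, hP⟩ := hPBD n M H B H V ψ χ C a ε w h0 h0.kH.toMet.toForm
  obtain ⟨C₀, hC₀, hT⟩ := hTEST n M _ h0.n0 h0.kT
  obtain ⟨W, hW⟩ := (isCompact_univ.image h0.sw.continuous).bddAbove
  have hW' : ∀ x, w x ≤ W := fun x => hW ⟨x, mem_univ x, rfl⟩
  have hD₂' : 0 < D₂ := by linarith
  have hτ' : 0 < τ / (2 * C₀ * D₂) := by positivity
  refine ⟨C₀ + n + τ / (2 * C₀ * D₂) * C₀ + (τ / (2 * C₀ * D₂))⁻¹ ^ n * C₀ *
    (((n + 1).factorial * Real.exp (D₁ + W)) * C), fun t ht v hv x y => ?_⟩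
  obtain ⟨x₁, hx₁, hb, -⟩ := hA t ht v hv
  obtain ⟨ho, hg⟩ := hP t ht v hv
  have hDt : 0 ≤ D₂ * t := by positivity
  obtain ⟨ρ, hρ, hρ0, hρ1, k1, k2⟩ := hT v hv.sm hv.kae _ ho y (Real.exp (-(D₂ * t)))
    (Real.exp_pos _) (Real.exp_le_one_iff.2 (by linarith))
  have hu : M.Sm fun z => v x₁ - v z := (Mf.sm_const _).sub hv.sm
  have hu0 : ∀ z, 0 ≤ v x₁ - v z := fun z => sub_nonneg.2 (hx₁ z)
  have hG := hv.kae.toMet
  have iG := (mMU n M _ hG).2.2.2.2.1 ℝ
  have iH := (mMU n M _ h0.kH.toMet).2.2.2.2.1 ℝ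
  have e1 := k1 _ (Real.exp (D₂ * t)) hu (Real.exp_pos _).le fun z => by
    rw [osc_gr h0.kT.toMet hv.sm]
    exact (hg z).1
  have e2 := k2 _ _ hu.continuous hu0 hτ'
  have hl := ((mLAP n M _ _ hu hu).2.2 _ hG).1.continuous
  have e3 : ∫ z, ρ z * (v x₁ - v z - M.lap (M.gB H B ε w + M.hs v) (fun z => v x₁ - v z) z)
      ∂M.mu (M.gB H B ε w + M.hs v) ≤
      ∫ z, ρ z * (v x₁ - v z) ∂M.mu (M.gB H B ε w + M.hs v) + n := by
    have i1 := iG _ (hρ.continuous.mul hu.continuous)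
    have i2 := iG _ (hρ.continuous.mul (continuous_const (y := (n : ℝ))))
    calc _ ≤ ∫ z, (ρ z * (v x₁ - v z) + ρ z * n) ∂M.mu (M.gB H B ε w + M.hs v) := by
          refine integral_mono (iG _ (hρ.continuous.mul (hu.continuous.sub hl))) (i1.add i2)
            fun z => ?_
          have := osc_lap h0.kT.toMet hv.sm hG (v x₁) z
          have := mul_le_mul_of_nonneg_left this (hρ0 z)
          simp only
          linarith
      _ = _ := by
          have := integral_add i1 i2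
          simp only [Pi.mul_apply] at this
          rw [this, integral_mul_const, hρ1, one_mul]
  have e4 : ∫ z, (v x₁ - v z) ^ (n + 1) ∂M.mu (M.gB H B ε w + M.hs v) ≤
      ((n + 1).factorial * Real.exp (D₁ + W)) * C := by
    have hψ : Continuous fun z => Real.exp (-ψ t z) :=
      Real.continuous_exp.comp (h0.sm t).continuous.neg
    rw [((mMU n M _ h0.kH.toMet).2.2.2.2.2.2 _ hG).2.1]
    calc _ ≤ ∫ z, ((n + 1).factorial * Real.exp (D₁ + W)) * Real.exp (-ψ t z) ∂M.mu H := by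
          refine integral_mono_of_nonneg (Filter.Eventually.of_forall fun z => ?_)
            (iH _ (continuous_const.mul hψ)) (Filter.Eventually.of_forall fun z => ?_)
          · simp only [hv.det z]
            exact mul_nonneg (Real.exp_pos _).le (pow_nonneg (hu0 z) _)
          · have := osc_pt (n + 1) (p := ψ t z) (hu0 z) (le_of_abs_le hb) (hW' z)
            simp only [hv.det z]
            rwa [sub_sub_cancel] at this
      _ ≤ _ := by
          rw [integral_const_mul]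
          exact mul_le_mul_of_nonneg_left (h0.itg t ht) (by positivity)
  have e5 := mul_le_mul_of_nonneg_left e4
    (show 0 ≤ (τ / (2 * C₀ * D₂))⁻¹ ^ n * C₀ by positivity)
  have e6 : C₀ * Real.exp (D₂ * t) * Real.exp (-(D₂ * t)) = C₀ := by
    rw [mul_assoc, ← Real.exp_add, add_neg_cancel, Real.exp_zero, mul_one]
  have e7 : τ / (2 * C₀ * D₂) * (C₀ * (1 - Real.log (Real.exp (-(D₂ * t))) + D₂ * t)) =
      τ / (2 * C₀ * D₂) * C₀ + τ * t := by
    rw [Real.log_exp]
    field_simp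
    ring
  rw [e6] at e1
  rw [e7] at e2
  have := hx₁ x
  linarith

end Pool.Agent.Lib.KP
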