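import Pool.Agent.Lib.KP.B_PAR2

/-! Project kp71: the trace along the flat factor is constant. -/

open scoped Classical Topology ContDiff ComplexOrder Matrix ENNReal
open Set MeasureTheory Complex Metric Filter

noncomputable section

namespace Pool.Agent.Lib.KP

open Pool.Agent.Lib.SV (E nsq)
open Pool.Agent.Lib.HS32
open Pool.Agent.Lib.HS.UT (dM_hess hess_sum tr_pr)

namespace T51

variable {n : ℕ} {U : Set (E n)} {z : E n}

/-- The flat trace of a Hessian with constant trace is harmonic. -/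
theorem par1_key (hU : IsOpen U) {H : E n → Mat n} {f : E n → ℂ} {k : ℕ} {c : ℂ}
    (hH : ∀ w ∈ U, SmM H w ∧ (H w).PosDef ∧ ∀ i : Fin n, i.val < k → dM i H w = 0)
    (hf : ∀ w ∈ U, ContDiffAt ℝ ∞ f w)
    (hc : ∀ w ∈ U, ((H w)⁻¹ * hess f w).trace = c) (hz : z ∈ U) :
    ((H z)⁻¹ * hess (fun w => ∑ i : Fin n with i.val < k, hess f w i i) z).trace = 0 := by
  have hN := hU.mem_nhds hz
  have sθ : ∀ w ∈ U, SmM (hess f) w := fun w hw => smM_hess (hf w hw)
  have cf := fun w hw => (mCOF n H w (hH w hw).1).2.2.2.2.1 (Mf.pd_det_ne (hH w hw).2.1)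
  have sW : ∀ w ∈ U, SmM (fun w => (H w)⁻¹) w := fun w hw => (cf w hw).1
  have w1 : ∀ w ∈ U, ∀ i : Fin n, i.val < k → dM i (fun w => (H w)⁻¹) w = 0 := fun w hw i hi => by
    rw [((cf w hw).2 i).1, (hH w hw).2.2 i hi, mul_zero, zero_mul, neg_zero]
  have w2 : ∀ i : Fin n, i.val < k → dMb i (fun w => (H w)⁻¹) z = 0 := fun i hi => by
    rw [((cf z hz).2 i).2, dMb_herm (hH z hz).1
      (mem_of_superset hN fun w hw => (hH w hw).2.1.isHermitian), (hH z hz).2.2 i hi,
      Matrix.conjTranspose_zero, mul_zero, zero_mul, neg_zero]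
  rw [hess_sum fun i _ => sθ z hz i i, Finset.mul_sum, Matrix.trace_sum]
  refine Finset.sum_eq_zero fun i hi => ?_
  have hi := (Finset.mem_filter.1 hi).2
  have e : dMb i (dM i (hess f)) z = hess (fun w => hess f w i i) z :=
    (dMb_congr (mem_of_superset hN fun w hw => dM_hess hU hf hw i)).trans
      (T82.par_dMb_hess hU (fun w hw => cd_dz (hf w hw) i) hz i)
  have d1 : dz i (fun w => ((H w)⁻¹ * hess f w).trace) =ᶠ[𝓝 z] fun w =>
      ((H w)⁻¹ * dM i (hess f) w).trace := by
    filter_upwards [hN] with w hw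
    rw [dz_trace ((sW w hw).mul (sθ w hw)), dM_mul (sW w hw) (sθ w hw), w1 w hw i hi, zero_mul,
      zero_add]
  have h0 : hess (fun w => ((H w)⁻¹ * hess f w).trace) z i i = 0 := by
    rw [hess_congr (g := fun _ => c) (mem_of_superset hN hc), hess_const]
    rfl
  rw [hess_apply, dzb_congr d1, dzb_trace ((sW z hz).mul ((sθ z hz).dM i)),
    dMb_mul (sW z hz) ((sθ z hz).dM i), w2 i hi, zero_mul, zero_add, e] at h0
  exact h0

end T51

theorem st_PAR1 (hHA : St_HARM) : St_PAR1 := by
  intro n M _ H P k L φ c hH hP hA hφ hc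
  have hM := hH.toMet
  have hθ := hφ.clo
  have I := mINV n M H hM
  have hT : M.Form (H * P) := hP.clo.toForm
  have gs := (I.2.2.1 _ _ hT.toTen hθ.toTen).2.1
  have gc := I.2.2.2.1 _ _ hT hθ.toForm
  refine hHA n M H _ hH gs fun x => le_of_eq ?_
  generalize M.ip H (H * P) (M.hw φ) = g at gs gc
  obtain ⟨e, he, hx⟩ := hA x
  have hz := e.map_source hx
  have t : ∀ w ∈ e.target, (g (e.symm w) : ℂ) = ∑ i : Fin n with i.val < k, M.hw φ e w i i :=
    fun w hw => by
      have := gc e he.mem w hw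
      beta_reduce at this
      rw [this, Pi.mul_apply, Pi.mul_apply, he.prj w hw]
      exact tr_pr (hM.pos e he.mem w hw) (he.blk w hw) _
  have a := T51.par1_key (H := H e) (f := fun w => (φ e w : ℂ)) (k := k) (c := c) e.open_target
    (fun w hw => ⟨hM.sm e he.mem w hw, hM.pos e he.mem w hw, he.cst w hw⟩) (hφ.smC e he.mem)
    (fun w hw => by
      have := (I.2.1 _ hθ.toForm e he.mem w hw).1
      rw [hc] at this
      exact this.symm) hz
  have b : M.hs g e (e x) = hess (fun w => ∑ i : Fin n with i.val < k, M.hw φ e w i i) (e x) :=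
    hess_congr (mem_of_superset (e.open_target.mem_nhds hz) t)
  have r := (I.1 _ ((mHES n M).1 g gs).toTen).1 e he.mem _ hz
  beta_reduce at r
  rw [e.left_inv hx, b] at r
  rw [Mf.lap, r]
  exact (congrArg re a).symm

end Pool.Agent.Lib.KP
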