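import Pool.Agent.Lib.KP.Blue
import Pool.Agent.Lib.KP.Kit
import Pool.Agent.Lib.HS.B_UT

/-! Project kp71: the curvature form is constant along the flat factor. -/

open scoped Classical Topology ContDiff ComplexOrder Matrix ENNReal
open Set MeasureTheory Complex Metric Filter

noncomputable section

namespace Pool.Agent.Lib.KP

open Pool.Agent.Lib.SV (E nsq)
open Pool.Agent.Lib.HS32
open Pool.Agent.Lib.HS.UT (dM_hess hess_sum tr_pr)

namespace T82

variable {n : ℕ} {U : Set (E n)} {z : E n}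

theorem par_dMb_hess (hU : IsOpen U) {f : E n → ℂ} (hf : ∀ w ∈ U, ContDiffAt ℝ ∞ f w)
    (hz : z ∈ U) (i : Fin n) : dMb i (hess f) z = hess (dzb i f) z := by
  ext a b
  rw [dMb_apply, hess_apply]
  refine (dzb_dzb (cd_dz (hf z hz) b) i a).trans (dzb_congr ?_)
  filter_upwards [hU.mem_nhds hz] with w hw using (dz_dzb (hf w hw) b i).symm

/-- The squared norm of a matrix with respect to a positive definite matrix. -/
theorem par_nrm {W : Mat n} (hW : W.PosDef) (A : Mat n) :
    0 ≤ (W * A * W * Aᴴ).trace.re ∧ ((W * A * W * Aᴴ).trace.re = 0 → A = 0) := by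
  obtain ⟨C, hC⟩ := Mf.psd_factor hW.posSemidef
  have hd : C.det ≠ 0 := fun h => Mf.pd_det_ne hW (by rw [hC, Matrix.det_mul, h, mul_zero])
  have hd' : Cᴴ.det ≠ 0 := fun h => Mf.pd_det_ne hW (by rw [hC, Matrix.det_mul, h, zero_mul])
  have e : (W * A * W * Aᴴ).trace = ((C * A * Cᴴ) * (C * A * Cᴴ)ᴴ).trace := by
    rw [hC]
    simp only [Matrix.conjTranspose_mul, Matrix.conjTranspose_conjTranspose, Matrix.mul_assoc]
    rw [Matrix.trace_mul_comm]
    simp only [Matrix.mul_assoc]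
  have p := Complex.nonneg_iff.1 (Matrix.posSemidef_self_mul_conjTranspose (C * A * Cᴴ)).trace_nonneg
  rw [e]
  refine ⟨p.1, fun h => ?_⟩
  have h0 : C * A * Cᴴ = 0 :=
    Matrix.trace_mul_conjTranspose_self_eq_zero_iff.1 (Complex.ext h p.2.symm)
  have h1 := congrArg (fun X => C⁻¹ * (X * Cᴴ⁻¹)) h0
  simpa only [Matrix.mul_nonsing_inv_cancel_right _ _ hd'.isUnit,
    Matrix.nonsing_inv_mul_cancel_left _ _ hd.isUnit, zero_mul, mul_zero] using h1

/-- The flat Laplace operator applied to the squared norm of a Hessian with constant flat trace. -/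
theorem par_key (hU : IsOpen U) {H : E n → Mat n} {f : E n → ℂ} {k : ℕ} {c : ℂ}
    (hH : ∀ w ∈ U, SmM H w ∧ (H w).PosDef ∧ ∀ i : Fin n, i.val < k → dM i H w = 0)
    (hf : ∀ w ∈ U, ContDiffAt ℝ ∞ f w) (hh : ∀ w ∈ U, (hess f w).IsHermitian)
    (hc : ∀ w ∈ U, ∑ i : Fin n with i.val < k, hess f w i i = c) (hz : z ∈ U) :
    ∑ i : Fin n with i.val < k,
        hess (fun w => ((H w)⁻¹ * hess f w * (H w)⁻¹ * hess f w).trace) z i i =
      ∑ i : Fin n with i.val < k,
        2 * ((H z)⁻¹ * dM i (hess f) z * (H z)⁻¹ * (dM i (hess f) z)ᴴ).trace := by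
  have hN := hU.mem_nhds hz
  have sθ : ∀ w ∈ U, SmM (hess f) w := fun w hw => smM_hess (hf w hw)
  have cf := fun w hw => (mCOF n H w (hH w hw).1).2.2.2.2.1 (Mf.pd_det_ne (hH w hw).2.1)
  have sW : ∀ w ∈ U, SmM (fun w => (H w)⁻¹) w := fun w hw => (cf w hw).1
  have w1 : ∀ w ∈ U, ∀ i : Fin n, i.val < k → dM i (fun w => (H w)⁻¹) w = 0 := fun w hw i hi => by
    rw [((cf w hw).2 i).1, (hH w hw).2.2 i hi, mul_zero, zero_mul, neg_zero]
  have w2 : ∀ i : Fin n, i.val < k → dMb i (fun w => (H w)⁻¹) z = 0 := fun i hi => by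
    rw [((cf z hz).2 i).2, dMb_herm (hH z hz).1
      (mem_of_superset hN fun w hw => (hH w hw).2.1.isHermitian), (hH z hz).2.2 i hi,
      Matrix.conjTranspose_zero, mul_zero, zero_mul, neg_zero]
  have b0 : ∑ i : Fin n with i.val < k, dMb i (dM i (hess f)) z = 0 := by
    have e : ∀ i : Fin n, dMb i (dM i (hess f)) z = hess (fun w => hess f w i i) z := fun i =>
      (dMb_congr (mem_of_superset hN fun w hw => dM_hess hU hf hw i)).trans
        (par_dMb_hess hU (fun w hw => cd_dz (hf w hw) i) hz i)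
    rw [Finset.sum_congr rfl fun i _ => e i, ← hess_sum fun i _ => sθ z hz i i,
      hess_congr (g := fun _ => c) (mem_of_superset hN hc), hess_const]
  have e : ∀ i : Fin n, i.val < k →
      hess (fun w => ((H w)⁻¹ * hess f w * (H w)⁻¹ * hess f w).trace) z i i =
        2 * ((H z)⁻¹ * dM i (hess f) z * (H z)⁻¹ * (dM i (hess f) z)ᴴ).trace +
        2 * ((H z)⁻¹ * hess f z * (H z)⁻¹ * dMb i (dM i (hess f)) z).trace := fun i hi => by
    have d1 : dz i (fun w => ((H w)⁻¹ * hess f w * (H w)⁻¹ * hess f w).trace) =ᶠ[𝓝 z] fun w =>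
        2 * ((H w)⁻¹ * hess f w * (H w)⁻¹ * dM i (hess f) w).trace := by
      filter_upwards [hN] with w hw
      have a := sW w hw
      have b := sθ w hw
      rw [dz_trace (((a.mul b).mul a).mul b), dM_mul ((a.mul b).mul a) b, dM_mul (a.mul b) a,
        dM_mul a b, w1 w hw i hi, zero_mul, zero_add, mul_zero, add_zero, Matrix.trace_add,
        mul_assoc (_ * dM i (hess f) w), Matrix.trace_mul_comm (_ * dM i (hess f) w), ← mul_assoc,
        two_mul]
    have a := sW z hz
    have b := sθ z hz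
    have t := (((a.mul b).mul a).mul (b.dM i))
    rw [hess_apply, dzb_congr d1, dzb_const_mul _ (cd_diff t.trace), dzb_trace t,
      dMb_mul ((a.mul b).mul a) (b.dM i), dMb_mul (a.mul b) a, dMb_mul a b, w2 i hi, zero_mul,
      zero_add, mul_zero, add_zero, dMb_herm b (mem_of_superset hN hh), Matrix.trace_add,
      mul_assoc (_ * (dM i (hess f) z)ᴴ), Matrix.trace_mul_comm (_ * (dM i (hess f) z)ᴴ),
      ← mul_assoc, mul_add]
  rw [Finset.sum_congr rfl fun i hi => e i (Finset.mem_filter.1 hi).2, Finset.sum_add_distrib,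
    ← Finset.mul_sum _ (fun i => ((H z)⁻¹ * hess f z * (H z)⁻¹ * dMb i (dM i (hess f)) z).trace),
    ← Matrix.trace_sum, ← Finset.mul_sum _ _ ((H z)⁻¹ * hess f z * (H z)⁻¹), b0, mul_zero,
    Matrix.trace_zero, mul_zero, add_zero]

end T82

open T82 in
theorem st_PAR2 (hD : St_DIVF) : St_PAR2 := by
  intro n M _ H P k L φ c hH hP hA hφ hc
  have hM := hH.toMet
  have hθ := hφ.clo
  have I := mINV n M H hM
  have hT : M.Form (H * P) := hP.clo.toForm
  have gs := (I.2.2.1 _ _ hθ.toTen hθ.toTen).2.1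
  have gc := I.2.2.2.1 _ _ hθ.toForm hθ.toForm
  generalize M.ip H (M.hw φ) (M.hw φ) = g at gs gc
  obtain ⟨r, s, -⟩ := I.2.2.1 _ _ hT.toTen ((mHES n M).1 g gs).toTen
  have key : ∀ e, M.Prod H P k e → ∀ z ∈ e.target, M.ip H (H * P) (M.hs g) (e.symm z) =
      ∑ i : Fin n with i.val < k, 2 *
        ((H e z)⁻¹ * dM i (M.hw φ e) z * (H e z)⁻¹ * (dM i (M.hw φ e) z)ᴴ).trace.re := by
    intro e he z hz
    have t : ∀ w ∈ e.target, ∀ A : Mat n, ((H e w)⁻¹ * (H * P) e w * (H e w)⁻¹ * A).trace =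
        ∑ i : Fin n with i.val < k, A i i := fun w hw A => by
      rw [Pi.mul_apply, Pi.mul_apply, he.prj w hw]
      exact tr_pr (hM.pos e he.mem w hw) (he.blk w hw) A
    have a := par_key (H := H e) (f := fun w => (φ e w : ℂ)) (k := k) (c := c) e.open_target
      (fun w hw => ⟨hM.sm e he.mem w hw, hM.pos e he.mem w hw, he.cst w hw⟩)
      (hφ.smC e he.mem) (hθ.herm e he.mem)
      (fun w hw => by
        have := I.2.2.2.1 _ _ hT hθ.toForm e he.mem w hw
        beta_reduce at this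
        rw [hc, t w hw] at this
        exact this.symm) hz
    have b : M.hs g e z = hess
        (fun w => ((H e w)⁻¹ * M.hw φ e w * (H e w)⁻¹ * M.hw φ e w).trace) z :=
      hess_congr (gc.ev he.mem hz)
    rw [r e he.mem z hz]
    beta_reduce
    rw [t z hz, b]
    refine (congrArg re a).trans ?_
    rw [re_sum]
    exact Finset.sum_congr rfl fun i _ => by simp [Mf.hw]
  have nn : ∀ e, M.Prod H P k e → ∀ z ∈ e.target, ∀ i ∈ Finset.univ.filter fun i : Fin n =>
      i.val < k, 0 ≤ 2 *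
        ((H e z)⁻¹ * dM i (M.hw φ e) z * (H e z)⁻¹ * (dM i (M.hw φ e) z)ᴴ).trace.re :=
    fun e he z hz i _ => mul_nonneg zero_le_two (par_nrm (hM.pos e he.mem z hz).inv _).1
  have pos : ∀ x, 0 ≤ M.ip H (H * P) (M.hs g) x := fun x => by
    obtain ⟨e, he, hx⟩ := hA x
    have := key e he _ (e.map_source hx)
    rw [e.left_inv hx] at this
    rw [this]
    exact Finset.sum_nonneg (nn e he _ (e.map_source hx))
  obtain ⟨-, -, op, -, int, -⟩ := mMU n M H hM
  have zero : M.ip H (H * P) (M.hs g) = 0 :=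
    (s.continuous.ae_eq_iff_eq (M.mu H) continuous_zero).1
      ((integral_eq_zero_iff_of_nonneg pos (int ℝ _ s.continuous)).1 (hD n M H P k g hH hP gs))
  intro e he z hz i hi
  have := key e he z hz
  rw [zero, Pi.zero_apply, eq_comm, Finset.sum_eq_zero_iff_of_nonneg (nn e he z hz)] at this
  exact (par_nrm (hM.pos e he.mem z hz).inv _).2
    ((mul_eq_zero.1 (this i (Finset.mem_filter.2 ⟨Finset.mem_univ i, hi⟩))).resolve_left
      two_ne_zero)

end Pool.Agent.Lib.KP
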