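import Pool.Agent.Lib.KP.Blue
import Pool.Agent.Lib.KP.Kit
import Pool.Agent.Lib.HS76.Diag

/-! Project kp71: exponential bounds for the twisted equation. -/

open scoped Classical Topology ContDiff ComplexOrder Matrix ENNReal
open Set MeasureTheory Complex Metric Filter

noncomputable section

namespace Pool.Agent.Lib.KP

open Pool.Agent.Lib.SV (E)
open Pool.Agent.Lib.HS32 Pool.Agent.Lib.HS32.Mf
open Pool.Agent.Lib.HS78 (Eb)

namespace T19

variable {n : ℕ} {M : Mf n}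

theorem gr_add {G : M.Fam (Mat n)} {f g k : M.X → ℝ} (hf : M.Sm f) (hg : M.Sm g) (x : M.X) :
    M.gr G (fun y => f y + g y) k x = M.gr G f k x + M.gr G g k x := by
  rw [gr, gr, gr, ← tr_add]
  refine congrFun (tr_congr (fun _ _ _ _ => rfl) fun e he z hz => ?_) x
  ext i j
  have h1 : M.lc (fun y => f y + g y) e = fun w => M.lc f e w + M.lc g e w := by
    funext w
    simp only [lc, ofReal_add]
  have h2 := dzb_add (j := i) ((hf.lc e he z hz).differentiableAt (by simp))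
    ((hg.lc e he z hz).differentiableAt (by simp))
  simp only [ds, dd, Pi.add_apply, Matrix.add_apply, Matrix.of_apply, h1, h2, add_mul]

theorem gr_add_le {G : M.Fam (Mat n)} (hG : M.Met G) {f g : M.X → ℝ} (hf : M.Sm f) (hg : M.Sm g)
    {a b : ℝ} (ha : 0 ≤ a) (hb : 0 ≤ b) {x : M.X} (h1 : M.gr G f f x ≤ a ^ 2)
    (h2 : M.gr G g g x ≤ b ^ 2) :
    M.gr G (fun y => f y + g y) (fun y => f y + g y) x ≤ (a + b) ^ 2 := by
  have s1 := (((mLAP n M _ _ hf (hf.add hg)).2.2 G hG).2.2.1 x 0).2.2.2.2.2.1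
  have s2 := (((mLAP n M _ _ hg (hf.add hg)).2.2 G hG).2.2.1 x 0).2.2.2.2.2.1
  obtain ⟨s3, p1, cs, -⟩ := (((mLAP n M _ _ hf hg).2.2 G hG).2.2.1 x 0).2.2.2.2.2
  have p2 := (((mLAP n M _ _ hg hf).2.2 G hG).2.2.1 x 0).2.2.2.2.2.2.1
  rw [gr_add hf hg, s1, s2, gr_add hf hg, gr_add hf hg, ← s3]
  have h3 : M.gr G f g x ≤ a * b := by
    refine (abs_le_of_sq_le_sq' (cs.trans ?_) (mul_nonneg ha hb)).2
    rw [mul_pow]
    exact mul_le_mul h1 h2 p2 (sq_nonneg _)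
  nlinarith

theorem eb_balls (V : M.Cov) {R : M.Fam (Mat n)} (hR : M.Ten R) : ∃ c : ℝ, 0 ≤ c ∧
    ∀ b, ∀ z ∈ closedBall (V.c b) (2 * V.ρ b), Eb c (R (V.e b) z) ∧
      ∀ i, Eb c (dM i (R (V.e b)) z) := by
  have h : ∀ b, ∃ c : ℝ, 0 ≤ c ∧ ∀ z ∈ closedBall (V.c b) (2 * V.ρ b), Eb c (R (V.e b) z) ∧
      ∀ i, Eb c (dM i (R (V.e b)) z) := fun b => by
    have hs : ∀ z ∈ closedBall (V.c b) (2 * V.ρ b), SmM (R (V.e b)) z := fun z hz =>
      hR.sm _ (V.mem b) z (V.sub b (closedBall_subset_closedBall (by linarith [V.pos b]) hz))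
    have c1 : ContinuousOn (fun z => fun p : Fin n × Fin n => R (V.e b) z p.1 p.2)
        (closedBall (V.c b) (2 * V.ρ b)) :=
      continuousOn_pi.mpr fun p z hz => (hs z hz _ _).continuousAt.continuousWithinAt
    have c2 : ContinuousOn
        (fun z => fun p : Fin n × Fin n × Fin n => dM p.1 (R (V.e b)) z p.2.1 p.2.2)
        (closedBall (V.c b) (2 * V.ρ b)) :=
      continuousOn_pi.mpr fun p z hz => ((hs z hz).dM _ _ _).continuousAt.continuousWithinAt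
    obtain ⟨a, ha⟩ := (isCompact_closedBall _ _).exists_bound_of_continuousOn c1
    obtain ⟨a', ha'⟩ := (isCompact_closedBall _ _).exists_bound_of_continuousOn c2
    refine ⟨|a| + |a'|, by positivity, fun z hz => ⟨fun i j => ?_, fun k i j => ?_⟩⟩
    · have := (norm_le_pi_norm _ (i, j)).trans (ha z hz)
      linarith [le_abs_self a, abs_nonneg a']
    · have := (norm_le_pi_norm _ (k, i, j)).trans (ha' z hz)
      linarith [le_abs_self a', abs_nonneg a]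
  choose c hc using h
  have hle : ∀ b, c b ≤ ∑ b, c b := fun b =>
    Finset.single_le_sum (fun b _ => (hc b).1) (Finset.mem_univ b)
  exact ⟨∑ b, c b, Finset.sum_nonneg fun b _ => (hc b).1, fun b z hz =>
    ⟨((hc b).2 z hz).1.mono (hle b), fun i => (((hc b).2 z hz).2 i).mono (hle b)⟩⟩

theorem le_exp {c t : ℝ} (hc : 0 ≤ c) (ht : 1 ≤ t) : c + 1 ≤ Real.exp (c * t) :=
  (Real.add_one_le_exp c).trans (Real.exp_le_exp.2 (le_mul_of_one_le_right hc ht))

theorem exp_le {a b t : ℝ} (h : a ≤ b) (ht : 1 ≤ t) : Real.exp (a * t) ≤ Real.exp (b * t) :=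
  Real.exp_le_exp.2 (mul_le_mul_of_nonneg_right h (by linarith))

theorem mul_exp_le {c a t : ℝ} (hc : 0 ≤ c) (ht : 1 ≤ t) :
    c * Real.exp (a * t) ≤ Real.exp ((c + a) * t) := by
  rw [add_mul, Real.exp_add]
  exact mul_le_mul_of_nonneg_right (by linarith [le_exp hc ht]) (Real.exp_pos _).le

end T19

open T19 in
theorem st_PBD (hA : St_APA) (hC : St_C2B) (hG : St_GRD) : St_PBD := by
  intro n M _ H B h V ψ χ C a ε w h0 hh
  have hH := h0.kH.toMet
  have hT := h0.kT.toMet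
  obtain ⟨D₁, d1, hD₁⟩ := hA n M H B V ψ χ C a ε w h0
  obtain ⟨D₂, d2, hD₂⟩ := hC n M H B V ψ χ C a ε w h0
  obtain ⟨Cg, N, cg, hN⟩ := hG n M H h V h0.n0 h0.kH hh
  obtain ⟨c₂, c2, hc₂, -⟩ := (mBD n M _ hT).1 H hH.toForm
  obtain ⟨Cw, cw, hCw⟩ := h0.sw.exists_bound
  have hw' : M.Sm fun x => -w x := h0.sw.neg
  obtain ⟨Gw, gw, hGw⟩ := ((mLAP n M _ _ hw' hw').2.2 H hH).2.1.exists_bound
  have hR₀ : M.Form (ε • H + B) := (hH.toForm.smul ε).add h0.cB.toForm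
  obtain ⟨c₀, c0, hc₀⟩ := eb_balls V hR₀.toTen
  have cC := h0.c1
  have hn : (0 : ℝ) ≤ n := Nat.cast_nonneg n
  have hN0 : (0 : ℝ) ≤ N := Nat.cast_nonneg N
  obtain ⟨a₁, ha₁⟩ : ∃ a₁, a₁ = c₂ + (D₂ + D₂ * (2 * D₁)) := ⟨_, rfl⟩
  have a1 : 0 ≤ a₁ := by rw [ha₁]; positivity
  obtain ⟨a₂, ha₂⟩ : ∃ a₂, a₂ = a₁ + (D₁ + Cw + C) + n * a₁ + c₀ := ⟨_, rfl⟩
  have a2 : 0 ≤ a₂ := by rw [ha₂]; positivity
  obtain ⟨a₃, ha₃⟩ : ∃ a₃, a₃ = Cg + N * a₂ + Gw + C := ⟨_, rfl⟩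
  have a3 : 0 ≤ a₃ := by rw [ha₃]; positivity
  refine ⟨2 * D₁ + (c₂ + (3 + a₃)), by linarith, fun t ht v hv => ?_⟩
  obtain ⟨x₁, m1, m2, m3⟩ := hD₁ t ht v hv
  have osc : ∀ x y, v x - v y ≤ 2 * D₁ * t := fun x y => by
    nlinarith [m1 x, m3 y, (abs_le.1 m2).2]
  refine ⟨fun x y => (osc x y).trans (mul_le_mul_of_nonneg_right (by linarith) (by linarith)), ?_⟩
  obtain ⟨G, hGe⟩ : ∃ G, G = M.gB H B ε w + M.hs v := ⟨_, rfl⟩
  have kG : M.Kae G := hGe ▸ hv.kae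
  have hψ := h0.sm t
  -- the lower bound
  have l1 : M.Le (M.gB H B ε w) (Real.exp ((D₂ + D₂ * (2 * D₁)) * t) • G) := fun e he z hz => by
    have h1 := hD₂ t ht v hv _ osc (e.symm z)
    rw [← hGe, ((mINV n M _ kG.toMet).1 _ hT.toTen).1 e he z hz, ← mul_assoc] at h1
    exact HS76.le_tr_smul (kG.pos e he z hz) (hT.pos e he z hz).posSemidef
      (h1.trans (mul_exp_le (by linarith) ht))
  have l2 : M.Le H (Real.exp (a₁ * t) • G) := by
    refine hc₂.trans ((l1.smul c2.le).trans ?_)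
    rw [smul_smul, ha₁]
    exact kG.toMet.le_smul (mul_exp_le c2.le ht)
  have l3 : M.Le ((Real.exp (a₁ * t))⁻¹ • H) G := by
    have := l2.smul (inv_pos.2 (Real.exp_pos (a₁ * t))).le
    rwa [smul_smul, inv_mul_cancel₀ (Real.exp_pos _).ne', one_smul] at this
  -- the upper bound
  have u1 : M.Le G ((Real.exp ((D₁ + Cw + C) * t) /
      (Real.exp (a₁ * t))⁻¹ ^ (Fintype.card (Fin n) - 1)) • H) := fun e he z hz => by
    refine HS76.le_of_det_le (hH.pos e he z hz) (kG.herm e he z hz)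
      (inv_pos.2 (Real.exp_pos _)) (l3 e he z hz) ?_
    rw [((mINV n M H hH).2.1 _ kG.toForm e he z hz).2.2, hGe, hv.det]
    refine mul_le_mul_of_nonneg_right (Real.exp_le_exp.2 ?_) (pd_det_re (hH.pos e he z hz)).le
    have h1 := (h0.bd t ht (e.symm z)).1
    have h2 := (abs_le.1 (hCw (e.symm z))).2
    nlinarith [m1 (e.symm z), (abs_le.1 m2).2]
  have u2 : M.Le G (Real.exp (a₂ * t) • H) := by
    refine u1.trans (hH.le_smul ?_)
    rw [Fintype.card_fin, inv_pow, div_inv_eq_mul, ← Real.exp_nat_mul, ← Real.exp_add,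
      ← mul_assoc, ← add_mul]
    refine exp_le ?_ ht
    have : ((n - 1 : ℕ) : ℝ) * a₁ ≤ n * a₁ :=
      mul_le_mul_of_nonneg_right (Nat.cast_le.2 (Nat.sub_le _ _)) a1
    linarith
  have l4 : M.Le ((Real.exp (a₂ * t))⁻¹ • H) G := by
    refine (hH.le_smul (inv_anti₀ (Real.exp_pos _) (exp_le ?_ ht))).trans l3
    nlinarith
  have hR : M.Form (ε • H + B + M.hs (ψ t)) := hR₀.add ((mHES n M).1 _ hψ).toForm
  have e1 : c₀ + Real.exp (C * t) ≤ Real.exp (a₂ * t) := by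
    have h1 : 1 ≤ Real.exp (C * t) := Real.one_le_exp (by nlinarith)
    have h2 : (c₀ + 1) * Real.exp (C * t) ≤ Real.exp ((c₀ + C) * t) := by
      rw [add_mul c₀ C, Real.exp_add]
      exact mul_le_mul_of_nonneg_right (le_exp c0 ht) (Real.exp_pos _).le
    have h3 : Real.exp ((c₀ + C) * t) ≤ Real.exp (a₂ * t) := exp_le (by nlinarith) ht
    nlinarith
  have key := hN (Real.exp (a₂ * t)) (Real.one_le_exp (by nlinarith)) G _ kG hR
    (by rw [hGe]; exact hv.ric) l4 u2 fun b z hz => by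
      have hz' := V.sub b (closedBall_subset_closedBall (by linarith [V.pos b]) hz)
      obtain ⟨b1, b2⟩ := hc₀ b z hz
      obtain ⟨b3, b4⟩ := h0.d3 t ht b z hz
      refine ⟨(b1.add b3).mono e1, fun i => ?_⟩
      have h1 := dM_add (k := i) (hR₀.sm _ (V.mem b) z hz')
        (((mHES n M).1 _ hψ).sm _ (V.mem b) z hz')
      have h2 := ((b2 i).add (b4 i)).mono e1
      rw [← h1] at h2
      exact h2
  have e2 : Cg * Real.exp (a₂ * t) ^ N ≤ Real.exp (a₃ * t) := by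
    rw [← Real.exp_nat_mul, ← mul_assoc]
    exact (mul_exp_le (by linarith) ht).trans (exp_le (by linarith) ht)
  have e3 : (Cg * Real.exp (a₂ * t) ^ N) ^ 2 ≤ Real.exp (a₃ * t) ^ 2 :=
    pow_le_pow_left₀ (by positivity) e2 2
  -- from `H` to the reference form
  have fin : ∀ f, M.Sm f → ∀ x, M.gr H f f x ≤ (3 * Real.exp (a₃ * t)) ^ 2 →
      M.gr (M.gB H B ε w) f f x ≤ Real.exp ((2 * D₁ + (c₂ + (3 + a₃))) * t) ^ 2 := by
    intro f hf x h1
    have h2 := ((mLAP n M _ _ hf hf).2.2 _ hT).2.2.2.2 H c₂ hH hc₂ x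
    have h3 : 3 * Real.exp (a₃ * t) ≤ Real.exp ((3 + a₃) * t) := mul_exp_le (by norm_num) ht
    have h4 : c₂ ≤ Real.exp (c₂ * t) ^ 2 := by nlinarith [le_exp c2.le ht]
    have h5 : Real.exp (c₂ * t) * Real.exp ((3 + a₃) * t) ≤
        Real.exp ((2 * D₁ + (c₂ + (3 + a₃))) * t) := by
      rw [← Real.exp_add, ← add_mul]
      exact exp_le (by linarith) ht
    refine h2.trans ((mul_le_mul_of_nonneg_left (h1.trans
      (pow_le_pow_left₀ (by positivity) h3 2)) c2.le).trans ?_)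
    refine (mul_le_mul_of_nonneg_right h4 (by positivity)).trans ?_
    rw [← mul_pow]
    exact pow_le_pow_left₀ (by positivity) h5 2
  intro x
  rw [← hGe]
  have p0 := Real.exp_pos (a₃ * t)
  refine ⟨fin v hv.sm x ?_, fin _ ((mINV n M _ kG.toMet).1 h hh.toTen).2.1 x
    (((key x).1.trans e3).trans (by nlinarith))⟩
  have hl := ((mHES n M).2.2.2.2.2.2.2.2.2 G H kG.toMet hH).1
  have ev : v = fun y => (Real.log (M.dq H G y) + -w y) + ψ t y := by
    funext y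
    rw [hGe, hv.det, Real.log_exp]
    ring
  have g1 : M.gr H (fun y => -w y) (fun y => -w y) x ≤ Real.exp (a₃ * t) ^ 2 := by
    have h1 := (abs_le.1 (hGw x)).2
    have h2 : Gw + 1 ≤ Real.exp (a₃ * t) :=
      (le_exp gw.le ht).trans (exp_le (by nlinarith) ht)
    nlinarith
  have g2 : M.gr H (ψ t) (ψ t) x ≤ Real.exp (a₃ * t) ^ 2 :=
    (h0.grd t ht x).trans (pow_le_pow_left₀ (Real.exp_pos _).le (exp_le (by nlinarith) ht) 2)
  have g3 := gr_add_le hH (hl.add hw') hψ (by positivity) p0.le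
    (gr_add_le hH hl hw' p0.le p0.le ((key x).2.trans e3) g1) g2
  rw [← ev] at g3
  exact g3.trans (le_of_eq (by ring))

end Pool.Agent.Lib.KP
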