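import Pool.Agent.Lib.KP.Blue
import Pool.Agent.Lib.KP.Kit
import Pool.Agent.Lib.HS.B_PEAK1

/-! Project kp71, row PEAK1: a holomorphic section that does not vanish at a given point. -/

open scoped Classical Topology ContDiff ComplexOrder Matrix ENNReal
open Set MeasureTheory Complex Metric Filter

noncomputable section

namespace Pool.Agent.Lib.KP

open Pool.Agent.Lib.SV (E nsq)
open Pool.Agent.Lib.HS32
open Pool.Agent.Lib.HS.P55 (nq_mono nsq_le low)

namespace T40

variable {n : ℕ} {M : Mf n}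

theorem hs_mul {l : M.X → ℝ} (hl : M.Sm l) (c : ℝ) : M.All fun e z =>
    M.hs (fun x => c * l x) e z = c • M.hs l e z := fun e he z hz => by
  have b := hl.lc e he z hz
  change _ = (c : ℂ) • hess (M.lc l e) z
  rw [← hess_const_mul _ b]
  exact congrArg (hess · z) (funext fun w => by simp [Mf.lc])

theorem wle {H : M.Fam (Mat n)} {L : M.Co} {φ : M.Fam ℝ} {l : M.X → ℝ} {C C₁ k : ℝ} {q : ℕ}
    (hφ : M.WtC L φ) (hl : M.Sm l) (h0 : M.Le 0 (M.hw φ)) (hr : M.Le (-M.ric H) (C₁ • M.hw φ))
    (h1 : M.Le 0 (C • M.hw φ + M.hs l)) (hk : 0 ≤ k) (hq : k * C + C₁ + 1 ≤ q) :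
    M.Le (M.hw φ) (M.hw ((q : ℝ) • φ + fun e z => k * l (e.symm z)) + M.ric H) :=
  fun e he z hz => by
  have e1 := ((hφ.pw q).1.addF (hl.const_mul k)).2 e he z hz
  have e2 := (hφ.pw q).2 e he z hz
  have e3 := hs_mul hl k e he z hz
  beta_reduce at e1 e2 e3
  have := ((Mf.psd_rsmul (h0 e he z hz) (c := q - k * C - C₁ - 1) (by linarith)).add
    (Mf.psd_rsmul (h1 e he z hz) hk)).add (hr e he z hz)
  refine (congrArg Matrix.PosSemidef ?_).mp this
  rw [e2, e3] at e1
  simp only [Pi.add_apply, Pi.smul_apply, Pi.zero_apply, Pi.neg_apply, e1]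
  module

theorem nq_nonneg {T : Mat n} (h : T.PosSemidef) (v : E n) : 0 ≤ nq T v :=
  (Complex.nonneg_iff.1 (h.dotProduct_mulVec_nonneg v)).1

end T40

open T40

theorem st_PEAK1 (hSC : St_SC5) (hHOR : St_HOR) : St_PEAK1 := by
  rintro n M _ H L φ C₁ x₀ hK hφ h0 hric ⟨e, he, hx, r, C, hr, hC, hb, h⟩
  obtain ⟨q, hm, σ, K, C', hσ, ha, hσd, hKc, hC', hdb, hl⟩ := h (⌈(n + 1) * C + C₁ + 1⌉₊ + 1)
  have hp : ((n : ℝ) + 1) * C + C₁ + 1 ≤ q := Nat.ceil_le.1 (by omega)
  refine ⟨q, by omega, ?_⟩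
  by_contra hno
  push Not at hno
  have hcb : closedBall (e x₀) (r / 2) ⊆ e.target :=
    (closedBall_subset_ball (half_lt_self hr)).trans hb
  obtain ⟨U, hU'⟩ : ∃ U : ℝ, ∀ z ∈ closedBall (e x₀) (r / 2), φ e z ≤ U := by
    obtain ⟨U, hU⟩ := (isCompact_closedBall (e x₀) (r / 2)).bddAbove_image (f := φ e)
      fun z hz => (hφ.sm e he z (hcb hz)).continuousAt.continuousWithinAt
    exact ⟨U, fun z hz => hU ⟨z, hz, rfl⟩⟩
  obtain ⟨D, hD, hD'⟩ := (mBD n M H hK.toMet).2.2.1 e he _ (isCompact_closedBall _ _) hcb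
  obtain ⟨-, hfin, -, -, hint, hch, -⟩ := mMU n M H hK.toMet
  set V := (volume (ball (0 : E n) 1)).toReal with hV
  have hV0 : 0 < V := ENNReal.toReal_pos (measure_ball_pos _ _ one_pos).ne' measure_ball_lt_top.ne
  set B := C' * Real.exp ((n + 1) * C') with hB
  have hB0 : 0 ≤ B := by positivity
  set A := B * (M.mu H).real univ with hA
  set k := D⁻¹ * Real.exp (-(q * U + (n + 1) * C')) / (n + 1) ^ (n + 1) *
    normSq (σ e (e x₀)) * V with hk
  have hk0 : 0 < k := by have := normSq_pos.2 ha; positivity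
  have key : ∀ ρ, 0 < ρ → ρ ≤ 1 → ρ ≤ r / 2 → k ≤ A * ρ ^ 2 := fun ρ h1 h2 h3 => by
    obtain ⟨l, hls, hl0, hl1, hl2⟩ := hl (ρ ^ 2) ⟨by positivity, pow_le_one₀ h1.le h2⟩
    have hw := wle (H := H) hφ hls h0 hric hl0 (k := (n : ℝ) + 1) (by positivity) hp
    have hws := ((hφ.pw q).1.addF (hls.const_mul ((n : ℝ) + 1))).1
    set Φ : M.Fam ℝ := (q : ℝ) • φ + fun e z => ((n : ℝ) + 1) * l (e.symm z) with hΦ
    have hbb : ∀ x, 0 ≤ K.indicator (fun _ => B) x ∧ K.indicator (fun _ => B) x ≤ B := fun x => by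
      by_cases hx : x ∈ K <;> simp [hx, hB0]
    obtain ⟨s, hs, hi⟩ := hHOR n M H (L.pw q) Φ _ σ B hK hws hσ (h0.trans hw)
      (measurable_const.indicator hKc.measurableSet) hbb fun e he z hz v => by
        have a := hdb e he z hz v
        have b := nq_mono (hw e he z hz) v
        have c := nq_nonneg (T := M.hw φ e z) (by simpa using h0 e he z hz) v
        have d : Real.exp (-Φ e z) = Real.exp (-((q : ℝ) • φ) e z) *
            Real.exp (-(((n : ℝ) + 1) * l (e.symm z))) := by
          rw [← Real.exp_add, hΦ, ← neg_add]; rfl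
        rw [d, ← mul_assoc]
        refine (mul_le_mul_of_nonneg_right a (Real.exp_pos _).le).trans ?_
        by_cases hx : e.symm z ∈ K
        · simp only [indicator_of_mem hx]
          have f : Real.exp (-(((n : ℝ) + 1) * l (e.symm z))) ≤ Real.exp ((n + 1) * C') := by
            refine Real.exp_le_exp.2 ?_
            have := hl2 _ hx
            nlinarith [Nat.cast_nonneg (α := ℝ) n]
          calc _ = C' * Real.exp (-(((n : ℝ) + 1) * l (e.symm z))) * nq (M.hw φ e z) v := by ring
            _ ≤ _ := mul_le_mul (mul_le_mul_of_nonneg_left f hC') b c hB0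
        · simp only [indicator_of_notMem hx, zero_mul, le_refl]
    have hs0 : s e (e x₀) = 0 := by
      by_contra hne
      exact (hs.toSecC.ne_iff he hx).2 hne (hno s hs)
    have hss := hσ.sub hs.toSecC
    have hrep := hws.nr_rep hss
    have hcont := (hws.nr_sm hss).continuous
    have hup : ∫ x, K.indicator (fun _ => B) x ∂M.mu H ≤ A := by
      rw [hA, mul_comm, ← smul_eq_mul, ← integral_const]
      exact integral_mono_of_nonneg (Eventually.of_forall fun x => (hbb x).1) (integrable_const _)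
        (Eventually.of_forall fun x => (hbb x).2)
    have hsub : ball (e x₀) ρ ⊆ closedBall (e x₀) (r / 2) :=
      ball_subset_closedBall.trans (closedBall_subset_closedBall h3)
    have hsr : ball (e x₀) ρ ⊆ ball (e x₀) r := ball_subset_ball (by linarith)
    have hG : ∀ x, 0 ≤ M.nrC Φ (σ - s) x := fun x => Mf.nrC_nonneg _ _ x
    have h4 := low (f := fun z => σ e z - s e z) (A := A) h1
      (κ := D⁻¹ * Real.exp (-(q * U + (n + 1) * C')) / ((n + 1) * ρ ^ 2) ^ (n + 1))
      (by positivity) (by positivity)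
      ((hσd.mono hsr).sub fun z hz => (hs.hol e he z (hb (hsr hz))).differentiableWithinAt)
      (g := fun z => ENNReal.ofReal (H e z).det.re * ENNReal.ofReal (M.nrC Φ (σ - s) (e.symm z)))
      (fun z hz => by
        obtain ⟨-, -, d1, -⟩ := hD' z (hsub hz)
        have d0 : 0 < (H e z).det.re := lt_of_lt_of_le (by positivity) d1
        rw [← ENNReal.ofReal_mul d0.le, hrep e he z (hb (hsr hz))]
        refine ENNReal.ofReal_le_ofReal ?_
        have e1 : l (e.symm z) ≤ Real.log ((n + 1) * ρ ^ 2) + C' := by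
          refine (hl1 z (hsr hz)).trans (add_le_add_left (Real.log_le_log ?_ ?_) _)
          · have : 0 ≤ nsq (z - e x₀) := Finset.sum_nonneg fun j _ => normSq_nonneg _
            positivity
          · have := nsq_le (mem_ball_iff_norm.1 hz)
            linarith
        have e2 : Real.exp (-(q * U + (n + 1) * C')) / ((n + 1) * ρ ^ 2) ^ (n + 1) ≤
            Real.exp (-Φ e z) := by
          rw [← Real.exp_log (x := (n + 1) * ρ ^ 2) (by positivity), ← Real.exp_nat_mul,
            ← Real.exp_sub]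
          refine Real.exp_le_exp.2 ?_
          have := hU' z (hsub hz)
          have e0 : Φ e z = q * φ e z + (n + 1) * l (e.symm z) := rfl
          rw [e0]
          push_cast
          nlinarith [Nat.cast_nonneg (α := ℝ) q, Nat.cast_nonneg (α := ℝ) n]
        calc _ = D⁻¹ * (normSq (σ e z - s e z) *
              (Real.exp (-(q * U + (n + 1) * C')) / ((n + 1) * ρ ^ 2) ^ (n + 1))) := by ring
          _ ≤ (H e z).det.re * (normSq (σ e z - s e z) * Real.exp (-Φ e z)) := by
            have := normSq_nonneg (σ e z - s e z)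
            gcongr
          _ = _ := rfl)
      (by
        rw [← ((hch e he _ measurableSet_ball (hsub.trans hcb)).2.1 fun x => ENNReal.ofReal
          (M.nrC Φ (σ - s) x))]
        refine (setLIntegral_le_lintegral _ _).trans ?_
        exact (ofReal_integral_eq_lintegral_ofReal (hint _ _ hcont)
          (Eventually.of_forall hG)).ge.trans (ENNReal.ofReal_le_ofReal (hi.trans hup)))
    rw [hs0, sub_zero] at h4
    rw [← div_le_iff₀ (by positivity)]
    refine le_of_eq_of_le ?_ h4
    rw [hk, hV, mul_pow]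
    field_simp
    ring
  have ht : Tendsto (fun ρ : ℝ => A * ρ ^ 2) (𝓝[>] 0) (𝓝 (A * 0 ^ 2)) :=
    (Continuous.tendsto (by fun_prop) 0).mono_left nhdsWithin_le_nhds
  refine hk0.not_ge ((ge_of_tendsto ht ?_).trans_eq (by ring))
  filter_upwards [Ioc_mem_nhdsGT one_pos, Ioc_mem_nhdsGT (half_pos hr)] with ρ h1 h2
  exact key ρ h1.1 h1.2 h2.2

end Pool.Agent.Lib.KP
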