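import Pool.Agent.Lib.KP.Blue
import Pool.Agent.Lib.KP.Kit

/-! Project kp71: the data for the peak section. -/

open scoped Classical Topology ContDiff ComplexOrder Matrix
open Set MeasureTheory Complex Metric Filter

noncomputable section

namespace Pool.Agent.Lib.KP

open Pool.Agent.Lib.SV (E nsq)
open Pool.Agent.Lib.HS32 Pool.Agent.Lib.HS32.Mf Pool.Agent.Lib.HS21

namespace T24P

variable {n : ℕ}

theorem nq_le {S T : Mat n} {c c' : ℝ} (h : (c • T - S).PosSemidef) (h0 : (T - 0).PosSemidef)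
    (hc : c ≤ c') (v : E n) : nq S v ≤ c' * nq T v := by
  rw [sub_zero] at h0
  have a : 0 ≤ nq T v := h0.re_dotProduct_nonneg v
  have b : 0 ≤ nq (c • T - S) v := h.re_dotProduct_nonneg v
  have e : nq (c • T - S) v = c * nq T v - nq S v := by
    simp only [nq, Matrix.sub_mulVec, Matrix.smul_mulVec, dotProduct_sub, dotProduct_smul, sub_re,
      smul_re, smul_eq_mul]
  nlinarith [mul_le_mul_of_nonneg_right hc a]

theorem kill {T P : Mat n} {d : E n} {c : ℂ} (h : ∀ i j, T i j = d i * star (d j) * c)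
    (h' : ∀ l, ∑ i, star (P i l) * d i = 0) : T * P = 0 := by
  ext i l
  have e := congrArg (fun x => d i * c * star x) (h' l)
  simp only [star_sum, star_mul, star_star, star_zero, mul_zero, Finset.mul_sum] at e
  rw [Matrix.mul_apply, Matrix.zero_apply, ← e]
  exact Finset.sum_congr rfl fun j _ => by rw [h]; ring

end T24P

open T24P in
theorem st_PKD (hBLK : St_BLK) (hNINV : St_NINV) (hISO : St_ISO) (hFIB : St_FIB) (hSIG : St_SIG)
    (hLAM : St_LAM) (hDBC : St_DBC) : St_PKD := by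
  intro n M _ H P L f φ Φ m p Ψ r D wΦ dg dv d2
  have r0 := dv.r0
  obtain ⟨e₀, i0, z0, -⟩ := dv.loc 0 (by simp; linarith)
  obtain ⟨ε, ε0, hε⟩ := nhds_basis_closedBall.mem_iff.1 (e₀.open_target.mem_nhds z0)
  obtain ⟨r₁, r₂, K, hr, sp⟩ := hISO n M P p Ψ r dg.en dv (min r (ε / 2))
    (lt_min r0 (half_pos ε0))
  have hr1 : r₁ ≤ r := hr.trans (min_le_left _ _)
  have hr2 : r₁ ≤ ε / 2 := hr.trans (min_le_right _ _)
  obtain ⟨F, fb⟩ := hFIB n M p Ψ r r₁ _ dv hr1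
  obtain ⟨C, ρ, C0, ρ0, hl⟩ := hLAM n M H P _ p Ψ r₁ r₂ K F e₀ dg dv.idem sp fb i0 z0
  obtain ⟨b1, b2, -⟩ := hBLK n M H P _ dg
  have sg := hSIG n M P L f φ m p Ψ r₁ r₂ K F e₀ dg.en D dv.idem sp fb i0
    ((closedBall_subset_closedBall (by linarith)).trans hε) fun z hz => by
      have := hNINV n M P p p Ψ (3 * r) _ dv.idem (D.wt.nr_sm D.hol.toSecC) dv.loc d2 z
        (by linarith) (-z)
      rwa [Matrix.mulVec_neg, ← sub_eq_add_neg] at this
  have ct : Continuous fun z : E n => ‖z - p *ᵥ z‖ := (continuous_id.sub (cont_mulVec p)).norm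
  have ev : ∀ᶠ z in 𝓝 (0 : E n), z ∈ e₀.target ∧ z ∈ ball (0 : E n) ρ ∧
      ‖z - p *ᵥ z‖ < min (2 * r₁) r₂ :=
    (e₀.open_target.eventually_mem z0).and ((isOpen_ball.eventually_mem (mem_ball_self ρ0)).and
      (ct.continuousAt.eventually_lt continuousAt_const (by
        simpa using ⟨sp.p1, sp.p2⟩)))
  obtain ⟨a, a0, ha⟩ := eventually_nhds_iff_ball.1 ev
  obtain ⟨m0, m1⟩ := i0.mem z0
  refine ⟨e₀, i0.1, m0, a, C, a0, C0, ?_, fun q₀ => ?_⟩
  · rw [m1]
    exact fun z hz => (ha z hz).1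
  obtain ⟨q, hq, σ, sσ, σ0, hσ⟩ := sg q₀
  obtain ⟨T, fT, hT⟩ := hDBC n M _ _ σ (wΦ.pw q).1 sσ
  obtain ⟨C₁, C1, le⟩ := b2 T fT fun e he z hz => kill (hT e he z hz).1 (hσ e he z hz).2
  rw [m1]
  refine ⟨q, hq, σ, K, max C₁ C, sσ, σ0, fun z hz => ?_, sp.cl, le_max_of_le_right C0,
    fun e he z hz v => ?_, fun δ hδ => ?_⟩
  · obtain ⟨t1, -, t2⟩ := ha z hz
    refine ((hσ e₀ i0.1 z t1).1 fun hK => ?_).differentiableWithinAt
    rw [← i0.2 z t1] at hK
    exact absurd (sp.out z (t2.le.trans (min_le_left _ _)) hK)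
      (not_le.2 (t2.trans_le (min_le_right _ _)))
  · by_cases hK : e.symm z ∈ K
    · rw [indicator_of_mem hK, ← (hT e he z hz).2 v]
      exact nq_le (le e he z hz) (b1 e he z hz) (le_max_left _ _) v
    · have := ((mHOL n _ _).1 (cd_diff (sσ.sm e he z hz))).1 ((hσ e he z hz).1 hK)
      simp [indicator_of_notMem hK, this]
  · obtain ⟨l, l1, l2, l3, l4⟩ := hl δ hδ
    refine ⟨l, l1, l2, fun z hz => ?_, fun x hx => (neg_le_neg (le_max_right _ _)).trans (l4 x hx)⟩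
    rw [sub_zero]
    exact (l3 z (ha z hz).2.1).trans (add_le_add le_rfl (le_max_right _ _))

end Pool.Agent.Lib.KP
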