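import Pool.Agent.Lib.KP.Blue
import Pool.Agent.Lib.KP.Kit

/-! Project kp71: the family of regularized weights. -/

open scoped Classical Topology ContDiff ComplexOrder Matrix ENNReal
open Set MeasureTheory Complex Metric Filter

noncomputable section

namespace Pool.Agent.Lib.KP

open Pool.Agent.Lib.SV (E)
open Pool.Agent.Lib.HS32
open Pool.Agent.Lib.HS78 (Eb)

namespace T58

theorem pw_le {y b c : ℝ} (hy : 0 < y) (h0 : 0 ≤ b) (h1 : b ≤ c) : y ^ (-b) ≤ 1 + y ^ (-c) := by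
  have p := Real.rpow_pos_of_pos hy (-c)
  rcases le_total y 1 with h | h
  · linarith [Real.rpow_le_rpow_of_exponent_ge hy h (neg_le_neg h1)]
  · linarith [Real.rpow_le_one_of_one_le_of_nonpos h (neg_nonpos.2 h0)]

theorem ex_eq {y s : ℝ} (hy : 0 < y) : Real.exp (-(s * Real.log y)) = y ^ (-s) := by
  rw [Real.rpow_def_of_pos hy]; congr 1; ring

theorem sml_le {y t s a c : ℝ} (hy : Real.exp (-t) ≤ y) (hs : 0 ≤ s) (a0 : 0 < a) (a1 : a ≤ 1)
    (h : a + s ≤ c) : Real.exp (-t) / y * y ^ (-s) ≤ Real.exp (-(a * t)) * (1 + y ^ (-c)) := by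
  have d0 := Real.exp_pos (-t)
  have y0 : 0 < y := d0.trans_le hy
  have h1 : Real.exp (-t) / y ≤ (Real.exp (-t) / y) ^ a := by
    simpa using Real.rpow_le_rpow_of_exponent_ge (div_pos d0 y0) ((div_le_one y0).2 hy) a1
  calc _ ≤ (Real.exp (-t) / y) ^ a * y ^ (-s) := by gcongr
    _ = Real.exp (-(a * t)) * y ^ (-(a + s)) := by
        rw [Real.div_rpow d0.le y0.le, ← Real.exp_mul, neg_add, Real.rpow_add y0,
          Real.rpow_neg y0.le a, div_eq_mul_inv, mul_assoc]
        congr 2; ring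
    _ ≤ _ := by gcongr; exact pw_le y0 (by linarith) h

theorem gro {K C t : ℝ} (hK : 0 ≤ K) (hC : K + 3 ≤ C) (ht : 1 ≤ t) :
    K * (Real.exp (-t))⁻¹ ^ 3 ≤ Real.exp (C * t) := by
  rw [Real.exp_neg, inv_inv, ← Real.exp_nat_mul]
  calc _ ≤ Real.exp K * Real.exp ((3 : ℕ) * t) := by gcongr; linarith [Real.add_one_le_exp K]
    _ ≤ _ := by
      rw [← Real.exp_add]
      push_cast
      exact Real.exp_le_exp.2 (by nlinarith)

theorem eb_mul {n : ℕ} {A : Mat n} {b s m : ℝ} (h : Eb b A) (hs : 0 ≤ s) (hm : s * b ≤ m) :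
    Eb m (s • A) := fun i j => by
  rw [Matrix.smul_apply, norm_smul, Real.norm_of_nonneg hs]
  exact (mul_le_mul_of_nonneg_left (h i j) hs).trans hm

end T58

theorem st_PSI (h1 : St_PSI1) (h3 : St_PSI3) : St_PSI := by
  intro n M _ H V L f φ s c hH hf hφ hs hc ⟨C₀, hC₀⟩
  have sN := hφ.nr_sm hf.toSecC
  obtain ⟨C₁, p1, q1⟩ := h1 n M H L f φ hH hf hφ
  have N0 := Mf.nrC_nonneg φ f
  obtain ⟨C₃, p3, q3⟩ := h3 n M H V _ hH sN N0
  generalize M.nrC φ f = N at sN q1 N0 q3 hC₀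
  obtain ⟨B, hB⟩ := (isCompact_range sN.continuous).bddAbove
  have nB : ∀ x, N x ≤ |B| := fun x => (hB ⟨x, rfl⟩).trans (le_abs_self B)
  obtain ⟨-, fin, -, -, itg, -⟩ := mMU n M H hH
  have v0 : 0 ≤ (M.mu H).real univ := measureReal_nonneg
  have y0 : ∀ t x, 0 < N x + Real.exp (-t) := fun t x => by linarith [N0 x, Real.exp_pos (-t)]
  have sy : ∀ t, M.Sm fun x => N x + Real.exp (-t) := fun t => sN.add (Mf.sm_const _)
  have sl : ∀ t, M.Sm fun x => Real.log (N x + Real.exp (-t)) := fun t =>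
    (sy t).log fun x => (y0 t x).ne'
  have d1 : ∀ t : ℝ, 1 ≤ t → Real.exp (-t) ∈ Ioc (0 : ℝ) 1 := fun t ht =>
    ⟨Real.exp_pos _, Real.exp_le_one_iff.2 (by linarith)⟩
  have cχ : ∀ t, Continuous fun x => Real.exp (-t) / (N x + Real.exp (-t)) := fun t =>
    continuous_const.div (sy t).continuous fun x => (y0 t x).ne'
  have iI : ∀ t, Integrable (fun x => 1 + (N x + Real.exp (-t)) ^ (-c)) (M.mu H) ∧
      ∫ x, (1 + (N x + Real.exp (-t)) ^ (-c)) ∂M.mu H ≤ (M.mu H).real univ + |C₀| := fun t => by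
    have i1 := itg ℝ _ ((sy t).continuous.rpow_const (p := -c) fun x => Or.inl (y0 t x).ne')
    refine ⟨(integrable_const _).add i1, ?_⟩
    rw [integral_add (integrable_const _) i1, integral_const, smul_eq_mul, mul_one]
    linarith [hC₀ _ (Real.exp_pos (-t)), le_abs_self C₀]
  have hsm : ∀ t, M.All fun e z => M.hs (fun x => s * Real.log (N x + Real.exp (-t))) e z =
      s • M.hs (fun x => Real.log (N x + Real.exp (-t))) e z := fun t e he z hz =>
    ((mLAP n M _ _ (sl t) (sl t)).1 s e he z hz).2.2.2.1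
  have k1 := mul_nonneg hs p1.le
  have k2 := mul_nonneg hs (abs_nonneg B)
  have k3 : 0 ≤ s * C₃ := mul_nonneg hs (by linarith)
  have k4 := abs_nonneg C₀
  obtain ⟨C, c1, c2, c3, c4, c5⟩ : ∃ C : ℝ, s ≤ C ∧ s * |B| ≤ C ∧ s * C₁ ≤ C ∧
      (M.mu H).real univ + |C₀| ≤ C ∧ s * C₃ + 3 ≤ C :=
    ⟨s + s * |B| + s * C₁ + ((M.mu H).real univ + |C₀|) + (s * C₃ + 3), by linarith, by linarith,
      by linarith, by linarith, by linarith⟩
  have a0 : 0 < min (c - s) 1 := lt_min (by linarith) one_pos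
  have x0 : ∀ t x, 0 ≤ Real.exp (-t) / (N x + Real.exp (-t)) := fun t x =>
    (div_pos (Real.exp_pos _) (y0 t x)).le
  refine ⟨fun t x => s * Real.log (N x + Real.exp (-t)),
    fun t x => Real.exp (-t) / (N x + Real.exp (-t)), C, min (c - s) 1, by linarith, a0,
    fun t => (sl t).const_mul s, cχ,
    fun t x => ⟨x0 t x, (div_le_one (y0 t x)).2 (by linarith [N0 x])⟩, fun t ht x => ⟨?_, ?_⟩,
    fun t ht e he z hz => ?_, fun t ht => ?_, fun t ht => ?_, fun t ht x => ?_,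
    fun t ht b z hz => ?_⟩
  · have := Real.log_le_log (Real.exp_pos (-t)) (le_add_of_nonneg_left (N0 x))
    rw [Real.log_exp] at this
    nlinarith [mul_le_mul_of_nonneg_left this hs]
  · have := Real.log_le_sub_one_of_pos (y0 t x)
    have := mul_le_mul_of_nonneg_left (by linarith [nB x, (d1 t ht).2] :
      Real.log (N x + Real.exp (-t)) ≤ |B|) hs
    linarith
  · have a := ((q1 _ (Real.exp_pos (-t)) e he z hz).smul hs).add
      ((hH.pos e he z hz).posSemidef.smul (mul_nonneg (sub_nonneg.2 c3) (x0 t (e.symm z))))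
    beta_reduce
    rw [hsm t e he z hz]
    convert a using 1
    simp only [Pi.smul_apply]
    module
  · refine le_trans (integral_mono (itg ℝ _ ((sl t).const_mul s).continuous.neg.rexp) (iI t).1
      fun x => ?_) ((iI t).2.trans c4)
    beta_reduce
    rw [T58.ex_eq (y0 t x)]
    exact T58.pw_le (y0 t x) hs hc.le
  · refine le_trans (integral_mono (itg ℝ _ ((cχ t).mul
      ((sl t).const_mul s).continuous.neg.rexp)) ((iI t).1.const_mul
        (Real.exp (-(min (c - s) 1 * t)))) fun x => ?_) ?_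
    · beta_reduce
      rw [T58.ex_eq (y0 t x)]
      exact T58.sml_le (le_add_of_nonneg_left (N0 x)) hs a0 (min_le_right _ _)
        (by linarith [min_le_left (c - s) 1])
    · rw [integral_const_mul, mul_comm]
      gcongr
      exact (iI t).2.trans c4
  · have e1 : ∀ g, M.Sm g → M.gr H (fun y => s * Real.log (N y + Real.exp (-t))) g x =
        s * M.gr H (fun y => Real.log (N y + Real.exp (-t))) g x := fun g hg => by
      have := (((mLAP n M _ g (sl t) hg).2.2 H hH).2.2.2.1 (fun y => s * y)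
        (fun _ => contDiffAt_const.mul contDiffAt_id) x).2
      simpa using this
    have e2 := (((mLAP n M _ _ (sl t) ((sl t).const_mul s)).2.2 H hH).2.2.1 x 0).2.2.2.2.2.1
    rw [e1 _ ((sl t).const_mul s), e2, e1 _ (sl t), ← mul_assoc]
    have i1 : 1 ≤ (Real.exp (-t))⁻¹ := (one_le_inv₀ (d1 t ht).1).2 (d1 t ht).2
    calc _ ≤ s * s * (C₃ * (Real.exp (-t))⁻¹) ^ 2 :=
          mul_le_mul_of_nonneg_left ((q3 _ (d1 t ht)).1 x) (mul_self_nonneg s)
      _ = (s * C₃ * (Real.exp (-t))⁻¹ ^ 1) ^ 2 := by ring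
      _ ≤ (s * C₃ * (Real.exp (-t))⁻¹ ^ 3) ^ 2 := by gcongr; omega
      _ ≤ _ := by gcongr; exact T58.gro k3 c5 ht
  · have hz' : z ∈ (V.e b).target :=
      V.sub b (closedBall_subset_closedBall (by linarith [V.pos b]) hz)
    obtain ⟨r1, r2⟩ := (q3 _ (d1 t ht)).2 b z hz
    have g := T58.gro k3 c5 ht
    rw [mul_assoc] at g
    refine ⟨by rw [hsm t _ (V.mem b) z hz']; exact T58.eb_mul r1 hs g, fun i => ?_⟩
    rw [dM_congr ((hsm t).ev (V.mem b) hz'),
      dM_rsmul s (((mHES n M).1 _ (sl t)).sm _ (V.mem b) z hz')]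
    exact T58.eb_mul (r2 i) hs g

end Pool.Agent.Lib.KP
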