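import Pool.Agent.Lib.KP.Blue
import Pool.Agent.Lib.KP.Kit
import Pool.Agent.Lib.HS32.MAll

/-! Project kp71: derivatives of the regularized weight. -/

open scoped Classical Topology ContDiff ComplexOrder Matrix
open Set MeasureTheory Complex Metric Filter

noncomputable section

namespace Pool.Agent.Lib.KP

open Pool.Agent.Lib.SV (E nsq)
open Pool.Agent.Lib.HS32
open Pool.Agent.Lib.HS78 (Eb)

namespace T48

variable {n : ℕ}

theorem psi_cpt {g : E n → ℂ} {S : Set (E n)} (hS : IsCompact S)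
    (h : ∀ z ∈ S, ContDiffAt ℝ ∞ g z) : ∃ c : ℝ, 0 ≤ c ∧ ∀ z ∈ S, ∀ k i j, ‖hess g z i j‖ ≤ c ∧
      ‖dd g g z i j‖ ≤ c ∧ ‖dM k (hess g) z i j‖ ≤ c ∧ ‖dM k (dd g g) z i j‖ ≤ c ∧
      ‖dz k g z‖ ≤ c := by
  have hc : ContinuousOn (fun z => fun p : Fin n × Fin n × Fin n => (hess g z p.2.1 p.2.2,
      dd g g z p.2.1 p.2.2, dM p.1 (hess g) z p.2.1 p.2.2, dM p.1 (dd g g) z p.2.1 p.2.2,
      dz p.1 g z)) S := continuousOn_pi.mpr fun p z hz => by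
    have h1 := smM_hess (h z hz)
    have h2 := smM_dd (h z hz) (h z hz)
    exact ((h1 _ _).continuousAt.prodMk ((h2 _ _).continuousAt.prodMk
      ((h1.dM p.1 _ _).continuousAt.prodMk ((h2.dM p.1 _ _).continuousAt.prodMk
        (cd_dz (h z hz) p.1).continuousAt)))).continuousWithinAt
  obtain ⟨c, hc⟩ := hS.exists_bound_of_continuousOn hc
  refine ⟨max 0 c, le_max_left _ _, fun z hz k i j => ?_⟩
  have := ((norm_le_pi_norm _ (k, i, j)).trans (hc z hz)).trans (le_max_right 0 c)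
  simpa only [Prod.norm_mk, max_le_iff] using this

theorem psi_alg {u γ a d a' d' : ℂ} {y c : ℝ} (hy : 1 ≤ y) (hc : 1 ≤ c) (hu : ‖u‖ ≤ y)
    (h1 : ‖a‖ ≤ c) (h2 : ‖d‖ ≤ c) (h3 : ‖a'‖ ≤ c) (h4 : ‖d'‖ ≤ c) (h5 : ‖γ‖ ≤ c) :
    ‖u * a - u * u * d‖ ≤ 5 * c ^ 2 * y ^ 3 ∧
      ‖-(γ * u ^ 2 * a) + u * a' + 2 * (γ * u ^ 3 * d) - u ^ 2 * d'‖ ≤ 5 * c ^ 2 * y ^ 3 := by
  have y2 : y ^ 2 ≤ y ^ 3 := pow_le_pow_right₀ hy (by norm_num)
  have y1 : y ≤ y ^ 3 := le_self_pow₀ hy (by norm_num)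
  have c1 : c ≤ c ^ 2 := le_self_pow₀ hc (by norm_num)
  have y0 : 0 ≤ y := by linarith
  have c0 : 0 ≤ c := by linarith
  have k1 : ∀ x : ℂ, ‖x‖ ≤ c → ‖u * x‖ ≤ y ^ 3 * c ^ 2 := fun x hx => by
    rw [norm_mul]; gcongr <;> linarith
  have k2 : ∀ x : ℂ, ‖x‖ ≤ c → ‖u ^ 2 * x‖ ≤ y ^ 3 * c ^ 2 := fun x hx => by
    rw [norm_mul, norm_pow]
    calc _ ≤ y ^ 2 * c := by gcongr
      _ ≤ _ := by gcongr
  have k3 : ‖γ * u ^ 2 * a‖ ≤ y ^ 3 * c ^ 2 := by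
    rw [norm_mul, norm_mul, norm_pow]
    calc _ ≤ c * y ^ 2 * c := by gcongr
      _ ≤ c * y ^ 3 * c := by gcongr
      _ = _ := by ring
  have k4 : ‖2 * (γ * u ^ 3 * d)‖ ≤ 2 * (y ^ 3 * c ^ 2) := by
    rw [norm_mul, norm_mul, norm_mul, norm_pow, Complex.norm_two]
    calc _ ≤ 2 * (c * y ^ 3 * c) := by gcongr
      _ = _ := by ring
  have p : 0 ≤ y ^ 3 * c ^ 2 := by positivity
  constructor
  · rw [← sq]
    linarith [norm_sub_le (u * a) (u ^ 2 * d), k1 a h1, k2 d h2]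
  · linarith [norm_sub_le (-(γ * u ^ 2 * a) + u * a' + 2 * (γ * u ^ 3 * d)) (u ^ 2 * d'),
      norm_add₃_le (a := -(γ * u ^ 2 * a)) (b := u * a') (c := 2 * (γ * u ^ 3 * d)),
      norm_neg (γ * u ^ 2 * a), k1 a' h3, k2 d' h4]

end T48

open T48

theorem st_PSI3 : St_PSI3 := by
  intro n M _ H V N hH hN h0
  obtain ⟨c₀, hc₀, b₀⟩ := ((mLAP n M N N hN hN).2.2 H hH).2.1.exists_bound
  have hsub : ∀ b, closedBall (V.c b) (2 * V.ρ b) ⊆ (V.e b).target := fun b =>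
    (closedBall_subset_closedBall (by linarith [V.pos b])).trans (V.sub b)
  choose c hc hb using fun b => psi_cpt (isCompact_closedBall (V.c b) (2 * V.ρ b))
    fun z hz => hN.lc _ (V.mem b) z (hsub b hz)
  obtain ⟨K, hK⟩ : ∃ K, K = 1 + c₀ + ∑ b, c b := ⟨_, rfl⟩
  have s0 : 0 ≤ ∑ b, c b := Finset.sum_nonneg fun b _ => hc b
  have K1 : 1 ≤ K := by linarith
  have Kb : ∀ b, c b ≤ K := fun b => by
    linarith [Finset.single_le_sum (fun b _ => hc b) (Finset.mem_univ b)]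
  refine ⟨5 * K ^ 2, by nlinarith, fun δ hδ => ?_⟩
  have hy : 1 ≤ δ⁻¹ := (one_le_inv₀ hδ.1).mpr hδ.2
  have hp : ∀ x, 0 < N x + δ := fun x => by linarith [h0 x, hδ.1]
  have hi : ∀ x, (N x + δ)⁻¹ ≤ δ⁻¹ := fun x => inv_anti₀ hδ.1 (by linarith [h0 x])
  have hφ : ∀ x, ContDiffAt ℝ ∞ (fun t : ℝ => Real.log (t + δ)) (N x) := fun x =>
    (contDiffAt_id.add contDiffAt_const).log (hp x).ne'
  have d1 : deriv (fun t : ℝ => Real.log (t + δ)) = fun t => (t + δ)⁻¹ := funext fun t => by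
    rw [deriv_comp_add_const Real.log, Real.deriv_log]
  have d2 : ∀ t, deriv (fun t : ℝ => (t + δ)⁻¹) t = -((t + δ) ^ 2)⁻¹ := fun t => by
    rw [deriv_comp_add_const (fun t : ℝ => t⁻¹), deriv_inv]
  obtain ⟨hL, e1⟩ := (mLAP n M N N hN hN).2.1 _ hφ
  refine ⟨fun x => ?_, fun b z hz => ?_⟩
  · have a1 := (((mLAP n M N _ hN hL).2.2 H hH).2.2.2.1 _ hφ x).2
    have a2 := (((mLAP n M N _ hN hL).2.2 H hH).2.2.1 x 0).2.2.2.2.2.1
    have a3 := (((mLAP n M N N hN hN).2.2 H hH).2.2.2.1 _ hφ x).2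
    have a4 : M.gr H N N x ≤ (5 * K ^ 2) ^ 2 := by
      have := (le_abs_self _).trans (b₀ x)
      nlinarith [sq_nonneg (K ^ 2 - 1)]
    have a5 := (inv_pos.mpr (hp x)).le
    rw [a1, a2, a3, d1, ← mul_assoc, ← sq, mul_pow, mul_comm]
    gcongr
    exact hi x
  · have ht := hsub b hz
    have hg := hN.lc _ (V.mem b) z ht
    have e2 : ∀ w ∈ (V.e b).target, ∀ i j, M.hs (fun y => Real.log (N y + δ)) (V.e b) w i j =
        (M.lc N (V.e b) w + δ)⁻¹ * hess (M.lc N (V.e b)) w i j - (M.lc N (V.e b) w + δ)⁻¹ *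
          (M.lc N (V.e b) w + δ)⁻¹ * dd (M.lc N (V.e b)) (M.lc N (V.e b)) w i j := by
      intro w hw i j
      rw [(e1 _ (V.mem b) w hw).1, d1, d2]
      simp only [Matrix.add_apply, Matrix.smul_apply, Complex.real_smul, Mf.hs, Mf.ds, Mf.lc]
      push_cast
      rw [← inv_pow]
      ring
    have hne : M.lc N (V.e b) z + δ ≠ 0 := by
      have := Complex.ofReal_ne_zero.mpr (hp ((V.e b).symm z)).ne'
      rwa [Complex.ofReal_add] at this
    have hu : ‖(M.lc N (V.e b) z + δ)⁻¹‖ ≤ δ⁻¹ := by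
      rw [Mf.lc, ← Complex.ofReal_add, ← Complex.ofReal_inv, Complex.norm_real, Real.norm_eq_abs,
        abs_of_pos (inv_pos.mpr (hp _))]
      exact hi _
    have key := fun k i j => psi_alg hy K1 hu ((hb b z hz k i j).1.trans (Kb b))
      ((hb b z hz k i j).2.1.trans (Kb b)) ((hb b z hz k i j).2.2.1.trans (Kb b))
      ((hb b z hz k i j).2.2.2.1.trans (Kb b)) ((hb b z hz k i j).2.2.2.2.trans (Kb b))
    refine ⟨fun i j => by rw [e2 z ht]; exact (key i i j).1, fun k i j => ?_⟩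
    have g1 : DifferentiableAt ℝ (fun w => M.lc N (V.e b) w + δ) z := (cd_diff hg).add_const _
    have g2 := g1.fun_inv hne
    have g3 := (smM_hess hg).diff i j
    have g4 := (smM_dd hg hg).diff i j
    rw [dM_apply, dz_congr (by
      filter_upwards [(V.e b).open_target.mem_nhds ht] with w hw using e2 w hw i j),
      dz_sub (g2.fun_mul g3) ((g2.fun_mul g2).fun_mul g4), dz_mul g2 g3, dz_mul (g2.fun_mul g2) g4,
      dz_mul g2 g2, dz_inv g1 hne, dz_add (cd_diff hg) (differentiableAt_const _), dz_const]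
    refine le_of_eq_of_le (congrArg norm ?_) (key k i j).2
    simp only [dM_apply, div_eq_mul_inv, ← inv_pow]
    ring

end Pool.Agent.Lib.KP
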