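import Pool.Agent.Lib.KP.Blue
import Pool.Agent.Lib.KP.Kit

/-! Project kp71, row SCH: the Schwarz lemma along the family of twisted equations. -/

open scoped Classical Topology ContDiff ComplexOrder Matrix
open Set MeasureTheory Complex Metric Filter

noncomputable section

namespace Pool.Agent.Lib.KP

open Pool.Agent.Lib.SV (E)
open Pool.Agent.Lib.HS32 Pool.Agent.Lib.HS32.Mf

namespace T75

theorem lim0 {b : ℝ} (hb : 0 < b) : Tendsto (fun t : ℝ => Real.exp (-(b * t))) atTop (𝓝 0) :=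
  Real.tendsto_exp_neg_atTop_nhds_zero.comp (tendsto_id.const_mul_atTop hb)

theorem lim1 {b : ℝ} (hb : 0 < b) :
    Tendsto (fun t : ℝ => t * Real.exp (-(b * t))) atTop (𝓝 0) := by
  have h := ((Real.tendsto_pow_mul_exp_neg_atTop_nhds_zero 1).comp
    (tendsto_id.const_mul_atTop hb)).const_mul b⁻¹
  rw [mul_zero] at h
  refine h.congr fun t => ?_
  simp only [Function.comp, id, pow_one]
  field_simp

theorem pick (A K₁ K₂ K₃ : ℝ) {b a η : ℝ} (hb : 0 < b) (ha : 0 < a) (hη : 0 < η) :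
    ∃ t : ℝ, 1 ≤ t ∧ A * Real.exp (-(1 * t)) + K₁ * Real.exp (-(b * t)) +
      K₂ * (t * Real.exp (-(b * t))) + K₃ * Real.exp (-(a * t)) ≤ η := by
  have h := ((((lim0 one_pos).const_mul A).add ((lim0 hb).const_mul K₁)).add
    ((lim1 hb).const_mul K₂)).add ((lim0 ha).const_mul K₃)
  simp only [mul_zero, add_zero] at h
  obtain ⟨t, h1, h2⟩ := ((eventually_ge_atTop (1 : ℝ)).and (h.eventually (ge_mem_nhds hη))).exists
  exact ⟨t, h1, h2⟩

variable {n : ℕ} {M : Mf n} {H h B : M.Fam (Mat n)} {V : M.Cov} {ψ χ : ℝ → M.X → ℝ}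
  {C a ε t : ℝ} {w v : M.X → ℝ}

/-- The differential inequality. -/
theorem ptw (W : M.Tw0 H B V ψ χ C a ε w) (hY : M.Yp h) (ht : 1 ≤ t) (hv : M.Tw H B ε w (ψ t) v)
    {c C₂ : ℝ} (hc : 0 < c) (x : M.X)
    (h1 : c * M.tr (M.gB H B ε w + M.hs v) h x ^ 2 ≤ M.ip (M.gB H B ε w + M.hs v) h H x)
    (h2 : M.ip (M.gB H B ε w + M.hs v) h H x ≤
      C₂ * M.tr (M.gB H B ε w + M.hs v) (M.gB H B ε w) x ^ 2)
    (h3 : ∀ (R : M.Fam (Mat n)) (b : ℝ), (M.ev R x - b • M.ev H x).PosSemidef →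
      b * M.ip (M.gB H B ε w + M.hs v) h H x ≤ M.ip (M.gB H B ε w + M.hs v) h R x) :
    M.tr (M.gB H B ε w + M.hs v) h x -
        M.lap (M.gB H B ε w + M.hs v) (M.tr (M.gB H B ε w + M.hs v) h) x ≤
      1 / (ε * c) + C * C₂ * (χ t x * M.tr (M.gB H B ε w + M.hs v) (M.gB H B ε w) x ^ 2) := by
  have hy := hY _ hv.kae x
  have hr := AllOn.ch hv.ric x
  have hp := AllOn.ch (W.cur t ht) x
  have hs := hv.kae.toMet.ip_self (S := h) (x := x)
  generalize M.gB H B ε w + M.hs v = G at *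
  rw [ch_symm] at hp
  have h4 := h3 (M.ric G + G) (ε - C * χ t x) (by
    have : M.ev (M.ric G + G) x - (ε - C * χ t x) • M.ev H x =
        B (M.ch x) (M.ch x x) + M.hs (ψ t) (M.ch x) (M.ch x x) +
          (C * χ t x) • H (M.ch x) (M.ch x x) := by
      simp only [ev, Pi.add_apply, hr, sub_smul]
      abel
    rw [this]
    exact hp)
  rw [ip_add, hs] at h4
  rw [yT] at hy
  have hC : 0 ≤ C * χ t x := mul_nonneg (by linarith [W.c1]) (W.x01 t x).1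
  have h5 := mul_le_mul_of_nonneg_left h2 hC
  have h6 := mul_le_mul_of_nonneg_left h1 W.e0.le
  have hk : 0 < ε * c := mul_pos W.e0 hc
  have h7 : 2 * M.tr G h x - ε * c * M.tr G h x ^ 2 ≤ 1 / (ε * c) := by
    rw [le_div_iff₀ hk]
    nlinarith [sq_nonneg (ε * c * M.tr G h x - 1)]
  nlinarith

/-- The integral of a power of the error term. -/
theorem err [M.Cpt] (W : M.Tw0 H B V ψ χ C a ε w) (ht : 1 ≤ t) (hv : M.Tw H B ε w (ψ t) v)
    {Q L : ℝ} (hQ : ∀ x, M.tr (M.gB H B ε w + M.hs v) (M.gB H B ε w) x ≤ Q)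
    (hL : ∀ x, v x + w x ≤ L) :
    ∫ x, (χ t x * M.tr (M.gB H B ε w + M.hs v) (M.gB H B ε w) x ^ 2) ^ (n + 1)
        ∂M.mu (M.gB H B ε w + M.hs v) ≤
      Q ^ (2 * (n + 1)) * Real.exp L * (C * Real.exp (-(a * t))) := by
  obtain ⟨-, -, -, -, hint, -, hmu⟩ := mMU n M H W.kH.toMet
  have hG := hv.kae.toMet
  have hS : M.Sm (M.tr (M.gB H B ε w + M.hs v) (M.gB H B ε w)) :=
    ((mINV n M _ hG).1 _ W.kT.toMet.toTen).2.1
  have hdq : M.Sm (M.dq H (M.gB H B ε w + M.hs v)) :=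
    ((mINV n M _ W.kH.toMet).1 _ hG.toTen).2.2.2.1
  have h0 : ∀ x, 0 ≤ M.tr (M.gB H B ε w + M.hs v) (M.gB H B ε w) x :=
    hG.tr_nonneg W.kT.toMet.nonneg
  have hc1 := W.ct t
  have hc2 := hS.continuous
  have hc3 := hdq.continuous
  have hc4 := (W.sm t).continuous
  have hpos : 0 ≤ Q ^ (2 * (n + 1)) * Real.exp L :=
    mul_nonneg (by rw [pow_mul]; positivity) (Real.exp_pos L).le
  rw [(hmu _ hG).2.1]
  refine le_trans ?_ (mul_le_mul_of_nonneg_left (W.sml t ht) hpos)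
  rw [← integral_const_mul]
  refine integral_mono (hint ℝ _ (by fun_prop)) (hint ℝ _ (by fun_prop)) fun x => ?_
  have e1 : χ t x ^ (n + 1) ≤ χ t x :=
    pow_le_of_le_one (W.x01 t x).1 (W.x01 t x).2 (Nat.succ_ne_zero n)
  have e2 : (M.tr (M.gB H B ε w + M.hs v) (M.gB H B ε w) x ^ 2) ^ (n + 1) ≤ Q ^ (2 * (n + 1)) := by
    rw [← pow_mul]
    exact pow_le_pow_left₀ (h0 x) (hQ x) _
  have e3 : Real.exp (v x + w x - ψ t x) ≤ Real.exp L * Real.exp (-ψ t x) := by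
    rw [← Real.exp_add]
    exact Real.exp_le_exp.2 (by linarith [hL x])
  have e4 := mul_le_mul e1 e2 (by positivity) (W.x01 t x).1
  have e5 := mul_le_mul e3 e4
    (mul_nonneg (pow_nonneg (W.x01 t x).1 _) (by positivity)) (by positivity)
  dsimp only
  rw [hv.det x, mul_pow]
  refine e5.trans (le_of_eq ?_)
  ring

end T75

open T75 in
theorem st_SCH (hEXI : St_EXI) (hAPA : St_APA) (hC2B : St_C2B) (hPBD : St_PBD) (hTEST : St_TEST)
    (hOSC : St_OSC) (hIPB : St_IPB) : St_SCH := by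
  intro n M _ H h hH hh hY
  obtain ⟨⟨c, hc, h1⟩, h2, h3⟩ := hIPB n M H h hH.toMet hh
  refine ⟨1 / c ^ 2 + 1, by positivity, fun B V ψ χ C a ε w W => ?_⟩
  obtain ⟨C₂, hC₂, h2'⟩ := h2 _ W.kT.toMet
  obtain ⟨Da, -, ha⟩ := hAPA n M H B V ψ χ C a ε w W
  obtain ⟨D₁, hD₁, hb⟩ := hC2B n M H B V ψ χ C a ε w W
  obtain ⟨Dp, hDp, hp⟩ := hPBD n M H B h V ψ χ C a ε w W hh.toForm
  obtain ⟨CT, hCT, hT⟩ := hTEST n M _ W.n0 W.kT
  have ha0 := W.a0
  have hε := W.e0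
  have hC1 := W.c1
  have hn : (0 : ℝ) < n := Nat.cast_pos.2 W.n0
  have hD0 : 0 < D₁ := by linarith
  obtain ⟨τ, hτ, hτ'⟩ : ∃ τ : ℝ, 0 < τ ∧ 2 * ((n : ℝ) + 1) * (D₁ * τ) = a / 4 :=
    ⟨a / (8 * (n + 1) * D₁), by positivity, by field_simp; ring⟩
  obtain ⟨b, hb0, hb'⟩ : ∃ b : ℝ, 0 < b ∧ n * b = a / 2 :=
    ⟨a / (2 * n), by positivity, by field_simp⟩
  obtain ⟨D₂, ho⟩ := hOSC n M H B V ψ χ C a ε w W τ hτ
  obtain ⟨xw, hxw⟩ := W.sw.exists_max
  obtain ⟨t, ht, hF⟩ := pick CT (C * C₂ * (CT * (1 + D₂))) (C * C₂ * (CT * (Dp + 1 + τ)))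
    (C * C₂ * (CT * ((D₁ * Real.exp (D₁ * D₂)) ^ (2 * (n + 1)) * Real.exp (Da + w xw) * C)))
    hb0 (show 0 < a / 4 by positivity) (div_pos hc hε)
  obtain ⟨v, hv⟩ := hEXI n M H B ε w (ψ t) W.n0 hH W.sw (W.sm t) W.kT
  have hG := hv.kae.toMet
  have hS : M.Sm (M.tr (M.gB H B ε w + M.hs v) h) := ((mINV n M _ hG).1 _ hh.toTen).2.1
  have hSt : M.Sm (M.tr (M.gB H B ε w + M.hs v) (M.gB H B ε w)) :=
    ((mINV n M _ hG).1 _ W.kT.toMet.toTen).2.1
  have hlap := ((mLAP n M _ _ hS hS).2.2 _ hG).1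
  obtain ⟨x₀, hx₀⟩ := hS.exists_max
  obtain ⟨x₁, hx₁, hx₁', -⟩ := ha t ht v hv
  obtain ⟨ρ, hρ, hρ0, hρ1, hi, hii⟩ := hT v hv.sm hv.kae _ (ho t ht v hv) x₀
    (Real.exp (-((Dp + 1) * t))) (Real.exp_pos _)
    (Real.exp_le_one_iff.2 (neg_nonpos.2 (mul_nonneg (by linarith) (by linarith))))
  have hint := (mMU n M _ hG).2.2.2.2.1 ℝ
  have hc1 := W.ct t
  have hc2 := hSt.continuous
  have hc3 := hS.continuous
  have hc4 := hlap.continuous
  have hc5 := hρ.continuous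
  have k1 := hi _ _ hS (Real.exp_pos (Dp * t)).le fun x => ((hp t ht v hv).2 x).2
  have k2 := hii (fun x => χ t x * M.tr (M.gB H B ε w + M.hs v) (M.gB H B ε w) x ^ 2)
    (Real.exp (-(b * t))) (by fun_prop)
    (fun x => mul_nonneg (W.x01 t x).1 (sq_nonneg _)) (Real.exp_pos _)
  have k3 := err W ht hv (hb t ht v hv _ (ho t ht v hv))
    (L := Da + w xw) fun x => add_le_add ((hx₁ x).trans (abs_le.1 hx₁').2) (hxw x)
  have k4 : ∫ x, ρ x * (M.tr (M.gB H B ε w + M.hs v) h x -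
      M.lap (M.gB H B ε w + M.hs v) (M.tr (M.gB H B ε w + M.hs v) h) x)
        ∂M.mu (M.gB H B ε w + M.hs v) ≤ 1 / (ε * c) + C * C₂ *
      ∫ x, ρ x * (χ t x * M.tr (M.gB H B ε w + M.hs v) (M.gB H B ε w) x ^ 2)
        ∂M.mu (M.gB H B ε w + M.hs v) := by
    have h0 : ∫ x, 1 / (ε * c) * ρ x ∂M.mu (M.gB H B ε w + M.hs v) = 1 / (ε * c) := by
      rw [integral_const_mul, hρ1, mul_one]
    refine le_trans ?_ (add_le_add h0.le (integral_const_mul _ _).le)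
    rw [← integral_add (hint _ (by fun_prop)) (hint _ (by fun_prop))]
    refine integral_mono (hint _ (by fun_prop)) (hint _ (by fun_prop)) fun x => ?_
    have := mul_le_mul_of_nonneg_left
      (ptw W hY ht hv hc x (h1 _ hG x).1 (h2' _ hG x) fun R => h3 _ R hG x) (hρ0 x)
    dsimp only
    linarith
  have e1 : Real.exp (Dp * t) * Real.exp (-((Dp + 1) * t)) = Real.exp (-(1 * t)) := by
    rw [← Real.exp_add]
    exact congrArg Real.exp (by ring)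
  have e2 : (Real.exp (-(b * t)))⁻¹ ^ n = Real.exp (a / 2 * t) := by
    rw [← Real.exp_neg, neg_neg, ← Real.exp_nat_mul, ← mul_assoc, hb']
  have e3 : (D₁ * Real.exp (D₁ * (τ * t + D₂))) ^ (2 * (n + 1)) =
      (D₁ * Real.exp (D₁ * D₂)) ^ (2 * (n + 1)) * Real.exp (a / 4 * t) := by
    have : Real.exp (a / 4 * t) = Real.exp (D₁ * τ * t) ^ (2 * (n + 1)) := by
      rw [← Real.exp_nat_mul, ← hτ']
      exact congrArg Real.exp (by push_cast; ring)
    rw [this, ← mul_pow, mul_assoc D₁, ← Real.exp_add]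
    exact congrArg (fun s => (D₁ * Real.exp s) ^ (2 * (n + 1))) (by ring)
  have e4 : Real.exp (a / 2 * t) * (Real.exp (a / 4 * t) * Real.exp (-(a * t))) =
      Real.exp (-(a / 4 * t)) := by
    rw [← Real.exp_add, ← Real.exp_add]
    exact congrArg Real.exp (by ring)
  rw [mul_assoc, e1] at k1
  rw [Real.log_exp, e2] at k2
  rw [e3] at k3
  have k5 := mul_le_mul_of_nonneg_left k3 (mul_pos (Real.exp_pos (a / 2 * t)) hCT).le
  have k6 := mul_le_mul_of_nonneg_left (k2.trans (add_le_add le_rfl k5))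
    (mul_pos (show 0 < C by linarith) hC₂).le
  have k7 : M.tr (M.gB H B ε w + M.hs v) h x₀ ≤ 1 / (ε * c) + c / ε := by
    rw [← e4] at hF
    linarith
  have hadd : M.All fun e z =>
      M.gB H B ε (fun x => w x + v x) e z = (M.gB H B ε w + M.hs v) e z := fun e he z hz => by
    simp only [gB, Pi.add_apply, ((mLAP n M w v W.sw hv.sm).1 0 e he z hz).2.1, add_assoc]
  refine ⟨fun x => w x + v x, W.sw.add hv.sm, hv.kae.congr hadd, fun x => ?_⟩
  rw [tr_congr hadd fun _ _ _ _ => rfl]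
  have k8 := ((h1 _ hG x).2.trans (hx₀ x)).trans k7
  have k9 : 1 / c ^ 2 + 1 = ε * ((1 / (ε * c) + c / ε) / c) := by field_simp
  rw [k9]
  refine mul_le_mul_of_nonneg_left ?_ hε.le
  rw [le_div_iff₀ hc]
  linarith

end Pool.Agent.Lib.KP
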