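import Pool.Agent.Lib.KP.Blue
import Pool.Agent.Lib.KP.Kit

/-! Project kp71: row SIG, the almost holomorphic section. -/

open scoped Classical Topology ContDiff ComplexOrder Matrix ENNReal
open Set MeasureTheory Complex Metric Filter

set_option linter.unusedVariables false

noncomputable section

namespace Pool.Agent.Lib.KP

open Pool.Agent.Lib.SV (E nsq)
open Pool.Agent.Lib.HS32 Pool.Agent.Lib.HS32.Mf

namespace T39

variable {n : ℕ} {M : Mf n} {p : Mat n} {Ψ : E n → M.X} {a a' : M.Ch} {z τ : E n}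

theorem off_has (p : Mat n) (z : E n) : HasFDerivAt (fun w : E n => w - p *ᵥ w)
    (LinearMap.toContinuousLinearMap (Matrix.toLin' (1 - p))) z := by
  have h : (fun w : E n => w - p *ᵥ w) = LinearMap.toContinuousLinearMap (Matrix.toLin' (1 - p)) :=
    funext fun w => by simp
  rw [h]
  exact ContinuousLinearMap.hasFDerivAt _

theorem off_hol (p : Mat n) (z : E n) : HolN (fun w : E n => w - p *ᵥ w) z :=
  Eventually.of_forall fun w => (off_has p w).differentiableAt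

theorem off_jm (p : Mat n) (z : E n) : jm (fun w : E n => w - p *ᵥ w) z = 1 - p := by
  ext i j
  rw [jm, Matrix.of_apply, (off_has p z).fderiv]
  simp [Matrix.one_apply, Pi.single_apply]

/-- The Jacobian determinant attached to a sheet. -/
def sheetDet (p : Mat n) (Ψ : E n → M.X) (a : M.Ch) (z : E n) : ℂ :=
  Classical.epsilon fun c => ∃ (e : M.Ch) (τ : E n), M.IvC Ψ e ∧ PerC p Ψ τ ∧ z + τ ∈ e.target ∧
    c = (M.J e a (Ψ z)).det

theorem sheetDet_per (hτ : PerC p Ψ τ) : sheetDet p Ψ a (z + τ) = sheetDet p Ψ a z := by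
  refine congrArg Classical.epsilon (funext fun c => propext ⟨?_, ?_⟩)
  · rintro ⟨e, σ, h1, h2, h3, h4⟩
    exact ⟨e, τ + σ, h1, (perG p Ψ).add_mem hτ h2, by rwa [← add_assoc], by rwa [hτ.2] at h4⟩
  · rintro ⟨e, σ, h1, h2, h3, h4⟩
    exact ⟨e, -τ + σ, h1, (perG p Ψ).add_mem ((perG p Ψ).neg_mem hτ) h2,
      by rwa [← add_assoc, add_neg_cancel_right], by rwa [hτ.2]⟩

theorem sheetDet_eq (h : M.IvC Ψ a') (hz : z ∈ a'.target) (ha : a ∈ M.C) (hx : Ψ z ∈ a.source) :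
    sheetDet p Ψ a z = (M.J a' a (Ψ z)).det := by
  obtain ⟨e, σ, h1, h2, h3, h4⟩ := Classical.epsilon_spec (p := fun c => ∃ (e : M.Ch) (τ : E n),
    M.IvC Ψ e ∧ PerC p Ψ τ ∧ z + τ ∈ e.target ∧ c = (M.J e a (Ψ z)).det)
    ⟨_, a', 0, h, (perG p Ψ).zero_mem, by rwa [add_zero], rfl⟩
  have h5 : Ψ z ∈ e.source := h2.2 z ▸ (h1.mem h3).1
  rw [sheetDet, h4, ((mTR n M).2.1 e h1.1 a' h.1 (Ψ z) h5 (h.mem hz).1).2.2.2.2 a ha hx,
    h1.J_one h h2.2 h3 hz, one_mul]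

/-- The section off the divisor. -/
def rawSec (f : M.Fam ℂ) (m : ℕ) (p : Mat n) (Ψ : E n → M.X) (F : M.X → Finset (E n)) (e₀ : M.Ch)
    (χ : E n → ℂ) (q : ℕ) (a : M.Ch) (y : M.X) : ℂ :=
  f a (a y) ^ q * ∑ z ∈ F y, χ (z - p *ᵥ z) * (sheetDet p Ψ a z ^ m / f e₀ (z - p *ᵥ z)) ^ q

theorem rawSec_loc (hU : St_UNT) {L : M.Co} {f : M.Fam ℂ} {φ : M.Fam ℝ} (m : ℕ) {r₁ : ℝ}
    {Q : M.Ch → Prop} {F : M.X → Finset (E n)} {e₀ : M.Ch} {χ : E n → ℂ} (hD : M.Dw L f φ)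
    (h1 : 0 < r₁) (hF : M.Fb p Ψ r₁ Q F) (h0 : M.IvC Ψ e₀)
    (hb : closedBall 0 (2 * r₁) ⊆ e₀.target)
    (hN : ∀ z, ‖z - p *ᵥ z‖ ≤ 3 * r₁ → M.nrC φ f (Ψ (z - p *ᵥ z)) = M.nrC φ f (Ψ z))
    (hχ : ∀ w, 2 * r₁ < ‖w‖ → χ w = 0) (x : M.X) :
    ∃ (k : ℕ) (e : Fin k → M.Ch) (u : Fin k → E n → ℂ), (∀ b, M.IvC Ψ (e b) ∧ Q (e b) ∧
      x ∈ (e b).source ∧ ‖e b x - p *ᵥ e b x‖ ≤ 2 * r₁ ∧ HolN (u b) (e b x) ∧ u b (e b x) ≠ 0) ∧
      (Ψ 0 = x → Nonempty (Fin k)) ∧ ∀ᶠ y in 𝓝 x, (∀ b, y ∈ (e b).source) ∧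
        (M.nrC φ f y ≠ 0 → ∀ a ∈ M.C, y ∈ a.source → ∀ q, rawSec f m p Ψ F e₀ χ q a y =
          ∑ b, χ (e b y - p *ᵥ e b y) * (u b (e b y) * (L.tw m).c (e b) a y) ^ q) := by
  obtain ⟨k, e, he, hy⟩ := hF.loc x
  have key : ∀ b, ∃ u, HolN u (e b x) ∧ u (e b x) ≠ 0 ∧
      ∀ᶠ w in 𝓝 (e b x), f (e b) w = u w * f e₀ (w - p *ᵥ w) := fun b => by
    obtain ⟨b1, -, b3, b4⟩ := he b
    refine hU n M L f φ p Ψ e₀ (e b) (e b x) hD h0 b1 ((e b).map_source b3)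
      (hb (mem_closedBall_zero_iff.2 b4)) ?_
    have c : ContinuousAt (fun w : E n => ‖w - p *ᵥ w‖) (e b x) :=
      (continuous_id.sub (cont_mulVec p)).norm.continuousAt
    exact (c.eventually_lt continuousAt_const (g := fun _ => 3 * r₁)
      (by linarith)).mono fun w hw => hN w hw.le
  choose u hu using key
  refine ⟨k, e, u, fun b => ⟨(he b).1, (he b).2.1, (he b).2.2.1, (he b).2.2.2, (hu b).1,
    (hu b).2.1⟩, fun hx => ?_, ?_⟩
  · obtain ⟨b, -⟩ := hy.self_of_nhds.2.1 0 hx (by simpa using h1.le)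
    exact ⟨b⟩
  have hv : ∀ᶠ y in 𝓝 x, ∀ b, f (e b) (e b y) = u b (e b y) * f e₀ (e b y - p *ᵥ e b y) :=
    eventually_all.2 fun b => ((e b).continuousAt (he b).2.2.1).eventually (hu b).2.2
  filter_upwards [hy, hv] with y ⟨y1, _, y3⟩ y4
  refine ⟨y1, fun hn a ha hya q => ?_⟩
  rw [rawSec, y3 _ (fun z τ hτ => by simp only [hτ.off, sheetDet_per hτ])
    (fun z hz => by rw [hχ _ hz, zero_mul]), Finset.mul_sum]
  refine Finset.sum_congr rfl fun b _ => ?_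
  have t := (e b).map_source (y1 b)
  have s : Ψ (e b y) = y := ((he b).1.2 _ t).trans ((e b).left_inv (y1 b))
  have c := hD.hol.cmp (e b) (he b).1.1 a ha y (y1 b) hya
  have d := (hD.hol.toSecC.ne_iff (he b).1.1 (y1 b)).1 (nrC_ne.1 hn)
  beta_reduce at c
  rw [y4 b] at c d
  have g := right_ne_zero_of_mul d
  rw [sheetDet_eq (he b).1 t ha (s.symm ▸ hya), s, c, mul_left_comm, ← mul_pow]
  refine congrArg (fun v => χ (e b y - p *ᵥ e b y) * v ^ q) ?_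
  simp only [Co.tw]
  field_simp

/-- One sheet, read in the chart `a`. -/
theorem sheet {P : M.Fam (Mat n)} (L : M.Co) (hP : M.End P) (hp : p * p = p) {x : M.X}
    {u : E n → ℂ} (ha : a ∈ M.C) (ha' : a' ∈ M.C) (hx : x ∈ a.source) (hx' : x ∈ a'.source)
    (hc : M.CsC P p a') (hu : HolN u (a' x)) (q : ℕ) :
    HolN (fun w => a' (a.symm w) - p *ᵥ a' (a.symm w)) (a x) ∧
      HolN (fun w => (u (a' (a.symm w)) * L.c a' a (a.symm w)) ^ q) (a x) ∧
      jm (fun w => a' (a.symm w) - p *ᵥ a' (a.symm w)) (a x) * P a (a x) = 0 := by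
  have t := ((mTR n M).2.1 a' ha' a ha x hx' hx).1
  obtain ⟨c1, -, -, -, -, -, -, -, c9, -⟩ := mCHN n _ _ t
  obtain ⟨d1, d2⟩ := c9 _ (off_hol p _)
  have e : (a' ∘ a.symm) (a x) = a' x := by simp only [Function.comp_apply, a.left_inv hx]
  refine ⟨d1, ?_, ?_⟩
  · have v : ∀ᶠ w in 𝓝 (a x), DifferentiableAt ℂ u ((a' ∘ a.symm) w) :=
      c1.continuousAt.eventually (e ▸ hu)
    filter_upwards [t, v, L.hol a' ha' a ha x hx' hx] with w w1 w2 w3
    exact ((w2.comp w w1).mul w3).pow q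
  · have g := hP.cmp a' ha' a ha x hx' hx
    beta_reduce at g
    rw [hc _ (a'.map_source hx')] at g
    rw [off_jm] at d2
    refine (congrArg (· * P a (a x)) d2).trans ?_
    change (1 - p) * M.J a' a x * P a (a x) = 0
    rw [mul_assoc, g, ← mul_assoc, sub_mul, one_mul, hp, sub_self, zero_mul]

/-- The `(0,1)` derivative of one term vanishes on the kernel of the Jacobian matrix. -/
theorem term_dzb {ψ : E n → E n} {G χ : E n → ℂ} {A : Mat n} (hψ : HolN ψ z) (hG : HolN G z)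
    (hχ : ContDiff ℝ ∞ χ) (hA : jm ψ z * A = 0) (l : Fin n) :
    ∑ i, star (A i l) * dzb i (fun w => χ (ψ w) * G w) z = 0 := by
  obtain ⟨c1, -, -, -, -, -, -, -, -, c10, -⟩ := mCHN n _ _ hψ
  have g := cd_diff ((mHOL n G z).2.2 hG).1
  have g0 := ((mHOL n G z).1 g).1 hG.self_of_nhds
  have d : DifferentiableAt ℝ (fun w => χ (ψ w)) z := cd_diff (hχ.contDiffAt.comp z c1)
  have h : ∀ i, dzb i (fun w => χ (ψ w) * G w) z =
      (∑ c, dzb c χ (ψ z) * star (jm ψ z c i)) * G z := fun i => by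
    rw [dzb_mul d g, g0, mul_zero, add_zero]
    exact congrArg (· * G z) (c10 χ (cd_diff hχ.contDiffAt) i).2
  have k : ∀ c, ∑ i, star (A i l) * star (jm ψ z c i) = 0 := fun c => by
    have := congrArg (fun B : Mat n => star (B c l)) hA
    simpa only [Matrix.mul_apply, star_sum, star_mul, Matrix.zero_apply, star_zero] using this
  simp only [h, Finset.sum_mul, Finset.mul_sum]
  rw [Finset.sum_comm]
  refine Finset.sum_eq_zero fun c _ => ?_
  rw [← mul_zero (dzb c χ (ψ z) * G z), ← k c, Finset.mul_sum]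
  exact Finset.sum_congr rfl fun i _ => by ring

theorem term_sm {ψ : E n → E n} {G χ : E n → ℂ} (hψ : HolN ψ z) (hG : HolN G z)
    (hχ : ContDiff ℝ ∞ χ) : ∀ᶠ w in 𝓝 z, ContDiffAt ℝ ∞ (fun w => χ (ψ w) * G w) w := by
  filter_upwards [hψ.eventually_nhds, hG.eventually_nhds] with w h1 h2
  exact (hχ.contDiffAt.comp w (mCHN n _ _ h1).1).mul ((mHOL n G w).2.2 h2).1

end T39

open T39 in
theorem st_SIG (hU : St_UNT) (hE : St_EXTD) : St_SIG := by
  intro n M P L f φ m p Ψ r₁ r₂ K F e₀ hP hD hp hS hF h0 hb hN q₀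
  have h1 := hS.p1
  obtain ⟨χ, χ1, χ2, χ3⟩ : ∃ χ : E n → ℂ, ContDiff ℝ ∞ χ ∧ (∀ w, ‖w‖ < r₁ → χ w = 1) ∧
      ∀ w, 2 * r₁ < ‖w‖ → χ w = 0 := by
    let β : ContDiffBump (0 : E n) := ⟨r₁, 2 * r₁, h1, by linarith⟩
    refine ⟨fun w => (β w : ℝ), ofRealCLM.contDiff.comp β.contDiff, fun w hw => ?_, fun w hw => ?_⟩
    · beta_reduce
      rw [β.one_of_mem_closedBall (mem_closedBall_zero_iff.2 hw.le), ofReal_one]
    · beta_reduce
      rw [β.zero_of_le_dist (by rw [dist_zero_right]; exact hw.le), ofReal_zero]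
  choose k e u he hne hy using rawSec_loc hU m hD h1 hF h0 hb hN χ3
  have one : ∀ x ∉ K, ∀ b, ‖e x b x - p *ᵥ e x b x‖ < r₁ := fun x hx b => by
    obtain ⟨b1, -, b3, b4, -⟩ := he x b
    refine hS.ins _ b4 ?_
    rwa [b1.2 _ ((e x b).map_source b3), (e x b).left_inv b3]
  obtain ⟨z1, z2⟩ := h0.mem (hb (mem_closedBall_self (by linarith)))
  have zK : Ψ 0 ∉ K := fun h => by
    have := hS.out 0 (by simpa using h1.le) h
    rw [Matrix.mulVec_zero, sub_zero, norm_zero] at this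
    exact hS.p2.not_ge this
  obtain ⟨q, hq, hq0⟩ := exists_pow_sum Finset.univ
    (fun b => u (Ψ 0) b (e (Ψ 0) b (Ψ 0)) * (L.tw m).c (e (Ψ 0) b) e₀ (Ψ 0))
    (let ⟨b⟩ := hne (Ψ 0) rfl
     ⟨b, Finset.mem_univ b, mul_ne_zero (he _ b).2.2.2.2.2
      ((L.tw m).ne _ (he _ b).1.1 _ h0.1 _ (he _ b).2.2.1 z1)⟩) q₀
  let S : M.Ch → M.X → E n → ℂ := fun a x w => ∑ b,
    χ (e x b (a.symm w) - p *ᵥ e x b (a.symm w)) *
      (u x b (e x b (a.symm w)) * (L.tw m).c (e x b) a (a.symm w)) ^ q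
  have sh := fun a (ha : a ∈ M.C) x (hx : x ∈ a.source) b => sheet (L.tw m) hP hp ha (he x b).1.1 hx
    (he x b).2.2.1 (he x b).2.1 (he x b).2.2.2.2.1 q
  have S1 : ∀ a ∈ M.C, ∀ x ∈ a.source, (∀ᶠ w in 𝓝 (a x), ContDiffAt ℝ ∞ (S a x) w) ∧
      ∀ᶠ y in 𝓝 x, y ∈ {y | M.nrC φ f y ≠ 0} → rawSec f m p Ψ F e₀ χ q a y = S a x (a y) :=
    fun a ha x hx => ⟨(eventually_all.2 fun b => term_sm (sh a ha x hx b).1 (sh a ha x hx b).2.1
      χ1).mono fun w hw => ContDiffAt.sum fun b _ => hw b, by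
      filter_upwards [hy x, a.open_source.eventually_mem hx] with y y1 y2 y3
      simp only [S, a.left_inv y2]
      exact y1.2 y3 a ha y2 q⟩
  obtain ⟨σ, hσ, hσ'⟩ := hE n M ((L.tw m).pw q) _ (rawSec f m p Ψ F e₀ χ q) hD.den
    (fun a ha a' ha' x hx hx' hn => by
      obtain ⟨y1, y2⟩ := (hy x).self_of_nhds
      rw [y2 hn a ha hx, y2 hn a' ha' hx', Finset.sum_mul]
      refine Finset.sum_congr rfl fun b _ => ?_
      rw [(L.tw m).mul _ (he x b).1.1 a ha x (y1 b) hx a' ha' hx']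
      simp only [Co.pw]
      ring)
    fun a ha x hx => ⟨S a x, S1 a ha x hx⟩
  have S2 : ∀ a ∈ M.C, ∀ x ∈ a.source, σ a =ᶠ[𝓝 (a x)] S a x := fun a ha x hx =>
    hσ' a ha x hx _ ((S1 a ha x hx).1.mono fun w hw => hw.continuousAt) (S1 a ha x hx).2
  refine ⟨q, hq, σ, hσ, ?_, allOn_of_source fun a ha x hx => ⟨fun hK => ?_, fun l => ?_⟩⟩
  · have := (S2 e₀ h0.1 _ z1).self_of_nhds
    simp only [S, e₀.left_inv z1, fun b => χ2 _ (one _ zK b), one_mul] at this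
    rw [z2] at this
    rwa [this]
  · rw [a.left_inv hx] at hK
    refine DifferentiableAt.congr_of_eventuallyEq ?_ (S2 a ha x hx)
    refine DifferentiableAt.fun_sum fun b _ => ?_
    obtain ⟨s1, s2, -⟩ := sh a ha x hx b
    refine s2.self_of_nhds.congr_of_eventuallyEq ?_
    have c := s1.self_of_nhds.continuousAt.norm.eventually_lt continuousAt_const
      (g := fun _ => r₁) (by simpa only [a.left_inv hx] using one x hK b)
    exact c.mono fun w hw => by simp only [χ2 _ hw, one_mul]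
  · have d : ∀ i, dzb i (σ a) (a x) = ∑ b, dzb i (fun w =>
        χ (e x b (a.symm w) - p *ᵥ e x b (a.symm w)) *
          (u x b (e x b (a.symm w)) * (L.tw m).c (e x b) a (a.symm w)) ^ q) (a x) := fun i => by
      rw [dzb_congr (S2 a ha x hx)]
      exact dzb_sum fun b _ =>
        cd_diff (term_sm (sh a ha x hx b).1 (sh a ha x hx b).2.1 χ1).self_of_nhds
    simp only [d, Finset.mul_sum]
    rw [Finset.sum_comm]
    exact Finset.sum_eq_zero fun b _ =>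
      term_dzb (sh a ha x hx b).1 (sh a ha x hx b).2.1 χ1 (sh a ha x hx b).2.2 l

end Pool.Agent.Lib.KP
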