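import Pool.Agent.Lib.KP.Blue
import Pool.Agent.Lib.KP.Kit
import Pool.Agent.Lib.HS.B_SIU

/-! The inequality of Hörmander and Siu for sections of a line bundle. -/

open scoped Classical Topology ContDiff ComplexOrder Matrix ENNReal
open Set MeasureTheory Complex Metric Filter

set_option linter.unusedVariables false

noncomputable section

namespace Pool.Agent.Lib.KP

open Pool.Agent.Lib.SV (E)
open Pool.Agent.Lib.HS32 Pool.Agent.Lib.HS21
open Pool.Agent.Lib.HS68 (dual wdv met_loc clo_kl Loc Kl)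
open Pool.Agent.Lib.HS.SIUK (dzb_hol alg det_re)

namespace T60

variable {n : ℕ} (M : Mf n) (H : M.Fam (Mat n)) (φ : M.Fam ℝ) (s : M.Fam ℂ)

/-- The weight of the local densities. -/
def phC : M.Fam ℝ := fun e z => φ e z - Real.log (H e z).det.re

/-- The first field. -/
def u1 : M.Fam (E n) := fun e z l => wdv (phC M H φ e) (dual (H e) (s e)) z *
  star (dual (H e) (s e) z l) * (Real.exp (-phC M H φ e z) : ℝ)

/-- The second field. -/
def u2 : M.Fam (E n) := fun e z k => (∑ l, dzb l (fun x => dual (H e) (s e) x k) z *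
  star (dual (H e) (s e) z l)) * (Real.exp (-phC M H φ e z) : ℝ)

theorem phC_coe (e : M.Ch) :
    (fun z => (phC M H φ e z : ℂ)) = fun z => (φ e z : ℂ) - ld (H e) z := by
  funext z
  simp [phC, ld]

variable {M H φ s} {L : M.Co} {e e' : M.Ch} {z : E n} {x : M.X}

theorem phC_sm (hH : M.Met H) (hw : M.WtC L φ) (he : e ∈ M.C) (hz : z ∈ e.target) :
    ContDiffAt ℝ ∞ (phC M H φ e) z :=
  (hw.sm e he z hz).sub ((cd_re (hH.sm e he z hz).det).log (Mf.pd_det_re (hH.pos e he z hz)).ne')

theorem exp_phC (hH : M.Met H) (he : e ∈ M.C) (hz : z ∈ e.target) :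
    Real.exp (-phC M H φ e z) = Real.exp (-φ e z) * (H e z).det.re := by
  rw [phC, neg_sub, sub_eq_add_neg, Real.exp_add, Real.exp_log (Mf.pd_det_re (hH.pos e he z hz)),
    mul_comm]

theorem hess_phC (hH : M.Met H) (hw : M.WtC L φ) (he : e ∈ M.C) (hz : z ∈ e.target) :
    hess (fun y => (phC M H φ e y : ℂ)) z = (M.hw φ + M.ric H) e z := by
  rw [phC_coe, hess_sub (hw.smC e he z hz) (met_loc hH he hz).smooth_ld, sub_eq_add_neg]
  rfl

theorem boxC_eq (hH : M.Kae H) (hw : M.WtC L φ) (hs : M.SecC L s) (he : e ∈ M.C)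
    (hz : z ∈ e.target) :
    wdv (phC M H φ e) (dual (H e) (s e)) z = (boxC M H φ).ap s e z := by
  have K := met_loc hH.toMet he hz
  have h1 := K.smooth_ld
  rw [K.wdv_dual (phC_sm hH.toMet hw he hz) (hs.sm e he z hz), phC_coe]
  simp only [Op.ap, lop, boxC, Pi.zero_apply, zero_mul, Finset.sum_const_zero, add_zero]
  congr 1
  refine Finset.sum_congr rfl fun l _ => ?_
  congr 1
  have h2 := K.div_cof (clo_kl hH.toClo he hz) l
  have h3 : ∀ k, dz k (fun y => (H e y).det * (H e y)⁻¹ k l) z = (H e z).det *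
      (dz k (ld (H e)) z * (H e z)⁻¹ k l + dz k (fun y => (H e y)⁻¹ k l) z) := fun k => by
    rw [dz_mul (cd_diff K.sm.det) (K.smM_inv.diff k l), K.dz_det, K.dz_ld]
    ring
  simp only [h3] at h2
  rw [← Finset.mul_sum] at h2
  have h4 := (mul_eq_zero.1 h2).resolve_left K.det_ne
  rw [eq_neg_iff_add_eq_zero, ← Finset.sum_add_distrib, ← h4]
  refine Finset.sum_congr rfl fun k _ => ?_
  rw [dz_sub (cd_diff (hw.smC e he z hz)) (cd_diff h1)]
  ring

theorem expC_cmp (hH : M.Met H) (hw : M.WtC L φ) (he : e ∈ M.C) (he' : e' ∈ M.C)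
    (hx : x ∈ e.source) (hx' : x ∈ e'.source) :
    ((Real.exp (-phC M H φ e' (e' x)) : ℝ) : ℂ) * (L.c e e' x * star (L.c e e' x)) =
    (normSq (M.J e e' x).det : ℂ) * (Real.exp (-phC M H φ e (e x)) : ℝ) := by
  have h1 := normSq_pos.2 (L.ne e he e' he' x hx hx')
  have h2 := hw.cmp e he e' he' x hx hx'
  beta_reduce at h2
  rw [exp_phC hH he (e.map_source hx), exp_phC hH he' (e'.map_source hx'),
    hH.cmp e he e' he' x hx hx', det_re _ (hH.herm e he _ (e.map_source hx)), h2,
    show L.c e e' x * star (L.c e e' x) = (normSq (L.c e e' x) : ℂ) from mul_conj _,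
    ← ofReal_mul, ← ofReal_mul, neg_add, Real.exp_add, Real.exp_neg (Real.log _), Real.exp_log h1]
  congr 1
  field_simp

theorem dualC_cmp (hH : M.Met H) (hs : M.SecC L s) :
    M.Ov fun e e' x => M.J e e' x *ᵥ dual (H e') (s e') (e' x) =
      L.c e e' x • dual (H e) (s e) (e x) := by
  intro e he e' he' x hx hx'
  obtain ⟨hN, hJ, -, -, -⟩ := (mTR n M).2.1 e he e' he' x hx hx'
  have hψ : (e ∘ e'.symm) (e' x) = e x := by simp [e'.left_inv hx']
  obtain ⟨c1, -, -, -, -, -, -, -, -, c10, -⟩ := mCHN n _ _ hN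
  have d1 : DifferentiableAt ℝ (s e) ((e ∘ e'.symm) (e' x)) := by
    rw [hψ]
    exact cd_diff (hs.sm e he _ (e.map_source hx))
  have d2 : DifferentiableAt ℂ (fun y => L.c e e' (e'.symm y)) (e' x) :=
    (L.hol e he e' he' x hx hx').self_of_nhds
  have heq : s e' =ᶠ[𝓝 (e' x)] fun y => (s e ∘ (e ∘ e'.symm)) y * L.c e e' (e'.symm y) :=
    hs.ev e he e' he' x hx hx'
  have hb : (fun i => dzb i (s e') (e' x)) =
      L.c e e' x • ((M.J e e' x)ᴴ *ᵥ fun a => dzb a (s e) (e x)) := by
    funext i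
    rw [dzb_congr heq, dzb_mul (d1.comp _ (cd_diff c1)) (d2.restrictScalars ℝ), dzb_hol d2,
      (c10 _ d1 i).2, hψ, mul_zero, add_zero, mul_comm, e'.left_inv hx']
    simp only [Matrix.mulVec, dotProduct, Matrix.conjTranspose_apply, Mf.J, Pi.smul_apply,
      smul_eq_mul]
    congr 1
    exact Finset.sum_congr rfl fun a _ => mul_comm _ _
  simp only [dual]
  rw [hb, hH.cmp e he e' he' x hx hx', alg hJ]

theorem ddualC_cmp (hH : M.Met H) (hs : M.SecC L s) :
    M.Ov fun e e' x => ∀ k l, ∑ a, M.J e e' x k a * dzb l (fun y => dual (H e') (s e') y a) (e' x) =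
      L.c e e' x *
        ∑ b, dzb b (fun y => dual (H e) (s e) y k) (e x) * star (M.J e e' x b l) := by
  intro e he e' he' x hx hx' k l
  obtain ⟨hN, hJ, -, hev, -⟩ := (mTR n M).2.1 e he e' he' x hx hx'
  have hψ : (e ∘ e'.symm) (e' x) = e x := by simp [e'.left_inv hx']
  obtain ⟨c1, c2, -, c4, -, -, -, -, -, c10, -⟩ := mCHN n _ _ hN
  have s1 := (met_loc hH he (e.map_source hx)).smooth_dual (hs.sm e he _ (e.map_source hx))
  have s2 := (met_loc hH he' (e'.map_source hx')).smooth_dual (hs.sm e' he' _ (e'.map_source hx'))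
  have d1 : DifferentiableAt ℝ (fun y => dual (H e) (s e) y k) ((e ∘ e'.symm) (e' x)) := by
    rw [hψ]
    exact cd_diff (contDiffAt_pi.1 s1 k)
  have d2 : DifferentiableAt ℂ (fun y => L.c e e' (e'.symm y)) (e' x) :=
    (L.hol e he e' he' x hx hx').self_of_nhds
  have heq : (fun y => ∑ a, jm (e ∘ e'.symm) y k a * dual (H e') (s e') y a) =ᶠ[𝓝 (e' x)]
      fun y => L.c e e' (e'.symm y) *
        ((fun y => dual (H e) (s e) y k) ∘ (e ∘ e'.symm)) y := by
    filter_upwards [hev] with y hy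
    have := congrFun (dualC_cmp hH hs e he e' he' _ hy.2.1 hy.2.2.1) k
    rw [hy.2.2.2.2.2.1, hy.2.2.2.2.2.2] at this
    exact this
  have h := dzb_congr (j := l) heq
  rw [dzb_mul (d2.restrictScalars ℝ) (d1.comp _ (cd_diff c1)), dzb_hol d2, (c10 _ d1 l).2, hψ,
    zero_mul, zero_add, e'.left_inv hx',
    dzb_sum fun a _ => (c2.diff k a).fun_mul (cd_diff (contDiffAt_pi.1 s2 a))] at h
  refine Eq.trans (Finset.sum_congr rfl fun a _ => ?_) h
  rw [dzb_mul (c2.diff k a) (cd_diff (contDiffAt_pi.1 s2 a)),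
    show dzb l (fun y => jm (e ∘ e'.symm) y k a) (e' x) = 0 from congrFun (congrFun (c4 l) k) a,
    zero_mul, zero_add]
  rfl

theorem vdenC1 (hBOX : St_BOXOK) (hH : M.Kae H) (hw : M.WtC L φ) (hs : M.SecC L s) :
    M.VDen fun e z => star (u1 M H φ s e z) := by
  refine ⟨fun e he z hz => contDiffAt_pi.2 fun l => ?_, fun e he e' he' x hx hx' => ?_⟩
  · have s1 := (met_loc hH.toMet he hz).smooth_dual (hs.sm e he z hz)
    have s2 := phC_sm hH.toMet hw he hz
    exact cd_star (((HS68.smooth_wdv s2 s1).mul (cd_star (contDiffAt_pi.1 s1 l))).mul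
      (cd_ofReal s2.neg.exp))
  have h1 := ((hBOX n M H L φ hH.toMet hw).sec s hs).cmp e he e' he' x hx hx'
  beta_reduce at h1 ⊢
  rw [← boxC_eq hH hw hs he (e.map_source hx), ← boxC_eq hH hw hs he' (e'.map_source hx')] at h1
  have h2 := expC_cmp hH.toMet hw he he' hx hx'
  have h3 := dualC_cmp hH.toMet hs e he e' he' x hx hx'
  have e1 : ∀ (a : M.Ch) (y : E n), star (u1 M H φ s a y) =
      (star (wdv (phC M H φ a) (dual (H a) (s a)) y) * (Real.exp (-phC M H φ a y) : ℝ)) •
        dual (H a) (s a) y := fun a y => by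
    funext l
    simp only [u1, Pi.star_apply, star_mul', star_star, Pi.smul_apply, smul_eq_mul]
    rw [show star ((Real.exp (-phC M H φ a y) : ℝ) : ℂ) = _ from conj_ofReal _]
    ring
  rw [e1, e1, Matrix.mulVec_smul, h3, h1, smul_smul, smul_smul, star_mul']
  congr 1
  linear_combination star (wdv (phC M H φ e) (dual (H e) (s e)) (e x)) * h2

theorem vdenC2 (hH : M.Met H) (hw : M.WtC L φ) (hs : M.SecC L s) : M.VDen (u2 M H φ s) := by
  refine ⟨fun e he z hz => contDiffAt_pi.2 fun k => ?_, fun e he e' he' x hx hx' => ?_⟩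
  · have s1 := (met_loc hH he hz).smooth_dual (hs.sm e he z hz)
    have s2 := phC_sm hH hw he hz
    exact (ContDiffAt.sum fun l _ => (cd_dzb (contDiffAt_pi.1 s1 k) l).mul
      (cd_star (contDiffAt_pi.1 s1 l))).mul (cd_ofReal s2.neg.exp)
  have h2 := expC_cmp hH hw he he' hx hx'
  have h3 := dualC_cmp hH hs e he e' he' x hx hx'
  have h4 := ddualC_cmp hH hs e he e' he' x hx hx'
  funext k
  have h5 : ∀ b, ∑ l, star (M.J e e' x b l) * star (dual (H e') (s e') (e' x) l) =
      star (L.c e e' x) * star (dual (H e) (s e) (e x) b) := fun b => by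
    have := congrArg star (congrFun h3 b)
    simpa only [Matrix.mulVec, dotProduct, star_sum, star_mul', Pi.smul_apply, smul_eq_mul]
      using this
  have h6 : ∑ a, M.J e e' x k a * ∑ l, dzb l (fun y => dual (H e') (s e') y a) (e' x) *
      star (dual (H e') (s e') (e' x) l) = L.c e e' x * star (L.c e e' x) *
        ∑ b, dzb b (fun y => dual (H e) (s e) y k) (e x) * star (dual (H e) (s e) (e x) b) := by
    calc _ = ∑ l, (∑ a, M.J e e' x k a * dzb l (fun y => dual (H e') (s e') y a) (e' x)) *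
          star (dual (H e') (s e') (e' x) l) := by
          simp only [Finset.mul_sum, Finset.sum_mul, mul_assoc]
          exact Finset.sum_comm
      _ = L.c e e' x * ∑ b, dzb b (fun y => dual (H e) (s e) y k) (e x) *
          ∑ l, star (M.J e e' x b l) * star (dual (H e') (s e') (e' x) l) := by
          simp only [h4 k]
          simp only [Finset.mul_sum, Finset.sum_mul, mul_assoc]
          exact Finset.sum_comm
      _ = _ := by
          simp only [h5]
          rw [mul_assoc]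
          congr 1
          rw [Finset.mul_sum]
          exact Finset.sum_congr rfl fun b _ => mul_left_comm _ _ _
  simp only [Matrix.mulVec, dotProduct, u2, Pi.smul_apply, smul_eq_mul, ← mul_assoc]
  rw [← Finset.sum_mul, h6]
  linear_combination (∑ b, dzb b (fun y => dual (H e) (s e) y k) (e x) *
    star (dual (H e) (s e) (e x) b)) * h2

theorem arithC {q a N d E : ℝ} (hN : 0 ≤ N) (hd : 0 < d) (hE : 0 < E) :
    q * E ≤ a * E - (a - q - N) * (E * d) / d := by
  have : a * E - (a - q - N) * (E * d) / d = q * E + N * E := by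
    field_simp
    ring
  rw [this]
  exact le_add_of_nonneg_right (by positivity)

theorem pointC (hH : M.Kae H) (hw : M.WtC L φ) (hs : M.SecC L s) (x : M.X) :
    wqC M H φ (M.hw φ + M.ric H) s x ≤ M.nrC φ ((boxC M H φ).ap s) x -
        (M.ev (fun e z => dvb (u1 M H φ s e) z / (H e z).det) x -
          M.ev (fun e z => dv (u2 M H φ s e) z / (H e z).det) x).re := by
  have he := Mf.ch_mem x
  have hz := Mf.ch_tgt x
  have K := met_loc hH.toMet he hz
  have s0 := hs.sm _ he _ hz
  have h1 := HS68.hor_div (phC_sm hH.toMet hw he hz) (K.smooth_dual s0)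
  have h2 := (Complex.nonneg_iff.1 (K.hor_nonneg (clo_kl hH.toClo he hz) s0)).1
  have h3 := Mf.pd_det_re K.pos
  have h4 : M.ev (fun e z => dvb (u1 M H φ s e) z / (H e z).det) x -
      M.ev (fun e z => dv (u2 M H φ s e) z / (H e z).det) x = _ :=
    (sub_div _ _ _).symm.trans (congrArg (· / (H (M.ch x) (M.ch x x)).det) h1)
  rw [h4, boxC_eq hH hw hs he hz, hess_phC hH.toMet hw he hz, exp_phC hH.toMet he hz,
    ← Mf.herm_det K.pos.1, div_ofReal_re, re_mul_ofReal, ofReal_re, sub_re, sub_re,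
    show ∀ a : ℂ, a * star a = (normSq a : ℂ) from mul_conj, ofReal_re]
  exact arithC h2 h3 (Real.exp_pos _)

end T60

open T60 in
theorem st_SIU (hSC : St_SC5) (hBOX : St_BOXOK) : St_SIU := by
  intro n M hM H L φ s hH hw hs
  have hm := hH.toMet
  have hint := (mMU n M H hm).2.2.2.2.1
  obtain ⟨-, a1, a2⟩ := (mDIV n M H hm).2.2 _ (vdenC1 hBOX hH hw hs)
  obtain ⟨-, b1, b2⟩ := (mDIV n M H hm).2.1 _ (vdenC2 hm hw hs)
  have i1 := hint ℂ _ a1.continuous
  have i2 := hint ℂ _ b1.continuous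
  have i3 := (i1.sub i2).re
  have h1 := integral_re (i1.sub i2)
  rw [integral_sub' i1 i2, a2 hM, b2 hM, sub_zero, map_zero] at h1
  have hT : M.Ten (M.hw φ + M.ric H) :=
    hw.clo.toTen.add ((mHES n M).2.2.2.2.2.2.2.2.1 H hm).toTen
  have hb := (hBOX n M H L φ hm hw).sec s hs
  have i4 := hint ℝ _ ((hSC n M H L φ s s hm hw hs hs).2.2.2.2.2.2.2.2.2 _ hT).2
  have i5 := hint ℝ _ (hSC n M H L φ _ _ hm hw hb hb).2.2.2.1
  have h2 := integral_mono i4 (i5.sub i3) fun x => pointC hH hw hs x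
  rw [integral_sub' i5 i3, h1, sub_zero] at h2
  exact h2

end Pool.Agent.Lib.KP
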