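import Pool.Agent.Lib.KP.Blue
import Pool.Agent.Lib.KP.Kit
import Pool.Agent.Lib.HS.B_SLIM
import Pool.Agent.Lib.HS.B_LIMH1

/-! Project kp71: holomorphic limit of a family of sections. -/

open scoped Classical Topology ContDiff ComplexOrder Matrix ENNReal
open Set MeasureTheory Complex Metric Filter

noncomputable section

namespace Pool.Agent.Lib.KP

open Pool.Agent.Lib.SV (E)
open Pool.Agent.Lib.HS32 Pool.Agent.Lib.HS21
open Pool.Agent.Lib.HS (db)
open Pool.Agent.Lib.HS.BSLIM (dom small det_cont det_pos l1)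

namespace T34

variable {n : ℕ} {M : Mf n} {H : M.Fam (HS32.Mat n)} {L : M.Co} {φ : M.Fam ℝ}

/-- The limit in one chart. -/
theorem slim_chart (hSC : St_SC5) [M.Cpt] (hH : M.Met H) (hφ : M.WtC L φ)
    {ι : Type} {l : Ultrafilter ι} {s : ι → M.Fam ℂ} {C : ℝ} (hs : ∀ a, M.SecC L (s a))
    (hC : ∀ a, ∫ x, M.nrC φ (s a) x ∂M.mu H ≤ C)
    (hd : Tendsto (fun a => ∫ x, (dpC M H φ (s a) (s a) x).re ∂M.mu H) l (𝓝 0))
    {e : M.Ch} (he : e ∈ M.C) : ∃ P : E n → ℂ, DifferentiableOn ℂ P e.target ∧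
      ∀ K, IsCompact K → K ⊆ e.target →
        Tendsto (fun a => ∫⁻ z in K, ‖s a e z - P z‖ₑ) l (𝓝 0) := by
  have hB : ∀ K, IsCompact K → K ⊆ e.target → ∃ B, 0 < B ∧
      ∀ z ∈ K, ((H e z).det.re * Real.exp (-φ e z))⁻¹ ≤ B := fun K hK hK' =>
    BBD.up hK fun z hz => ((det_cont hH he (hK' hz)).mul
      (hφ.sm e he z (hK' hz)).continuousAt.neg.rexp).inv₀
      (mul_pos (det_pos hH he (hK' hz)) (Real.exp_pos _)).ne'
  refine HS.st_LIMH1 n ι l (fun a => s a e) e.target e.open_target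
    (fun a z hz => cd_le ((hs a).sm e he z hz) 1) (fun K hK hK' => ?_) fun K hK hK' j => ?_
  · obtain ⟨B, B0, hB⟩ := hB K hK hK'
    refine ⟨ENNReal.ofReal 1 * volume K + ENNReal.ofReal (B / 1 * C),
      ENNReal.add_ne_top.2 ⟨ENNReal.mul_ne_top ENNReal.ofReal_ne_top hK.measure_lt_top.ne,
        ENNReal.ofReal_ne_top⟩, fun a => ?_⟩
    obtain ⟨-, -, h1, h2, -, -, -, -, h3, -⟩ := hSC n M H L φ _ _ hH hφ (hs a) (hs a)
    refine (l1 mMU hH he hK hK' h2 (fun x => (h3 x).1) B0.le (fun z hz => ?_) one_pos).trans ?_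
    · have h4 := det_pos hH he (hK' hz)
      have h5 := Real.exp_pos (-φ e z)
      rw [h1 e he z (hK' hz)]
      beta_reduce
      rw [normSq_eq_norm_sq]
      calc ‖s a e z‖ ^ 2 = ((H e z).det.re * Real.exp (-φ e z))⁻¹ *
            ((H e z).det.re * (‖s a e z‖ ^ 2 * Real.exp (-φ e z))) := by field_simp
        _ ≤ _ := by gcongr; exact hB z hz
    · gcongr
      exact hC a
  · obtain ⟨B, B0, hB⟩ := hB K hK hK'
    obtain ⟨c, c0, hc⟩ := BBD.low hK (T := fun z => (H e z)⁻¹)
      (fun z hz => (hH.sm e he z (hK' hz)).inv (hH.det_ne e he z (hK' hz)))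
      fun z hz => (hH.pos e he z (hK' hz)).inv
    refine small (V := volume K) hK.measure_lt_top.ne (A := B / c) hd fun ε hε a => ?_
    obtain ⟨-, -, -, -, -, -, h1, h2, h3, -⟩ := hSC n M H L φ _ _ hH hφ (hs a) (hs a)
    refine l1 mMU hH he hK hK' (continuous_re.comp h2) (fun x => (h3 x).2.2.1) (by positivity)
      (fun z hz => ?_) hε
    have h4 := det_pos hH he (hK' hz)
    have h9 := Real.exp_pos (-φ e z)
    have h5 : (dpC M H φ (s a) (s a) (e.symm z)).re =
        nq (H e z)⁻¹ (db M (s a) e z) * Real.exp (-φ e z) := by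
      rw [h1 e he z (hK' hz)]
      beta_reduce
      rw [re_mul_ofReal, nq]
    have h6 : ‖dzb j (s a e) z‖ ≤ ‖db M (s a) e z‖ := norm_le_pi_norm (db M (s a) e z) j
    have h7 := hc z hz (db M (s a) e z)
    have h8 : 0 ≤ nq (H e z)⁻¹ (db M (s a) e z) := le_trans (by positivity) h7
    rw [Function.comp_apply, h5]
    calc ‖dzb j (s a e) z‖ ^ 2 ≤ c * ‖db M (s a) e z‖ ^ 2 / c := by
          rw [mul_div_cancel_left₀ _ c0.ne']
          gcongr
      _ ≤ nq (H e z)⁻¹ (db M (s a) e z) / c := by gcongr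
      _ = ((H e z).det.re * Real.exp (-φ e z))⁻¹ / c *
            ((H e z).det.re * (nq (H e z)⁻¹ (db M (s a) e z) * Real.exp (-φ e z))) := by
          field_simp
      _ ≤ _ := by gcongr; exact hB z hz

/-- The limits in two charts agree. -/
theorem slim_ovl [M.Cpt] (hH : M.Met H)
    {ι : Type} {l : Ultrafilter ι} {s : ι → M.Fam ℂ} (hs : ∀ a, M.SecC L (s a))
    {e e' : M.Ch} (he : e ∈ M.C) (he' : e' ∈ M.C) {P P' : E n → ℂ}
    (hP : ContinuousOn P e.target) (hP' : ContinuousOn P' e'.target)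
    (h : ∀ K, IsCompact K → K ⊆ e.target → Tendsto (fun a => ∫⁻ z in K, ‖s a e z - P z‖ₑ) l (𝓝 0))
    (h' : ∀ K, IsCompact K → K ⊆ e'.target →
      Tendsto (fun a => ∫⁻ z in K, ‖s a e' z - P' z‖ₑ) l (𝓝 0))
    {x : M.X} (hx : x ∈ e.source) (hx' : x ∈ e'.source) :
    P' (e' x) = P (e x) * L.c e e' x := by
  obtain ⟨-, -, -, -, -, hc, -⟩ := mMU n M H hH
  have hU : IsOpen (e'.target ∩ e'.symm ⁻¹' e.source) :=
    e'.symm.isOpen_inter_preimage e.open_source
  have hψ : ContinuousOn (e ∘ e'.symm) (e'.target ∩ e'.symm ⁻¹' e.source) :=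
    (M.hol e he e' he').continuousOn
  have hJ : ∀ z ∈ e'.target ∩ e'.symm ⁻¹' e.source,
      ContinuousAt (fun w => L.c e e' (e'.symm w)) z := fun z hz => by
    have h1 := L.sm e he e' he' _ hz.2 (e'.map_target hz.1)
    beta_reduce at h1
    rw [e'.right_inv hz.1] at h1
    exact h1.continuousAt
  have key := HS66.lim_uniq (l := (l : Filter ι)) (Q := fun a => s a e') (P := P')
    (P' := fun z => P ((e ∘ e'.symm) z) * L.c e e' (e'.symm z)) hU
    (fun a z hz => ((hs a).sm e' he' z hz.1).continuousAt.continuousWithinAt)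
    (hP'.mono inter_subset_left)
    ((hP.comp hψ fun z hz => e.map_source hz.2).mul
      fun z hz => (hJ z hz).continuousWithinAt)
    (fun K hK hK' => h' K hK (hK'.trans inter_subset_left)) fun K hK hK' => ?_
  · have h2 : e'.symm (e' x) = x := e'.left_inv hx'
    have := key (x := e' x) ⟨e'.map_source hx', by rwa [mem_preimage, h2]⟩
    simpa only [Function.comp_apply, h2] using this
  have hK1 : K ⊆ e'.target := hK'.trans inter_subset_left
  have hL : IsCompact ((e ∘ e'.symm) '' K) := hK.image_of_continuousOn (hψ.mono hK')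
  have hL1 : (e ∘ e'.symm) '' K ⊆ e.target := by
    rintro _ ⟨z, hz, rfl⟩
    exact e.map_source (hK' hz).2
  have hLK : e.symm '' ((e ∘ e'.symm) '' K) = e'.symm '' K := by
    rw [image_image]
    exact image_congr fun z hz => e.left_inv (hK' hz).2
  refine dom hK (φ := fun z => ‖L.c e e' (e'.symm z)‖ / (H e' z).det.re)
    (fun z hz => (hJ z (hK' hz)).norm.div (det_cont hH he' (hK1 hz))
      (det_pos hH he' (hK1 hz)).ne')
    (v := fun a z => ENNReal.ofReal (H e' z).det.re *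
      ‖s a e (e (e'.symm z)) - P (e (e'.symm z))‖ₑ) (fun a z hz => ?_) ?_
  · have h1 := (hs a).cmp e he e' he' _ (hK' hz).2 (e'.map_target (hK1 hz))
    have h2 := det_pos hH he' (hK1 hz)
    simp only [e'.right_inv (hK1 hz)] at h1
    rw [h1, Function.comp_apply, ← sub_mul, enorm_mul, ← mul_assoc,
      ← ENNReal.ofReal_mul (by positivity), div_mul_cancel₀ _ h2.ne', ofReal_norm, mul_comm]
  · have h1 : ∀ a, ∫⁻ z in K, ENNReal.ofReal (H e' z).det.re *
        ‖s a e (e (e'.symm z)) - P (e (e'.symm z))‖ₑ = ∫⁻ z in (e ∘ e'.symm) '' K,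
        ENNReal.ofReal (H e z).det.re * ‖s a e (e (e.symm z)) - P (e (e.symm z))‖ₑ := fun a => by
      rw [← (hc e' he' K hK.measurableSet hK1).2.1 fun y => ‖s a e (e y) - P (e y)‖ₑ, ← hLK,
        (hc e he _ hL.measurableSet hL1).2.1]
    simp only [h1]
    refine dom hL (fun z hz => det_cont hH he (hL1 hz)) (fun a z hz => ?_) (h _ hL hL1)
    rw [e.right_inv (hL1 hz)]

end T34

open T34 in
theorem st_SLIM (hSC : St_SC5) : St_SLIM := by
  intro n M _ H L φ ι l s C hH hφ hs hC hd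
  choose! P hP hT using fun e he => slim_chart hSC hH hφ hs hC hd (e := e) he
  have hPd : M.All fun e z => HolN (P e) z := fun e he z hz =>
    (e.open_target.eventually_mem hz).mono fun w hw =>
      (hP e he).differentiableAt (e.open_target.mem_nhds hw)
  have hS : M.HSecC L P :=
    ⟨⟨fun e he z hz => ((mHOL n _ z).2.2 (hPd e he z hz)).1, fun e he e' he' x hx hx' =>
      slim_ovl hH hs he he' (hP e he).continuousOn (hP e' he').continuousOn (hT e he)
        (hT e' he') hx hx'⟩, fun e he z hz => (hPd e he z hz).self_of_nhds⟩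
  refine ⟨P, hS, ?_⟩
  obtain ⟨V, -⟩ := (mCOV n M).2.2.1
  obtain ⟨-, -, -, -, hi, hc, -⟩ := mMU n M H hH
  have hR := fun a => hSC n M H L φ _ _ hH hφ ((hs a).sub hS.toSecC) hS.toSecC
  have hb : ∀ i, closedBall (V.c i) (V.ρ i) ⊆ (V.e i).target := fun i =>
    (closedBall_subset_closedBall (by linarith [V.pos i])).trans (V.sub i)
  have h1 : ∀ i, Tendsto (fun a => ∫⁻ x in (V.e i).symm '' closedBall (V.c i) (V.ρ i),
      ENNReal.ofReal √(M.nrC φ (s a - P) x) ∂M.mu H) l (𝓝 0) := fun i => by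
    simp only [(hc _ (V.mem i) _ measurableSet_closedBall (hb i)).2.1]
    refine dom (isCompact_closedBall _ _)
      (φ := fun z => (H (V.e i) z).det.re * √(Real.exp (-φ (V.e i) z))) (fun z hz => ?_)
      (fun a z hz => ?_) (hT _ (V.mem i) _ (isCompact_closedBall _ _) (hb i))
    · exact (det_cont hH (V.mem i) (hb i hz)).mul
        (hφ.sm _ (V.mem i) z (hb i hz)).continuousAt.neg.rexp.sqrt
    · have h2 := det_pos hH (V.mem i) (hb i hz)
      rw [(hR a).2.2.1 _ (V.mem i) z (hb i hz)]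
      beta_reduce
      rw [normSq_eq_norm_sq, Real.sqrt_mul (sq_nonneg _),
        Real.sqrt_sq (norm_nonneg _), ← ofReal_norm, ← ENNReal.ofReal_mul h2.le,
        ← ENNReal.ofReal_mul (by positivity)]
      refine ENNReal.ofReal_le_ofReal (le_of_eq ?_)
      simp only [Pi.sub_apply]
      ring
  have h2 := tendsto_finsetSum Finset.univ fun i _ => h1 i
  rw [Finset.sum_const_zero] at h2
  have h3 : Tendsto (fun a => ∫⁻ x, ENNReal.ofReal √(M.nrC φ (s a - P) x) ∂M.mu H) l (𝓝 0) := by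
    refine tendsto_of_tendsto_of_tendsto_of_le_of_le tendsto_const_nhds h2 (fun _ => zero_le)
      fun a => ?_
    have h4 : (univ : Set M.X) = ⋃ i, (V.e i).symm '' closedBall (V.c i) (V.ρ i) := by
      refine (eq_univ_of_forall fun x => ?_).symm
      obtain ⟨i, h5, h6, -⟩ := V.cov x
      exact mem_iUnion.2 ⟨i, _, ball_subset_closedBall h6, (V.e i).left_inv h5⟩
    beta_reduce
    rw [← setLIntegral_univ, h4]
    exact (lintegral_iUnion_le _ _).trans_eq (tsum_fintype _)
  have h4 := (ENNReal.tendsto_toReal ENNReal.zero_ne_top).comp h3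
  refine h4.congr fun a => ?_
  rw [Function.comp_apply, ← ofReal_integral_eq_lintegral_ofReal
    (hi _ _ (hR a).2.2.2.1.sqrt) (Eventually.of_forall fun x => Real.sqrt_nonneg _),
    ENNReal.toReal_ofReal (integral_nonneg fun x => Real.sqrt_nonneg _)]

end Pool.Agent.Lib.KP
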