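import Pool.Agent.Lib.KP.Blue
import Pool.Agent.Lib.TB.All

/-! Project kp71: the output of the project tb33. -/

open scoped Classical Topology ContDiff ComplexOrder Matrix
open Set MeasureTheory Complex Metric Filter

noncomputable section

namespace Pool.Agent.Lib.KP

open Pool.Agent.Lib.HS32 Pool.Agent.Lib.HS32.Mf Pool.Agent.Lib.GH Pool.Agent.Lib.RB
open Pool.Agent.Lib.TB

theorem st_TAIL : St_TAIL := by
  intro n M _ H h hn hH hh hr
  have hy := ((st_TCL n M h hh).2 hr).2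
  refine ⟨hy, ?_⟩
  obtain ⟨P, k, hf, hv⟩ := TB.fl1_of HS.asVOL st_TCL aTEX aRIT aRDE aTSQ aRDB aTLO st_TGL aRPA aTLQ
    aTKE st_TM1 T10.tm2 aRPJ aTKL st_TFL aGT1 aGPRD aTB1 M hn hH hh hr
  obtain ⟨a1, a2, a3, -, a4⟩ := st_GPRD n M h P k hh hf
  have hex := (aTEX n M H h hn hH hh hy).2 (h * P) a2 a3
  obtain ⟨c, C, hc0, hb⟩ := big hH hh a2 hex hv
  obtain ⟨ε, h1, hε⟩ :=
    ((TB.st_TSM st_TSW n M H h _ c C hn hH hh hy a2 a3 hc0 hb).and self_mem_nhdsWithin).exists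
  obtain ⟨u, hu⟩ := hex ε hε
  obtain ⟨v, v1, v2, v3⟩ := stGKE HS.asAUBIN n M H h _ ε u hn hH hh a2 hε hu (h1 u hu)
  have v4 := st_GUT' n M h P k v hh hf a1 v1 v2 v3
  have v5 : M.All fun e z => M.theta h v e z * P e z = 0 := fun e he z hz => by
    simp only [Mf.theta, Pi.sub_apply]
    rw [sub_mul, v4 e he z hz, a4 e he z hz, sub_self]
  obtain ⟨G, hG⟩ := st_GPOS' n M h P k v hh hf a1 v1 v2 v3 v5
  refine ⟨_, P, k, G, hG, fun e he z hz => ?_⟩
  have r1 := ((mHES n M).2.2.2.2.2.2.2.2.2 _ h v2.toMet hh).2 e he z hz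
  simp only [v3, Real.log_exp] at r1
  beta_reduce
  rw [r1]
  simp only [Pi.add_apply, Pi.mul_apply]
  rw [Matrix.add_mul, v5 e he z hz, Matrix.mul_assoc, hf.idem e he z hz, Mf.theta]
  simp only [Pi.sub_apply]
  abel

end Pool.Agent.Lib.KP
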