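import Pool.Agent.Lib.KP.Blue
import Pool.Agent.Lib.KP.Kit

open scoped Classical Topology ContDiff ComplexOrder Matrix ENNReal
open Set MeasureTheory Complex Metric Filter

noncomputable section

namespace Pool.Agent.Lib.KP

open Pool.Agent.Lib.SV (E nsq)
open Pool.Agent.Lib.HS32 Pool.Agent.Lib.HS21

theorem st_UNT (hREX : St_REX) : St_UNT := by
  intro n M L f φ p Ψ e₀ e z hD h₀ h hz hz₀ hN
  have hq : Differentiable ℂ fun w : E n => w - p *ᵥ w :=
    differentiable_id.sub (LinearMap.toContinuousLinearMap (Matrix.mulVecLin p)).differentiable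
  have hqc : ContinuousAt (fun w : E n => w - p *ᵥ w) z := hq.continuous.continuousAt
  have hg : HolN (fun w => f e₀ (w - p *ᵥ w)) z :=
    (hqc.eventually (hD.hol.holN e₀ h₀.1 _ hz₀)).mono fun w hw => hw.comp w (hq w)
  have rep := hD.wt.nr_rep hD.hol.toSecC
  let r : E n → ℝ := fun w => Real.exp ((φ e w - φ e₀ (w - p *ᵥ w)) / 2)
  have hr : ContinuousAt r z := (((hD.wt.sm e h.1 z hz).continuousAt.sub
    (ContinuousAt.comp (g := φ e₀) (hD.wt.sm e₀ h₀.1 _ hz₀).continuousAt hqc)).div_const 2).rexp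
  have r0 : ∀ w, 0 < r w := fun w => Real.exp_pos _
  have e1 : ∀ᶠ w in 𝓝 z, M.nrC φ f (Ψ w) = normSq (f e w) * Real.exp (-φ e w) := by
    filter_upwards [e.open_target.eventually_mem hz] with w hw
    rw [h.2 w hw]
    exact rep e h.1 w hw
  have e2 : ∀ᶠ w in 𝓝 z, ‖f e w‖ = r w * ‖f e₀ (w - p *ᵥ w)‖ := by
    filter_upwards [hN, e1, hqc.eventually (e₀.open_target.eventually_mem hz₀)] with w a b c
    have d := rep e₀ h₀.1 _ c
    beta_reduce at d
    rw [b, h₀.2 _ c, d] at a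
    refine (pow_left_inj₀ (norm_nonneg _) (mul_nonneg (r0 w).le (norm_nonneg _)) two_ne_zero).mp ?_
    rw [mul_pow, ← Real.exp_nat_mul, Nat.cast_ofNat, mul_div_cancel₀ _ two_ne_zero, sub_eq_add_neg,
      Real.exp_add, ← normSq_eq_norm_sq, ← normSq_eq_norm_sq, mul_assoc, mul_comm _ (normSq _), a,
      mul_left_comm, ← Real.exp_add, add_neg_cancel, Real.exp_zero, mul_one]
  have e3 : ∃ᶠ w in 𝓝 z, f e₀ (w - p *ᵥ w) ≠ 0 := by
    have := mem_closure_iff_frequently.mp (hD.den (Ψ z))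
    rw [← h.map_nhds hz, frequently_map] at this
    refine (this.and_eventually (e1.and e2)).mono fun w ⟨a, b, c⟩ d => a ?_
    rw [d, norm_zero, mul_zero, norm_eq_zero] at c
    rw [b, c, map_zero, zero_mul]
  obtain ⟨u, u1, u2⟩ := hREX n (f e) _ z (r z + 1) (hD.hol.holN e h.1 z hz) hg (by
    filter_upwards [e2, hr.eventually (gt_mem_nhds (lt_add_one (r z)))] with w a b
    rw [a]
    exact mul_le_mul_of_nonneg_right b.le (norm_nonneg _)) e3
  refine ⟨u, u1, fun h0 => ?_, u2⟩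
  have uc : ContinuousAt (fun w => r w - ‖u w‖) z := hr.sub u1.self_of_nhds.continuousAt.norm
  obtain ⟨w, a, b, c, d⟩ := (e3.and_eventually (u2.and (e2.and
    (uc.eventually (lt_mem_nhds (a := 0) (by simpa [h0] using r0 z)))))).exists
  rw [b, norm_mul, mul_left_inj' (norm_ne_zero_iff.mpr a)] at c
  simp [c] at d

end Pool.Agent.Lib.KP
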