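import Pool.Agent.Lib.KP.Blue2
import Pool.Agent.Lib.KP.Kit

/-! The second projection is constant along the developing map. -/

open scoped Classical Topology ContDiff ComplexOrder Matrix
open Set MeasureTheory Complex Metric Filter

noncomputable section

namespace Pool.Agent.Lib.KP

open Pool.Agent.Lib.SV (E)
open Pool.Agent.Lib.HS32 Pool.Agent.Lib.HS21

namespace T95

theorem tube_convex {n : ℕ} (p : Mat n) (r : ℝ) : Convex ℝ {z : E n | ‖z - p *ᵥ z‖ ≤ r} := by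
  intro x hx y hy a b ha hb hab
  have e : a • x + b • y - p *ᵥ (a • x + b • y) = a • (x - p *ᵥ x) + b • (y - p *ᵥ y) := by
    rw [Matrix.mulVec_add, Matrix.mulVec_smul, Matrix.mulVec_smul, smul_sub, smul_sub]
    abel
  have h := convex_closedBall (0 : E n) r (mem_closedBall_zero_iff.2 hx)
    (mem_closedBall_zero_iff.2 hy) ha hb hab
  exact (congrArg norm e).trans_le (mem_closedBall_zero_iff.1 h)

theorem wcon (n : ℕ) (M : Mf n) (H P θ P' : M.Fam (Mat n)) (k k' : ℕ) (a r : ℝ)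
    (Ψ : E n → M.X) (hH : M.Met H) (hP : M.End P) (sp : M.Spl H P k θ P' k' a)
    (dv : M.DvC (pr k) Ψ r (M.Prod H P k)) :
    ∃ p : Mat n, p * p = p ∧ pᴴ = p ∧ pr k * p = p ∧ p * pr k = p ∧
      ∀ z, ‖z - pr k *ᵥ z‖ ≤ 3 * r →
        ∃ e, M.IvC Ψ e ∧ z ∈ e.target ∧ M.Prod H P k e ∧ M.CsC P' p e := by
  set R : E n → Mat n → Prop := fun z q =>
    ∃ e, M.IvC Ψ e ∧ z ∈ e.target ∧ M.Prod H P k e ∧ M.CsC P' q e with hR
  have ex : ∀ z, ‖z - pr k *ᵥ z‖ ≤ 3 * r → ∃ q, R z q := by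
    intro z hz
    obtain ⟨e₀, i₀, z₀, q₀⟩ := dv.loc z hz
    obtain ⟨ρ, hρ, hb⟩ := Metric.isOpen_iff.1 e₀.open_target z z₀
    obtain ⟨e, i₁, t₁, -, -, s₁⟩ := i₀.restr (isOpen_ball (x := z) (ε := ρ))
    rw [inter_eq_right.2 hb] at t₁
    have q₁ : M.Prod H P k e :=
      q₀.restr hH.toTen hP i₁.1 (t₁ ▸ hb) fun w _ => s₁ w
    have zt : z ∈ e.target := t₁ ▸ mem_ball_self hρ
    refine ⟨P' e z, e, i₁, zt, q₁, fun w hw => ?_⟩
    ext i j
    refine e.open_target.is_const_of_fderiv_eq_zero (𝕜 := ℝ) (f := fun w => P' e w i j)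
      (t₁ ▸ (convex_ball z ρ).isPreconnected) (fun y hy => ?_) (fun y hy => ?_) hw zt
    · exact ((sp.flat.en.sm e i₁.1 y hy i j).differentiableAt (by simp)).differentiableWithinAt
    · ext v
      have h1 : ∀ l, dz l (fun w => P' e w i j) y = 0 := fun l =>
        congrFun (congrFun (sp.cst e q₁ y hy l) i) j
      have h2 : ∀ l, dzb l (fun w => P' e w i j) y = 0 := fun l =>
        congrFun (congrFun (sp.flat.hol e i₁.1 y hy l) i) j
      rw [fderiv_eq_sum]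
      simp [h1, h2]
  have un : ∀ z q q', R z q → R z q' → q = q' := by
    rintro z q q' ⟨e, i, t, -, c⟩ ⟨e', i', t', -, c'⟩
    have h := sp.flat.en.eq_of_J i.1 i'.1 (i.mem t).1 (i'.mem t').1
      (i.J_one i' (τ := 0) (fun w => by rw [add_zero]) (by rwa [add_zero]) t')
    rw [(i.mem t).2, (i'.mem t').2, c z t, c' z t'] at h
    exact h.symm
  have z0 : ‖(0 : E n) - pr k *ᵥ (0 : E n)‖ ≤ 3 * r := by
    rw [Matrix.mulVec_zero, sub_zero, norm_zero]
    linarith [dv.r0]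
  obtain ⟨p, hp⟩ := ex 0 z0
  have all : ∀ z, ‖z - pr k *ᵥ z‖ ≤ 3 * r → R z p := by
    intro z hz
    refine (tube_convex (pr k) (3 * r)).isPreconnected.induction₂'
      (fun x y => ∀ q, R x q → R y q) (fun x hx => ?_) ?_ z0 hz p hp
    · obtain ⟨q₀, e, i, t, pe, c⟩ := ex x hx
      refine mem_nhdsWithin_of_mem_nhds ((e.open_target.eventually_mem t).mono fun y hy => ?_)
      have hx₀ : R x q₀ := ⟨e, i, t, pe, c⟩
      have hy₀ : R y q₀ := ⟨e, i, hy, pe, c⟩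
      exact ⟨fun q hq => un x q₀ q hx₀ hq ▸ hy₀, fun q hq => un y q₀ q hy₀ hq ▸ hx₀⟩
    · exact fun x y w _ _ _ h h' q hq => h' q (h q hq)
  obtain ⟨e, i, t, pe, c⟩ := hp
  have s := sp.sub e i.1 0 t
  have d := sp.flat.idem e i.1 0 t
  have h := sp.flat.herm e i.1 0 t
  beta_reduce at s d h
  rw [pe.prj 0 t, c 0 t] at s
  rw [c 0 t] at d h
  have g : H e 0 * p = p := by rw [← s.1, ← mul_assoc, pe.blk 0 t]
  rw [g] at h
  exact ⟨p, d, h, s.1, s.2, all⟩

end T95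

theorem st_WCE : St_WCE := fun n M H P θ P' k k' a r Ψ hH hP sp dv =>
  T95.wcon n M H P θ P' k k' a r Ψ hH hP sp dv

end Pool.Agent.Lib.KP
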