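import Pool.Agent.Lib.KP.Blue
import Pool.Agent.Lib.KP.Kit
import Pool.Agent.Lib.KP21.E21

/-! Project kp71: existence for the twisted equation. -/

noncomputable section

namespace Pool.Agent.Lib.KP

open Pool.Agent.Lib.HS32

theorem st_EXI : St_EXI := by
  intro n M _ H B ε w ψ hn hH hw hψ hG
  have h2 := (mINV n M H hH.toMet).2.2.2.2.2.2.2 _ hG.toMet
  have hR := (mHES n M).2.2.2.2.2.2.2.2.2
  obtain ⟨v, hv, hk, hd⟩ := HS21.st_AUBIN n M _
    (fun x => w x - ψ x - Real.log (M.dq H (M.gB H B ε w) x)) 1 hn hG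
    ((hw.sub hψ).sub (hR _ H hG.toMet hH.toMet).1) one_pos
  have hdet : ∀ x, M.dq H (M.gB H B ε w + M.hs v) x = Real.exp (v x + w x - ψ x) := fun x => by
    rw [h2.2.2.1 _ hk.toForm x, hd x, ← Real.exp_log (h2.1 x), ← Real.exp_add, Real.log_exp]
    congr 1
    ring
  refine ⟨v, hv, hk, hdet, fun e he z hz => ?_⟩
  beta_reduce
  rw [(hR _ H hk.toMet hH.toMet).2 e he z hz]
  simp only [hdet, Real.log_exp]
  rw [((mLAP n M _ ψ (hv.add hw) hψ).1 0 e he z hz).2.2.1,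
    ((mLAP n M v w hv hw).1 0 e he z hz).2.1]
  simp only [Mf.gB, Pi.add_apply, Pi.sub_apply, Pi.smul_apply]
  abel

end Pool.Agent.Lib.KP
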