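import Pool.Agent.Lib.KP.Main
import Pool.Agent.Lib.KP21.All
import Pool.Agent.Lib.KP.B_APA
import Pool.Agent.Lib.KP.B_BLK
import Pool.Agent.Lib.KP.B_BOX
import Pool.Agent.Lib.KP.B_BOXOK
import Pool.Agent.Lib.KP.B_BRG
import Pool.Agent.Lib.KP.B_C2B
import Pool.Agent.Lib.KP.B_DBC
import Pool.Agent.Lib.KP.B_DEV
import Pool.Agent.Lib.KP.B_DIVF
import Pool.Agent.Lib.KP.B_DSC1
import Pool.Agent.Lib.KP.B_DSC2
import Pool.Agent.Lib.KP.B_DSE
import Pool.Agent.Lib.KP.B_DSF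
import Pool.Agent.Lib.KP.B_ETA1
import Pool.Agent.Lib.KP.B_ETA2
import Pool.Agent.Lib.KP.B_EXTD
import Pool.Agent.Lib.KP.B_FIB
import Pool.Agent.Lib.KP.B_GRD
import Pool.Agent.Lib.KP.B_GRN2
import Pool.Agent.Lib.KP.B_HARM
import Pool.Agent.Lib.KP.B_HOR
import Pool.Agent.Lib.KP.B_HOR0
import Pool.Agent.Lib.KP.B_IPB
import Pool.Agent.Lib.KP.B_ISO
import Pool.Agent.Lib.KP.B_KAP
import Pool.Agent.Lib.KP.B_KCL
import Pool.Agent.Lib.KP.B_KLI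
import Pool.Agent.Lib.KP.B_LAM
import Pool.Agent.Lib.KP.B_NEF
import Pool.Agent.Lib.KP.B_NHS
import Pool.Agent.Lib.KP.B_NINV
import Pool.Agent.Lib.KP.B_OSC
import Pool.Agent.Lib.KP.B_PAR1
import Pool.Agent.Lib.KP.B_PAR2
import Pool.Agent.Lib.KP.B_PBD
import Pool.Agent.Lib.KP.B_PEAK1
import Pool.Agent.Lib.KP.B_PKD
import Pool.Agent.Lib.KP.B_PSI
import Pool.Agent.Lib.KP.B_PSI1
import Pool.Agent.Lib.KP.B_PSI3
import Pool.Agent.Lib.KP.B_REX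
import Pool.Agent.Lib.KP.B_SC5
import Pool.Agent.Lib.KP.B_SCH
import Pool.Agent.Lib.KP.B_SIG
import Pool.Agent.Lib.KP.B_SIU
import Pool.Agent.Lib.KP.B_SLIM
import Pool.Agent.Lib.KP.B_TAIL
import Pool.Agent.Lib.KP.B_UNT
import Pool.Agent.Lib.KP.B_WCE
import Pool.Agent.Lib.KP.B_WT
import Pool.Agent.Lib.KP.R_CPT
import Pool.Agent.Lib.KP.R_EXI
import Pool.Agent.Lib.KP.R_POI
import Pool.Agent.Lib.KP.R_TEST
import Pool.Agent.Lib.KP.R_UTP

/-! Project kp71: assembly of all rows. -/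

open scoped Manifold ContDiff

namespace Pool.Agent.Lib.KP

open Pool.Agent.Lib.SV (E)
open Pool.Agent.Lib.GH (Kaehler Hermitian)
open Pool.Agent.Lib.TB (TemperedNonpos)

theorem aBRG : St_BRG := st_BRG
theorem aTAIL : St_TAIL := st_TAIL
theorem aWT : St_WT := st_WT
theorem aKLI : St_KLI := st_KLI
theorem aHARM : St_HARM := st_HARM
theorem aCPT : St_CPT := st_CPT
theorem aPOI : St_POI := st_POI aHARM aCPT
theorem aPAR1 : St_PAR1 := st_PAR1 aHARM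
theorem aDIVF : St_DIVF := st_DIVF
theorem aPAR2 : St_PAR2 := st_PAR2 aDIVF
theorem aNHS : St_NHS := st_NHS
theorem aETA1 : St_ETA1 := st_ETA1 aNHS
theorem aETA2 : St_ETA2 := st_ETA2
theorem aDSF : St_DSF := st_DSF aNHS aDIVF
theorem aKAP : St_KAP := st_KAP
theorem aPSI1 : St_PSI1 := st_PSI1 aNHS
theorem aPSI3 : St_PSI3 := st_PSI3
theorem aPSI : St_PSI := st_PSI aPSI1 aPSI3
theorem aEXI : St_EXI := st_EXI
theorem aAPA : St_APA := st_APA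
theorem aC2B : St_C2B := st_C2B
theorem aGRD : St_GRD := st_GRD
theorem aPBD : St_PBD := st_PBD aAPA aC2B aGRD
theorem aTEST : St_TEST := st_TEST
theorem aOSC : St_OSC := st_OSC aAPA aPBD aTEST
theorem aIPB : St_IPB := st_IPB
theorem aSCH : St_SCH := st_SCH aEXI aAPA aC2B aPBD aTEST aOSC aIPB
theorem aNEF : St_NEF := st_NEF aEXI aSCH
theorem aKCL : St_KCL := st_KCL
theorem aUTP : St_UTP := st_UTP
theorem aBLK : St_BLK := st_BLK
theorem aDEV : St_DEV := st_DEV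
theorem aWCE : St_WCE := st_WCE
theorem aNINV : St_NINV := st_NINV
theorem aDSC1 : St_DSC1 := st_DSC1
theorem aDSC2 : St_DSC2 := st_DSC2
theorem aDSE : St_DSE := st_DSE aNHS aWCE aNINV aDSC1 aDSC2
theorem aISO : St_ISO := st_ISO
theorem aFIB : St_FIB := st_FIB
theorem aREX : St_REX := st_REX
theorem aUNT : St_UNT := st_UNT aREX
theorem aEXTD : St_EXTD := st_EXTD
theorem aSIG : St_SIG := st_SIG aUNT aEXTD
theorem aLAM : St_LAM := st_LAM aBLK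
theorem aDBC : St_DBC := st_DBC
theorem aPKD : St_PKD := st_PKD aBLK aNINV aISO aFIB aSIG aLAM aDBC
theorem aSC5 : St_SC5 := st_SC5
theorem aBOXOK : St_BOXOK := st_BOXOK
theorem aGRN2 : St_GRN2 := st_GRN2 aSC5
theorem aLINC : St_LINC := st_LINC
theorem aL2C : St_L2C := st_L2C
theorem aBOX : St_BOX := st_BOX aSC5 aBOXOK aGRN2 aLINC aL2C
theorem aSIU : St_SIU := st_SIU aSC5 aBOXOK
theorem aHOR0 : St_HOR0 := st_HOR0 aSC5 aGRN2 aSIU
theorem aSLIM : St_SLIM := st_SLIM aSC5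
theorem aHOR : St_HOR := st_HOR aSC5 aBOX aHOR0 aSLIM
theorem aPEAK1 : St_PEAK1 := st_PEAK1 aSC5 aHOR

theorem main (n : ℕ) (X ι : Type) [TopologicalSpace X] [ChartedSpace (E n) X]
    [IsManifold 𝓘(ℂ, E n) ω X] [CompactSpace X] [T2Space X] [ConnectedSpace X]
    (g h : X → Matrix (Fin n) (Fin n) ℂ) (m : ℕ) (U : ι → Set X) (f : ι → X → ℂ) (hg : Kaehler g)
    (hh : Hermitian h) (hc : TemperedNonpos h) (hm : 0 < m) (hf : Klt n m U f) :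
    ∃ r : ℕ, 0 < r ∧ ∀ i, ∀ x ∈ U i, ∃ s, PairSec n (m * r) r U f s ∧ s i x ≠ 0 :=
  main_of aBRG aTAIL aWT aKLI aPOI aPAR1 aPAR2 aETA1 aETA2 aDSF aKAP aPSI aNEF aKCL HS.asPROD aUTP
    aBLK aDEV aDSE aPKD aPEAK1 n X ι g h m U f hg hh hc hm hf

end Pool.Agent.Lib.KP
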