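import Pool.Agent.Lib.KP.Blue
import Pool.Agent.Lib.KP.Kit
import Pool.Agent.Lib.HS21.All

/-! Project kp71: compactness of bounded families of solutions. -/

open scoped Classical Topology ContDiff ComplexOrder Matrix BoundedContinuousFunction
open Set Complex Metric Filter

noncomputable section

namespace Pool.Agent.Lib.KP

open Pool.Agent.Lib.SV (E nsq)
open Pool.Agent.Lib.HS32 Pool.Agent.Lib.HS21

namespace T59

variable {n : ℕ} {M : Mf n}

theorem cpt_gb [M.Cpt] {H : M.Fam (Mat n)} {g : M.X → ℝ} {w : ℕ → M.X → ℝ} {t s : ℕ → ℝ} {B : ℝ}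
    (hH : M.Met H) (hg : M.Sm g) (hw : ∀ j, M.Sm (w j)) (hts : ∀ j, |t j| ≤ B ∧ |s j| ≤ B)
    (hb : ∀ j x, |w j x| ≤ B) (heq : ∀ j x, t j * w j x - M.lap H (w j) x = s j * g x) (k : ℕ) :
    GB M (k + 2) fun j => M.lc (w j) := by
  obtain ⟨V, -⟩ := (mCOV n M).2.2.1
  have hs : ∀ j, M.Sec 0 (M.lc (w j)) := fun j => eBR.lc M _ (hw j)
  have hu : GU M fun j => M.lc (w j) := eBR.toGU M V ℕ 0 _ B hs fun j => eBR.lcS' M V _ _ (hb j)
  refine eUNI M V ℕ 0 k
    (fun j => ⟨fun e z => (H e z)⁻¹, 0, 0, fun _ _ => -(t j : ℂ)⟩) _ ?_ hs hu ?_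
  · intro e he z hz
    have hev : ∀ᶠ y in 𝓝 z, y ∈ e.target := e.open_target.mem_nhds hz
    have h1 : LBM k z fun _ : ℕ => H e := fun p q =>
      eFAM.fix ℕ k z _ (hH.sm e he z hz p q) (hev.mono fun y hy => hH.sm e he y hy p q)
    have h2 := eFAM2.inv ℕ k z _ h1 (eFAM2.leFix ℕ z (H e)
      (fun p q => (hH.sm e he z hz p q).continuousAt) (hev.mono fun y hy => hH.pos e he y hy))
    have h0 : LB k z fun (_ : ℕ) (_ : E n) => (0 : ℂ) :=
      eFAM.scal ℕ k z (fun _ => 0) 0 fun _ => by simp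
    exact ⟨h2.1, h2.2, fun _ => h0, fun _ => h0,
      eFAM.scal ℕ k z (fun j => -(t j : ℂ)) B fun j => by simpa using (hts j).1⟩
  · intro e he z hz
    have hev : ∀ᶠ y in 𝓝 z, y ∈ e.target := e.open_target.mem_nhds hz
    refine eFAM.congr ℕ k z _ _ (hev.mono fun y hy j => ?_)
      (eFAM.mul ℕ k z _ _ (eFAM.scal ℕ k z (fun j => -(s j : ℂ)) B fun j => by
        simpa using (hts j).2) (eBR.fix M ℕ 0 k _ (eBR.lc M _ hg) e he z hz))
    have h1 := eLINR.ap M _ (w j) hH (hw j) e he y hy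
    simp only [Op.ap, lapOp, lop, Pi.zero_apply, zero_mul, Finset.sum_const_zero, add_zero] at h1 ⊢
    rw [h1]
    simp only [Mf.lc]
    have h2 := congrArg (fun r : ℝ => (r : ℂ)) (heq j (e.symm y))
    push_cast at h2
    linear_combination h2

theorem cpt_eq {w : ℕ → M.X → ℝ} (h : GB M 0 fun j => M.lc (w j)) : Equicontinuous w := by
  intro x
  obtain ⟨S, hS, C, hC⟩ := Mf.AllOn.ch h x
  have hc : ContinuousAt (M.ch x) x := (M.ch x).continuousAt (Mf.mem_ch x)
  refine Metric.equicontinuousAt_of_continuity_modulus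
    (fun y => C * √‖M.ch x x - M.ch x y‖) ?_ w ?_
  · have h1 : ContinuousAt (fun y => C * √‖M.ch x x - M.ch x y‖) x := by fun_prop
    simpa using h1.tendsto
  · filter_upwards [hc.preimage_mem_nhds hS, (M.ch x).open_source.mem_nhds (Mf.mem_ch x)]
      with y hy hy' j
    have h1 := (hC j).2.2 _ (mem_of_mem_nhds hS) _ hy
    simp only [Mf.lc, (M.ch x).left_inv hy', Mf.ch_symm] at h1
    rwa [← ofReal_sub, Complex.norm_real, ← dist_eq_norm] at h1

theorem cpt_sub {X : Type} [TopologicalSpace X] [CompactSpace X] {w : ℕ → X → ℝ} {B : ℝ}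
    (he : Equicontinuous w) (hb : ∀ j x, |w j x| ≤ B) :
    ∃ (κ : ℕ → ℕ) (u : X → ℝ), StrictMono κ ∧ TendstoUniformly (fun j => w (κ j)) u atTop := by
  let F : ℕ → X →ᵇ ℝ := fun j => BoundedContinuousFunction.mkOfCompact ⟨w j, he.continuous j⟩
  have h1 : Equicontinuous ((↑) : range F → X → ℝ) := by
    have e : ((↑) : range F → X → ℝ) = w ∘ fun a : range F => a.2.choose := by
      funext a
      exact (congrArg (fun f : X →ᵇ ℝ => (f : X → ℝ)) a.2.choose_spec).symm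
    rw [e]
    exact he.comp _
  have h2 := BoundedContinuousFunction.arzela_ascoli (Icc (-B) B) isCompact_Icc (range F)
    (by rintro _ x ⟨j, rfl⟩; exact abs_le.1 (hb j x)) h1
  obtain ⟨u, -, κ, hκ, hu⟩ := h2.tendsto_subseq fun j => subset_closure (mem_range_self j)
  exact ⟨κ, u, hκ, BoundedContinuousFunction.tendsto_iff_tendstoUniformly.1 hu⟩

end T59

open T59 in
theorem st_CPT : St_CPT := by
  intro n M _ H g w t s B hH hg hw hts hb heq
  have hgb := cpt_gb hH hg hw hts hb heq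
  obtain ⟨κ, u, hκ, hu⟩ := cpt_sub
    (cpt_eq fun e he z hz => eFAM.anti ℕ (0 + 2) 0 z _ (by omega) (hgb 0 e he z hz)) hb
  have hlim : ∀ e ∈ M.C, SmO e.target (M.lc u e) ∧ ∀ l, ∀ z ∈ e.target,
      Tendsto (fun j => Dl l (M.lc (w (κ j)) e) z) atTop (𝓝 (Dl l (M.lc u e) z)) := by
    intro e he
    refine eLIME e.target (fun j => M.lc (w (κ j)) e) (M.lc u e) e.open_target (fun z hz k => ?_)
      fun z hz => ?_
    · exact ⟨0, eFAM.re ℕ ℕ k z _ (fun j => κ (0 + j))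
        (eFAM.anti ℕ (k + 2) k z _ (by omega) (hgb k e he z hz))⟩
    · exact (Complex.continuous_ofReal.tendsto _).comp (hu.tendsto_at _)
  refine ⟨κ, u, hκ, fun e he z hz => cd_re ((hlim e he).1 z hz), hu, fun x => ?_⟩
  have h1 := AUB.hess_lim (fun j => (hw (κ j)).lc _ (Mf.ch_mem x) _ (Mf.ch_tgt x))
    ((hlim _ (Mf.ch_mem x)).1 _ (Mf.ch_tgt x))
    fun l => (hlim _ (Mf.ch_mem x)).2 l _ (Mf.ch_tgt x)
  have h2 : Continuous fun A : Mat n => ((M.ev H x)⁻¹ * A).trace.re :=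
    Complex.continuous_re.comp (continuous_const.matrix_mul continuous_id).matrix_trace
  exact (h2.tendsto _).comp h1

end Pool.Agent.Lib.KP
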