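import Pool.Agent.Lib.KP.Blue
import Pool.Agent.Lib.KP.Kit

/-! Project kp71: the divisor is invariant along the flat factor. -/

open scoped Classical Topology ContDiff ComplexOrder Matrix ENNReal Manifold
open Set MeasureTheory Complex Metric Filter

noncomputable section

namespace Pool.Agent.Lib.KP

open Pool.Agent.Lib.SV (E nsq)
open Pool.Agent.Lib.HS32 Pool.Agent.Lib.HS21

namespace T45

variable {n : ℕ}

theorem dsf_alg {H P : Mat n} (hH : H.PosDef) (hh : (H * P).IsHermitian) (hi : P * P = P)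
    (v : E n) : (H⁻¹ * (H * P) * H⁻¹ * Matrix.vecMulVec (star v) v).trace =
      star (star (v ᵥ* P)) ⬝ᵥ H⁻¹ *ᵥ star (v ᵥ* P) := by
  have u : IsUnit H.det := (Mf.pd_det_ne hH).isUnit
  have a : Pᴴ * H = H * P := by
    have := hh.eq
    rwa [Matrix.conjTranspose_mul, hH.1.eq] at this
  have b : P * H⁻¹ = H⁻¹ * Pᴴ := by
    calc P * H⁻¹ = H⁻¹ * (H * P) * H⁻¹ := by rw [Matrix.nonsing_inv_mul_cancel_left _ _ u]
      _ = H⁻¹ * (Pᴴ * (H * H⁻¹)) := by rw [← a]; simp only [Matrix.mul_assoc]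
      _ = H⁻¹ * Pᴴ := by rw [Matrix.mul_nonsing_inv _ u, Matrix.mul_one]
  have c : P * H⁻¹ = P * (H⁻¹ * Pᴴ) := by rw [← b, ← Matrix.mul_assoc, hi]
  rw [Matrix.nonsing_inv_mul_cancel_left _ _ u, c, Matrix.mul_vecMulVec, Matrix.trace_vecMulVec,
    dotProduct_comm, star_star, Matrix.star_vecMul, ← Matrix.mulVec_mulVec,
    Matrix.dotProduct_mulVec, Matrix.mulVec_mulVec]

theorem dsf_pt {H P T : Mat n} (hH : H.PosDef) (hh : (H * P).IsHermitian) (hi : P * P = P)
    (v : E n) {a : ℝ} (ha : 0 < a) (b : ℝ) (hT : (H⁻¹ * (H * P) * H⁻¹ * T).trace.re = 0) :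
    0 ≤ (H⁻¹ * (H * P) * H⁻¹ * (a • Matrix.vecMulVec (star v) v - b • T)).trace.re ∧
      ((H⁻¹ * (H * P) * H⁻¹ * (a • Matrix.vecMulVec (star v) v - b • T)).trace.re = 0 →
        v ᵥ* P = 0) := by
  rw [Matrix.mul_sub, Matrix.mul_smul, Matrix.mul_smul, Matrix.trace_sub, Matrix.trace_smul,
    Matrix.trace_smul, sub_re, smul_re, smul_re, hT, smul_zero, sub_zero, dsf_alg hH hh hi,
    smul_eq_mul]
  refine ⟨mul_nonneg ha.le (Complex.nonneg_iff.1
    (hH.inv.posSemidef.dotProduct_mulVec_nonneg _)).1, fun h => ?_⟩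
  by_contra h0
  have := (Complex.pos_iff.1 (hH.inv.dotProduct_mulVec_pos (star_ne_zero.2 h0))).1
  exact (mul_pos ha this).ne' h

end T45

open T45

theorem st_DSF (hN : St_NHS) (hD : St_DIVF) : St_DSF := by
  intro n M _ H P k L f φ hH hF hw h0
  have met : M.Met H := hH.toMet
  have sec := hw.hol.toSecC
  have sN := hw.wt.nr_sm sec
  have nh := hN n M L f φ hw.hol hw.wt
  have tP : M.Ten (H * P) := hF.clo.toForm.toTen
  obtain ⟨r1, s1, -⟩ := (mINV n M H met).2.2.1 _ _ tP ((mHES n M).1 _ sN).toForm.toTen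
  obtain ⟨r2, -, -⟩ := (mINV n M H met).2.2.1 _ _ tP hw.wt.clo.toForm.toTen
  have pt : M.All fun e z => 0 ≤ M.ip H (H * P) (M.hs (M.nrC φ f)) (e.symm z) ∧
      (M.ip H (H * P) (M.hs (M.nrC φ f)) (e.symm z) = 0 → M.cv φ f e z ᵥ* P e z = 0) :=
    fun e he z hz => by
      have a := r1 e he z hz
      have b := r2 e he z hz
      beta_reduce at a b ⊢
      rw [a, (nh e he z hz).1]
      exact dsf_pt (met.pos e he z hz) (hF.herm e he z hz) (hF.idem e he z hz) _
        (Real.exp_pos _) _ (b.symm.trans (h0 _))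
  obtain ⟨-, -, op, -, itg, -⟩ := mMU n M H met
  have z0 : M.ip H (H * P) (M.hs (M.nrC φ f)) = 0 := by
    refine (s1.continuous.ae_eq_iff_eq (M.mu H) continuous_zero).1
      ((integral_eq_zero_iff_of_nonneg (fun x => ?_) (itg _ _ s1.continuous)).1
        (hD n M H P k _ hH hF sN))
    have := (pt.ch x).1
    rwa [Mf.ch_symm] at this
  have cp : M.All fun e z => ∀ l, ∑ j, M.cv φ f e z j * P e z j l = 0 := fun e he z hz l =>
    congrFun ((pt e he z hz).2 (congrFun z0 _)) l
  refine ⟨fun e he z hz => ?_, fun e he z hz l => ?_⟩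
  · have fp : M.All fun e z => f e z ≠ 0 → M.hw φ e z * P e z = 0 := fun e he z hz hf => by
      ext i l
      have dc : ∀ j, DifferentiableAt ℝ (fun w => M.cv φ f e w j) z := fun j =>
        cd_diff ((cd_dz (sec.sm e he z hz) j).sub
          ((sec.sm e he z hz).mul (cd_dz (hw.wt.smC e he z hz) j)))
      have dp := (hF.en.sm e he z hz).diff
      have q : dzb i (fun w => ∑ j, M.cv φ f e w j * P e w j l) z = 0 := by
        rw [dzb_congr ((cp.ev he hz).mono fun w h => h l), dzb_const]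
      rw [dzb_sum fun j _ => (dc j).fun_mul (dp j l)] at q
      have q' : ∑ j, -(f e z * (M.hw φ e z i j * P e z j l)) = 0 := by
        rw [← q]
        refine Finset.sum_congr rfl fun j _ => ?_
        have := congrFun (congrFun (hF.hol e he z hz i) j) l
        rw [dzb_mul (dc j) (dp j l), (nh e he z hz).2.2.2.1 i j,
          show dzb i (fun w => P e w j l) z = 0 from this]
        ring
      rw [Finset.sum_neg_distrib, neg_eq_zero, ← Finset.mul_sum] at q'
      exact (mul_eq_zero.1 q').resolve_left hf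
    have ct : ContinuousAt (fun w => M.hw φ e w * P e w) z :=
      ((hw.wt.clo.sm e he z hz).mul (hF.en.sm e he z hz)).continuousAt
    have fr : ∃ᶠ x in 𝓝 (e.symm z), M.nrC φ f x ≠ 0 := mem_closure_iff_frequently.1 (hw.den _)
    rw [← e.symm.map_nhds_eq hz, frequently_map] at fr
    refine tendsto_nhds_unique_of_frequently_eq ct tendsto_const_nhds
      ((fr.and_eventually (e.open_target.eventually_mem hz)).mono fun w h => ?_)
    have := (sec.ne_iff he (e.map_target h.2)).1 (Mf.nrC_ne.1 h.1)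
    rw [e.right_inv h.2] at this
    exact fp e he w h.2 this
  · simp only [(nh e he z hz).2.2.1, mul_assoc, ← Finset.mul_sum, cp e he z hz l, mul_zero]

end Pool.Agent.Lib.KP
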