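import Pool.Agent.Lib.KP.Blue
import Pool.Agent.Lib.KP.Kit
import Pool.Agent.Lib.HS21.All

open scoped Classical Topology ContDiff ComplexOrder Matrix ENNReal
open Set MeasureTheory Complex Metric Filter

noncomputable section

namespace Pool.Agent.Lib.KP

open Pool.Agent.Lib.HS32 Pool.Agent.Lib.HS21

theorem st_POI (hHARM : St_HARM) (hCPT : St_CPT) : St_POI := by
  intro n M _ H a hn hH ha
  obtain ⟨-, hfin, -, hv, hi, -⟩ := mMU n M H hH.toMet
  have hl : ∀ f, M.Sm f → _ := fun f hf => (mLAP n M f f hf hf).2.2 H hH.toMet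
  let c : ℝ := (∫ x, a x ∂M.mu H) / (M.mu H).real univ
  have hg : M.Sm fun x => a x - c := ha.sub (Mf.sm_const c)
  have hg0 : ∫ x, (a x - c) ∂M.mu H = 0 := by
    rw [integral_sub (hi ℝ a ha.continuous) (integrable_const c), integral_const, smul_eq_mul,
      mul_div_cancel₀ _ hv.ne', sub_self]
  have ht : ∀ j : ℕ, (0 : ℝ) < 1 / (j + 1) := fun j => by positivity
  choose w w1 w2 using fun j : ℕ => st_RESV n M H _ _ hn hH hg (ht j)
  have w3 : ∀ j, ∫ x, w j x ∂M.mu H = 0 := fun j => by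
    simp only [← w2 j] at hg0
    rw [integral_sub ((hi ℝ _ (w1 j).continuous).const_mul _) (hi ℝ _ (hl _ (w1 j)).1.continuous),
      ((mGRN n M).2 H _ _ hH (w1 j) (w1 j)).1, sub_zero, integral_const_mul] at hg0
    exact (mul_eq_zero.mp hg0).resolve_left (ht j).ne'
  choose p hp using fun j => isCompact_univ.exists_isMaxOn univ_nonempty
    (w1 j).continuous.abs.continuousOn
  let s : ℕ → ℝ := fun j => (1 + |w j (p j)|)⁻¹
  have s0 : ∀ j, 0 < s j := fun j => by positivity
  have s2 : ∀ j, s j * |w j (p j)| = 1 - s j := fun j => by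
    have : 0 < 1 + |w j (p j)| := by positivity
    simp only [s]
    field_simp
    ring
  have s1 : ∀ j, s j ≤ 1 := fun j => by
    have := mul_nonneg (s0 j).le (abs_nonneg (w j (p j)))
    linarith [s2 j]
  have u1 : ∀ j x, |s j * w j x| ≤ 1 := fun j x => by
    rw [abs_mul, abs_of_pos (s0 j)]
    have := mul_le_mul_of_nonneg_left (show |w j x| ≤ |w j (p j)| from (hp j).2 (mem_univ x)) (s0 j).le
    linarith [s2 j, s0 j]
  obtain ⟨σ, -, φ, hφ, hσ⟩ := isCompact_Icc.tendsto_subseq (x := s) fun j => ⟨(s0 j).le, s1 j⟩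
  have he : ∀ (j : ℕ) x, 1 / (j + 1 : ℝ) * (s j * w j x) - M.lap H (fun y => s j * w j y) x
      = s j * (a x - c) := fun j x => by
    rw [((hl _ (w1 j)).2.2.1 x (s j)).2.2.2.1, ← w2 j x]
    ring
  obtain ⟨κ, u, hκ, hu, h1, h2⟩ := hCPT n M H _ (fun j x => s (φ j) * w (φ j) x)
    (fun j => 1 / (φ j + 1 : ℝ)) (fun j => s (φ j)) 1 hH.toMet hg (fun j => (w1 _).const_mul _)
    (fun j => ⟨by
      rw [abs_of_pos (ht _), div_le_one (by positivity)]
      exact le_add_of_nonneg_left (Nat.cast_nonneg _), by rw [abs_of_pos (s0 _)]; exact s1 _⟩)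
    (fun j => u1 _) fun j => he _
  have h3 : Tendsto (fun j => s (φ (κ j))) atTop (𝓝 σ) := hσ.comp hκ.tendsto_atTop
  have h4 : ∀ x, 0 * u x - M.lap H u x = σ * (a x - c) := fun x =>
    tendsto_nhds_unique (((tendsto_one_div_add_atTop_nhds_zero_nat.comp
      (hφ.comp hκ).tendsto_atTop).mul (h1.tendsto_at x)).sub (h2 x))
      ((h3.mul_const _).congr fun j => (he _ x).symm)
  rcases eq_or_ne σ 0 with rfl | h0
  · obtain ⟨b, hb⟩ := hHARM n M H u hH hu fun x => by linarith [h4 x]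
    obtain ⟨j, j1, j2⟩ := ((tendstoUniformly_iff.mp h1 (1 / 4) (by norm_num)).and
      (h3.eventually (gt_mem_nhds (by norm_num : (0 : ℝ) < 1 / 4)))).exists
    simp only [hb, Real.dist_eq] at j1
    have h5 := norm_integral_le_of_norm_le_const (μ := M.mu H)
      (f := fun x => b - s (φ (κ j)) * w (φ (κ j)) x) (C := 1 / 4)
      (Eventually.of_forall fun x => (j1 x).le)
    rw [integral_sub (integrable_const b) ((hi ℝ _ (w1 _).continuous).const_mul _),
      integral_const_mul, w3, mul_zero, sub_zero, integral_const, norm_smul,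
      Real.norm_of_nonneg hv.le, mul_comm, mul_le_mul_iff_left₀ hv, Real.norm_eq_abs] at h5
    have h6 := abs_sub_abs_le_abs_sub (s (φ (κ j)) * w (φ (κ j)) (p (φ (κ j)))) b
    rw [abs_mul, abs_of_pos (s0 _), s2, abs_sub_comm] at h6
    linarith [j1 (p (φ (κ j)))]
  · refine ⟨fun x => σ⁻¹ * u x, c, hu.const_mul _, fun x => ?_⟩
    rw [((hl _ hu).2.2.1 x σ⁻¹).2.2.2.1, inv_mul_eq_iff_eq_mul₀ h0]
    linarith [h4 x]

end Pool.Agent.Lib.KP
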