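import Pool.Agent.Lib.KP.Blue
import Pool.Agent.Lib.KP.Kit
import Pool.Agent.Lib.HS.B_RHO
import Pool.Agent.Lib.HS.B_SMALL
import Pool.Agent.Lib.HS21.All
import Pool.Agent.Lib.RB51.Nonc

/-! Project kp71: the test function. -/

open scoped Classical Topology ContDiff ComplexOrder Matrix
open Set MeasureTheory Complex Metric Filter

noncomputable section

namespace Pool.Agent.Lib.KP

open Pool.Agent.Lib.SV (E)
open Pool.Agent.Lib.HS32 Pool.Agent.Lib.HS32.Mf

namespace T88

theorem split (n : ℕ) {ρ u s τ V : ℝ} (hρ : 0 ≤ ρ) (hu : 0 ≤ u) (hs : 0 ≤ s) (hτ : 0 < τ)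
    (hV : 0 < V) (he : s ^ n = (ρ * V + 1) / 2) :
    ρ * u ≤ τ * (ρ * s) + τ⁻¹ ^ n * (2 / V) * u ^ (n + 1) := by
  rcases le_total u (τ * s) with h | h
  · have h1 := mul_le_mul_of_nonneg_left h hρ
    have h2 : 0 ≤ τ⁻¹ ^ n * (2 / V) * u ^ (n + 1) := by positivity
    linarith
  · have h1 : s ^ n ≤ (τ⁻¹ * u) ^ n := pow_le_pow_left₀ hs ((le_inv_mul_iff₀ hτ).2 h) n
    have h2 : ρ ≤ 2 / V * (τ⁻¹ * u) ^ n := by
      rw [div_mul_eq_mul_div, le_div_iff₀ hV]
      linarith
    have h3 := mul_le_mul_of_nonneg_right h2 hu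
    have h4 : 0 ≤ τ * (ρ * s) := by positivity
    rw [mul_pow] at h3
    rw [pow_succ]
    linarith

end T88

theorem st_TEST : St_TEST := by
  intro n M _ T hn hT
  have hn' : (1 : ℝ) ≤ n := by exact_mod_cast hn
  have hm := hT.toMet
  obtain ⟨C₄, hC₄, -, hps⟩ := mPSH n M T 1 hm
  obtain ⟨-, hfin, -, hV, -⟩ := mMU n M T hm
  set V := (M.mu T).real univ with hVe
  have hV2 : 0 < 2 / V := by positivity
  refine ⟨n + 2 + C₄ + 2 / V, by positivity, fun v hv hG o ho x₀ r hr hr1 => ?_⟩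
  have hcoh := mCOH n M T T v hm hT.toClo hv
  generalize hGe : T + M.hs v = G at hG hcoh ⊢
  have hg := hG.toMet
  have hvol := ((mMU n M T hm).2.2.2.2.2.2 G hg).2.1
  obtain ⟨-, hfin', -⟩ := mMU n M G hg
  have hVG : (M.mu G).real univ = V := by
    have h := hvol fun _ => 1
    simp only [mul_one] at h
    rw [hcoh] at h
    simpa [hm.dq_self] using h
  have o0 : 0 ≤ o := by simpa using ho x₀ x₀
  have hl : 0 ≤ -Real.log r := neg_nonneg.2 (Real.log_nonpos hr.le hr1)
  obtain ⟨β₀, hβs, hβ0, hβ1, hβl, hβp⟩ := hps x₀ r hr hr1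
  have d0 : ∀ x, 0 < M.dq T G x := ((mINV n M T hm).2.2.2.2.2.2.2 G hg).1
  have ds : M.Sm (M.dq T G) := ((mINV n M T hm).1 G hg.toTen).2.2.2.1
  have hβ : M.Sm fun y => β₀ y / M.dq T G y := hβs.div ds fun y => (d0 y).ne'
  have hch : ∀ f : M.X → ℝ, ∫ y, β₀ y / M.dq T G y * f y ∂M.mu G = ∫ y, β₀ y * f y ∂M.mu T :=
    fun f => by
      rw [hvol]
      refine integral_congr_ae (Eventually.of_forall fun y => ?_)
      have := (d0 y).ne'
      beta_reduce
      field_simp
  have hβ1' : ∫ y, β₀ y / M.dq T G y ∂M.mu G = 1 := by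
    simpa [hβ1] using hch fun _ => 1
  have hβ0' : ∀ y, 0 ≤ β₀ y / M.dq T G y := fun y => div_nonneg (hβ0 y) (d0 y).le
  obtain ⟨ρ, hρs, hρ0, hρ1, hρv, -⟩ := HS.st_RHO HS21.st_RESV mTR mLAP mMU mGRN n M G _ hn hG hβ
    hβ0' hβ1'
  have iG : ∀ f : M.X → ℝ, M.Sm f → Integrable f (M.mu G) := fun f hf =>
    RB51.itg hg hf.continuous
  have iT : ∀ f : M.X → ℝ, M.Sm f → Integrable f (M.mu T) := fun f hf =>
    RB51.itg hm hf.continuous
  refine ⟨ρ, hρs, hρ0, hρ1, fun u A hu hA hgr => ?_, fun u τ hu hu0 hτ => ?_⟩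
  · have sl : M.Sm (M.lap G u) := ((mLAP n M u u hu hu).2.2 G hg).1
    have g3 : ∫ x, ρ x * M.tr G (G + M.hs u) x ∂M.mu G = n + ∫ x, ρ x * M.lap G u x ∂M.mu G := by
      simp only [Mf.tr_add, hg.tr_self, mul_add]
      have := integral_add (iG _ (hρs.mul (sm_const (n : ℝ)))) (iG _ (hρs.mul sl))
      rw [integral_mul_const, hρ1, one_mul] at this
      exact this
    rw [hρv u hu, add_right_inj] at g3
    have g4 : ∫ x, ρ x * (u x - M.lap G u x) ∂M.mu G = ∫ x, β₀ x * u x ∂M.mu T := by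
      simp only [mul_sub] at g3 ⊢
      rw [integral_sub (iG _ (hu.mul hρs)) (iG _ (hu.mul hβ))] at g3
      rw [integral_sub (iG _ (hρs.mul hu)) (iG _ (hρs.mul sl)), ← g3, ← hch]
      simp only [mul_comm (u _)]
      ring
    have h := integral_mono ((iT _ hβs).mul_const (u x₀ - C₄ * A * r)) (iT _ (hβs.mul hu))
      fun y => by
        beta_reduce
        by_cases hy : β₀ y = 0
        · rw [hy, zero_mul, zero_mul]
        · exact mul_le_mul_of_nonneg_left (by linarith [(abs_le.1 (hβl u A hu hA hgr y hy)).1])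
            (hβ0 y)
    rw [integral_mul_const, hβ1, one_mul] at h
    have h2 : 0 ≤ (n + 2 + 2 / V) * A * r := by positivity
    rw [g4]
    linarith
  · have r0 : ∀ x, 0 < (ρ x * V + 1) / 2 := fun x => by have := hρ0 x; positivity
    have s0 : M.Sm fun x => (ρ x * V + 1) / 2 :=
      ((hρs.mul (sm_const V)).add (sm_const 1)).div (sm_const 2) fun _ => two_ne_zero
    have sF : M.Sm fun x => Real.log ((ρ x * V + 1) / 2) := s0.log fun x => (r0 x).ne'
    have k := RB51.amg HS21.st_AUBIN hn hG sF (a := n + (o + o + C₄ * (1 - Real.log r))) (by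
      simp only [fun x => Real.exp_log (r0 x)]
      rw [integral_div, integral_add ((iG _ hρs).mul_const V) (integrable_const _),
        integral_mul_const, hρ1, integral_const, hVG, smul_eq_mul]
      ring) hρs hρ0 fun w hw hk => by
      have su : M.Sm fun y => v y - v x₀ := hv.sub (sm_const _)
      have hψ := su.add hw
      obtain ⟨y₀, hy₀⟩ := hψ.exists_max
      have hψ0 : M.Sm fun y => v y - v x₀ + w y - (v y₀ - v x₀ + w y₀) := hψ.sub (sm_const _)
      have hle : M.Le 0 ((1 : ℝ) • T + M.hs fun y => v y - v x₀ + w y - (v y₀ - v x₀ + w y₀)) := by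
        intro e he z hz
        have e1 := ((mLAP n M _ _ hψ (sm_const (v y₀ - v x₀ + w y₀))).1 (v y₀ - v x₀ + w y₀)
          e he z hz)
        have e2 := ((mLAP n M _ _ su hw).1 0 e he z hz).2.1
        have e4 := ((mLAP n M _ _ hv (sm_const (v x₀))).1 (v x₀) e he z hz)
        have e3 := (hk.pos e he z hz).posSemidef
        simp only [Pi.add_apply, Pi.smul_apply, Pi.zero_apply, sub_zero, one_smul]
        rw [e1.2.2.1, e1.1, e2, e4.2.2.1, e4.1, sub_zero, sub_zero, ← add_assoc]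
        simpa only [← hGe, Pi.add_apply] using e3
      have hm' : ∀ y, v y - v x₀ + w y - (v y₀ - v x₀ + w y₀) ≤ 0 := fun y => sub_nonpos.2 (hy₀ y)
      have h1 := hβp _ hψ0 hle hm' ⟨y₀, sub_self _⟩
      rw [← hch] at h1
      have h2 := HS.SMALL.pair (a := o) (b := o) hρ0 hβ0' (iG _ hρs) (iG _ hβ)
        (iG _ (hw.mul (hρs.sub hβ))) (iG _ (hβ.mul hψ0)) hρ1 hβ1' hm'
        (fun y => by linarith [ho x₀ y]) (fun y => ho y x₀) h1
      rw [hρv w hw]
      linarith
    have ss : M.Sm fun x => Real.exp (Real.log ((ρ x * V + 1) / 2) / n) :=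
      (sF.div (sm_const _) fun _ => by linarith).exp
    have i1 := (iG _ (hρs.mul ss)).const_mul τ
    have i2 := (RB51.itg hg (hu.fun_pow (n + 1))).const_mul (τ⁻¹ ^ n * (2 / V))
    have b := integral_mono (RB51.itg hg (hρs.continuous.mul hu)) (i1.add i2) fun x =>
      T88.split n (hρ0 x) (hu0 x) (Real.exp_pos _).le hτ hV (by
        rw [← Real.exp_nat_mul, mul_div_cancel₀ _ (by linarith), Real.exp_log (r0 x)])
    simp only [Pi.add_apply, Pi.mul_apply, Pi.pow_apply] at b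
    rw [integral_add i1 i2, integral_const_mul, integral_const_mul] at b
    have c0 : 0 ≤ ∫ x, ρ x * Real.exp (Real.log ((ρ x * V + 1) / 2) / n) ∂M.mu G :=
      integral_nonneg fun x => mul_nonneg (hρ0 x) (Real.exp_pos _).le
    have c1 : 0 ≤ ∫ x, u x ^ (n + 1) ∂M.mu G := integral_nonneg fun x => pow_nonneg (hu0 x) _
    have c2 : ∫ x, ρ x * Real.exp (Real.log ((ρ x * V + 1) / 2) / n) ∂M.mu G
        ≤ (n + 2 + C₄ + 2 / V) * (1 - Real.log r + o) := by
      have := mul_le_mul_of_nonneg_right hn' c0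
      have p1 : 0 ≤ (n + 2 + 2 / V) * -Real.log r := by positivity
      have p2 : 0 ≤ (n + C₄ + 2 / V) * o := by positivity
      linarith
    have c3 := mul_le_mul_of_nonneg_left c2 hτ.le
    have c4 : 0 ≤ τ⁻¹ ^ n * (n + 2 + C₄) * ∫ x, u x ^ (n + 1) ∂M.mu G := by positivity
    linarith

end Pool.Agent.Lib.KP
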