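import Pool.Agent.Lib.KP.Blue
import Pool.Agent.Lib.KP.Kit
import Pool.Agent.Lib.GH.B_GPRD
import Pool.Agent.Lib.HS21.All

/-! Project kp71, row UTP: the potential of the twisted metric is constant along the flat
directions. -/

open scoped Classical Topology ContDiff ComplexOrder Matrix
open Set MeasureTheory Complex Metric Filter

noncomputable section

namespace Pool.Agent.Lib.KP.T23

open Pool.Agent.Lib.SV (E)
open Pool.Agent.Lib.HS32 Pool.Agent.Lib.HS32.Mf Pool.Agent.Lib.HS.UT Pool.Agent.GH85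
open Pool.Agent.Lib

variable {n : ℕ}

/-- The linearized equation with a variable reference form. -/
theorem utp_lin {U : Set (E n)} {z : E n} (hU : IsOpen U) {H G A : E n → Mat n} {u : E n → ℝ}
    {i : Fin n} (hH : ∀ w ∈ U, SmM H w ∧ (H w).PosDef ∧ dM i H w = 0)
    (hu : ∀ w ∈ U, ContDiffAt ℝ ∞ u w) (hG : ∀ w ∈ U, SmM G w ∧ (G w).PosDef)
    (sA : SmM A z) (hA : dM i A z = 0)
    (he : ∀ w ∈ U, G w = A w + hess (fun w => (u w : ℂ)) w)
    (hd : ∀ w ∈ U, (G w).det.re = Real.exp (u w) * (H w).det.re) (hz : z ∈ U) :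
    ((G z)⁻¹ * hess (dz i fun w => (u w : ℂ)) z).trace = dz i (fun w => (u w : ℂ)) z := by
  have cH := fun w (hw : w ∈ U) => dz_ld hU hH hw
  have cG := (mCOF n G z (hG z hz).1).2.2.2.2.2
    (mem_of_superset (hU.mem_nhds hz) fun v hv => (hG v hv).2)
  have huc : ∀ w ∈ U, ContDiffAt ℝ ∞ (fun w => (u w : ℂ)) w := fun w hw => cd_ofReal (hu w hw)
  have e1 : ld G =ᶠ[𝓝 z] fun w => (u w : ℂ) + ld H w := by
    filter_upwards [hU.mem_nhds hz] with w hw
    have hp : 0 < (H w).det.re := (Complex.pos_iff.1 (hH w hw).2.1.det_pos).1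
    rw [ld, ld, hd w hw, Real.log_mul (Real.exp_pos _).ne' hp.ne', Real.log_exp]
    simp
  have e2 : dM i G z = hess (dz i fun w => (u w : ℂ)) z := by
    rw [dM_congr (T := fun w => A w + hess (fun w => (u w : ℂ)) w)
        (mem_of_superset (hU.mem_nhds hz) he),
      dM_add sA (smM_hess (huc z hz)), hA, dM_hess hU huc hz, zero_add]
  rw [← e2, ← gam, ← cG.2.2 i, dz_congr e1, dz_add (cd_diff (huc z hz)) (cd_diff (cH z hz).1),
    (cH z hz).2, add_zero]

/-- A closed form that kills the projection does not depend on the flat coordinates. -/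
theorem utp_dM {U : Set (E n)} {z : E n} (hU : IsOpen U) {S : E n → Mat n} {k : ℕ}
    (h0 : ∀ w ∈ U, S w * pr k = 0) (hz : z ∈ U) (hc : ClM S z) {i : Fin n} (hi : i.val < k) :
    dM i S z = 0 := by
  ext a b
  rw [hc a b i]
  have : dM b S z a i = dz b (fun _ => (0 : ℂ)) z := by
    refine dz_congr (mem_of_superset (hU.mem_nhds hz) fun w hw => ?_)
    have := congrFun (congrFun (h0 w hw) a) i
    simpa [pr, Matrix.mul_diagonal, hi] using this
  rw [this, dz_const]
  rfl

variable {M : Mf n} {h P G : M.Fam (Mat n)} {k : ℕ}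

/-- The maximum principle for the horizontal gradient. -/
theorem utp_max [M.Cpt] (hM : M.Met h) (hP : M.End P) (hA : M.PA h P k) {u : M.X → ℝ}
    (hu : M.Sm u) (hG : M.Met G)
    (hl : ∀ e, M.Prod h P k e → ∀ z ∈ e.target, ∀ i : Fin n, i.val < k →
      ((G e z)⁻¹ * hess (dz i (M.lc u e)) z).trace = dz i (M.lc u e) z) :
    ∀ e, M.Prod h P k e → ∀ z ∈ e.target, ∀ i : Fin n, i.val < k → dz i (M.lc u e) z = 0 := by
  have hd := ((mHES n M).2.1 u u hu hu).1
  have hT : M.Ten (h * P) := (mINV n M h hM).2.2.2.2.2.1 P hP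
  obtain ⟨hr, hw, -⟩ := (mINV n M h hM).2.2.1 _ _ hT hd
  set w := M.ip h (h * P) (M.ds u u)
  have huc : ∀ e ∈ M.C, ∀ z ∈ e.target, ContDiffAt ℝ ∞ (M.lc u e) z := fun e he z hz =>
    cd_ofReal (hu e he z hz)
  have key : ∀ e, M.Prod h P k e → ∀ z ∈ e.target,
      (w (e.symm z) : ℂ) = ∑ i : Fin n with i.val < k,
        dz i (M.lc u e) z * star (dz i (M.lc u e) z) ∧
      w (e.symm z) = ∑ i : Fin n with i.val < k, normSq (dz i (M.lc u e) z) := by
    intro e he z hz
    have h2 : w (e.symm z) = ∑ i : Fin n with i.val < k, normSq (dz i (M.lc u e) z) := by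
      rw [hr e he.mem z hz]
      simp only [Pi.mul_apply, he.prj z hz]
      rw [tr_pr (hM.pos e he.mem z hz) (he.blk z hz), re_sum]
      refine Finset.sum_congr rfl fun i _ => ?_
      have := star_dz_ofReal (j := i) (cd_diff (huc e he.mem z hz))
      show (dzb i (M.lc u e) z * dz i (M.lc u e) z).re = _
      rw [show dzb i (M.lc u e) z = star (dz i (M.lc u e) z) from this.symm, mul_comm,
        Complex.star_def, Complex.mul_conj]
      simp
    refine ⟨?_, h2⟩
    rw [h2, ofReal_sum]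
    exact Finset.sum_congr rfl fun i _ => by rw [Complex.star_def, Complex.mul_conj]
  obtain ⟨x₀, hx₀⟩ := hw.exists_max
  have h0 : w x₀ ≤ 0 := by
    obtain ⟨e, he, hx⟩ := hA x₀
    have hz := e.map_source hx
    have hmax : IsLocalMax (w ∘ e.symm) (e x₀) := Eventually.of_forall fun y => by
      simpa [e.left_inv hx] using hx₀ (e.symm y)
    have h1 := HS76.tr_nonneg (hG.pos e he.mem _ hz)
      (mMAXE n _ _ (hw e he.mem _ hz) hmax).1
    have h2 : ∀ i : Fin n, i.val < k → _ := fun i hi => one (hG.pos e he.mem _ hz)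
      (cd_dz (huc e he.mem _ hz) i) (hl e he _ hz i hi)
    simp only [Function.comp_apply] at h1
    rw [hess_congr (g := fun z => ∑ i : Fin n with i.val < k,
        dz i (M.lc u e) z * star (dz i (M.lc u e) z))
        (mem_of_superset (e.open_target.mem_nhds hz) fun z hz => (key e he z hz).1),
      hess_sum fun i _ => (cd_dz (huc e he.mem _ hz) i).mul (cd_star (cd_dz (huc e he.mem _ hz) i)),
      Matrix.mul_neg, Matrix.trace_neg, neg_re, Matrix.mul_sum, Matrix.trace_sum, re_sum] at h1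
    have h3 := Finset.sum_le_sum (s := Finset.univ.filter fun i : Fin n => i.val < k)
      fun i hi => h2 i (Finset.mem_filter.1 hi).2
    have h4 := (key e he _ hz).2
    rw [e.left_inv hx] at h4
    rw [← Finset.mul_sum, ← h4] at h3
    linarith
  intro e he z hz i hi
  have h1 : w (e.symm z) ≤ 0 := (hx₀ _).trans h0
  rw [(key e he z hz).2] at h1
  exact normSq_eq_zero.1 (le_antisymm ((Finset.single_le_sum
    (f := fun i => normSq (dz i (M.lc u e) z)) (fun _ _ => normSq_nonneg _)
    (Finset.mem_filter.2 ⟨Finset.mem_univ i, hi⟩)).trans h1) (normSq_nonneg _))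

/-- The Hessian of the potential kills the projection. -/
theorem utp_kill [M.Cpt] (hM : M.Met h) (hP : M.End P) (hA : M.PA h P k) {u : M.X → ℝ}
    (hu : M.Sm u) (hG : M.Met G) {S : M.Fam (Mat n)} (hS : M.Clo S)
    (h0 : M.All fun e z => S e z * P e z = 0)
    (he : M.All fun e z => G e z = h e z * P e z + S e z + M.hs u e z)
    (hd : ∀ x, M.dq h G x = Real.exp (u x)) : M.All fun e z => M.hs u e z * P e z = 0 :=
  kill ((mHES n M).1 u hu).toTen hP hA fun e a _ hz => hess_pr e.open_target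
    (utp_max hM hP hA hu hG (fun e a z hz i hi => by
      have s := hS.sm e a.mem z hz
      refine utp_lin (A := fun w => pr k + S e w) (u := u ∘ e.symm) (H := h e) e.open_target
        (fun z hz => ⟨hM.sm e a.mem z hz, hM.pos e a.mem z hz, a.cst z hz i hi⟩)
        (hu e a.mem) (fun z hz => ⟨hG.sm e a.mem z hz, hG.pos e a.mem z hz⟩)
        ((smM_const _).add s) ?_ (fun z hz => ?_) (fun z hz => ?_) hz
      · rw [dM_add (smM_const _) s, dM_const, zero_add]
        exact utp_dM e.open_target (fun w hw => a.prj w hw ▸ h0 e a.mem w hw) hz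
          (hS.cl e a.mem z hz) hi
      · rw [he e a.mem z hz, a.prj z hz, a.blk z hz]
        rfl
      · rw [(((mINV n M h hM).2.1 _ hG.toForm) e a.mem z hz).2.2, hd]
        rfl) e a) hz

end Pool.Agent.Lib.KP.T23

namespace Pool.Agent.Lib.KP

open Pool.Agent.Lib.SV (E)
open Pool.Agent.Lib.HS32 Pool.Agent.Lib.HS32.Mf

theorem st_UTP : St_UTP := by
  intro n M _ H P B k w hn hH hF hA hB hBP hRP hw hT
  have l := ((mHES n M).2.2.2.2.2.2.2.2.2 _ H hT.toMet hH.toMet).1
  obtain ⟨v', s, hG, hd⟩ := HS21.st_AUBIN n M _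
    (fun x => w x - Real.log (M.dq H (M.gB H (H * P + B) 0 w) x)) 1 hn hT (hw.sub l) one_pos
  have sv : M.Sm fun x => w x + v' x := hw.add s
  have i := (mINV n M H hH.toMet).2.2.2.2.2.2.2 _ hT.toMet
  have hd' : ∀ x, M.dq H (M.gB H (H * P + B) 0 w + M.hs v') x = Real.exp (w x + v' x) := fun x => by
    rw [i.2.2.1 _ hG.toForm x, hd x, one_mul, Real.exp_add, Real.exp_sub, Real.exp_log (i.1 x),
      Real.exp_add]
    field_simp [(i.1 x).ne']
  have cS : M.Clo (B - M.ric H) := hB.sub ((mHES n M).2.2.2.2.2.2.2.2.1 H hH.toMet)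
  have kS : M.All fun e z => (B - M.ric H) e z * P e z = 0 := fun e he z hz => by
    simp only [Pi.sub_apply]
    rw [Matrix.sub_mul, hBP e he z hz, hRP e he z hz, sub_zero]
  have he : M.All fun e z => (M.gB H (H * P + B) 0 w + M.hs v') e z =
      H e z * P e z + (B - M.ric H) e z + M.hs (fun x => w x + v' x) e z := fun e he z hz => by
    beta_reduce
    rw [((mLAP n M _ _ hw s).1 0 e he z hz).2.1]
    simp only [gB, Pi.add_apply, Pi.sub_apply, Pi.mul_apply, zero_smul, Pi.zero_apply]
    abel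
  have k1 := T23.utp_kill hH.toMet hF.en hA sv hG.toMet cS kS he hd'
  refine ⟨_, sv, hH.toMet, hF.en, hF.idem, hF.herm, (cS.add ((mHES n M).1 _ sv)).toForm,
    fun e a z hz => ?_, fun e a z hz => ?_⟩
  · have := kS e a z hz
    simp only [Pi.add_apply] at this ⊢
    rw [Matrix.add_mul, this, k1 e a z hz, add_zero]
  · have := hG.pos e a z hz
    beta_reduce at this
    rw [he e a z hz] at this
    simp only [Pi.add_apply]
    rwa [add_comm, ← add_assoc]

end Pool.Agent.Lib.KP
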