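import Pool.Agent.Lib.KP.Blue

/-! Project kp71: the two rows on the constant projection, with the covariance hypothesis. -/

open scoped Classical Topology ContDiff ComplexOrder Matrix ENNReal Manifold
open Set MeasureTheory Complex Metric Filter

noncomputable section

namespace Pool.Agent.Lib.KP

open Pool.Agent.Lib.SV (E)
open Pool.Agent.Lib.HS32 Pool.Agent.Lib.HS32.Mf

/-- The second projection is constant in the developing charts. -/
def St_WCE : Prop := ∀ (n : ℕ) (M : Mf n) (H P θ P' : M.Fam (Mat n)) (k k' : ℕ) (a r : ℝ)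
  (Ψ : E n → M.X), M.Met H → M.End P → M.Spl H P k θ P' k' a →
  M.DvC (pr k) Ψ r (M.Prod H P k) →
  ∃ p : Mat n, p * p = p ∧ pᴴ = p ∧ pr k * p = p ∧ p * pr k = p ∧
    ∀ z, ‖z - pr k *ᵥ z‖ ≤ 3 * r →
      ∃ e, M.IvC Ψ e ∧ z ∈ e.target ∧ M.Prod H P k e ∧ M.CsC P' p e

/-- The developing map of the second projection. -/
def St_DSE : Prop := ∀ (n : ℕ) (M : Mf n) [M.Cpt] (H P P' : M.Fam (Mat n)) (k k' : ℕ) (a r : ℝ)
  (L : M.Co) (f : M.Fam ℂ) (φ : M.Fam ℝ) (Ψ : E n → M.X), M.Met H → M.End P → M.Dw L f φ →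
  M.Spl H P k (M.hw φ) P' k' a → M.DvC (pr k) Ψ r (M.Prod H P k) →
  (M.All fun e z => ∀ l, ∑ j, dz j (M.lc (M.nrC φ f) e) z * P' e z j l = 0) →
  ∃ p, M.DvC p Ψ r (M.CsC P' p)

end Pool.Agent.Lib.KP
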