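import Pool.Agent.Lib.KP.Blue2
import Pool.Agent.Lib.KP.Kit

/-! Project kp71: from the rows to the theorem. -/

open scoped Classical Topology ContDiff ComplexOrder Matrix ENNReal Manifold
open Set MeasureTheory Complex Metric Filter

noncomputable section

namespace Pool.Agent.Lib.KP

open Pool.Agent.Lib.SV (E)
open Pool.Agent.Lib.HS32 Pool.Agent.Lib.HS32.Mf
open Pool.Agent.Lib.GH (Kaehler Hermitian)
open Pool.Agent.Lib.TB (TemperedNonpos)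

theorem main_of (hBRG : St_BRG) (hTAIL : St_TAIL) (hWT : St_WT) (hKLI : St_KLI) (hPOI : St_POI)
    (hPAR1 : St_PAR1) (hPAR2 : St_PAR2) (hETA1 : St_ETA1) (hETA2 : St_ETA2) (hDSF : St_DSF)
    (hKAP : St_KAP) (hPSI : St_PSI) (hNEF : St_NEF) (hKCL : St_KCL) (hPROD : HS.St_PROD)
    (hUTP : St_UTP) (hBLK : St_BLK) (hDEV : St_DEV) (hDSC : St_DSE) (hPKD : St_PKD)
    (hPEAK1 : St_PEAK1)
    (n : ℕ) (X ι : Type) [TopologicalSpace X] [ChartedSpace (E n) X] [IsManifold 𝓘(ℂ, E n) ω X]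
    [CompactSpace X] [T2Space X] [ConnectedSpace X] (g h : X → Mat n) (m : ℕ) (U : ι → Set X)
    (f : ι → X → ℂ) (hg : Kaehler g) (hh : Hermitian h) (hc : TemperedNonpos h) (hm : 0 < m)
    (hf : Klt n m U f) :
    ∃ r : ℕ, 0 < r ∧ ∀ i, ∀ x ∈ U i, ∃ s, PairSec n (m * r) r U f s ∧ s i x ≠ 0 := by
  obtain ⟨M, hM, H₀, h', L, f', c, k0, m0, t0, hs, h1, hl, hS⟩ :=
    hBRG n X ι g h m U f hg hh hc hm hf
  refine hS ?_
  obtain ⟨φ₀, w0⟩ := hWT n M L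
  have mp : (0 : ℝ) < m := Nat.cast_pos.2 hm
  have s0 : (0 : ℝ) < 1 / m := one_div_pos.2 mp
  have c0 : 0 < c := s0.trans h1
  rcases Nat.eq_zero_or_pos n with rfl | hn
  · refine ⟨1, one_pos, fun x => ⟨f', ⟨⟨hs.sm, fun e he e' he' y hy hy' => ?_⟩, hs.hol⟩, ?_⟩⟩
    · simpa [Co.pw, Co.tw] using hs.cmp e he e' he' y hy hy'
    · obtain ⟨y, y1, y2⟩ := (hKLI 0 M H₀ L f' φ₀ c k0.toMet hs w0 c0 hl).1.exists_mem_open
        (M.ch x).open_source ⟨x, mem_ch x⟩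
      rw [← (M.ch x).injOn y2 (mem_ch x) (Subsingleton.elim _ _)]
      exact nrC_ne.1 y1
  obtain ⟨hy, H, P, k, G, hK⟩ := hTAIL n M H₀ h' hn k0 m0 t0
  have kH := hK.kH
  obtain ⟨w, a, sw, hw⟩ := hPOI n M H (M.tr H (M.hw φ₀)) hn kH
    ((mINV n M H kH.toMet).1 _ w0.clo.toTen).2.1
  obtain ⟨wφ, eφ⟩ := w0.addF sw
  have tr1 : ∀ x, M.tr H (M.hw (φ₀ + fun e z => w (e.symm z))) x = a := fun x => by
    rw [tr_congr (G' := H) (T' := M.hw φ₀ + M.hs w) (fun _ _ _ _ => rfl) eφ, tr_add]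
    have := hw x
    rw [Mf.lap] at this
    linarith
  clear eφ
  generalize (φ₀ + fun e z => w (e.symm z)) = φ at wφ tr1
  obtain ⟨den, hint⟩ := hKLI n M H L f' φ c kH.toMet hs wφ c0 hl
  have D : M.Dw L f' φ := ⟨hs, wφ, den⟩
  have cθ := wφ.clo
  obtain ⟨c', p1⟩ := hPAR1 n M H P k L φ a kH hK.flat hK.atl wφ tr1
  obtain ⟨e1, e2⟩ := hETA1 n M H P k L f' φ kH hK.flat hK.atl D
    (hPAR2 n M H P k L φ c' kH hK.flat hK.atl wφ p1)
  obtain ⟨P', k', a', sp⟩ := hETA2 n M H P _ k kH hK.flat cθ.toForm e1 e2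
  obtain ⟨d1, d2⟩ := hDSF n M H P' k' L f' φ kH sp.flat D sp.tr0
  obtain ⟨s₀, s1, hk⟩ := hKAP n M H P _ P' k k' a' kH.toMet hK.flat cθ.toForm sp d1
  obtain ⟨V, -⟩ := (mCOV n M).2.2.1
  obtain ⟨ψ, χ, C, b, ap⟩ := hPSI n M H V L f' φ ((1 / m + c) / 2) c kH.toMet hs wφ
    (by positivity) (by linarith) hint
  obtain ⟨w1, sw1, k1⟩ := hKCL n M H P' _ k' (min s₀ (1 / m / 2)) (1 / m) ((1 / m + c) / 2) kH
    sp.flat cθ ((min_le_right _ _).trans_lt (half_lt_self s0)) (by linarith)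
    (fun e he z hz => by
      have := hk (min s₀ (1 / m / 2)) ⟨lt_min s1 (half_pos s0), min_le_left _ _⟩ e he z hz
      beta_reduce at this ⊢
      rwa [hK.ke e he z hz, show H e z * P' e z - (H e z * P e z - H e z) =
        H e z - H e z * P e z + H e z * P' e z by abel])
    (hNEF n M H h' _ V ψ χ C b hn kH m0 hy (cθ.smul _) ap)
  have r0 : M.All fun e z => M.ric H e z * P' e z = 0 := fun e he z hz => by
    beta_reduce
    rw [hK.ke e he z hz, sub_mul, mul_assoc, (sp.sub e he z hz).1, sub_self]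
  obtain ⟨v, sv, dg⟩ := hUTP n M H P' _ k' w1 hn kH sp.flat (hPROD n M H P' k' kH sp.flat)
    (cθ.smul _) (fun e he z hz => by
      simp only [Pi.smul_apply]
      rw [Matrix.smul_mul, d1 e he z hz, smul_zero]) r0 sw1 k1
  obtain ⟨w2, e3⟩ := wφ.tw kH.toMet m
  obtain ⟨wΦ, e4⟩ := w2.addF (sv.const_mul (m : ℝ))
  have dΦ := (hBLK n M H P' _ dg).2.2 _ m (Nat.one_le_cast.2 hm) fun e he z hz => by
    refine (e4 e he z hz).trans ?_
    rw [e3 e he z hz, ((mLAP n M v v sv sv).1 m e he z hz).2.2.2.1]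
    simp only [Pi.add_apply, Pi.sub_apply, Pi.smul_apply, smul_add, smul_sub, smul_smul,
      mul_one_div_cancel mp.ne', one_smul]
  obtain ⟨b1, b2, -⟩ := hBLK n M H P' _ dΦ
  obtain ⟨C', -, b3⟩ := b2 (-M.ric H) ((mHES n M).2.2.2.2.2.2.2.2.1 H kH.toMet).toForm.neg
    fun e he z hz => by
      simp only [Pi.neg_apply]
      rw [neg_mul, r0 e he z hz, neg_zero]
  refine wΦ.semi fun x₀ => ?_
  obtain ⟨Ψ, r, rfl, dv⟩ := hDEV n M H P G k _ hK.toPos x₀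
  obtain ⟨p, dv'⟩ := hDSC n M H P P' k k' a' r L f' φ Ψ kH.toMet hK.flat.en D sp dv d2
  exact hPEAK1 n M H _ _ C' _ kH wΦ b1 b3 (hPKD n M H P' L f' φ _ m p Ψ r D wΦ dΦ dv' d2)

end Pool.Agent.Lib.KP
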